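import Pool.Agent.Pat6.Defs
import Pool.Agent.Pat5.Kc

/-!
# Pat6: algebraic closures in the complex numbers

PROOFS. `AC_acl`, `subset_AC`, `alg_mem_AC`: see `Pool/Agent/Pat5/Kc.lean` for `Kc`. `AC_le`: the
field `K` contains `ℚ(W)` and is algebraically closed in `ℂ`. `exchange`: if `y ∉ AC {x}` then
`x, y` are algebraically independent over `ℚ` (`ai_sum` with `K = AC {x}`), so `x` is transcendental
over `ℚ(y)` and over `AC {y}`.
-/

set_option autoImplicit false

namespace Pool.Agent.Pat6

open Complex Pool.Agent.Pat5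

/-- The algebraic closure in `ℂ` of the field generated by `W`. -/
noncomputable def AC (W : Set ℂ) : IntermediateField ℚ ℂ :=
  (algebraicClosure (IntermediateField.adjoin ℚ W) ℂ).restrictScalars ℚ

private theorem AC_mem {W : Set ℂ} {x : ℂ} :
    x ∈ AC W ↔ IsAlgebraic (IntermediateField.adjoin ℚ W) x := by
  rw [AC, IntermediateField.mem_restrictScalars, mem_algebraicClosure_iff]

theorem AC_acl (W : Set ℂ) : Acl (AC W) := by
  intro x h
  rw [AC_mem]
  have h' : IsAlgebraic (algebraicClosure (IntermediateField.adjoin ℚ W) ℂ) x := h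
  exact h'.restrictScalars _

theorem subset_AC (W : Set ℂ) : W ⊆ AC W := by
  intro x hx
  show x ∈ AC W
  rw [AC_mem]
  exact isAlgebraic_algebraMap (⟨x, IntermediateField.subset_adjoin _ _ hx⟩ :
    IntermediateField.adjoin ℚ W)

theorem alg_mem_AC (W : Set ℂ) {x : ℂ} (hx : IsAlgebraic ℚ x) : x ∈ AC W := by
  rw [AC_mem]
  exact hx.tower_top _

theorem AC_le {W : Set ℂ} {K : IntermediateField ℚ ℂ} (hK : Acl K) (h : W ⊆ K) : AC W ≤ K := by
  intro x hx
  rw [AC_mem] at hx
  apply hK
  have h1 : IntermediateField.adjoin ℚ W ≤ K := IntermediateField.adjoin_le_iff.2 h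
  let _ : Algebra (IntermediateField.adjoin ℚ W) K := (IntermediateField.inclusion h1).toAlgebra
  have : IsScalarTower (IntermediateField.adjoin ℚ W) K ℂ :=
    IsScalarTower.of_algebraMap_eq fun _ => rfl
  exact hx.tower_top K

open scoped IntermediateField.algebraAdjoinAdjoin in
theorem exchange {x y : ℂ} (h : x ∈ AC {y}) (hx : Transcendental ℚ x) : y ∈ AC {x} := by
  by_contra hy
  have h1 : AlgebraicIndependent ℚ (fun _ : Fin 1 => x) :=
    algebraicIndependent_unique_type_iff.2 hx
  have h2 : AlgebraicIndependent (AC {x}) (fun _ : Fin 1 => y) :=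
    algebraicIndependent_unique_type_iff.2 fun h0 => hy (AC_acl {x} y h0)
  have h3 := ai_sum (AC {x}) h1 (fun _ => subset_AC {x} rfl) h2
  have h4 := (AlgebraicIndependent.sumElim_iff.1 h3).2
  have hr : (Set.range fun _ : Fin 1 => y) = {y} := Set.range_const
  rw [hr] at h4
  have halg : Algebra.IsAlgebraic (Algebra.adjoin ℚ ({y} : Set ℂ))
      (IntermediateField.adjoin ℚ ({y} : Set ℂ)) :=
    IsLocalization.isAlgebraic _ (nonZeroDivisors (Algebra.adjoin ℚ ({y} : Set ℂ)))
  have h5 : AlgebraicIndependent (IntermediateField.adjoin ℚ ({y} : Set ℂ))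
      (fun _ : Fin 1 => x) := h4.extendScalars _
  exact h5.transcendental 0 (AC_mem.1 h)

end Pool.Agent.Pat6
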