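import Pool.Agent.Pat6.StepL

/-!
# Pat6: adding prescribed arguments to a stage

PROOF. `Stage.up`: the same `G`, `H`. `add_G`: `G' = s.G ⊔ span (range fun i => (x i, log (τ i)))`,
`H' = s.H`; see the docstring of `StgG.lean` (`dom_G`), where the same construction is described:
`G_K`: `exp (log (τ i)) = τ i ∈ K'`, rational multiples by `alg_exp_rat` and `Acl K'`. `G_inj`: an
element is `a₀ + ∑ c i (x i, log τ i)`; if the first coordinate is `0` then `c = 0` as the `x i` are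
linearly independent modulo the domain; if the second one is `0` then
`exp (∑ c i * log τ i) = exp (-a₀.2) ∈ K`, so `c = 0` by `transcendental_monomial`. The good step is
`step_exp`. `add_H`: the same with the pairs `(y j, θ j)`, the numbers `exp (θ j * I)` being
algebraically independent over `K`. (`StgG.lean` and `StgH.lean` may already contain this for a
general index type: look there first and copy.)
-/

set_option autoImplicit false

namespace Pool.Agent.Pat6

open Complex Pool.Agent.Pat5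

/-- The elements of the extended graph. -/
private theorem mem_ext_AddG {G : Submodule ℚ (ℝ × ℝ)} {κ : Type} (p q : κ → ℝ) {a : ℝ × ℝ}
    (ha : a ∈ G ⊔ Submodule.span ℚ (Set.range fun k => (p k, q k))) :
    ∃ a₀ ∈ G, ∃ c : κ →₀ ℚ, a.1 = a₀.1 + (c.sum fun k r => (r : ℝ) * p k) ∧
      a.2 = a₀.2 + c.sum fun k r => (r : ℝ) * q k := by
  obtain ⟨a₀, h0, y, hy, rfl⟩ := Submodule.mem_sup.1 ha
  obtain ⟨c, rfl⟩ := Finsupp.mem_span_range_iff_exists_finsupp.1 hy
  refine ⟨a₀, h0, c, ?_, ?_⟩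
  · rw [Prod.fst_add, Finsupp.sum, Finsupp.sum, Prod.fst_sum]
    simp only [Prod.smul_fst, Rat.smul_def]
  · rw [Prod.snd_add, Finsupp.sum, Finsupp.sum, Prod.snd_sum]
    simp only [Prod.smul_snd, Rat.smul_def]

private theorem cast_sum_AddG {κ : Type} (p : κ → ℝ) (c : κ →₀ ℚ) :
    ((c.sum fun k r => (r : ℝ) * p k : ℝ) : ℂ) = c.sum fun k r => (r : ℂ) * (p k : ℂ) := by
  rw [Finsupp.sum, Finsupp.sum]
  push_cast
  rfl

private theorem comb_mem_AddG {K : IntermediateField ℚ ℂ} {κ : Type} {p : κ → ℂ} (hp : ∀ k, p k ∈ K)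
    (c : κ →₀ ℚ) : (c.sum fun k r => (r : ℂ) * p k) ∈ K :=
  sum_mem fun k _ => mul_mem (SubfieldClass.ratCast_mem K _) (hp k)

private theorem exp_comb_mem_AddG {K : IntermediateField ℚ ℂ} (hK : Acl K) {κ : Type} {p : κ → ℂ}
    (hp : ∀ k, exp (p k) ∈ K) (c : κ →₀ ℚ) : exp (c.sum fun k r => (r : ℂ) * p k) ∈ K := by
  rw [Finsupp.sum, Complex.exp_sum]
  refine prod_mem fun k _ => hK _ ?_
  exact alg_exp_rat (isAlgebraic_algebraMap (⟨exp (p k), hp k⟩ : K)) _

private theorem coords_le_AddG {K : IntermediateField ℚ ℂ} (hK : Acl K) (s : Stage K) :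
    coords s.cx ⊆ K := by
  have hI : I ∈ K := by
    refine hK I (IsAlgebraic.of_pow (n := 2) two_pos ?_)
    rw [I_sq]
    exact isAlgebraic_one.neg
  rintro u ⟨a, ha, h⟩
  have h1 := s.G_K _ ha.1
  have h2 := s.H_K _ ha.2
  rcases h with h | h
  · have h3 : u = (a.1.re : ℂ) + (a.1.im : ℂ) * I := by rw [h, re_add_im]
    change u ∈ K
    rw [h3]
    exact K.add_mem h1.1 (K.mul_mem h2.1 hI)
  · have h3 : u = exp (a.2.re : ℂ) * exp ((a.2.im : ℂ) * I) := by
      rw [h, ← Complex.exp_add, re_add_im]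
    change u ∈ K
    rw [h3]
    exact K.mul_mem h1.2 h2.2

/-- The pairs of the extended stage. -/
private theorem cx_le_AddG {G H : Submodule ℚ (ℝ × ℝ)} {κ : Type} (p q : κ → ℝ) :
    cx (G ⊔ Submodule.span ℚ (Set.range fun k => (p k, q k))) H ≤
      cx G H ⊔ Submodule.span ℚ (Set.range fun k => ((p k : ℂ), (q k : ℂ))) := by
  intro a ha
  obtain ⟨a₀, h0, c, h1, h2⟩ := mem_ext_AddG p q ha.1
  refine Submodule.mem_sup.2 ⟨((a₀.1 : ℂ) + (a.1.im : ℂ) * I, (a₀.2 : ℂ) + (a.2.im : ℂ) * I),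
    ⟨?_, ?_⟩, c.sum fun k r => r • ((p k : ℂ), (q k : ℂ)),
    Finsupp.mem_span_range_iff_exists_finsupp.2 ⟨c, rfl⟩, ?_⟩
  · simpa using h0
  · simpa using ha.2
  · have h1' : (a.1.re : ℂ) = a₀.1 + c.sum fun k r => (r : ℂ) * (p k : ℂ) := by
      rw [← cast_sum_AddG, ← ofReal_add, ← h1]
    have h2' : (a.2.re : ℂ) = a₀.2 + c.sum fun k r => (r : ℂ) * (q k : ℂ) := by
      rw [← cast_sum_AddG, ← ofReal_add, ← h2]
    refine Prod.ext ?_ ?_
    · rw [Prod.fst_add, Finsupp.sum, Prod.fst_sum]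
      simp only [Prod.smul_fst, Rat.smul_def]
      have h3 := re_add_im a.1
      rw [Finsupp.sum] at h1'
      linear_combination h3 - h1'
    · rw [Prod.snd_add, Finsupp.sum, Prod.snd_sum]
      simp only [Prod.smul_snd, Rat.smul_def]
      have h3 := re_add_im a.2
      rw [Finsupp.sum] at h2'
      linear_combination h3 - h2'

private theorem isIntegral_I_AddG : IsIntegral ℤ I := by
  refine ⟨Polynomial.X ^ 2 + 1, ?_, ?_⟩
  · have h1 : (Polynomial.X ^ 2 + 1 : Polynomial ℤ) = Polynomial.X ^ 2 + Polynomial.C 1 := by simp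
    rw [h1]
    exact Polynomial.monic_X_pow_add_C 1 two_ne_zero
  · simp [I_sq]

private theorem I_mem_AddG {K : IntermediateField ℚ ℂ} (hK : Acl K) : I ∈ K := by
  refine hK _ ?_
  have h1 : IsIntegral ℤ I := isIntegral_I_AddG
  exact (h1.tower_top (A := ℚ)).isAlgebraic.tower_top K

/-- The pairs with coordinates in `K`. -/
private def pairs_AddG {K : IntermediateField ℚ ℂ} (hK : Acl K) : Submodule ℚ (ℝ × ℝ) where
  carrier := {a | (a.1 : ℂ) ∈ K ∧ exp ((a.2 : ℂ) * I) ∈ K}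
  add_mem' := fun {a b} ha hb => by
    refine ⟨?_, ?_⟩
    · have h1 := add_mem ha.1 hb.1
      rwa [← ofReal_add] at h1
    · have h1 := mul_mem ha.2 hb.2
      rwa [← exp_add, ← add_mul, ← ofReal_add] at h1
  zero_mem' := by
    refine ⟨?_, ?_⟩
    · change ((0 : ℝ) : ℂ) ∈ K
      rw [ofReal_zero]
      exact zero_mem K
    · change exp (((0 : ℝ) : ℂ) * I) ∈ K
      rw [ofReal_zero, zero_mul, exp_zero]
      exact one_mem K
  smul_mem' := fun c x hx => by
    refine ⟨?_, ?_⟩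
    · change (((c • x.1 : ℝ)) : ℂ) ∈ K
      rw [Rat.smul_def, ofReal_mul, ofReal_ratCast]
      exact mul_mem (SubfieldClass.ratCast_mem K c) hx.1
    · change exp (((c • x.2 : ℝ) : ℂ) * I) ∈ K
      rw [Rat.smul_def, ofReal_mul, ofReal_ratCast, mul_assoc]
      exact hK _ (alg_exp_rat (isAlgebraic_algebraMap (⟨_, hx.2⟩ : K)) c)

private theorem coords_AddG {K : IntermediateField ℚ ℂ} (hK : Acl K) (s : Stage K) :
    coords s.cx ⊆ K := by
  rintro z ⟨a, ha, rfl | rfl⟩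
  · have h1 := s.G_K _ ha.1
    have h2 := s.H_K _ ha.2
    rw [← re_add_im a.1]
    exact add_mem h1.1 (mul_mem h2.1 (I_mem_AddG hK))
  · have h1 := s.G_K _ ha.1
    have h2 := s.H_K _ ha.2
    rw [← re_add_im a.2, exp_add]
    exact mul_mem h1.2 h2.2

private theorem im_AddG {κ : Type} (g : κ → ℝ × ℝ) (c : κ →₀ ℚ) :
    Finsupp.linearCombination ℚ
      (fun k => (((g k).1 : ℂ) * I, ((g k).2 : ℂ) * I)) c =
      (((Finsupp.linearCombination ℚ g c).1 : ℂ) * I,
        ((Finsupp.linearCombination ℚ g c).2 : ℂ) * I) := by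
  rw [Finsupp.linearCombination_apply, Finsupp.linearCombination_apply, Finsupp.sum, Finsupp.sum]
  ext1
  · rw [Prod.fst_sum, Prod.fst_sum, ofReal_sum, Finset.sum_mul]
    refine Finset.sum_congr rfl fun k _ => ?_
    rw [Prod.smul_fst, Prod.smul_fst, Rat.smul_def, Rat.smul_def, ofReal_mul, ofReal_ratCast,
      mul_assoc]
  · rw [Prod.snd_sum, Prod.snd_sum, ofReal_sum, Finset.sum_mul]
    refine Finset.sum_congr rfl fun k _ => ?_
    rw [Prod.smul_snd, Prod.smul_snd, Rat.smul_def, Rat.smul_def, ofReal_mul, ofReal_ratCast,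
      mul_assoc]

private theorem sub_mem_AddG {G H : Submodule ℚ (ℝ × ℝ)} {a : ℂ × ℂ} {w : ℝ × ℝ}
    (h1 : (a.1.re, a.2.re) ∈ G) (h2 : (a.1.im - w.1, a.2.im - w.2) ∈ H) :
    a - ((w.1 : ℂ) * I, (w.2 : ℂ) * I) ∈ Pat6.cx G H := by
  rw [mem_cx]
  have e1 : (a - ((w.1 : ℂ) * I, (w.2 : ℂ) * I)).1 = a.1 - (w.1 : ℂ) * I := rfl
  have e2 : (a - ((w.1 : ℂ) * I, (w.2 : ℂ) * I)).2 = a.2 - (w.2 : ℂ) * I := rfl
  rw [e1, e2]
  have e3 : ∀ (z : ℂ) (r : ℝ), (z - (r : ℂ) * I).re = z.re := by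
    intro z r
    simp
  have e4 : ∀ (z : ℂ) (r : ℝ), (z - (r : ℂ) * I).im = z.im - r := by
    intro z r
    simp
  rw [e3, e3, e4, e4]
  exact ⟨h1, h2⟩

/-- The extension of a stage by a family of pairs. -/
private theorem ext_AddG {K K' : IntermediateField ℚ ℂ} (hK : Acl K) (hK' : Acl K')
    (hKK' : K ≤ K') (s : Stage K) {κ : Type} (g : κ → ℝ × ℝ)
    (hg : ∀ k, ((g k).1 : ℂ) ∈ K' ∧ exp (((g k).2 : ℂ) * I) ∈ K')
    (h1 : ∀ a ∈ s.H, ∀ c : κ →₀ ℚ, (a + Finsupp.linearCombination ℚ g c).1 = 0 → c = 0)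
    (h2 : ∀ a ∈ s.H, ∀ c : κ →₀ ℚ, (a + Finsupp.linearCombination ℚ g c).2 = 0 → c = 0)
    (hai : AlgebraicIndependent K (fun k => ((g k).1 : ℂ) * I) ∨
      AlgebraicIndependent K (fun k => exp (((g k).2 : ℂ) * I))) :
    ∃ s' : Stage K', s'.G = s.G ∧ s.H ≤ s'.H ∧ GoodStep K s.cx s'.cx ∧ ∀ k, g k ∈ s'.H := by
  have hrep : ∀ a ∈ s.H ⊔ Submodule.span ℚ (Set.range g), ∃ a₀ ∈ s.H, ∃ c : κ →₀ ℚ,
      a = a₀ + Finsupp.linearCombination ℚ g c := by
    intro a ha
    obtain ⟨a₀, ha₀, z, hz, hz'⟩ := Submodule.mem_sup.1 ha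
    obtain ⟨c, hc⟩ := Finsupp.mem_span_range_iff_exists_finsupp.1 hz
    refine ⟨a₀, ha₀, c, ?_⟩
    rw [Finsupp.linearCombination_apply, hc, hz']
  have hle : s.H ⊔ Submodule.span ℚ (Set.range g) ≤ pairs_AddG hK' := by
    refine sup_le (fun a ha => ⟨hKK' (s.H_K a ha).1, hKK' (s.H_K a ha).2⟩) ?_
    rw [Submodule.span_le]
    rintro _ ⟨k, rfl⟩
    exact hg k
  refine ⟨⟨s.G, s.H ⊔ Submodule.span ℚ (Set.range g),
    fun a ha => ⟨hKK' (s.G_K a ha).1, hKK' (s.G_K a ha).2⟩, fun a ha => hle ha, s.G_inj, ?_⟩,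
    rfl, le_sup_left, ?_, fun k => Submodule.mem_sup_right (Submodule.subset_span ⟨k, rfl⟩)⟩
  · intro a ha
    obtain ⟨a₀, ha₀, c, rfl⟩ := hrep a ha
    constructor
    · intro h
      have hc := h1 a₀ ha₀ c h
      rw [hc, map_zero, add_zero] at h ⊢
      exact (s.H_inj a₀ ha₀).1 h
    · intro h
      have hc := h2 a₀ ha₀ c h
      rw [hc, map_zero, add_zero] at h ⊢
      exact (s.H_inj a₀ ha₀).2 h
  · have hΓ : Pat6.cx s.G (s.H ⊔ Submodule.span ℚ (Set.range g)) ≤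
        s.cx ⊔ Submodule.span ℚ
          (Set.range fun k => (((g k).1 : ℂ) * I, ((g k).2 : ℂ) * I)) := by
      intro a ha
      obtain ⟨a₀, ha₀, c, hc⟩ := hrep _ ha.2
      have h3 := im_AddG g c
      have h4 : Finsupp.linearCombination ℚ
          (fun k => (((g k).1 : ℂ) * I, ((g k).2 : ℂ) * I)) c ∈ Submodule.span ℚ
          (Set.range fun k => (((g k).1 : ℂ) * I, ((g k).2 : ℂ) * I)) := by
        rw [Finsupp.mem_span_range_iff_exists_finsupp]
        exact ⟨c, rfl⟩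
      rw [h3] at h4
      have h5 := congrArg Prod.fst hc
      have h6 := congrArg Prod.snd hc
      simp only [Prod.fst_add, Prod.snd_add] at h5 h6
      have h7 : a - (((Finsupp.linearCombination ℚ g c).1 : ℂ) * I,
          ((Finsupp.linearCombination ℚ g c).2 : ℂ) * I) ∈ s.cx := by
        refine sub_mem_AddG ha.1 ?_
        have h9 : (a.1.im - (Finsupp.linearCombination ℚ g c).1,
            a.2.im - (Finsupp.linearCombination ℚ g c).2) = a₀ := by
          rw [h5, h6, add_sub_cancel_right, add_sub_cancel_right]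
        rw [h9]
        exact ha₀
      have h11 : a - (((Finsupp.linearCombination ℚ g c).1 : ℂ) * I,
          ((Finsupp.linearCombination ℚ g c).2 : ℂ) * I) +
          (((Finsupp.linearCombination ℚ g c).1 : ℂ) * I,
            ((Finsupp.linearCombination ℚ g c).2 : ℂ) * I) ∈ s.cx ⊔ Submodule.span ℚ
          (Set.range fun k => (((g k).1 : ℂ) * I, ((g k).2 : ℂ) * I)) :=
        add_mem (Submodule.mem_sup_left h7) (Submodule.mem_sup_right h4)
      rwa [sub_add_cancel] at h11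
    rcases hai with h | h
    · exact step_arg (coords_AddG hK s)
        (fun k => (((g k).1 : ℂ) * I, ((g k).2 : ℂ) * I)) h hΓ
    · exact step_exp (coords_AddG hK s)
        (fun k => (((g k).1 : ℂ) * I, ((g k).2 : ℂ) * I)) h hΓ

private theorem fst_AddG {κ : Type} (g : κ → ℝ × ℝ) (c : κ →₀ ℚ) :
    (Finsupp.linearCombination ℚ g c).1 = Finsupp.linearCombination ℚ (fun k => (g k).1) c := by
  rw [Finsupp.linearCombination_apply, Finsupp.linearCombination_apply, Finsupp.sum, Finsupp.sum,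
    Prod.fst_sum]
  rfl

private theorem snd_AddG {κ : Type} (g : κ → ℝ × ℝ) (c : κ →₀ ℚ) :
    (Finsupp.linearCombination ℚ g c).2 = Finsupp.linearCombination ℚ (fun k => (g k).2) c := by
  rw [Finsupp.linearCombination_apply, Finsupp.linearCombination_apply, Finsupp.sum, Finsupp.sum,
    Prod.snd_sum]
  rfl

private theorem cast_AddG {κ : Type} (w : κ → ℝ) (c : κ →₀ ℚ) :
    ((Finsupp.linearCombination ℚ w c : ℝ) : ℂ) = c.sum fun k r => (r : ℂ) * (w k : ℂ) := by
  rw [Finsupp.linearCombination_apply, Finsupp.sum, Finsupp.sum, ofReal_sum]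
  refine Finset.sum_congr rfl fun k _ => ?_
  rw [Rat.smul_def, ofReal_mul, ofReal_ratCast]

/-- Independence modulo a subspace. -/
private theorem li_AddG {D : Submodule ℚ ℝ} {r : ℕ} {x : Fin r → ℝ}
    (hli : LinearIndependent ℚ (fun i => D.mkQ (x i))) (c : Fin r →₀ ℚ)
    (hc : Finsupp.linearCombination ℚ x c ∈ D) : c = 0 := by
  refine linearIndependent_iff.1 hli c ?_
  have h1 : Finsupp.linearCombination ℚ (fun i => D.mkQ (x i)) c =
      D.mkQ (Finsupp.linearCombination ℚ x c) := by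
    rw [Finsupp.linearCombination_apply, Finsupp.linearCombination_apply, Finsupp.sum,
      Finsupp.sum, map_sum]
    exact Finset.sum_congr rfl fun k _ => (map_smul _ _ _).symm
  rw [h1]
  exact (Submodule.Quotient.mk_eq_zero D).2 hc

private theorem lc_AddG {κ : Type} (x : κ → ℝ) (c : κ →₀ ℚ) :
    Finsupp.linearCombination ℚ x c = c.sum fun k q => (q : ℝ) * x k := by
  rw [Finsupp.linearCombination_apply]
  exact Finsupp.sum_congr fun k _ => Rat.smul_def _ _

theorem Stage.up {K K' : IntermediateField ℚ ℂ} (hKK' : K ≤ K') (s : Stage K) :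
    ∃ s' : Stage K', s'.G = s.G ∧ s'.H = s.H := by
  exact ⟨⟨s.G, s.H, fun a ha => ⟨hKK' (s.G_K a ha).1, hKK' (s.G_K a ha).2⟩,
    fun a ha => ⟨hKK' (s.H_K a ha).1, hKK' (s.H_K a ha).2⟩, s.G_inj, s.H_inj⟩, rfl, rfl⟩

theorem add_G {K K' : IntermediateField ℚ ℂ} (hK : Acl K) (hK' : Acl K') (hKK' : K ≤ K')
    (s : Stage K) {r : ℕ} (x τ : Fin r → ℝ) (hx : ∀ i, (x i : ℂ) ∈ K)
    (hli : LinearIndependent ℚ (fun i => (s.G.map (LinearMap.fst ℚ ℝ ℝ)).mkQ (x i)))
    (hτ : ∀ i, 0 < τ i) (hai : AlgebraicIndependent K (fun i => (τ i : ℂ)))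
    (hm : ∀ i, (τ i : ℂ) ∈ K') :
    ∃ s' : Stage K', s.G ≤ s'.G ∧ s'.H = s.H ∧ GoodStep K s.cx s'.cx ∧
      ∀ i, (x i, Real.log (τ i)) ∈ s'.G := by
  have hind : ∀ c : Fin r →₀ ℚ,
      (c.sum fun k q => (q : ℝ) * x k) ∈ s.G.map (LinearMap.fst ℚ ℝ ℝ) → c = 0 := by
    intro c hc
    rw [← lc_AddG] at hc
    exact li_AddG hli c hc
  have hexp : ∀ k, exp ((Real.log (τ k) : ℝ) : ℂ) = (τ k : ℂ) := by
    intro k
    rw [← ofReal_exp, Real.exp_log (hτ k)]
  have hai' : AlgebraicIndependent K fun k => exp ((Real.log (τ k) : ℝ) : ℂ) := by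
    have h1 : (fun k => exp ((Real.log (τ k) : ℝ) : ℂ)) = fun k => (τ k : ℂ) := funext hexp
    rw [h1]
    exact hai
  have htr : ∀ c : Fin r →₀ ℚ,
      exp (c.sum fun k q => (q : ℂ) * ((Real.log (τ k) : ℝ) : ℂ)) ∈ K → c = 0 := by
    intro c hc
    by_contra h
    exact transcendental_monomial _ hai' c h (isAlgebraic_algebraMap (⟨_, hc⟩ : K))
  refine ⟨⟨s.G ⊔ Submodule.span ℚ (Set.range fun k => (x k, Real.log (τ k))), s.H, ?_,
    fun a ha => ⟨hKK' (s.H_K a ha).1, hKK' (s.H_K a ha).2⟩, ?_, s.H_inj⟩, le_sup_left, rfl,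
    step_exp (coords_le_AddG hK s) (fun k => ((x k : ℂ), ((Real.log (τ k) : ℝ) : ℂ))) hai'
      (cx_le_AddG _ _), fun i => Submodule.mem_sup_right (Submodule.subset_span ⟨i, rfl⟩)⟩
  · intro a ha
    obtain ⟨a₀, h0, c, h1, h2⟩ := mem_ext_AddG _ _ ha
    constructor
    · rw [h1, ofReal_add, cast_sum_AddG]
      exact add_mem (hKK' (s.G_K a₀ h0).1) (comb_mem_AddG (fun k => hKK' (hx k)) c)
    · rw [h2, ofReal_add, cast_sum_AddG, Complex.exp_add]
      refine mul_mem (hKK' (s.G_K a₀ h0).2) (exp_comb_mem_AddG hK' (fun k => ?_) c)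
      rw [hexp]
      exact hm _
  · intro a ha
    obtain ⟨a₀, h0, c, h1, h2⟩ := mem_ext_AddG _ _ ha
    have key : c = 0 → (a.1 = 0 ↔ a.2 = 0) := by
      rintro rfl
      rw [Finsupp.sum_zero_index, add_zero] at h1 h2
      rw [h1, h2]
      exact s.G_inj a₀ h0
    constructor
    · intro h
      refine (key (hind c ?_)).1 h
      rw [h] at h1
      have h3 : (c.sum fun k q => (q : ℝ) * x k) = (-a₀).1 := by
        rw [Prod.fst_neg]
        linarith
      rw [h3]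
      exact ⟨-a₀, s.G.neg_mem h0, rfl⟩
    · intro h
      refine (key (htr c ?_)).2 h
      rw [h] at h2
      rw [← cast_sum_AddG]
      have h3 : (c.sum fun k q => (q : ℝ) * Real.log (τ k)) = -a₀.2 := by linarith
      rw [h3, ofReal_neg, Complex.exp_neg]
      exact inv_mem (s.G_K a₀ h0).2

theorem add_H {K K' : IntermediateField ℚ ℂ} (hK : Acl K) (hK' : Acl K') (hKK' : K ≤ K')
    (s : Stage K) {r : ℕ} (y θ : Fin r → ℝ) (hy : ∀ i, (y i : ℂ) ∈ K)
    (hli : LinearIndependent ℚ (fun i => (s.H.map (LinearMap.fst ℚ ℝ ℝ)).mkQ (y i)))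
    (hai : AlgebraicIndependent K (fun i => exp ((θ i : ℂ) * I)))
    (hm : ∀ i, exp ((θ i : ℂ) * I) ∈ K') :
    ∃ s' : Stage K', s'.G = s.G ∧ s.H ≤ s'.H ∧ GoodStep K s.cx s'.cx ∧
      ∀ i, (y i, θ i) ∈ s'.H := by
  obtain ⟨s', hG, hH, hgood, hmem'⟩ := ext_AddG hK hK' hKK' s
    (fun k => (y k, θ k)) (fun k => ⟨hKK' (hy k), hm k⟩)
    (fun a ha c h => by
      rw [Prod.fst_add, fst_AddG] at h
      refine li_AddG hli c ?_
      refine ⟨-a, neg_mem ha, ?_⟩
      change -a.1 = _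
      linarith)
    (fun a ha c h => by
      rw [Prod.snd_add, snd_AddG] at h
      by_contra hc
      refine transcendental_monomial (F := K) (fun k => (θ k : ℂ) * I) hai c hc ?_
      have h3 : (c.sum fun k q => (q : ℂ) * ((θ k : ℂ) * I)) = ((-a).2 : ℂ) * I := by
        have h4 : (-a).2 = Finsupp.linearCombination ℚ (fun k => θ k) c := by
          change -a.2 = _
          linarith
        rw [h4, cast_AddG, Finsupp.sum_mul]
        refine Finsupp.sum_congr fun k _ => ?_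
        rw [mul_assoc]
      rw [h3]
      exact isAlgebraic_algebraMap (⟨_, (s.H_K _ (neg_mem ha)).2⟩ : K)) (Or.inr hai)
  exact ⟨s', hG, hH, hgood, hmem'⟩

end Pool.Agent.Pat6
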