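import Pool.Agent.Pat6.Defs

/-!
# Pat6: the first stage

PROOF of `exists_base`. `G = baseG e v w X Y`, `H = baseH p`. An element of `G` is
`(a + ∑ b i * v i + ∑ c j * X j, a * log e + ∑ b i * w i + ∑ c j * Y j)` with rational `a`, `b i`,
`c j` (finitely supported; `ν`, `χ` are finite). `G_K`: `D.v_mem`, `D.X_mem`, `D.e_mem`,
  `D.Y_mem`,
`exp (w i)` is algebraic (`D.w_mem`, `mem_Lr`, `Qbar_le_Kc`); rational multiples by
  `exp_rat_mem_Kc`;
use `Submodule.span_induction`. `G_inj`: if the first coordinate is `0` then all coefficients are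
`0` by `D.dom` (linear independence over `Qbar`, restricted to `ℚ`). If the second one is `0` then
`a * log e + ∑ c j * Y j = - ∑ b i * w i ∈ Lr`, so its exponential is algebraic and `a = 0`, `c =
  0` by
`D.ran`; then `∑ b i * w i = 0` and `b = 0` by `D.w_li`. (See `ran_comb` and `li_ranf` in
`Pool/Agent/Pat5/Indep.lean` for the same arguments.) `H`: multiples of `(p, π)`, `p > 0`;
`exp (q π I)` is a root of unity (`exp_rat_mem_Kc` for `exp (π I) = -1`).
-/

set_option autoImplicit false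

namespace Pool.Agent.Pat6

open Complex Pool.Agent.Pat5

/-- The generators of the base graph. -/
private noncomputable def gen {ν χ : Type} (e : ℝ) (v w : ν → ℝ) (X Y : χ → ℝ) :
    Option (ν ⊕ χ) → ℝ × ℝ :=
  fun o => o.elim (1, Real.log e) (Sum.elim (fun i => (v i, w i)) (fun j => (X j, Y j)))

private theorem baseG_eq {ν χ : Type} (e : ℝ) (v w : ν → ℝ) (X Y : χ → ℝ) :
    baseG e v w X Y = Submodule.span ℚ (Set.range (gen e v w X Y)) := by
  rw [baseG]
  congr 1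
  ext a
  constructor
  · rintro ((h | ⟨i, rfl⟩) | ⟨j, rfl⟩)
    · exact ⟨none, (Set.mem_singleton_iff.1 h).symm⟩
    · exact ⟨some (Sum.inl i), rfl⟩
    · exact ⟨some (Sum.inr j), rfl⟩
  · rintro ⟨(_ | (i | j)), rfl⟩
    · exact Or.inl (Or.inl rfl)
    · exact Or.inl (Or.inr ⟨i, rfl⟩)
    · exact Or.inr ⟨j, rfl⟩

private theorem li_fst {n : ℕ} {z : Fin n → ℝ} {ν χ : Type} {e p : ℝ}
    {v w : ν → ℝ} {X Y : χ → ℝ} (D : Dat z e p v w X Y) :
    LinearIndependent ℚ (fun o => (gen e v w X Y o).1) := by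
  have h1 : LinearIndependent ℚ (fun o : Option (ν ⊕ χ) =>
      o.elim (1 : ℂ) (Sum.elim (fun i => (v i : ℂ)) (fun j => (X j : ℂ)))) := by
    refine D.dom.restrict_scalars ?_
    intro a b hab
    have h2 : a • (1 : Qbar) = b • (1 : Qbar) := hab
    rw [Algebra.smul_def, Algebra.smul_def, mul_one, mul_one] at h2
    exact (algebraMap ℚ Qbar).injective h2
  let L : ℝ →ₗ[ℚ] ℂ :=
    { toFun := fun x => (x : ℂ)
      map_add' := fun x y => ofReal_add x y
      map_smul' := fun q x => by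
        rw [Rat.smul_def, ofReal_mul, ofReal_ratCast, RingHom.id_apply, Rat.smul_def] }
  refine LinearIndependent.of_comp L ?_
  convert h1 using 1
  funext o
  rcases o with (_ | (i | j))
  · exact ofReal_one
  · rfl
  · rfl

private theorem li_snd {n : ℕ} {z : Fin n → ℝ} {ν χ : Type} {e p : ℝ}
    {v w : ν → ℝ} {X Y : χ → ℝ} (D : Dat z e p v w X Y) :
    LinearIndependent ℚ (fun o => (gen e v w X Y o).2) := by
  have hσ : LinearIndependent ℚ (Sum.elim w (fun x : Empty => x.elim)) := by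
    refine D.w_li.sum_type (linearIndependent_empty_type) ?_
    have h0 : Set.range (fun x : Empty => (x.elim : ℝ)) = ∅ := Set.range_eq_empty _
    rw [h0, Submodule.span_empty]
    exact disjoint_bot_right
  have h1 := li_ranf D (κ := Empty) (κ₁ := Empty) (fun x => x.elim) (fun x => x.elim)
    (algebraicIndependent_empty_type) (fun x => x.elim) hσ (fun x => x.elim)
  let φ : Option (ν ⊕ χ) → (Unit ⊕ Empty) ⊕ ((ν ⊕ χ) ⊕ Empty) :=
    fun o => o.elim (Sum.inl (Sum.inl ())) (fun s => Sum.inr (Sum.inl s))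
  have hφ : Function.Injective φ := by
    intro a b hab
    rcases a with (_ | a) <;> rcases b with (_ | b) <;> simp_all [φ]
  have h2 := h1.comp φ hφ
  convert h2 using 1
  funext o
  rcases o with (_ | (i | j)) <;> rfl

private theorem base_inj {n : ℕ} {z : Fin n → ℝ} {ν χ : Type} {e p : ℝ}
    {v w : ν → ℝ} {X Y : χ → ℝ} (D : Dat z e p v w X Y) (a : ℝ × ℝ)
    (ha : a ∈ baseG e v w X Y) : a.1 = 0 ↔ a.2 = 0 := by
  rw [baseG_eq] at ha
  obtain ⟨d, hd⟩ := (Finsupp.mem_span_range_iff_exists_finsupp).1 ha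
  have e1 : a.1 = Finsupp.linearCombination ℚ (fun o => (gen e v w X Y o).1) d := by
    rw [← hd, Finsupp.linearCombination_apply, Finsupp.sum, Finsupp.sum, Prod.fst_sum]
    rfl
  have e2 : a.2 = Finsupp.linearCombination ℚ (fun o => (gen e v w X Y o).2) d := by
    rw [← hd, Finsupp.linearCombination_apply, Finsupp.sum, Finsupp.sum, Prod.snd_sum]
    rfl
  constructor
  · intro h
    rw [e1] at h
    have h3 := linearIndependent_iff.1 (li_fst D) d h
    rw [e2, h3, map_zero]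
  · intro h
    rw [e2] at h
    have h3 := linearIndependent_iff.1 (li_snd D) d h
    rw [e1, h3, map_zero]

private theorem ratmul_mem (K : IntermediateField ℚ ℂ) {x : ℂ} (hx : x ∈ K) (c : ℚ) :
    (c : ℂ) * x ∈ K := by
  refine K.mul_mem ?_ hx
  exact K.algebraMap_mem c

private theorem base_K {n : ℕ} {z : Fin n → ℝ} {ν χ : Type} {e p : ℝ}
    {v w : ν → ℝ} {X Y : χ → ℝ} (D : Dat z e p v w X Y) (a : ℝ × ℝ)
    (ha : a ∈ baseG e v w X Y) : (a.1 : ℂ) ∈ Kc z ∧ exp (a.2 : ℂ) ∈ Kc z := by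
  rw [baseG_eq] at ha
  refine Submodule.span_induction
    (p := fun a _ => (a.1 : ℂ) ∈ Kc z ∧ exp (a.2 : ℂ) ∈ Kc z) ?_ ?_ ?_ ?_ ha
  · rintro _ ⟨(_ | (i | j)), rfl⟩
    · change ((1 : ℝ) : ℂ) ∈ Kc z ∧ exp ((Real.log e : ℝ) : ℂ) ∈ Kc z
      rw [ofReal_one, ← ofReal_exp, Real.exp_log D.epos]
      exact ⟨(Kc z).one_mem, D.e_mem⟩
    · change ((v i : ℝ) : ℂ) ∈ Kc z ∧ exp ((w i : ℝ) : ℂ) ∈ Kc z
      refine ⟨D.v_mem i, ?_⟩
      have h1 := (isAlgebraic_algebraMap_iff (A := ℂ) (algebraMap ℝ ℂ).injective).2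
        (mem_Lr.1 (D.w_mem i))
      have h2 : IsAlgebraic ℚ (exp ((w i : ℝ) : ℂ)) := by
        simpa only [coe_algebraMap, ofReal_exp] using h1
      exact Qbar_le_Kc z (mem_Qbar.2 h2)
    · exact ⟨D.X_mem j, D.Y_mem j⟩
  · change ((0 : ℝ) : ℂ) ∈ Kc z ∧ exp ((0 : ℝ) : ℂ) ∈ Kc z
    rw [ofReal_zero, exp_zero]
    exact ⟨(Kc z).zero_mem, (Kc z).one_mem⟩
  · intro x y _ _ hx hy
    refine ⟨?_, ?_⟩
    · rw [Prod.fst_add, ofReal_add]
      exact (Kc z).add_mem hx.1 hy.1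
    · rw [Prod.snd_add, ofReal_add, exp_add]
      exact (Kc z).mul_mem hx.2 hy.2
  · intro c x _ hx
    refine ⟨?_, ?_⟩
    · rw [Prod.smul_fst, Rat.smul_def, ofReal_mul, ofReal_ratCast]
      exact ratmul_mem _ hx.1 c
    · rw [Prod.smul_snd, Rat.smul_def, ofReal_mul, ofReal_ratCast]
      exact exp_rat_mem_Kc hx.2 c

private theorem baseH_K {n : ℕ} {z : Fin n → ℝ} {p : ℝ} (hp : (p : ℂ) ∈ Kc z) (a : ℝ × ℝ)
    (ha : a ∈ baseH p) : (a.1 : ℂ) ∈ Kc z ∧ exp ((a.2 : ℂ) * I) ∈ Kc z := by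
  obtain ⟨q, rfl⟩ := Submodule.mem_span_singleton.1 ha
  refine ⟨?_, ?_⟩
  · rw [Prod.smul_fst, Rat.smul_def, ofReal_mul, ofReal_ratCast]
    exact ratmul_mem _ hp q
  · rw [Prod.smul_snd, Rat.smul_def, ofReal_mul, ofReal_ratCast, mul_assoc]
    refine exp_rat_mem_Kc ?_ q
    rw [exp_pi_mul_I]
    exact (Kc z).neg_mem (Kc z).one_mem

private theorem baseH_inj {p : ℝ} (hp : 0 < p) (a : ℝ × ℝ)
    (ha : a ∈ baseH p) : a.1 = 0 ↔ a.2 = 0 := by
  obtain ⟨q, rfl⟩ := Submodule.mem_span_singleton.1 ha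
  rw [Prod.smul_fst, Prod.smul_snd, smul_eq_zero, smul_eq_zero]
  have h1 := Real.pi_ne_zero
  have h2 := hp.ne'
  tauto

theorem exists_base {n : ℕ} {z : Fin n → ℝ} {ν χ : Type} [Finite ν] [Finite χ] {e p : ℝ}
    {v w : ν → ℝ} {X Y : χ → ℝ} (D : Dat z e p v w X Y) :
    ∃ s : Stage (Kc z), s.G = baseG e v w X Y ∧ s.H = baseH p := by
  exact ⟨⟨baseG e v w X Y, baseH p, fun a ha => base_K D a ha,
    fun a ha => baseH_K D.p_mem a ha, fun a ha => base_inj D a ha,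
    fun a ha => baseH_inj D.ppos a ha⟩, rfl, rfl⟩

end Pool.Agent.Pat6
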