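import Pool.Agent.Pat6.ExcFb
import Pool.Agent.Pat5.Conv

/-!
# Pat6: the defect bounds the number of rational values

PROOF. `converse` (`Pool/Agent/Pat5/Conv.lean`) gives `S ∈ good`. Take `e` from `exists_e` and
`b` from
`chain`. Write `b1 = b 0`, `bl = b 1`, `bD = b 2`, `bC = b 3`, `bE = b 4`.
 (A), (B): `A ∈ S` or `B ∈ S` implies `b1 ≥ 1` (`e_of_A`, `e_of_B`).
 (D): `D ∈ S` implies `bD ≥ 1`, or `e ∈ V3` and then `bl ≥ 1` and `l ∈ AC {e}` (`l_of_D`).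
 (C): `C ∈ S` implies `bC ≥ 1`, or `e l ∈ V4`; then `l ∈ AC {e}` (`l_of_C`), so `bl ≥ 1` if `l ∉
V2`, and
 `b1 ≥ 1` if `l ∈ V2` (`e_of_rat`). The cases `e ∈ V3` and `e l ∈ V4` exclude each other
(`not_DC`).
 (E): `E ∈ S` implies `l ∉ V2` (`not_rat_E`) and `bE ≥ 1`, or `p l ∈ V5` and then by `E_in` either
 `bl ≥ 1` (and `b1 ≥ 1` if `l ∈ AC {e}`), or `p = β + δ e` and `b1 ≥ 1`.
The good sets: `A` or `B` alone: (A), (B). `C`, `D`, `E` alone: (C), (D), (E). `AC`, `BC`: `b1`,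
and
`bC` or `bl` (`l ∉ V2` by `not_rat_A`, `not_rat_B`). `BD`: `b1`, and `bD` or `bl`. `AE`: `b1`;
by `C_of_AE`
`bC ≥ 1`, or `e l ∈ V4` and `bl ≥ 1`. `BE`: `b1`, and `bE` or `bl` (`not_BE`). `CD`: (`bD` or
`bl`) and (`bC`
or `bl` or `b1`), not both `e ∈ V3`, `e l ∈ V4`. `CE`: `l ∉ V2`; (`bC` or `bl` with `l ∈ AC
{e}`) and (`bE`,
or `bl`, with `b1` in addition if `l ∈ AC {e}`, or `b1`). `DE`: the same with `D`. `CDE`: the same
arguments; three of the numbers are `≥ 1`.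
-/

set_option autoImplicit false

namespace Pool.Agent.Pat6

open Complex Pool.Agent.Pat5

private theorem c2_alg {z : ℂ} (h : ∃ q : ℚ, z = q) : IsAlgebraic ℚ z := by
  obtain ⟨q, rfl⟩ := h
  exact isAlgebraic_algebraMap q

/-- The case analysis: `d`, `c`, `r`, `x`, `y` stand for `e ∈ V3`, `e l ∈ V4`, `l ∈ V2`, `l ∈ AC
{e}`,
`p l ∈ V5`. -/
private theorem c2_cases (S : Finset (Fin 5)) (hS : S ∈ good) {k : ℕ} (b : Fin 5 → ℕ)
    (hb : b 0 + b 1 + b 2 + b 3 + b 4 ≤ k) (d c r x y : Prop)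
    (fA : 0 ∈ S → 1 ≤ b 0 ∧ ¬ r) (fB : 1 ∈ S → 1 ≤ b 0 ∧ ¬ r ∧ (y → 1 ≤ b 1))
    (fC : 2 ∈ S → ¬ c → 1 ≤ b 3) (fD : 3 ∈ S → ¬ d → 1 ≤ b 2)
    (fE : 4 ∈ S → ¬ r ∧ (¬ y → 1 ≤ b 4)) (fAE : 0 ∈ S → 4 ∈ S → ¬ c → 1 ≤ b 3)
    (gd : d → ¬ r ∧ x) (gc : c → x) (gr : r → 1 ≤ b 0) (gx : x → ¬ r → 1 ≤ b 1)
    (gy : y → ((¬ r → 1 ≤ b 1) ∧ (x → 1 ≤ b 0)) ∨ 1 ≤ b 0) (gdc : ¬ (d ∧ c)) :
    S.card ≤ k := by
  have key : ∀ P : Prop, ∃ n : ℕ, P ↔ n = 1 := by
    intro P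
    by_cases h : P
    · exact ⟨1, by simp [h]⟩
    · exact ⟨0, by simp [h]⟩
  obtain ⟨nd, hd⟩ := key d
  obtain ⟨nc, hc⟩ := key c
  obtain ⟨nr, hr⟩ := key r
  obtain ⟨nx, hx⟩ := key x
  obtain ⟨ny, hy⟩ := key y
  rw [hd, hc] at gdc
  rw [hd, hr, hx] at gd
  rw [hc, hx] at gc
  rw [hr] at gr
  rw [hx, hr] at gx
  rw [hy, hr, hx] at gy
  rw [hr] at fA
  rw [hr, hy] at fB fE
  rw [hc] at fC fAE
  rw [hd] at fD
  clear hd hc hr hx hy key
  generalize b 0 = b0 at *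
  generalize b 1 = b1 at *
  generalize b 2 = b2 at *
  generalize b 3 = b3 at *
  generalize b 4 = b4 at *
  simp only [good, Finset.mem_insert, Finset.mem_singleton] at hS
  rcases hS with rfl | rfl | rfl | rfl | rfl | rfl | rfl | rfl | rfl | rfl | rfl | rfl | rfl |
    rfl | rfl
  · simp
  · have f1 := fA (by decide)
    simp
    omega
  · have f1 := fB (by decide)
    simp
    omega
  · have f1 := fC (by decide)
    simp
    omega
  · have f1 := fD (by decide)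
    simp
    omega
  · have f1 := fE (by decide)
    simp
    omega
  · have f1 := fA (by decide)
    have f2 := fC (by decide)
    rw [show ({0, 2} : Finset (Fin 5)).card = 2 from rfl]
    omega
  · have f1 := fA (by decide)
    have f2 := fAE (by decide) (by decide)
    rw [show ({0, 4} : Finset (Fin 5)).card = 2 from rfl]
    omega
  · have f1 := fB (by decide)
    have f2 := fC (by decide)
    rw [show ({1, 2} : Finset (Fin 5)).card = 2 from rfl]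
    omega
  · have f1 := fB (by decide)
    have f2 := fD (by decide)
    rw [show ({1, 3} : Finset (Fin 5)).card = 2 from rfl]
    omega
  · have f1 := fB (by decide)
    have f2 := fE (by decide)
    rw [show ({1, 4} : Finset (Fin 5)).card = 2 from rfl]
    omega
  · have f1 := fC (by decide)
    have f2 := fD (by decide)
    rw [show ({2, 3} : Finset (Fin 5)).card = 2 from rfl]
    omega
  · have f1 := fC (by decide)
    have f2 := fE (by decide)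
    rw [show ({2, 4} : Finset (Fin 5)).card = 2 from rfl]
    omega
  · have f1 := fD (by decide)
    have f2 := fE (by decide)
    rw [show ({3, 4} : Finset (Fin 5)).card = 2 from rfl]
    omega
  · have f1 := fC (by decide)
    have f2 := fD (by decide)
    have f3 := fE (by decide)
    rw [show ({2, 3, 4} : Finset (Fin 5)).card = 3 from rfl]
    omega

/-- The bound for the allowed sets, from the theorems of Lindemann and Baker. -/
theorem card_le' {E : ℂ → ℂ} {p l : ℝ} {k : ℕ} (hE : IsExp E p) (hT : LWB E)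
    (hl : E l = p) (hne : (p : ℂ) * E 1 ≠ 1) (hk : Schanuel E k) (S : Finset (Fin 5))
    (hgood : S ∈ good) (hS : ∀ i, i ∈ S ↔ ∃ q : ℚ, five E p l i = q) : S.card ≤ k := by
  obtain ⟨e, he0, he⟩ := exists_e hE
  obtain ⟨b, hb, k0, k1, k2, k3, k4⟩ := chain hE hl he hk
  have e0 : five E p l 0 = p + E 1 := rfl
  have e1 : five E p l 1 = p * E 1 := rfl
  have e2 : five E p l 2 = E (E 1 * l) := rfl
  have e3 : five E p l 3 = E (E 1) := rfl
  have e4 : five E p l 4 = E (p * l) := rfl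
  have h0 := hS 0
  have h1 := hS 1
  have h2 := hS 2
  have h3 := hS 3
  have h4 := hS 4
  rw [e0, he] at h0
  rw [e1, he] at h1
  rw [e2, he] at h2
  rw [e3, he] at h3
  rw [e4] at h4
  rw [he] at hne
  have hmono : AC {(e : ℂ)} ≤ AC {(p : ℂ), (e : ℂ)} := by
    apply AC_le (AC_acl _)
    rintro z hz
    apply subset_AC
    exact Or.inr hz
  refine c2_cases S hgood b hb ((e : ℂ) ∈ V3 p l) ((e : ℂ) * l ∈ V4 p l e) ((l : ℂ) ∈ V2 p)
    ((l : ℂ) ∈ AC {(e : ℂ)}) ((p : ℂ) * l ∈ V5 p l e) ?_ ?_ ?_ ?_ ?_ ?_ ?_ ?_ ?_ ?_ ?_ ?_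
  · intro hA
    obtain ⟨A, hA⟩ := h0.1 hA
    exact ⟨k0 (e_of_A hA), fun hr => not_rat_A hE hT he he0 hl hr hA⟩
  · intro hB
    obtain ⟨B, hB⟩ := h1.1 hB
    have hr : (l : ℂ) ∉ V2 p := fun hr => not_rat_B hE hT he he0 hl hr hB hne
    refine ⟨k0 (e_of_B hE.pos hB), hr, fun hy => ?_⟩
    rcases E_in hE hT he hl hy with ⟨h5, -⟩ | ⟨⟨β, δ, h5⟩, -⟩
    · exact k1 hr h5
    · exact (not_BE hE hT he he0 hB h5).elim
  · intro hC hc
    exact k3 hc (alg_mem_AC _ (c2_alg (h2.1 hC)))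
  · intro hD hd
    exact k2 hd (alg_mem_AC _ (c2_alg (h3.1 hD)))
  · intro hE'
    have ha := c2_alg (h4.1 hE')
    exact ⟨not_rat_E hE hT hl ha, fun hy => k4 hy (alg_mem_AC _ ha)⟩
  · intro hA hE' hc
    obtain ⟨A, hA⟩ := h0.1 hA
    exact k3 hc (C_of_AE hE hl hA (c2_alg (h4.1 hE')))
  · exact l_of_D hE hT he
  · exact l_of_C hE hT he
  · exact fun hr => k0 (e_of_rat hE hT he hl hr)
  · exact fun hx hr => k1 hr (hmono hx)
  · intro hy
    rcases E_in hE hT he hl hy with ⟨h5, h6⟩ | ⟨-, h5⟩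
    · left
      exact ⟨fun hr => k1 hr h5, fun hx => k0 (h6 hx)⟩
    · right
      exact k0 h5
  · rintro ⟨hd, hc⟩
    exact not_DC hE hT he hd hc

theorem card_le {E : ℂ → ℂ} {p l : ℝ} {k : ℕ} (hE : IsExp E p) (hT : Theorems E)
    (hl : E l = p) (hne : (p : ℂ) * E 1 ≠ 1) (hk : Schanuel E k) (S : Finset (Fin 5))
    (hS : ∀ i, i ∈ S ↔ ∃ q : ℚ, five E p l i = q) : S.card ≤ k :=
  card_le' hE (lwb_of_theorems hT) hl hne hk S (converse hE hT hl hne S hS) hS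

end Pool.Agent.Pat6
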