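import Pool.Agent.Pat6.Tower

/-!
# Pat6: families with arguments or values in the field

PROOF of `good_exp`. By `algebraicIndependent_of_finite_type` (and `hli.comp`) we may assume that
`κ` is a finite type. `GoodStep` for the span `X` of the `a k` (it is disjoint from `Γ` and has
dimension `#κ` since the `a k` are linearly independent modulo `Γ`) gives `#κ` algebraically
independent numbers in `coords X`. They are algebraic over `K (exp (a k).2)`: an element of
`coords X` is a rational combination of the numbers `(a k).1 ∈ K`, or `exp` of a rational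
combination of the `(a k).2`, which is algebraic over this field (`alg_exp_rat` in
`Pool/Agent/Pat5/Defs.lean`, products). Apply `ai_of_alg` (`Pool/Agent/Pat5/AiAlg.lean`); reindex
`Fin (card κ)`. `good_arg`: the same with the field `K ((a k).1)`; here `exp` of a rational
combination of the `(a k).2` is in `K` by `Acl K` (`alg_exp_rat` with `F = K`).
-/

set_option autoImplicit false

namespace Pool.Agent.Pat6

open Complex Pool.Agent.Pat5

private theorem mem_alg_GoodF {K : IntermediateField ℚ ℂ} {S : Set ℂ} {x : ℂ} (hx : x ∈ K) :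
    IsAlgebraic (IntermediateField.adjoin K S) x :=
  isAlgebraic_algebraMap
    (⟨x, (IntermediateField.adjoin K S).algebraMap_mem ⟨x, hx⟩⟩ : IntermediateField.adjoin K S)

private theorem rat_alg_GoodF {L : Type} [Field L] [Algebra L ℂ] (r : ℚ) :
    IsAlgebraic L (r : ℂ) := by
  have : CharZero L := (algebraMap L ℂ).charZero
  have h := isAlgebraic_algebraMap (R := L) (A := ℂ) (r : L)
  rwa [map_ratCast] at h

/-- The family of coordinates given by a good step, indexed by a finite type. -/
private theorem fam_GoodF {K : IntermediateField ℚ ℂ} {Γ Γ' : Submodule ℚ (ℂ × ℂ)}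
    (h : GoodStep K Γ Γ') {κ : Type} [Finite κ] (a : κ → ℂ × ℂ) (ha : ∀ k, a k ∈ Γ')
    (hli : LinearIndependent ℚ (fun k => Γ.mkQ (a k))) :
    ∃ x : κ → ℂ, AlgebraicIndependent K x ∧ ∀ k, x k ∈ coords (Submodule.span ℚ (Set.range a)) := by
  have := Fintype.ofFinite κ
  have hli' : LinearIndependent ℚ a := LinearIndependent.of_comp Γ.mkQ hli
  have hd : Disjoint (Submodule.span ℚ (Set.range a)) Γ := by
    have h1 : Disjoint (Submodule.span ℚ (Set.range a)) (LinearMap.ker Γ.mkQ) :=
      Submodule.range_ker_disjoint hli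
    rwa [Submodule.ker_mkQ] at h1
  have hX : Submodule.span ℚ (Set.range a) ≤ Γ' := by
    rw [Submodule.span_le]
    rintro _ ⟨k, rfl⟩
    exact ha k
  obtain ⟨u, hu, hc⟩ := h _ hX (FiniteDimensional.span_of_finite ℚ (Set.finite_range a)) hd
  have hr : Module.finrank ℚ (Submodule.span ℚ (Set.range a)) = Fintype.card κ :=
    finrank_span_eq_card hli'
  obtain ⟨e⟩ : Nonempty (κ ≃ Fin (Module.finrank ℚ (Submodule.span ℚ (Set.range a)))) :=
    ⟨(Fintype.equivFin κ).trans (finCongr hr.symm)⟩
  exact ⟨fun k => u (e k), hu.comp _ e.injective, fun k => hc _⟩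

/-- Pairs with arguments in `K`. -/
theorem good_exp {K : IntermediateField ℚ ℂ} {Γ Γ' : Submodule ℚ (ℂ × ℂ)}
    (h : GoodStep K Γ Γ') {κ : Type} (a : κ → ℂ × ℂ) (ha : ∀ k, a k ∈ Γ')
    (hli : LinearIndependent ℚ (fun k => Γ.mkQ (a k))) (hK : ∀ k, (a k).1 ∈ K) :
    AlgebraicIndependent K (fun k => exp (a k).2) := by
  refine algebraicIndependent_of_finite_type fun t ht => ?_
  have := ht.to_subtype
  obtain ⟨x, hx, hc⟩ := fam_GoodF h (fun k : t => a k) (fun k => ha k)
    (hli.comp _ Subtype.val_injective)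
  refine ai_of_alg hx fun i => ?_
  have key : ∀ b ∈ Submodule.span ℚ (Set.range fun k : t => a k), b.1 ∈ K ∧
      IsAlgebraic (IntermediateField.adjoin K (Set.range fun k : t => exp (a k).2))
        (exp b.2) := by
    intro b hb
    induction hb using Submodule.span_induction with
    | mem b hb =>
      obtain ⟨k, rfl⟩ := hb
      refine ⟨hK k, ?_⟩
      exact isAlgebraic_algebraMap (⟨_, IntermediateField.subset_adjoin K _ ⟨k, rfl⟩⟩ :
        IntermediateField.adjoin K (Set.range fun k : t => exp (a k).2))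
    | zero =>
      refine ⟨K.zero_mem, ?_⟩
      rw [Prod.snd_zero, exp_zero]
      exact isAlgebraic_one
    | add b c _ _ hb hc =>
      refine ⟨K.add_mem hb.1 hc.1, ?_⟩
      rw [Prod.snd_add, exp_add]
      exact hb.2.mul hc.2
    | smul r b _ hb =>
      refine ⟨?_, ?_⟩
      · rw [Prod.smul_fst]
        exact K.smul_mem hb.1
      · rw [Prod.smul_snd, Rat.smul_def]
        exact alg_exp_rat hb.2 r
  obtain ⟨b, hb, h1 | h1⟩ := hc i
  · rw [h1]
    exact mem_alg_GoodF (key b hb).1
  · rw [h1]
    exact (key b hb).2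

/-- Pairs with values in `K`. -/
theorem good_arg {K : IntermediateField ℚ ℂ} (hK' : Acl K) {Γ Γ' : Submodule ℚ (ℂ × ℂ)}
    (h : GoodStep K Γ Γ') {κ : Type} (a : κ → ℂ × ℂ) (ha : ∀ k, a k ∈ Γ')
    (hli : LinearIndependent ℚ (fun k => Γ.mkQ (a k))) (hK : ∀ k, exp (a k).2 ∈ K) :
    AlgebraicIndependent K (fun k => (a k).1) := by
  refine algebraicIndependent_of_finite_type fun t ht => ?_
  have := ht.to_subtype
  obtain ⟨x, hx, hc⟩ := fam_GoodF h (fun k : t => a k) (fun k => ha k)
    (hli.comp _ Subtype.val_injective)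
  refine ai_of_alg hx fun i => ?_
  have key : ∀ b ∈ Submodule.span ℚ (Set.range fun k : t => a k),
      IsAlgebraic (IntermediateField.adjoin K (Set.range fun k : t => (a k).1)) b.1 ∧
      exp b.2 ∈ K := by
    intro b hb
    induction hb using Submodule.span_induction with
    | mem b hb =>
      obtain ⟨k, rfl⟩ := hb
      refine ⟨?_, hK k⟩
      exact isAlgebraic_algebraMap (⟨_, IntermediateField.subset_adjoin K _ ⟨k, rfl⟩⟩ :
        IntermediateField.adjoin K (Set.range fun k : t => (a k).1))
    | zero =>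
      refine ⟨isAlgebraic_zero, ?_⟩
      rw [Prod.snd_zero, exp_zero]
      exact K.one_mem
    | add b c _ _ hb hc =>
      refine ⟨hb.1.add hc.1, ?_⟩
      rw [Prod.snd_add, exp_add]
      exact K.mul_mem hb.2 hc.2
    | smul r b _ hb =>
      refine ⟨?_, ?_⟩
      · rw [Prod.smul_fst, Rat.smul_def]
        exact (rat_alg_GoodF r).mul hb.1
      · rw [Prod.smul_snd, Rat.smul_def]
        refine hK' _ (alg_exp_rat ?_ r)
        exact isAlgebraic_algebraMap (⟨_, hb.2⟩ : K)
  obtain ⟨b, hb, h1 | h1⟩ := hc i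
  · rw [h1]
    exact (key b hb).1
  · rw [h1]
    exact mem_alg_GoodF (key b hb).2

end Pool.Agent.Pat6
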