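import Pool.Agent.Pat6.Defs

/-!
# Pat6: the supply of generic numbers

PROOF of `exists_supply`. As in `Supply_ext` (`Pool/Agent/Pat5/Supply.lean`) let `B` be a
transcendence basis of `ℝ` over `ℚ` which contains `range z`
(`exists_isTranscendenceBasis_superset`). `B` has the cardinality of the continuum (a set of smaller
cardinality generates a field, and a real closed field, of cardinality less than the continuum:
`Algebra.IsAlgebraic.cardinalMk_le_max`, `MvPolynomial.cardinalMk_le_max` as in `Supply_ext`), so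
`B \ range z` has it too, and there is a bijection `e` of `ℕ × ℝ` with `B \ range z`. Put
`t n r = |e (n, r)|`; changing signs preserves algebraic independence over `ℚ` and generated
fields (`Supply_scale` is the general statement; copy it). So `z` and all `t n r` together are
algebraically independent over `ℚ`, as complex numbers (`AlgHom.algebraicIndependent_iff`), and
`ℝ`, hence `ℂ`, is algebraic over the field generated by them.
`K n` is the algebraic closure in `ℂ` of `ℚ (z, t m r : m < n)`:
`(algebraicClosure (IntermediateField.adjoin ℚ (Set.range (fun i => (z i : ℂ)) ∪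
 {x | ∃ m < n, ∃ r, x = (t m r : ℂ)})) ℂ).restrictScalars ℚ`; for `n = 0` this is `Kc z`.
`acl` as `mem_Kc_of_isAlgebraic` (`Pool/Agent/Pat5/Kc.lean`). `ai`: the general form of `ai_Kc`
(same proof): if `Sum.elim x s` is algebraically independent over `ℚ` then `s` is algebraically
independent over the algebraic closure of `ℚ (range x)`; here `x` is the family of `z` and the
`t m r` with `m < n`, `s = t n`. `all`: a complex number `x` is algebraic over the field generated
by `z` and all `t m r`, so it is algebraic over the field generated by finitely many of them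
(`IntermediateField.mem_adjoin_iff`-type lemmas, or: the union of the directed family of the fields
`K n` is a field `L = ⨆ n, K n`, `IntermediateField.mem_iSup_of_directed`-type lemma; `x` is
algebraic over `L`, the coefficients of a polynomial are in one `K n`, so `x ∈ K n` by `acl`).
-/

set_option autoImplicit false

namespace Pool.Agent.Pat6

open Complex Pool.Agent.Pat5

/-- The algebraic closure in the complex numbers of the field generated by a set. -/
private noncomputable def KS (S : Set ℂ) : IntermediateField ℚ ℂ :=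
  (algebraicClosure (IntermediateField.adjoin ℚ S) ℂ).restrictScalars ℚ

private theorem mem_KS {S : Set ℂ} {x : ℂ} : x ∈ KS S ↔
    IsAlgebraic (IntermediateField.adjoin ℚ S) x := by
  rw [KS, IntermediateField.mem_restrictScalars, mem_algebraicClosure_iff]

private theorem subset_KS (S : Set ℂ) {x : ℂ} (h : x ∈ S) : x ∈ KS S := by
  rw [mem_KS]
  exact isAlgebraic_algebraMap (⟨x, IntermediateField.subset_adjoin _ _ h⟩ :
    IntermediateField.adjoin ℚ S)

private theorem acl_KS (S : Set ℂ) : Acl (KS S) := by
  intro x h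
  rw [mem_KS]
  have h' : IsAlgebraic (algebraicClosure (IntermediateField.adjoin ℚ S) ℂ) x := h
  exact h'.restrictScalars _

/-- Algebraic numbers over a smaller field are algebraic over the larger field. -/
private theorem alg_mono {L K : IntermediateField ℚ ℂ} (h : L ≤ K) {x : ℂ}
    (hx : IsAlgebraic L x) : IsAlgebraic K x := by
  obtain ⟨p, hp0, hp⟩ := hx
  refine ⟨p.map (IntermediateField.inclusion h).toRingHom, ?_, ?_⟩
  · rw [Ne, Polynomial.map_eq_zero_iff (IntermediateField.inclusion h).toRingHom.injective]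
    exact hp0
  · rw [Polynomial.aeval_def, Polynomial.eval₂_map]
    rw [Polynomial.aeval_def] at hp
    exact hp

private theorem KS_le {S : Set ℂ} {K : IntermediateField ℚ ℂ} (hK : Acl K)
    (h : ∀ x ∈ S, x ∈ K) : KS S ≤ K := by
  intro x hx
  rw [mem_KS] at hx
  exact hK x (alg_mono (IntermediateField.adjoin_le_iff.2 h) hx)

open scoped IntermediateField.algebraAdjoinAdjoin in
private theorem ai_KS {ι κ : Type} (x : ι → ℂ) (s : κ → ℂ)
    (h : AlgebraicIndependent ℚ (Sum.elim x s)) :
    AlgebraicIndependent (KS (Set.range x)) s := by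
  have h1 : AlgebraicIndependent ℚ (Sum.elim s x) := by
    refine (algebraicIndependent_equiv' (Equiv.sumComm κ ι) ?_).2 h
    ext (_ | _) <;> rfl
  have h2 := (AlgebraicIndependent.sumElim_iff.1 h1).2
  have halg : Algebra.IsAlgebraic (Algebra.adjoin ℚ (Set.range x))
      (IntermediateField.adjoin ℚ (Set.range x)) :=
    IsLocalization.isAlgebraic _ (nonZeroDivisors (Algebra.adjoin ℚ (Set.range x)))
  have h3 : AlgebraicIndependent (IntermediateField.adjoin ℚ (Set.range x)) s :=
    h2.extendScalars _
  exact h3.algebraicClosure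

private theorem sup_scale {κ : Type} {x : κ → ℝ} (hx : AlgebraicIndependent ℚ x) (q : κ → ℚ)
    (hq : ∀ k, q k ≠ 0) : AlgebraicIndependent ℚ (fun k => (q k : ℝ) * x k) := by
  have h := hx.polynomial_aeval_of_transcendental
    (f := fun k => Polynomial.C (q k) * Polynomial.X) (fun k => by
      refine Polynomial.transcendental _ ?_ ?_
      · rw [Polynomial.natDegree_C_mul_X _ (hq k)]
        exact one_ne_zero
      · rw [Polynomial.leadingCoeff_C_mul_X]
        exact mem_nonZeroDivisors_of_ne_zero (hq k))
  have h' : (fun k => Polynomial.aeval (x k) (Polynomial.C (q k) * Polynomial.X)) =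
      fun k => (q k : ℝ) * x k := by
    funext k
    simp
  rwa [h'] at h

private theorem sup_complex {κ : Type} {x : κ → ℝ} :
    AlgebraicIndependent ℚ (fun k => (x k : ℂ)) ↔ AlgebraicIndependent ℚ x :=
  AlgHom.algebraicIndependent_iff (Complex.ofRealAm.restrictScalars ℚ) Complex.ofReal_injective

/-- A transcendence basis has the cardinality of the continuum. -/
private theorem card_basis {t : Set ℝ} (ht : IsTranscendenceBasis ℚ ((↑) : t → ℝ)) :
    Cardinal.continuum ≤ Cardinal.mk t := by
  have h1 : Algebra.IsAlgebraic (Algebra.adjoin ℚ (Set.range ((↑) : t → ℝ))) ℝ :=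
    ht.isAlgebraic
  have h2 := Algebra.IsAlgebraic.cardinalMk_le_max
    (Algebra.adjoin ℚ (Set.range ((↑) : t → ℝ))) ℝ
  have h3 : Cardinal.mk (Algebra.adjoin ℚ (Set.range ((↑) : t → ℝ))) =
      Cardinal.mk (MvPolynomial t ℚ) := (Cardinal.mk_congr ht.1.aevalEquiv.toEquiv).symm
  have h4 : Cardinal.mk (MvPolynomial t ℚ) ≤ max (Cardinal.mk t) Cardinal.aleph0 := by
    refine MvPolynomial.cardinalMk_le_max.trans ?_
    have h6 : Cardinal.mk ℚ ≤ Cardinal.aleph0 := Cardinal.mk_le_aleph0
    exact sup_le (sup_le (h6.trans (le_max_right _ _)) (le_max_left _ _)) (le_max_right _ _)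
  rw [h3, Cardinal.mk_real] at h2
  have h7 : Cardinal.continuum ≤ max (Cardinal.mk t) Cardinal.aleph0 :=
    h2.trans (max_le h4 (le_max_right _ _))
  rcases le_max_iff.1 h7 with h | h
  · exact h
  · exact absurd h (not_le.2 Cardinal.aleph0_lt_continuum)

private theorem exists_basis {n : ℕ} (z : Fin n → ℝ) (hz : AlgebraicIndependent ℚ z) :
    ∃ t : Set ℝ, Nonempty (ℕ × ℝ ≃ ↥(t \ Set.range z)) ∧ Set.range z ⊆ t ∧
      IsTranscendenceBasis ℚ ((↑) : t → ℝ) := by
  obtain ⟨t, ht1, ht2⟩ := exists_isTranscendenceBasis_superset (s := Set.range z) hz.coe_range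
  have hc := card_basis ht2
  have hc2 : Cardinal.mk ↥(t \ Set.range z) = Cardinal.continuum := by
    refine le_antisymm ?_ ?_
    · exact (Cardinal.mk_set_le _).trans Cardinal.mk_real.le
    · by_contra hlt
      rw [not_le] at hlt
      have h1 : t ⊆ (t \ Set.range z) ∪ Set.range z := fun x hx => by
        by_cases h : x ∈ Set.range z
        · exact Or.inr h
        · exact Or.inl ⟨hx, h⟩
      have h2 : Cardinal.mk t ≤ Cardinal.mk ↥(t \ Set.range z) + Cardinal.mk ↥(Set.range z) :=
        (Cardinal.mk_le_mk_of_subset h1).trans (Cardinal.mk_union_le _ _)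
      have h3 : Cardinal.mk ↥(Set.range z) < Cardinal.continuum :=
        ((Set.finite_range z).lt_aleph0).trans Cardinal.aleph0_lt_continuum
      have h4 := Cardinal.add_lt_of_lt Cardinal.aleph0_le_continuum hlt h3
      exact absurd (hc.trans h2) (not_le.2 h4)
  have hc3 : Cardinal.mk (ℕ × ℝ) = Cardinal.continuum := by
    rw [Cardinal.mk_prod, Cardinal.mk_nat, Cardinal.mk_real, Cardinal.lift_aleph0,
      Cardinal.lift_continuum, Cardinal.aleph0_mul_continuum]
  exact ⟨t, Cardinal.eq.1 (hc3.trans hc2.symm), ht1, ht2⟩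

/-- The generators of the fields `K n`. -/
private def gens {n : ℕ} (z : Fin n → ℝ) (t : ℕ → ℝ → ℝ) (k : ℕ) : Set ℂ :=
  Set.range (fun i => (z i : ℂ)) ∪ {x | ∃ m < k, ∃ r, x = (t m r : ℂ)}

private theorem gens_mono {n : ℕ} (z : Fin n → ℝ) (t : ℕ → ℝ → ℝ) {k l : ℕ} (h : k ≤ l) :
    gens z t k ⊆ gens z t l := by
  rintro x (hx | ⟨m, hm, r, hr⟩)
  · exact Or.inl hx
  · exact Or.inr ⟨m, hm.trans_le h, r, hr⟩

private theorem KS_mono {n : ℕ} (z : Fin n → ℝ) (t : ℕ → ℝ → ℝ) :
    Monotone (fun k => KS (gens z t k)) := by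
  intro k l h
  exact KS_le (acl_KS _) fun x hx => subset_KS _ (gens_mono z t h hx)

/-- The union of an increasing sequence of algebraically closed fields is closed. -/
private theorem acl_union (K : ℕ → IntermediateField ℚ ℂ) (hm : Monotone K)
    (hK : ∀ n, Acl (K n)) (L : IntermediateField ℚ ℂ) (hL : ∀ x ∈ L, ∃ n, x ∈ K n)
    (x : ℂ) (hx : IsAlgebraic L x) : ∃ n, x ∈ K n := by
  obtain ⟨p, hp0, hp⟩ := hx
  choose f hf using fun i => hL (p.coeff i : ℂ) (p.coeff i).2
  have hN : ∀ i, (p.coeff i : ℂ) ∈ K (p.support.sup f) := by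
    intro i
    by_cases hi : i ∈ p.support
    · exact hm (Finset.le_sup hi) (hf i)
    · rw [Polynomial.notMem_support_iff.1 hi]
      exact (K _).zero_mem
  refine ⟨p.support.sup f, hK _ x ?_⟩
  have h1 : p.map (algebraMap L ℂ) ∈
      Polynomial.lifts (algebraMap (K (p.support.sup f)) ℂ) := by
    rw [Polynomial.lifts_iff_coeff_lifts]
    intro i
    rw [Polynomial.coeff_map]
    exact ⟨⟨(p.coeff i : ℂ), hN i⟩, rfl⟩
  obtain ⟨q, hq⟩ := (Polynomial.mem_lifts _).1 h1
  refine ⟨q, ?_, ?_⟩
  · rintro rfl
    rw [Polynomial.map_zero] at hq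
    exact hp0 ((Polynomial.map_eq_zero_iff (algebraMap L ℂ).injective).1 hq.symm)
  · rw [Polynomial.aeval_def, ← Polynomial.eval_map, hq, Polynomial.eval_map,
      ← Polynomial.aeval_def, hp]

theorem exists_supply {n : ℕ} (z : Fin n → ℝ)
    (hz : AlgebraicIndependent ℚ (fun i => (z i : ℂ))) :
    ∃ (K : ℕ → IntermediateField ℚ ℂ) (t : ℕ → ℝ → ℝ), K 0 = Kc z ∧ Supply K t := by
  obtain ⟨B, ⟨e⟩, hB1, hB2⟩ := exists_basis z (sup_complex.1 hz)
  have he0 : ∀ p, ((e p : ℝ)) ≠ 0 := fun p =>
    hB2.1.ne_zero (⟨(e p : ℝ), (e p).2.1⟩ : B)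
  set t : ℕ → ℝ → ℝ := fun m r => |(e (m, r) : ℝ)| with ht
  -- the whole family
  have hfam : AlgebraicIndependent ℚ
      (Sum.elim (fun i => (z i : ℂ)) (fun p : ℕ × ℝ => (t p.1 p.2 : ℂ))) := by
    let g : Fin n ⊕ (ℕ × ℝ) → B := Sum.elim (fun i => ⟨z i, hB1 ⟨i, rfl⟩⟩)
      (fun p => ⟨(e p : ℝ), (e p).2.1⟩)
    have hzr : AlgebraicIndependent ℚ z := sup_complex.1 hz
    have hg : Function.Injective g := by
      rintro (i | k) (j | l) h
      · exact congrArg Sum.inl (hzr.injective (congrArg Subtype.val h))
      · exact absurd ⟨i, congrArg Subtype.val h⟩ (e l).2.2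
      · exact absurd ⟨j, (congrArg Subtype.val h).symm⟩ (e k).2.2
      · have h1 : ((e k : ℝ)) = (e l : ℝ) := congrArg (fun y : B => (y : ℝ)) h
        exact congrArg Sum.inr (e.injective (Subtype.ext h1))
    have h := hB2.1.comp g hg
    have h2 := sup_complex.2 (sup_scale h
      (Sum.elim (fun _ => 1) fun k => if 0 ≤ (e k : ℝ) then 1 else -1) (by
        rintro (i | k)
        · exact one_ne_zero
        · simp only [Sum.elim_inr]
          split_ifs
          · exact one_ne_zero
          · exact neg_ne_zero.2 one_ne_zero))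
    refine (algebraicIndependent_equiv' (Equiv.refl _) ?_).2 h2
    funext j
    rcases j with i | k
    · simp [g]
    · simp only [Function.comp_apply, Equiv.refl_apply, Sum.elim_inr, g, ht]
      split_ifs with hk
      · simp [abs_of_nonneg hk]
      · simp [abs_of_neg (not_le.1 hk)]
  refine ⟨fun k => KS (gens z t k), t, ?_, ?_⟩
  · change KS (gens z t 0) = Kc z
    have h0 : gens z t 0 = Set.range (fun i => (z i : ℂ)) := by
      ext x
      simp [gens]
    rw [h0]
    rfl
  · have hmono := KS_mono z t
    have hmem : ∀ k r, (t k r : ℂ) ∈ KS (gens z t (k + 1)) := fun k r =>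
      subset_KS _ (Or.inr ⟨k, Nat.lt_succ_self k, r, rfl⟩)
    refine ⟨hmono, fun k => acl_KS _, fun k r => abs_pos.2 (he0 _), ?_, hmem, ?_⟩
    · intro k
      have hr : gens z t k = Set.range (Sum.elim (fun i => (z i : ℂ))
          (fun p : {p : ℕ × ℝ // p.1 < k} => (t p.1.1 p.1.2 : ℂ))) := by
        ext x
        constructor
        · rintro (⟨i, rfl⟩ | ⟨m, hm, r, rfl⟩)
          · exact ⟨Sum.inl i, rfl⟩
          · exact ⟨Sum.inr ⟨(m, r), hm⟩, rfl⟩
        · rintro ⟨i | p, rfl⟩
          · exact Or.inl ⟨i, rfl⟩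
          · exact Or.inr ⟨p.1.1, p.2, p.1.2, rfl⟩
      change AlgebraicIndependent (KS (gens z t k)) _
      rw [hr]
      apply ai_KS
      let g : (Fin n ⊕ {p : ℕ × ℝ // p.1 < k}) ⊕ ℝ → Fin n ⊕ (ℕ × ℝ) :=
        Sum.elim (Sum.elim Sum.inl (fun p => Sum.inr p.1)) (fun r => Sum.inr (k, r))
      have hg : Function.Injective g := by
        rintro ((i | p) | r) ((j | q) | s) h
        · simp only [g, Sum.elim_inl, Sum.inl.injEq] at h
          rw [h]
        · simp [g] at h
        · simp [g] at h
        · simp [g] at h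
        · simp only [g, Sum.elim_inl, Sum.elim_inr, Sum.inr.injEq] at h
          rw [Subtype.ext h]
        · simp only [g, Sum.elim_inl, Sum.elim_inr, Sum.inr.injEq] at h
          exact absurd (congrArg Prod.fst h) (ne_of_lt p.2)
        · simp [g] at h
        · simp only [g, Sum.elim_inl, Sum.elim_inr, Sum.inr.injEq] at h
          exact absurd (congrArg Prod.fst h).symm (ne_of_lt q.2)
        · simp only [g, Sum.elim_inr, Sum.inr.injEq, Prod.mk.injEq, true_and] at h
          rw [h]
      have h := hfam.comp g hg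
      refine (algebraicIndependent_equiv' (Equiv.refl _) ?_).2 h
      funext j
      rcases j with (i | p) | r <;> rfl
    · -- exhaustion
      have hdir : Directed (· ≤ ·) (fun k => KS (gens z t k)) := hmono.directed_le
      set L : IntermediateField ℚ ℂ := ⨆ k, KS (gens z t k) with hLdef
      have hL : ∀ x ∈ L, ∃ k, x ∈ KS (gens z t k) := by
        intro x hx
        have h1 : (x : ℂ) ∈ (L : Set ℂ) := hx
        rw [hLdef, IntermediateField.coe_iSup_of_directed hdir, Set.mem_iUnion] at h1
        exact h1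
      have hacl : ∀ x, IsAlgebraic L x → ∃ k, x ∈ KS (gens z t k) :=
        acl_union _ hmono (fun k => acl_KS _) L hL
      have hle : ∀ k, KS (gens z t k) ≤ L := fun k => le_iSup (fun k => KS (gens z t k)) k
      have hB : ∀ b ∈ B, (b : ℂ) ∈ L := by
        intro b hb
        by_cases h : b ∈ Set.range z
        · obtain ⟨i, rfl⟩ := h
          exact hle 0 (subset_KS _ (Or.inl ⟨i, rfl⟩))
        · obtain ⟨p, hp⟩ := e.surjective ⟨b, hb, h⟩
          have h1 : (t p.1 p.2 : ℂ) ∈ L := hle _ (hmem p.1 p.2)
          have h2 : (e p : ℝ) = b := by rw [hp]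
          have h3 : t p.1 p.2 = |b| := by simp only [ht, Prod.mk.eta, h2]
          rw [h3] at h1
          rcases abs_choice b with h4 | h4
          · rwa [h4] at h1
          · rw [h4] at h1
            have h5 := L.neg_mem h1
            simpa using h5
      have hreal : ∀ r : ℝ, IsAlgebraic L (r : ℂ) := by
        intro r
        have h1 : IsAlgebraic (Algebra.adjoin ℚ (Set.range ((↑) : B → ℝ))) r :=
          hB2.isAlgebraic.isAlgebraic r
        obtain ⟨p, hp0, hp⟩ := h1
        have hsub : ∀ a : Algebra.adjoin ℚ (Set.range ((↑) : B → ℝ)), ((a : ℝ) : ℂ) ∈ L := by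
          rintro ⟨a, ha⟩
          change ((a : ℝ) : ℂ) ∈ L
          have h2 : Algebra.adjoin ℚ (Set.range ((↑) : B → ℝ)) ≤
              L.toSubalgebra.comap (Complex.ofRealAm.restrictScalars ℚ) := by
            refine Algebra.adjoin_le ?_
            rintro _ ⟨b, rfl⟩
            exact hB b.1 b.2
          exact h2 ha
        have h3 : p.map ((algebraMap ℝ ℂ).comp
            (algebraMap (Algebra.adjoin ℚ (Set.range ((↑) : B → ℝ))) ℝ)) ∈
            Polynomial.lifts (algebraMap L ℂ) := by
          rw [Polynomial.lifts_iff_coeff_lifts]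
          intro i
          rw [Polynomial.coeff_map]
          exact ⟨⟨((p.coeff i : ℝ) : ℂ), hsub _⟩, rfl⟩
        obtain ⟨q, hq⟩ := (Polynomial.mem_lifts _).1 h3
        refine ⟨q, ?_, ?_⟩
        · rintro rfl
          rw [Polynomial.map_zero] at hq
          refine hp0 ((Polynomial.map_eq_zero_iff ?_).1 hq.symm)
          exact (algebraMap ℝ ℂ).injective.comp Subtype.val_injective
        · have h5 : (r : ℂ) = algebraMap ℝ ℂ r := rfl
          rw [Polynomial.aeval_def, ← Polynomial.eval_map, hq, Polynomial.eval_map, h5,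
            ← Polynomial.hom_eval₂]
          rw [Polynomial.aeval_def] at hp
          rw [hp, map_zero]
      have hall : ∀ r : ℝ, (r : ℂ) ∈ L := by
        intro r
        obtain ⟨k, hk⟩ := hacl _ (hreal r)
        exact hle k hk
      have hI : (I : ℂ) ∈ L := by
        have h1 : IsAlgebraic L I := by
          have h2 : IsAlgebraic ℚ I := Complex.isIntegral_rat_I.isAlgebraic
          exact h2.tower_top _
        obtain ⟨k, hk⟩ := hacl _ h1
        exact hle k hk
      intro x
      refine hL x ?_
      have h1 : (x.re : ℂ) + (x.im : ℂ) * I ∈ L :=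
        L.add_mem (hall _) (L.mul_mem (hall _) hI)
      rwa [Complex.re_add_im] at h1

end Pool.Agent.Pat6
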