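import Pool.Agent.Pat6.Gen
import Pool.Agent.Pat6.BaseSt
import Pool.Agent.Pat6.Sup
import Pool.Agent.Pat6.GoodF

/-!
# Pat6: the theorem `master2` for every generic extension

Copy of `Pool/Agent/Pat6/Master2.lean` with given functions `f`, `g`.
-/

set_option autoImplicit false

namespace Pool.Agent.Pat6

open Complex Pool.Agent.Pat5

/-- Linear independence modulo the complex graph. -/
private theorem li_mod {G H : Submodule ℚ (ℝ × ℝ)} {P Q : Submodule ℚ ℝ}
    (hP : ∀ a ∈ G, a.1 ∈ P) (hQ : ∀ a ∈ H, a.1 ∈ Q) {A B : Type} {a : A → ℝ} {b : B → ℝ}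
    (ha : LinearIndependent ℚ (P.mkQ ∘ a)) (hb : LinearIndependent ℚ (Q.mkQ ∘ b))
    (u : A → ℂ) (r : B → ℂ) :
    LinearIndependent ℚ (fun k : A ⊕ B => (Pat6.cx G H).mkQ
      (Sum.elim (fun k => ((a k : ℂ), u k)) (fun k => ((b k : ℂ) * I, r k)) k)) := by
  let φ₀ : (ℂ × ℂ) →ₗ[ℚ] (ℝ ⧸ P) × (ℝ ⧸ Q) :=
    LinearMap.prod (P.mkQ ∘ₗ (Complex.reLm.restrictScalars ℚ) ∘ₗ LinearMap.fst ℚ ℂ ℂ)
      (Q.mkQ ∘ₗ (Complex.imLm.restrictScalars ℚ) ∘ₗ LinearMap.fst ℚ ℂ ℂ)
  have h0 : Pat6.cx G H ≤ LinearMap.ker φ₀ := by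
    intro x hx
    rw [LinearMap.mem_ker]
    have h1 : P.mkQ x.1.re = 0 := by
      rw [Submodule.mkQ_apply, Submodule.Quotient.mk_eq_zero]
      exact hP _ hx.1
    have h2 : Q.mkQ x.1.im = 0 := by
      rw [Submodule.mkQ_apply, Submodule.Quotient.mk_eq_zero]
      exact hQ _ hx.2
    exact Prod.ext h1 h2
  let φ := (Pat6.cx G H).liftQ φ₀ h0
  apply LinearIndependent.of_comp φ
  have h3 := linearIndependent_inl_union_inr' ha hb
  refine cast ?_ h3
  congr 1
  funext k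
  refine Eq.symm ?_
  rcases k with k | k
  · change φ₀ ((a k : ℂ), u k) = _
    refine Prod.ext ?_ ?_
    · change P.mkQ ((a k : ℂ)).re = P.mkQ (a k)
      rw [ofReal_re]
    · change Q.mkQ ((a k : ℂ)).im = 0
      rw [ofReal_im, map_zero]
  · change φ₀ ((b k : ℂ) * I, r k) = _
    refine Prod.ext ?_ ?_
    · change P.mkQ ((b k : ℂ) * I).re = 0
      rw [re_ofReal_mul, I_re, mul_zero, map_zero]
    · change Q.mkQ ((b k : ℂ) * I).im = Q.mkQ (b k)
      rw [im_ofReal_mul, I_im, mul_one]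

private theorem li_mkQ {A B : Type} {x : A → ℝ} {a : B → ℝ}
    (h : LinearIndependent ℚ (Sum.elim x a)) :
    LinearIndependent ℚ ((Submodule.span ℚ (Set.range x)).mkQ ∘ a) := by
  obtain ⟨-, h2, h3⟩ := linearIndependent_sum.1 h
  refine LinearIndependent.map h2 ?_
  rw [Submodule.ker_mkQ]
  exact h3.symm

private theorem pair_gr (f g : ℝ ≃ₗ[ℚ] ℝ) {A B : Type} (a : A → ℝ) (b : B → ℝ) (k : A ⊕ B) :
    Sum.elim (fun k => ((a k : ℂ), (f (a k) : ℂ)))
      (fun k => ((b k : ℂ) * I, (g (b k) : ℂ) * I)) k ∈ gr f g := by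
  rcases k with k | k
  · change (((a k : ℂ)).re, ((f (a k) : ℂ)).re) ∈ _ ∧ (((a k : ℂ)).im, ((f (a k) : ℂ)).im) ∈ _
    rw [ofReal_re, ofReal_re, ofReal_im, ofReal_im]
    refine ⟨?_, ?_⟩
    · rw [LinearMap.mem_graph_iff]
      rfl
    · exact Submodule.zero_mem _
  · change (((b k : ℂ) * I).re, ((g (b k) : ℂ) * I).re) ∈ _ ∧
      (((b k : ℂ) * I).im, ((g (b k) : ℂ) * I).im) ∈ _
    rw [re_ofReal_mul, re_ofReal_mul, im_ofReal_mul, im_ofReal_mul, I_re, I_im, mul_zero,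
      mul_zero, mul_one, mul_one]
    refine ⟨Submodule.zero_mem _, ?_⟩
    rw [LinearMap.mem_graph_iff]
    rfl

private theorem m2_transc {n : ℕ} {z : Fin n → ℝ} {ν χ : Type} {e p : ℝ}
    {v w : ν → ℝ} {X Y : χ → ℝ} (D : Dat z e p v w X Y) : Transcendental ℚ (e : ℂ) := by
  intro h
  have h1 := (D.ran 1 0 (by
    rw [Finsupp.sum_zero_index, add_zero, Rat.cast_one, one_mul, ← ofReal_exp,
      Real.exp_log D.epos]
    exact h)).1
  exact one_ne_zero h1

private theorem alg_Kc {n : ℕ} (z : Fin n → ℝ) {x : ℂ} (h : IsAlgebraic ℚ x) : x ∈ Kc z :=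
  Qbar_le_Kc z (mem_Qbar.2 h)

private theorem alg_re {x : ℝ} (h : IsAlgebraic ℚ x) : IsAlgebraic ℚ (x : ℂ) :=
  (isAlgebraic_algebraMap_iff (A := ℂ) (algebraMap ℝ ℂ).injective).2 h

/-- The first coordinates of the real part of the base space. -/
private theorem baseG_fst {ν χ : Type} {e : ℝ} {v w : ν → ℝ} {X Y : χ → ℝ} :
    ∀ a ∈ baseG e v w X Y, a.1 ∈ Submodule.span ℚ
      (Set.range (Sum.elim (fun _ : Unit => (1 : ℝ)) (Sum.elim v X))) := by
  intro a ha
  rw [baseG] at ha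
  induction ha using Submodule.span_induction with
  | mem x hx =>
    rcases hx with (hx | ⟨i, rfl⟩) | ⟨j, rfl⟩
    · rw [Set.mem_singleton_iff.1 hx]
      exact Submodule.subset_span ⟨Sum.inl (), rfl⟩
    · exact Submodule.subset_span ⟨Sum.inr (Sum.inl i), rfl⟩
    · exact Submodule.subset_span ⟨Sum.inr (Sum.inr j), rfl⟩
  | zero => exact Submodule.zero_mem _
  | add x y _ _ h1 h2 => exact Submodule.add_mem _ h1 h2
  | smul c x _ h1 => exact Submodule.smul_mem _ c h1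

private theorem baseH_fst {p : ℝ} :
    ∀ a ∈ baseH p, a.1 ∈ Submodule.span ℚ (Set.range (fun _ : Unit => p)) := by
  intro a ha
  rw [baseH] at ha
  obtain ⟨c, rfl⟩ := Submodule.mem_span_singleton.1 ha
  exact Submodule.smul_mem _ c (Submodule.subset_span ⟨(), rfl⟩)

private theorem real_comb {κ : Type} (u : κ → ℝ) (c : κ →₀ ℚ) :
    (((c.sum fun k r => r • u k : ℝ)) : ℂ) = c.sum fun k r => (r : ℂ) * (u k : ℂ) := by
  rw [Finsupp.sum, Finsupp.sum, ofReal_sum]
  refine Finset.sum_congr rfl fun k _ => ?_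
  rw [Rat.smul_def, ofReal_mul, ofReal_ratCast]

/-- An element of the span of `1`, `v`, `X` with value in `Lr` is in the span of `v`. -/
private theorem span_Lr {n : ℕ} {z : Fin n → ℝ} {ν χ : Type} {e p : ℝ}
    {v w : ν → ℝ} {X Y : χ → ℝ} (D : Dat z e p v w X Y) (f : ℝ ≃ₗ[ℚ] ℝ)
    (h1 : f 1 = Real.log e) (hv : ∀ i, f (v i) = w i) (hX : ∀ j, f (X j) = Y j) {x : ℝ}
    (hx : x ∈ Submodule.span ℚ
      (Set.range (Sum.elim (fun _ : Unit => (1 : ℝ)) (Sum.elim v X))))
    (hf : f x ∈ Lr) : x ∈ Submodule.span ℚ (Set.range v) := by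
  rw [Set.Sum.elim_range, Set.Sum.elim_range, Submodule.span_union, Submodule.span_union] at hx
  obtain ⟨x1, hx1, x2, hx2, rfl⟩ := Submodule.mem_sup.1 hx
  obtain ⟨x3, hx3, x4, hx4, rfl⟩ := Submodule.mem_sup.1 hx2
  have hx1' : ∃ a : ℚ, a • (1 : ℝ) = x1 := by
    rw [Set.range_const] at hx1
    exact Submodule.mem_span_singleton.1 hx1
  obtain ⟨a, rfl⟩ := hx1'
  obtain ⟨c, rfl⟩ := Finsupp.mem_span_range_iff_exists_finsupp.1 hx4
  have hf3 : f x3 ∈ Lr := by
    have h3 : Submodule.span ℚ (Set.range v) ≤ Submodule.comap (f : ℝ →ₗ[ℚ] ℝ) Lr := by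
      rw [Submodule.span_le]
      rintro _ ⟨i, rfl⟩
      change f (v i) ∈ Lr
      rw [hv]
      exact D.w_mem i
    exact h3 hx3
  have h4 : f (a • (1 : ℝ)) + f (c.sum fun i r => r • X i) ∈ Lr := by
    have h5 : f (a • (1 : ℝ)) + f (c.sum fun i r => r • X i) =
        f (a • (1 : ℝ) + (x3 + c.sum fun i r => r • X i)) - f x3 := by
      rw [map_add, map_add]
      ring
    rw [h5]
    exact Lr.sub_mem hf hf3
  have h6 : f (a • (1 : ℝ)) + f (c.sum fun i r => r • X i) =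
      a • Real.log e + c.sum fun i r => r • Y i := by
    rw [map_smul, h1, map_finsuppSum]
    simp only [map_smul, hX]
  rw [h6] at h4
  have h7 := D.ran a c (by
    have h8 := alg_re (mem_Lr.1 h4)
    rw [ofReal_exp, ofReal_add, real_comb, Rat.smul_def, ofReal_mul, ofReal_ratCast] at h8
    exact h8)
  rw [h7.1, h7.2, zero_smul, Finsupp.sum_zero_index, zero_add, add_zero]
  exact hx3

theorem master_of {n : ℕ} {z : Fin n → ℝ} {ν χ : Type} [Finite ν] [Finite χ] {e p : ℝ}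
    {v w : ν → ℝ} {X Y : χ → ℝ} (D : Dat z e p v w X Y) {f g : ℝ ≃ₗ[ℚ] ℝ}
    (hf : ∀ a ∈ baseG e v w X Y, f a.1 = a.2) (hg : ∀ a ∈ baseH p, g a.1 = a.2)
    (hgood : GoodStep (Kc z) (base e p v w X Y) (gr f g)) :
    ∃ (κ₁ κ₂ : Type) (s : κ₁ → ℝ) (s' : κ₂ → ℝ),
      f 1 = Real.log e ∧ g p = Real.pi ∧ (∀ i, f (v i) = w i) ∧ (∀ j, f (X j) = Y j) ∧
      (∀ (m : ℕ) (a : Fin m → ℂ), (∀ i, IsAlgebraic ℚ (a i)) → LinearIndependent ℚ a →
        AlgebraicIndependent ℚ (fun i => EE f g (a i))) ∧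
      (∀ x, f x ∈ Lr ↔ x ∈ Submodule.span ℚ (Set.range (Sum.elim v s))) ∧
      (∀ y, g y ∈ Li ↔ y ∈ Submodule.span ℚ
        (Set.range (Sum.elim (fun _ : Unit => p) s'))) ∧
      AlgebraicIndependent (Kc z) (Sum.elim (fun k => (s k : ℂ)) (fun k => (s' k : ℂ))) := by
  have hf1 : f 1 = Real.log e :=
    hf (1, Real.log e) (Submodule.subset_span (Or.inl (Or.inl rfl)))
  have hfv : ∀ i, f (v i) = w i := fun i =>
    hf (v i, w i) (Submodule.subset_span (Or.inl (Or.inr ⟨i, rfl⟩)))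
  have hfX : ∀ j, f (X j) = Y j := fun j =>
    hf (X j, Y j) (Submodule.subset_span (Or.inr ⟨j, rfl⟩))
  have hgp : g p = Real.pi := hg (p, Real.pi) (Submodule.subset_span rfl)
  obtain ⟨κ, hκ, β, hβ, hβs⟩ := exists_ext Qr Qr_countable (fun _ : Unit => (1 : ℝ))
    (LinearIndependent.of_subsingleton () one_ne_zero) (fun _ => isAlgebraic_one)
  have halg : ∀ k, IsAlgebraic ℚ (Sum.elim (fun _ : Unit => (1 : ℝ)) β k) := fun k => by
    rw [← mem_Qr, ← hβs]
    exact Submodule.subset_span ⟨k, rfl⟩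
  have hdom : LinearIndependent ℚ
      (Sum.elim (Sum.elim (fun _ : Unit => (1 : ℝ)) β) (Sum.elim v X)) := by
    refine li_alg _ hβ halg _ ?_
    have h2 : (fun o : Option (ν ⊕ χ) => o.elim (1 : ℂ) fun i =>
        ((Sum.elim v X i : ℝ) : ℂ)) = fun o : Option (ν ⊕ χ) =>
          o.elim 1 (Sum.elim (fun i => (v i : ℂ)) (fun j => (X j : ℂ))) := by
      funext o
      rcases o with _ | i | i <;> rfl
    rw [h2]
    exact D.dom
  have hdomp : LinearIndependent ℚ
      (Sum.elim (Sum.elim (fun _ : Unit => (1 : ℝ)) β) (fun _ : Unit => p)) := by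
    refine li_alg _ hβ halg _ ?_
    have h1 := D.log.comp (Option.map (Sum.inl : Unit → Unit ⊕ ν))
      (Option.map_injective Sum.inl_injective)
    have h2 : (fun o : Option Unit => o.elim (1 : ℂ) fun _ => ((p : ℝ) : ℂ)) =
        (fun o : Option (Unit ⊕ ν) =>
          o.elim 1 (Sum.elim (fun _ => (p : ℂ)) (fun i => (v i : ℂ)))) ∘
            (Option.map (Sum.inl : Unit → Unit ⊕ ν)) := by
      funext o
      rcases o with _ | i <;> rfl
    rw [h2]
    exact h1
  have hv : LinearIndependent ℚ v :=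
    hdom.comp (fun i => Sum.inr (Sum.inl i)) (Sum.inr_injective.comp Sum.inl_injective)
  -- the numbers with algebraic values
  obtain ⟨κ₁, hκ₁, s, hs, hss⟩ := exists_ext (Submodule.comap (f : ℝ →ₗ[ℚ] ℝ) Lr)
    (Lr_countable.preimage_of_injOn (f := f) f.injective.injOn) v hv (fun i => by
      change f (v i) ∈ Lr
      rw [hfv]
      exact D.w_mem i)
  obtain ⟨κ₂, hκ₂, s', hs', hss'⟩ := exists_ext (Submodule.comap (g : ℝ →ₗ[ℚ] ℝ) Li)
    (Li_countable.preimage_of_injOn (f := g) g.injective.injOn) (fun _ : Unit => p)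
    (LinearIndependent.of_subsingleton () D.ppos.ne') (fun _ => by
      change g p ∈ Li
      rw [hgp, mem_Li, exp_pi_mul_I]
      exact isAlgebraic_one.neg)
  have hsm : ∀ k, f (s k) ∈ Lr := fun k => by
    have h1 : s k ∈ Submodule.comap (f : ℝ →ₗ[ℚ] ℝ) Lr := by
      rw [← hss]
      exact Submodule.subset_span ⟨Sum.inr k, rfl⟩
    exact h1
  have hsm' : ∀ k, g (s' k) ∈ Li := fun k => by
    have h1 : s' k ∈ Submodule.comap (g : ℝ →ₗ[ℚ] ℝ) Li := by
      rw [← hss']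
      exact Submodule.subset_span ⟨Sum.inr k, rfl⟩
    exact h1
  -- the exponentials of the algebraic numbers
  have ai_e : AlgebraicIndependent (Kc z) (Sum.elim (fun k => exp ((f (β k) : ℝ) : ℂ))
      (fun k : Unit ⊕ κ =>
        exp ((g (Sum.elim (fun _ : Unit => (1 : ℝ)) β k) : ℝ) * I))) := by
    have hli1 : LinearIndependent ℚ
        (Sum.elim (Sum.elim (fun _ : Unit => (1 : ℝ)) (Sum.elim v X)) β) := by
      have h1 := hdom.comp (fun k : (Unit ⊕ (ν ⊕ χ)) ⊕ κ =>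
        (Sum.elim (Sum.elim (fun u => Sum.inl (Sum.inl u)) (fun i => Sum.inr i))
          (fun k => Sum.inl (Sum.inr k)) k : (Unit ⊕ κ) ⊕ (ν ⊕ χ))) (by
            rintro ((i | i) | i) ((j | j) | j) hij <;> simp_all)
      refine cast ?_ h1
      congr 1
      funext k
      rcases k with (k | k) | k <;> rfl
    have hli2 : LinearIndependent ℚ
        (Sum.elim (fun _ : Unit => p) (Sum.elim (fun _ : Unit => (1 : ℝ)) β)) := by
      have h1 := hdomp.comp (Equiv.sumComm Unit (Unit ⊕ κ)) (Equiv.injective _)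
      refine cast ?_ h1
      congr 1
      funext k
      rcases k with k | k <;> rfl
    have h1 := good_exp hgood _ (pair_gr f g β (Sum.elim (fun _ : Unit => (1 : ℝ)) β))
      (li_mod baseG_fst baseH_fst (li_mkQ hli1) (li_mkQ hli2) _ _) (by
        rintro (k | k)
        · exact alg_Kc z (alg_re (halg (Sum.inr k)))
        · exact (Kc z).mul_mem (alg_Kc z (alg_re (halg k))) (I_mem_Kc z))
    refine cast ?_ h1
    congr 1
    funext k
    rcases k with k | k <;> rfl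
  -- the numbers with algebraic exponentials
  have ai_l : AlgebraicIndependent (Kc z)
      (Sum.elim (fun k => (s k : ℂ)) (fun k => (s' k : ℂ) * I)) := by
    have hli1 : LinearIndependent ℚ ((Submodule.span ℚ
        (Set.range (Sum.elim (fun _ : Unit => (1 : ℝ)) (Sum.elim v X)))).mkQ ∘ s) := by
      obtain ⟨-, h2, h3⟩ := linearIndependent_sum.1 hs
      refine LinearIndependent.map h2 ?_
      rw [Submodule.ker_mkQ, Submodule.disjoint_def]
      intro x hx hx'
      have hxW : x ∈ Submodule.comap (f : ℝ →ₗ[ℚ] ℝ) Lr := by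
        rw [← hss]
        refine Submodule.span_mono ?_ hx
        rintro _ ⟨k, rfl⟩
        exact ⟨Sum.inr k, rfl⟩
      exact (Submodule.disjoint_def.1 h3) x (span_Lr D f hf1 hfv hfX hx' hxW) hx
    have h1 := good_arg (fun x hx => mem_Kc_of_isAlgebraic hx) hgood _ (pair_gr f g s s')
      (li_mod baseG_fst baseH_fst hli1 (li_mkQ hs') _ _) (by
        rintro (k | k)
        · have h2 := alg_re (mem_Lr.1 (hsm k))
          rw [ofReal_exp] at h2
          exact alg_Kc z h2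
        · exact alg_Kc z (mem_Li.1 (hsm' k)))
    refine cast ?_ h1
    congr 1
    funext k
    rcases k with k | k <;> rfl
  refine ⟨κ₁, κ₂, s, s', hf1, hgp, hfv, hfX, ?_, ?_, ?_, ?_⟩
  · intro m a ha hli
    refine lw_EE f g _ hβ (fun x hx => by rw [hβs]; exact hx) ?_ m a ha hli
    have h1 : AlgebraicIndependent ℚ fun _ : Unit => (e : ℂ) :=
      algebraicIndependent_unique_type_iff.2 (m2_transc D)
    have h2 := ai_sum (Kc z) h1 (fun _ => D.e_mem) ai_e
    have h3 := h2.comp (Equiv.sumAssoc Unit κ (Unit ⊕ κ)) (Equiv.injective _)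
    refine cast ?_ h3
    congr 1
    funext k
    rcases k with (k | k) | k
    · change (e : ℂ) = exp ((f 1 : ℝ) : ℂ)
      rw [hf1, ← ofReal_exp, Real.exp_log D.epos]
    · rfl
    · rfl
  · intro x
    rw [hss]
    rfl
  · intro y
    rw [hss']
    rfl
  · refine ai_pointwise ai_l ?_
    rintro (k | k)
    · exact isAlgebraic_algebraMap (⟨(s k : ℂ),
        IntermediateField.subset_adjoin (Kc z) _ rfl⟩ :
          IntermediateField.adjoin (Kc z) {(s k : ℂ)})
    · refine isAlgebraic_algebraMap (⟨(s' k : ℂ) * I, mul_mem ?_ ?_⟩ :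
          IntermediateField.adjoin (Kc z) {(s' k : ℂ)})
      · exact IntermediateField.subset_adjoin (Kc z) _ rfl
      · exact (IntermediateField.adjoin (Kc z) {(s' k : ℂ)}).algebraMap_mem
          (⟨I, I_mem_Kc z⟩ : Kc z)

end Pool.Agent.Pat6
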