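import Pool.Agent.Pat6.NearGen
import Pool.Agent.Pat6.MasterF

/-!
# Pat6: the three theorems for every generic extension, and closeness on a finite set

PROOF. `core_of`: as `core2` (`Core2.lean`) with `master_of` (`MasterF.lean`) in place of
`master2`. `core3`: `gen_near` and `core_of`.
-/

set_option autoImplicit false

namespace Pool.Agent.Pat6

open Complex Pool.Agent.Pat5

/-- The reindexing of the family `v, s, p, s'`. -/
private def core_reindex (ν κ₁ κ₂ : Type) :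
    (ν ⊕ κ₁) ⊕ (Unit ⊕ κ₂) → (Unit ⊕ ν) ⊕ (κ₁ ⊕ κ₂) :=
  Sum.elim (Sum.elim (fun i => Sum.inl (Sum.inr i)) (fun k => Sum.inr (Sum.inl k)))
    (Sum.elim (fun u => Sum.inl (Sum.inl u)) (fun k => Sum.inr (Sum.inr k)))

private theorem core_reindex_injective (ν κ₁ κ₂ : Type) :
    Function.Injective (core_reindex ν κ₁ κ₂) := by
  rintro ((i | i) | (i | i)) ((j | j) | (j | j)) h <;> simp_all [core_reindex]

/-- The reindexing with the number `1`. -/
private def core_reindexO (ν κ₁ κ₂ : Type) :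
    Option ((ν ⊕ κ₁) ⊕ (Unit ⊕ κ₂)) → Option (Unit ⊕ ν) ⊕ (κ₁ ⊕ κ₂) := fun o =>
  o.elim (Sum.inl none)
    (Sum.elim (Sum.elim (fun i => Sum.inl (some (Sum.inr i))) (fun k => Sum.inr (Sum.inl k)))
      (Sum.elim (fun u => Sum.inl (some (Sum.inl u))) (fun k => Sum.inr (Sum.inr k))))

private theorem core_reindexO_injective (ν κ₁ κ₂ : Type) :
    Function.Injective (core_reindexO ν κ₁ κ₂) := by
  rintro (_ | ((i | i) | (i | i))) (_ | ((j | j) | (j | j))) h <;> simp_all [core_reindexO]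

private theorem core_li {n : ℕ} {z : Fin n → ℝ} {ν χ : Type} {e p : ℝ}
    {v w : ν → ℝ} {X Y : χ → ℝ} (D : Dat z e p v w X Y) {κ₁ κ₂ : Type} (s : κ₁ → ℝ)
    (s' : κ₂ → ℝ)
    (hai : AlgebraicIndependent (Kc z) (Sum.elim (fun k => (s k : ℂ)) (fun k => (s' k : ℂ)))) :
    LinearIndependent Qbar (fun o : Option ((ν ⊕ κ₁) ⊕ (Unit ⊕ κ₂)) =>
      o.elim 1 (Sum.elim (fun i => ((Sum.elim v s i : ℝ) : ℂ))
        (fun j => ((Sum.elim (fun _ : Unit => p) s' j : ℝ) : ℂ)))) := by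
  have h := li_tower (Kc z) (Qbar_le_Kc z) _ D.log (by
    rintro (_ | (_ | i))
    · exact (Kc z).one_mem
    · exact D.p_mem
    · exact D.v_mem i) _ hai
  have h2 := h.comp (core_reindexO ν κ₁ κ₂) (core_reindexO_injective ν κ₁ κ₂)
  refine cast ?_ h2
  congr 1
  funext o
  rcases o with _ | ((i | i) | (i | i)) <;> rfl

private theorem core_ai {n : ℕ} {z : Fin n → ℝ} {ν χ : Type} {e p : ℝ}
    {v w : ν → ℝ} {X Y : χ → ℝ} (D : Dat z e p v w X Y) {κ₁ κ₂ : Type} (s : κ₁ → ℝ)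
    (s' : κ₂ → ℝ)
    (hai : AlgebraicIndependent (Kc z) (Sum.elim (fun k => (s k : ℂ)) (fun k => (s' k : ℂ))))
    (hS : Strong p v) :
    AlgebraicIndependent ℚ (Sum.elim (fun i => ((Sum.elim v s i : ℝ) : ℂ))
        (fun j => ((Sum.elim (fun _ : Unit => p) s' j : ℝ) : ℂ))) := by
  have h := ai_sum (Kc z) hS (by
    rintro (_ | i)
    · exact D.p_mem
    · exact D.v_mem i) hai
  have h2 := h.comp (core_reindex ν κ₁ κ₂) (core_reindex_injective ν κ₁ κ₂)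
  refine cast ?_ h2
  congr 1
  funext o
  rcases o with (i | i) | (i | i) <;> rfl

private theorem core_sets {ν κ₁ κ₂ : Type} (p : ℝ) (v : ν → ℝ) (s : κ₁ → ℝ) (s' : κ₂ → ℝ) :
    ({1} ∪ Set.range (Sum.elim (fun i => ((Sum.elim v s i : ℝ) : ℂ))
        (fun j => ((Sum.elim (fun _ : Unit => p) s' j : ℝ) : ℂ))) : Set ℂ) =
      ({1, (p : ℂ)} ∪ Set.range (fun i => (v i : ℂ))) ∪
        Set.range (Sum.elim (fun k => (s k : ℂ)) (fun k => (s' k : ℂ))) := by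
  ext t
  constructor
  · rintro (ht | ⟨((i | i) | (i | i)), rfl⟩)
    · exact Or.inl (Or.inl (Or.inl ht))
    · exact Or.inl (Or.inr ⟨i, rfl⟩)
    · exact Or.inr ⟨Sum.inl i, rfl⟩
    · exact Or.inl (Or.inl (Or.inr rfl))
    · exact Or.inr ⟨Sum.inr i, rfl⟩
  · rintro (((ht | ht) | ⟨i, rfl⟩) | ⟨(i | i), rfl⟩)
    · exact Or.inl ht
    · exact Or.inr ⟨Sum.inr (Sum.inl ()), ht.symm⟩
    · exact Or.inr ⟨Sum.inl (Sum.inl i), rfl⟩
    · exact Or.inr ⟨Sum.inl (Sum.inr i), rfl⟩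
    · exact Or.inr ⟨Sum.inr (Sum.inr i), rfl⟩

private theorem core_sets' {ι κ : Type} (Y : ℂ) (x : ι → ℂ) (s : κ → ℂ) :
    ({1} ∪ Set.range (fun o : Option (ι ⊕ κ) => o.elim Y (Sum.elim x s)) : Set ℂ) =
      ({1, Y} ∪ Set.range x) ∪ Set.range s := by
  ext t
  constructor
  · rintro (ht | ⟨(_ | (i | i)), rfl⟩)
    · exact Or.inl (Or.inl (Or.inl ht))
    · exact Or.inl (Or.inl (Or.inr rfl))
    · exact Or.inl (Or.inr ⟨i, rfl⟩)
    · exact Or.inr ⟨i, rfl⟩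
  · rintro (((ht | ht) | ⟨i, rfl⟩) | ⟨i, rfl⟩)
    · exact Or.inl ht
    · exact Or.inr ⟨none, ht.symm⟩
    · exact Or.inr ⟨some (Sum.inl i), rfl⟩
    · exact Or.inr ⟨some (Sum.inr i), rfl⟩

private theorem base_le_gr {ν χ : Type} {e p : ℝ} {v w : ν → ℝ} {X Y : χ → ℝ}
    {f g : ℝ ≃ₗ[ℚ] ℝ} (hf1 : f 1 = Real.log e) (hgp : g p = Real.pi) (hfv : ∀ i, f (v i) = w i)
    (hfX : ∀ j, f (X j) = Y j) : base e p v w X Y ≤ gr f g := by
  have hG : baseG e v w X Y ≤ LinearMap.graph (f : ℝ →ₗ[ℚ] ℝ) := by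
    rw [baseG, Submodule.span_le]
    rintro a ((ha | ⟨i, rfl⟩) | ⟨j, rfl⟩)
    · rw [Set.mem_singleton_iff] at ha
      subst ha
      exact (LinearMap.mem_graph_iff _ _).2 hf1.symm
    · exact (LinearMap.mem_graph_iff _ _).2 (hfv i).symm
    · exact (LinearMap.mem_graph_iff _ _).2 (hfX j).symm
  have hH : baseH p ≤ LinearMap.graph (g : ℝ →ₗ[ℚ] ℝ) := by
    rw [baseH, Submodule.span_le]
    intro a ha
    rw [Set.mem_singleton_iff] at ha
    subst ha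
    exact (LinearMap.mem_graph_iff _ _).2 hgp.symm
  exact fun a ha => ⟨hG ha.1, hH ha.2⟩

private theorem coords_base {n : ℕ} {z : Fin n → ℝ} {ν χ : Type} [Finite ν] [Finite χ] {e p : ℝ}
    {v w : ν → ℝ} {X Y : χ → ℝ} (D : Dat z e p v w X Y) :
    coords (base e p v w X Y) ⊆ Kc z := by
  obtain ⟨s, hG, hH⟩ := exists_base D
  have h1 := stage_coords (fun x hx => mem_Kc_of_isAlgebraic hx) s
  rw [Stage.cx, hG, hH] at h1
  exact h1

theorem core_of {n : ℕ} {z : Fin n → ℝ} {ν χ : Type} [Finite ν] [Finite χ] {e p : ℝ}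
    {v w : ν → ℝ} {X Y : χ → ℝ} (D : Dat z e p v w X Y) (hq : Strong p v ∨ QuadHyp z p v)
    {f g : ℝ ≃ₗ[ℚ] ℝ} (hf : ∀ a ∈ baseG e v w X Y, f a.1 = a.2)
    (hg : ∀ a ∈ baseH p, g a.1 = a.2) (hgood : GoodStep (Kc z) (base e p v w X Y) (gr f g)) :
    f 1 = Real.log e ∧ g p = Real.pi ∧ (∀ i, f (v i) = w i) ∧
      (∀ j, f (X j) = Y j) ∧ Theorems (EE f g) ∧ (Strong p v → LogIndep (EE f g)) ∧
      base e p v w X Y ≤ gr f g ∧ coords (base e p v w X Y) ⊆ Kc z := by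
  obtain ⟨κ₁, κ₂, s, s', hf1, hgp, hfv, hfX, hLW, hLr, hLi, hai⟩ := master_of D hf hg hgood
  refine ⟨hf1, hgp, hfv, hfX, ⟨hLW, ?_, ?_⟩, fun hS => ?_,
    base_le_gr hf1 hgp hfv hfX, coords_base D⟩
  · exact fun n l hl hind => baker_EE f g _ _ hLr hLi (core_li D s s' hai) n l hl hind
  · intro x y hx hy
    rw [logSpan_EE f g _ _ hLr hLi]
    rcases hq with hS | ⟨ι, x₀, i0, m, Y₀, hxai, hxm, hm0, hi0, hxY, hspan⟩
    · refine six_of_quad _ 0 (fun P _ hP => ⟨0, ?_⟩) x y hx hy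
      rw [mul_zero]
      have h1 := ai_Qbar (core_ai D s s' hai hS)
      exact (algebraicIndependent_iff.1 h1) P hP
    · have h1 := ai_Qbar (ai_sum (Kc z) hxai hxm hai)
      obtain ⟨Q, hQ⟩ := quad _ h1 (Sum.inl i0) (MvPolynomial.rename Sum.inl m)
        (fun h0 => hm0 (MvPolynomial.rename_injective _ Sum.inl_injective (by rw [h0, map_zero])))
        (by
          classical
          intro hmem
          have h2 := MvPolynomial.vars_rename
            (Sum.inl : ι → ι ⊕ (κ₁ ⊕ κ₂)) m hmem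
          rw [Finset.mem_image] at h2
          obtain ⟨j, hj, hji⟩ := h2
          rw [Sum.inl_injective hji] at hj
          exact hi0 hj) Y₀ (by
          rw [MvPolynomial.aeval_rename, Sum.elim_comp_inl, Sum.elim_inl]
          exact hxY)
      have h3 := six_of_quad _ Q hQ x y hx hy
      rw [core_sets', Submodule.span_union, hspan, ← Submodule.span_union, ← core_sets] at h3
      exact h3
  · exact logIndep_EE f g _ _ hLr hLi (core_ai D s s' hai hS)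

theorem core3 (F : Finset ℂ) (ε : ℝ) (hε : 0 < ε) : ∃ δ : ℝ, 0 < δ ∧
    ∀ {n : ℕ} {z : Fin n → ℝ} {ν χ : Type} [Finite ν] [Finite χ] {e p : ℝ}
      {v w : ν → ℝ} {X Y : χ → ℝ} (_ : Dat z e p v w X Y) (_ : Strong p v ∨ QuadHyp z p v),
      AlgebraicIndependent (KF F) (fun i => (z i : ℂ)) → |Real.log e - 1| < δ →
      ∃ f g : ℝ ≃ₗ[ℚ] ℝ, f 1 = Real.log e ∧ g p = Real.pi ∧ (∀ i, f (v i) = w i) ∧
        (∀ j, f (X j) = Y j) ∧ Theorems (EE f g) ∧ (Strong p v → LogIndep (EE f g)) ∧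
        base e p v w X Y ≤ gr f g ∧ coords (base e p v w X Y) ⊆ Kc z ∧
        GoodStep (Kc z) (base e p v w X Y) (gr f g) ∧ ∀ a ∈ F, ‖EE f g a - exp a‖ < ε := by
  obtain ⟨δ, hδ, h⟩ := gen_near F ε hε
  refine ⟨δ, hδ, fun D hq hai he => ?_⟩
  obtain ⟨f, g, hf, hg, hgood, hn⟩ := h D hai he
  obtain ⟨h1, h2, h3, h4, h5, h6, h7, h8⟩ := core_of D hq hf hg hgood
  exact ⟨f, g, h1, h2, h3, h4, h5, h6, h7, h8, hgood, hn⟩

end Pool.Agent.Pat6
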