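import Mathlib
import Pool.Agent.Pat5.Core

/-!
# Pat6: Schanuel's inequality with a defect, definitions

Project for the five numbers `π + e`, `π e`, `π ^ e`, `e ^ e`, `π ^ π`: every allowed pattern `S`
is realised by an exponential function `E = EE f g` which satisfies the inequality of Schanuel
with the defect `|S|`, and the inequality itself relative to a finite-dimensional space.

Everything lives on `ℚ`-subspaces `Γ` of `ℂ × ℂ`: a pair `(z, ζ)` stands for `E z = exp ζ`. The
graph of `EE f g` is `cx (graph f) (graph g)`.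

OVERVIEW. `Gen`: from finite data `G₀, H₀` (graphs) with coordinates in a field `K 0`, an `ω`-chain
of stages `(G n, H n)` with coordinates in algebraically closed fields `K n` with union `ℂ` is
constructed; every step is a `GoodStep`: at kind `0` (`n % 4 = 0`) all `w ∈ K n` which are not in
the domain of `G n` get the values `log (t n w)`, at kind `1` all `y` with `exp y ∈ K n` which are
not in the range get the arguments `t n y`; kinds `2`, `3` are the same for `H` with the angles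
`ang (t n w)`. Here the numbers `t n r`, `r : ℝ`, are algebraically independent over `K n` and in
`K (n + 1)`. The union is the graph of a bijection. `Tower`: `GoodStep`s add up.
-/

set_option autoImplicit false

namespace Pool.Agent.Pat6

open Complex Pool.Agent.Pat5

/-- The complex pairs with real parts in `G` and imaginary parts in `H`. -/
def cx (G H : Submodule ℚ (ℝ × ℝ)) : Submodule ℚ (ℂ × ℂ) where
  carrier := {a | (a.1.re, a.2.re) ∈ G ∧ (a.1.im, a.2.im) ∈ H}
  add_mem' := fun {a b} ha hb => ⟨G.add_mem ha.1 hb.1, H.add_mem ha.2 hb.2⟩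
  zero_mem' := ⟨G.zero_mem, H.zero_mem⟩
  smul_mem' := fun c x hx => by
    refine ⟨?_, ?_⟩
    · change ((c • x.1).re, (c • x.2).re) ∈ G
      rw [Complex.smul_re, Complex.smul_re]
      exact G.smul_mem c hx.1
    · change ((c • x.1).im, (c • x.2).im) ∈ H
      rw [Complex.smul_im, Complex.smul_im]
      exact H.smul_mem c hx.2

theorem mem_cx {G H : Submodule ℚ (ℝ × ℝ)} {a : ℂ × ℂ} :
    a ∈ cx G H ↔ (a.1.re, a.2.re) ∈ G ∧ (a.1.im, a.2.im) ∈ H := Iff.rfl

/-- The numbers `z` and `exp ζ` for the pairs `(z, ζ)` in `X`. -/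
def coords (X : Submodule ℚ (ℂ × ℂ)) : Set ℂ := {u | ∃ a ∈ X, u = a.1 ∨ u = exp a.2}

/-- Among the coordinates of `X` there are `m` algebraically independent numbers. -/
def TD (K : IntermediateField ℚ ℂ) (X : Submodule ℚ (ℂ × ℂ)) (m : ℕ) : Prop :=
  ∃ u : Fin m → ℂ, AlgebraicIndependent K u ∧ ∀ j, u j ∈ coords X

/-- Schanuel's inequality over `K` for the subspaces of `Γ'` which meet `Γ` only in `0`. -/
def GoodStep (K : IntermediateField ℚ ℂ) (Γ Γ' : Submodule ℚ (ℂ × ℂ)) : Prop :=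
  ∀ X : Submodule ℚ (ℂ × ℂ), X ≤ Γ' → FiniteDimensional ℚ X → Disjoint X Γ →
    TD K X (Module.finrank ℚ X)

/-- Schanuel's inequality with the defect `s` for the subspaces of `Γ`. -/
def Dfc (K : IntermediateField ℚ ℂ) (Γ : Submodule ℚ (ℂ × ℂ)) (s : ℕ) : Prop :=
  ∀ X : Submodule ℚ (ℂ × ℂ), X ≤ Γ → FiniteDimensional ℚ X →
    ∃ m, Module.finrank ℚ X ≤ m + s ∧ TD K X m

/-- The field `K` is algebraically closed in `ℂ`. -/
def Acl (K : IntermediateField ℚ ℂ) : Prop := ∀ x, IsAlgebraic K x → x ∈ K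

/-- A stage of the construction, with coordinates in `K`. -/
structure Stage (K : IntermediateField ℚ ℂ) where
  /-- The graph for the real line. -/
  G : Submodule ℚ (ℝ × ℝ)
  /-- The graph for the imaginary line. -/
  H : Submodule ℚ (ℝ × ℝ)
  G_K : ∀ a ∈ G, (a.1 : ℂ) ∈ K ∧ exp (a.2 : ℂ) ∈ K
  H_K : ∀ a ∈ H, (a.1 : ℂ) ∈ K ∧ exp ((a.2 : ℂ) * I) ∈ K
  G_inj : ∀ a ∈ G, a.1 = 0 ↔ a.2 = 0
  H_inj : ∀ a ∈ H, a.1 = 0 ↔ a.2 = 0

/-- The complex graph of a stage. -/
def Stage.cx {K : IntermediateField ℚ ℂ} (s : Stage K) : Submodule ℚ (ℂ × ℂ) :=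
  Pat6.cx s.G s.H

/-- The supply of generic numbers: `t n r`, `r : ℝ`, are positive and algebraically independent
over `K n`, and in `K (n + 1)`. -/
structure Supply (K : ℕ → IntermediateField ℚ ℂ) (t : ℕ → ℝ → ℝ) : Prop where
  mono : Monotone K
  acl : ∀ n, Acl (K n)
  pos : ∀ n r, 0 < t n r
  ai : ∀ n, AlgebraicIndependent (K n) (fun r => (t n r : ℂ))
  mem : ∀ n r, (t n r : ℂ) ∈ K (n + 1)
  all : ∀ x, ∃ n, x ∈ K n

/-- The graph of the function `EE f g` in logarithmic form. -/
noncomputable def gr (f g : ℝ ≃ₗ[ℚ] ℝ) : Submodule ℚ (ℂ × ℂ) :=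
  Pat6.cx (LinearMap.graph (f : ℝ →ₗ[ℚ] ℝ)) (LinearMap.graph (g : ℝ →ₗ[ℚ] ℝ))

/-- The real part of the base space: the graph of the prescribed values of `f`. -/
noncomputable def baseG {ν χ : Type} (e : ℝ) (v w : ν → ℝ) (X Y : χ → ℝ) :
    Submodule ℚ (ℝ × ℝ) :=
  Submodule.span ℚ ({(1, Real.log e)} ∪ Set.range (fun i => (v i, w i)) ∪
    Set.range (fun j => (X j, Y j)))

/-- The imaginary part of the base space: `g p = π`. -/
noncomputable def baseH (p : ℝ) : Submodule ℚ (ℝ × ℝ) := Submodule.span ℚ {(p, Real.pi)}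

/-- The base space. -/
noncomputable def base {ν χ : Type} (e p : ℝ) (v w : ν → ℝ) (X Y : χ → ℝ) :
    Submodule ℚ (ℂ × ℂ) := Pat6.cx (baseG e v w X Y) (baseH p)

/-- Schanuel's inequality with the defect `k` for a function `E`. -/
def Schanuel (E : ℂ → ℂ) (k : ℕ) : Prop :=
  ∀ (n : ℕ) (x : Fin n → ℂ), LinearIndependent ℚ x →
    (n : Cardinal) ≤ Algebra.trdeg ℚ
      (IntermediateField.adjoin ℚ (Set.range x ∪ Set.range fun i => E (x i))) + k

/-- The space spanned by `1`, `p`, `i p`, `l`, `E 1`, `E 1 * l`, `p * l`. -/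
noncomputable def seven (E : ℂ → ℂ) (p l : ℝ) : Submodule ℚ ℂ :=
  Submodule.span ℚ ({1, (p : ℂ), (p : ℂ) * I, (l : ℂ), E 1, E 1 * (l : ℂ), (p : ℂ) * (l : ℂ)} :
    Set ℂ)

/-- Schanuel's inequality for `E` relative to the space `B`: over the field `F` generated by `B`
and `E B`, for numbers which are linearly independent modulo `B`. -/
def Relative (E : ℂ → ℂ) (B : Submodule ℚ ℂ) : Prop :=
  ∀ (n : ℕ) (x : Fin n → ℂ), LinearIndependent ℚ (fun i => B.mkQ (x i)) →
    (n : Cardinal) ≤ Algebra.trdeg (IntermediateField.adjoin ℚ ((B : Set ℂ) ∪ E '' B))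
      (IntermediateField.adjoin (IntermediateField.adjoin ℚ ((B : Set ℂ) ∪ E '' B))
        (Set.range x ∪ Set.range fun i => E (x i)))

end Pool.Agent.Pat6
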