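import Pool.Agent.Pat6.AC
import Pool.Agent.Pat5.Conv0

/-!
# Pat6: subspaces with a transcendence degree smaller than their dimension

`Exc E V K d`: `V` has dimension `m + d` and `V`, `E V` are in the algebraically closed field `K` of
transcendence degree at most `m`.

PROOFS. `Exc.zero`: `n = m = 0`. `Exc.le`: `Schanuel E k` gives `n ≤ trdeg L + k` for
`L = ℚ(x, E x) ≤ K = AC (range w)`, and `trdeg L ≤ trdeg K ≤ m`: the `m` numbers `w` generate a field
over which `K` is algebraic (`Algebra.IsAlgebraic.trdeg_le_cardinalMk`-type lemma, see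
`Mathlib/RingTheory/AlgebraicIndependent/RankAndCardinality.lean` and `ai_of_alg` in
`Pool/Agent/Pat5/AiAlg.lean`; alternatively: an algebraically independent family of `m + 1` elements of
`K` contradicts `Algebra.IsAlgebraic.isTranscendenceBasis_of_le_trdeg_of_finite`), so
`m + d = n ≤ m + k`.
`Exc.mem`: for `z ∈ V = span (range x)` the number `z` is in `K` and `E z` is in `K`: `E (∑ q i x i)` is a
product of values `E (q x)`, whose powers are powers of `E x`; `K` is algebraically closed (induction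
on the span, `E (q • x) ^ q.den = E x ^ q.num` by `IsExp.add`).
`Exc.step`: if `z ∈ V` take `K' = K`, `b = 0`. If `z ∉ V`, `z ∈ K`, `E z ∈ K`: add `z` to the family `x`
(`LinearIndependent.cons` or `linearIndependent_fin_snoc`-type lemma), `K' = K`, `b = 1`. Otherwise
exactly one of `z`, `E z` is in `K`; let `u` be the other one and `K' = AC (range w ∪ {u})`, `b = 0`.
-/

set_option autoImplicit false

namespace Pool.Agent.Pat6

open Complex Pool.Agent.Pat5

/-- See the head of the file. -/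
def Exc (E : ℂ → ℂ) (V : Submodule ℚ ℂ) (K : IntermediateField ℚ ℂ) (d : ℕ) : Prop :=
  ∃ (n m : ℕ) (x : Fin n → ℂ) (w : Fin m → ℂ), LinearIndependent ℚ x ∧
    Submodule.span ℚ (Set.range x) = V ∧ K = AC (Set.range w) ∧
    (∀ i, x i ∈ K ∧ E (x i) ∈ K) ∧ n = m + d

private theorem mem_AC_Exc {W : Set ℂ} {z : ℂ} :
    z ∈ AC W ↔ IsAlgebraic (IntermediateField.adjoin ℚ W) z := by
  rw [AC, IntermediateField.mem_restrictScalars, mem_algebraicClosure_iff]

open Algebra in
open scoped IntermediateField.algebraAdjoinAdjoin in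
private theorem trdeg_gen_Exc {F : Type} [Field F] [Algebra F ℂ] {m : ℕ} (w : Fin m → ℂ)
    (M : IntermediateField F ℂ)
    (hM : ∀ z, z ∈ M ↔ IsAlgebraic (IntermediateField.adjoin F (Set.range w)) z) :
    Algebra.trdeg F M ≤ m := by
  have hwM : ∀ i, w i ∈ M := fun i => (hM _).2 (isAlgebraic_algebraMap
    (⟨w i, IntermediateField.subset_adjoin F _ ⟨i, rfl⟩⟩ :
      IntermediateField.adjoin F (Set.range w)))
  let w' : Fin m → M := fun i => ⟨w i, hwM i⟩
  have hset : (adjoin F (Set.range w')).map M.val = adjoin F (Set.range w) := by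
    rw [AlgHom.map_adjoin]
    congr 1
    rw [← Set.range_comp]
    rfl
  have hinj : Function.Injective M.val := M.val.injective
  let e : adjoin F (Set.range w') ≃ₐ[F] adjoin F (Set.range w) :=
    ((adjoin F (Set.range w')).equivMapOfInjective M.val hinj).trans
      (Subalgebra.equivOfEq _ _ hset)
  have he : ∀ a, ((e a : adjoin F (Set.range w)) : ℂ) = M.val (a : M) := fun a => rfl
  have alg : Algebra.IsAlgebraic (adjoin F (Set.range w')) M := by
    constructor
    intro m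
    have h1 : IsAlgebraic (IntermediateField.adjoin F (Set.range w)) (m : ℂ) := (hM _).1 m.2
    have h2 : IsAlgebraic (adjoin F (Set.range w)) (m : ℂ) :=
      (IsFractionRing.isAlgebraic_iff (adjoin F (Set.range w))
        (IntermediateField.adjoin F (Set.range w)) ℂ).2 h1
    obtain ⟨P, hP0, hP⟩ := h2
    refine ⟨P.map (e.symm : adjoin F (Set.range w) →+* adjoin F (Set.range w')), ?_, ?_⟩
    · rw [Ne, Polynomial.map_eq_zero_iff]
      · exact hP0
      · exact e.symm.injective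
    · apply hinj
      rw [map_zero, ← hP, Polynomial.aeval_def, Polynomial.aeval_def, Polynomial.eval₂_map]
      rw [← AlgHom.coe_toRingHom, Polynomial.hom_eval₂]
      congr 1
      ext a
      have h3 := he (e.symm a)
      rw [AlgEquiv.apply_symm_apply] at h3
      exact h3.symm
  have h1 : Algebra.trdeg F M ≤ Cardinal.mk (Set.range w') :=
    Algebra.IsAlgebraic.trdeg_le_cardinalMk F (Set.range w')
  refine h1.trans (Cardinal.mk_range_le.trans ?_)
  rw [Cardinal.mk_fin]

private theorem trdeg_AC_Exc {m : ℕ} (w : Fin m → ℂ) :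
    Algebra.trdeg ℚ (AC (Set.range w)) ≤ m :=
  trdeg_gen_Exc w _ fun _ => mem_AC_Exc

private theorem rat_Exc {E : ℂ → ℂ} {p : ℝ} (hE : IsExp E p) {K : IntermediateField ℚ ℂ}
    (hK : Acl K) {z : ℂ} (hz : E z ∈ K) (r : ℚ) : E (r * z) ∈ K := by
  refine hK _ ?_
  have h1 : E (r * z) ^ r.den = E z ^ r.num := by
    rw [← hE.nat_mul', ← hE.int_mul']
    congr 1
    have h2 : (r.den : ℂ) * (r : ℂ) = (r.num : ℂ) := by
      have := Rat.den_mul_eq_num r
      exact_mod_cast congrArg (fun q : ℚ => (q : ℂ)) this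
    rw [← mul_assoc, h2]
  refine IsAlgebraic.of_pow r.den_pos ?_
  rw [h1]
  exact isAlgebraic_algebraMap (⟨_, zpow_mem hz r.num⟩ : K)

theorem Exc.zero (E : ℂ → ℂ) : Exc E ⊥ (AC ∅) 0 := by
  refine ⟨0, 0, Fin.elim0, Fin.elim0, linearIndependent_empty_type, ?_, ?_, fun i => i.elim0, rfl⟩
  · rw [Set.range_eq_empty, Submodule.span_empty]
  · rw [Set.range_eq_empty]

theorem Exc.le {E : ℂ → ℂ} {V : Submodule ℚ ℂ} {K : IntermediateField ℚ ℂ} {d k : ℕ}
    (h : Exc E V K d) (hk : Schanuel E k) : d ≤ k := by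
  obtain ⟨n, m, x, w, hli, -, rfl, hx, hn⟩ := h
  have h1 := hk n x hli
  have hle : IntermediateField.adjoin ℚ (Set.range x ∪ Set.range fun i => E (x i)) ≤
      AC (Set.range w) := by
    rw [IntermediateField.adjoin_le_iff]
    rintro _ (⟨i, rfl⟩ | ⟨i, rfl⟩)
    · exact (hx i).1
    · exact (hx i).2
  have h2 := trdeg_le_of_injective (IntermediateField.inclusion hle)
    (IntermediateField.inclusion_injective hle)
  have h3 := h1.trans (add_le_add (h2.trans (trdeg_AC_Exc w)) le_rfl)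
  have h4 : n ≤ m + k := by exact_mod_cast h3
  omega

theorem Exc.acl {E : ℂ → ℂ} {V : Submodule ℚ ℂ} {K : IntermediateField ℚ ℂ} {d : ℕ}
    (h : Exc E V K d) : Acl K := by
  obtain ⟨n, m, x, w, -, -, rfl, -, -⟩ := h
  exact AC_acl _

theorem Exc.mem {E : ℂ → ℂ} {p : ℝ} (hE : IsExp E p) {V : Submodule ℚ ℂ}
    {K : IntermediateField ℚ ℂ} {d : ℕ} (h : Exc E V K d) {z : ℂ} (hz : z ∈ V) :
    z ∈ K ∧ E z ∈ K := by
  have hK := h.acl
  obtain ⟨n, m, x, w, -, rfl, -, hx, -⟩ := h
  induction hz using Submodule.span_induction with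
  | mem y hy =>
    obtain ⟨i, rfl⟩ := hy
    exact hx i
  | zero => exact ⟨zero_mem K, by rw [hE.zero']; exact one_mem K⟩
  | add y y' _ _ h1 h2 =>
    exact ⟨add_mem h1.1 h2.1, by rw [hE.add]; exact mul_mem h1.2 h2.2⟩
  | smul r y _ h1 =>
    rw [Rat.smul_def]
    exact ⟨mul_mem (SubfieldClass.ratCast_mem K r) h1.1, rat_Exc hE hK h1.2 r⟩

theorem Exc.step {E : ℂ → ℂ} {p : ℝ} (hE : IsExp E p) {V : Submodule ℚ ℂ}
    {K : IntermediateField ℚ ℂ} {d : ℕ} (h : Exc E V K d) (z : ℂ) (hz : z ∈ K ∨ E z ∈ K) :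
    ∃ (K' : IntermediateField ℚ ℂ) (b : ℕ), K ≤ K' ∧ z ∈ K' ∧ E z ∈ K' ∧
      Exc E (V ⊔ Submodule.span ℚ {z}) K' (d + b) ∧ (z ∉ V → z ∈ K → E z ∈ K → 1 ≤ b) := by
  by_cases hzV : z ∈ V
  · have h1 := h.mem hE hzV
    refine ⟨K, 0, le_rfl, h1.1, h1.2, ?_, fun hn => absurd hzV hn⟩
    have h2 : V ⊔ Submodule.span ℚ {z} = V := by
      rw [sup_eq_left, Submodule.span_singleton_le_iff_mem]
      exact hzV
    rw [h2]
    exact h
  have hspan : ∀ {n : ℕ} (x : Fin n → ℂ), Submodule.span ℚ (Set.range x) = V →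
      Submodule.span ℚ (Set.range (Fin.cons z x : Fin (n + 1) → ℂ)) =
        V ⊔ Submodule.span ℚ {z} := by
    intro n x hx
    rw [Fin.range_cons, Submodule.span_insert, hx, sup_comm]
  have hli' : ∀ {n : ℕ} (x : Fin n → ℂ), LinearIndependent ℚ x →
      Submodule.span ℚ (Set.range x) = V →
      LinearIndependent ℚ (Fin.cons z x : Fin (n + 1) → ℂ) := by
    intro n x hl hx
    rw [linearIndependent_finCons]
    exact ⟨hl, by rw [hx]; exact hzV⟩
  by_cases hboth : z ∈ K ∧ E z ∈ K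
  · obtain ⟨n, m, x, w, hli, hsp, hKw, hx, hn⟩ := h
    refine ⟨K, 1, le_rfl, hboth.1, hboth.2, ⟨n + 1, m, Fin.cons z x, w, hli' x hli hsp,
      hspan x hsp, hKw, ?_, by omega⟩, fun _ _ _ => le_rfl⟩
    intro i
    refine Fin.cases ?_ (fun j => ?_) i
    · rw [Fin.cons_zero]
      exact hboth
    · rw [Fin.cons_succ]
      exact hx j
  · obtain ⟨u, hu⟩ : ∃ u : ℂ, ∀ K' : IntermediateField ℚ ℂ, K ≤ K' → u ∈ K' →
        z ∈ K' ∧ E z ∈ K' := by
      rcases hz with hz | hz
      · exact ⟨E z, fun K' hK' hu => ⟨hK' hz, hu⟩⟩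
      · exact ⟨z, fun K' hK' hu => ⟨hu, hK' hz⟩⟩
    obtain ⟨n, m, x, w, hli, hsp, hKw, hx, hn⟩ := h
    have hle : K ≤ AC (Set.range (Fin.cons u w : Fin (m + 1) → ℂ)) := by
      rw [hKw]
      refine AC_le (AC_acl _) ?_
      refine Set.Subset.trans ?_ (subset_AC _)
      rw [Fin.range_cons]
      exact Set.subset_insert _ _
    have huK : u ∈ AC (Set.range (Fin.cons u w : Fin (m + 1) → ℂ)) := by
      refine subset_AC _ ?_
      rw [Fin.range_cons]
      exact Set.mem_insert _ _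
    have hzK := hu _ hle huK
    refine ⟨AC (Set.range (Fin.cons u w : Fin (m + 1) → ℂ)), 0, hle, hzK.1, hzK.2,
      ⟨n + 1, m + 1, Fin.cons z x, Fin.cons u w, hli' x hli hsp, hspan x hsp, rfl, ?_,
        by omega⟩, fun _ h1 h2 => absurd ⟨h1, h2⟩ hboth⟩
    intro i
    refine Fin.cases ?_ (fun j => ?_) i
    · rw [Fin.cons_zero]
      exact hzK
    · rw [Fin.cons_succ]
      exact ⟨hle (hx j).1, hle (hx j).2⟩

end Pool.Agent.Pat6
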