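import Pool.Agent.Pat6.Exc
import Pool.Agent.Pat5.Conv1

/-!
# Pat6: the chain of six pairs

PROOF of `chain`. `Exc.zero`, then `Exc.step` for `z = p I, 1, l, e, e l, p l`. The hypothesis of
`Exc.step` holds: `E (p I) = -1`, `1 ∈ K`, `E l = p ∈ K` (from `p I ∈ K` and `I ∈ K`), `e = E 1 ∈ K`
(step `z = 1`), `e l ∈ K` and `p l ∈ K` since `l ∈ K`. `Exc.le` gives that the sum of all `b` is at
most `k`. The conditions: after the first step `p ∈ K`, so `AC {p} ≤ K` (`AC_le`), etc.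
-/

set_option autoImplicit false

namespace Pool.Agent.Pat6

open Complex Pool.Agent.Pat5

/-- `span {p I, 1}`. -/
noncomputable def V2 (p : ℝ) : Submodule ℚ ℂ := Submodule.span ℚ {(p : ℂ) * I, 1}

/-- `span {p I, 1, l}`. -/
noncomputable def V3 (p l : ℝ) : Submodule ℚ ℂ := V2 p ⊔ Submodule.span ℚ {(l : ℂ)}

/-- `span {p I, 1, l, e}`. -/
noncomputable def V4 (p l e : ℝ) : Submodule ℚ ℂ := V3 p l ⊔ Submodule.span ℚ {(e : ℂ)}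

/-- `span {p I, 1, l, e, e l}`. -/
noncomputable def V5 (p l e : ℝ) : Submodule ℚ ℂ :=
  V4 p l e ⊔ Submodule.span ℚ {(e : ℂ) * (l : ℂ)}

private theorem chain_alg {K : IntermediateField ℚ ℂ} (hK : Acl K) {x : ℂ}
    (hx : IsAlgebraic ℚ x) : x ∈ K := hK x (hx.tower_top K)

private theorem chain_V2 (p : ℝ) :
    (⊥ ⊔ Submodule.span ℚ {(p : ℂ) * I}) ⊔ Submodule.span ℚ {(1 : ℂ)} = V2 p := by
  rw [bot_sup_eq, V2, Submodule.span_insert]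

private theorem chain_one (p : ℝ) : (1 : ℂ) ∉ ⊥ ⊔ Submodule.span ℚ {(p : ℂ) * I} := by
  rw [bot_sup_eq, Submodule.mem_span_singleton]
  rintro ⟨q, hq⟩
  have h := congrArg Complex.re hq
  rw [Rat.smul_def] at h
  simp at h

theorem chain {E : ℂ → ℂ} {p l e : ℝ} {k : ℕ} (hE : IsExp E p) (hl : E l = p) (he : E 1 = e)
    (hk : Schanuel E k) : ∃ b : Fin 5 → ℕ, b 0 + b 1 + b 2 + b 3 + b 4 ≤ k ∧
      ((e : ℂ) ∈ AC {(p : ℂ)} → 1 ≤ b 0) ∧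
      ((l : ℂ) ∉ V2 p → (l : ℂ) ∈ AC {(p : ℂ), (e : ℂ)} → 1 ≤ b 1) ∧
      ((e : ℂ) ∉ V3 p l → E e ∈ AC {(p : ℂ), (e : ℂ), (l : ℂ)} → 1 ≤ b 2) ∧
      ((e : ℂ) * l ∉ V4 p l e → E (e * l) ∈ AC {(p : ℂ), (e : ℂ), (l : ℂ)} → 1 ≤ b 3) ∧
      ((p : ℂ) * l ∉ V5 p l e → E (p * l) ∈ AC {(p : ℂ), (e : ℂ), (l : ℂ)} → 1 ≤ b 4) := by
  have h0 := Exc.zero E
  have hI : IsAlgebraic ℚ I := Complex.isIntegral_rat_I.isAlgebraic
  have hpi : IsAlgebraic ℚ (E ((p : ℂ) * I)) := by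
    rw [hE.pI']
    exact isAlgebraic_one.neg
  obtain ⟨K1, b, le1, m1, n1, h1, -⟩ := h0.step hE ((p : ℂ) * I) (Or.inr (alg_mem_AC _ hpi))
  have hp1 : (p : ℂ) ∈ K1 := by
    have h := K1.neg_mem (K1.mul_mem m1 (chain_alg h1.acl hI))
    have h' : -((p : ℂ) * I * I) = p := by
      rw [mul_assoc, I_mul_I]
      ring
    rwa [h'] at h
  obtain ⟨K2, b0, le2, m2, n2, h2, c2⟩ := h1.step hE 1 (Or.inl K1.one_mem)
  rw [chain_V2] at h2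
  rw [he] at n2 c2
  have hp2 : (p : ℂ) ∈ K2 := le2 hp1
  obtain ⟨K3, b1, le3, m3, n3, h3, c3⟩ := h2.step hE (l : ℂ) (Or.inr (by rw [hl]; exact hp2))
  rw [hl] at n3 c3
  have he3 : (e : ℂ) ∈ K3 := le3 n2
  obtain ⟨K4, b2, le4, m4, n4, h4, c4⟩ := h3.step hE (e : ℂ) (Or.inl he3)
  obtain ⟨K5, b3, le5, m5, n5, h5, c5⟩ := h4.step hE ((e : ℂ) * l)
    (Or.inl (K4.mul_mem m4 (le4 m3)))
  obtain ⟨K6, b4, le6, m6, n6, h6, c6⟩ := h5.step hE ((p : ℂ) * l)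
    (Or.inl (K5.mul_mem (le5 (le4 n3)) (le5 (le4 m3))))
  have hsum := h6.le hk
  have a1 : AC {(p : ℂ)} ≤ K1 := by
    refine AC_le h1.acl ?_
    rintro x rfl
    exact hp1
  have a2 : AC {(p : ℂ), (e : ℂ)} ≤ K2 := by
    refine AC_le h2.acl ?_
    rintro x (rfl | rfl)
    · exact hp2
    · exact n2
  have a3 : AC {(p : ℂ), (e : ℂ), (l : ℂ)} ≤ K3 := by
    refine AC_le h3.acl ?_
    rintro x (rfl | rfl | rfl)
    · exact n3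
    · exact he3
    · exact m3
  refine ⟨![b0, b1, b2, b3, b4], ?_, ?_, ?_, ?_, ?_, ?_⟩
  · change b0 + b1 + b2 + b3 + b4 ≤ k
    omega
  · exact fun h => c2 (chain_one p) K1.one_mem (a1 h)
  · exact fun hv h => c3 hv (a2 h) hp2
  · exact fun hv h => c4 hv he3 (a3 h)
  · exact fun hv h => c5 hv (K4.mul_mem m4 (le4 m3)) (le4 (a3 h))
  · exact fun hv h => c6 hv (K5.mul_mem (le5 (le4 n3)) (le5 (le4 m3))) (le5 (le4 (a3 h)))

end Pool.Agent.Pat6
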