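import Pool.Agent.Pat6.Defs

/-!
# Pat6: the theorems of Lindemann and Baker for a function

The converse with the defect (`ExcFa`, `ExcFb`, `Conv2`) uses only these two theorems, which are
proved for the true exponential function in the library.
-/

set_option autoImplicit false

namespace Pool.Agent.Pat6

open Complex Pool.Agent.Pat5

/-- The theorems of Lindemann and Baker for a function `E` in place of the exponential function. -/
structure LWB (E : ℂ → ℂ) : Prop where
  lindemann : ∀ a : ℂ, IsAlgebraic ℚ a → a ≠ 0 → Transcendental ℚ (E a)
  baker : ∀ (n : ℕ) (l : Fin n → ℂ), (∀ i, IsAlgebraic ℚ (E (l i))) →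
    LinearIndependent ℚ l → LinearIndependent Qbar (fun o : Option (Fin n) => o.elim 1 l)

theorem lwb_of_theorems {E : ℂ → ℂ} (hT : Theorems E) : LWB E where
  lindemann a ha ha0 := by
    have h1 := hT.lindemann_weierstrass 1 (fun _ => a) (fun _ => ha)
      (LinearIndependent.of_subsingleton 0 ha0)
    exact h1.transcendental 0
  baker := hT.baker

end Pool.Agent.Pat6
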