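import Pool.Agent.Pat6.ExcCh
import Pool.Agent.Pat6.Lwb

/-!
# Pat6: facts about the six numbers

PROOFS. All numbers are real except `p I`; so a real number in one of the spaces `V2, ..., V5` is
a rational combination without `p I` (compare imaginary parts, `p > 0`): `mem_V2`, `mem_V3`,
`mem_V4`, `mem_V5` (`Submodule.mem_sup`, `Submodule.mem_span_singleton`,
`Submodule.mem_span_pair`).

`tr_e`: Lindemann for `1`. `tr_p`: `E (p I)` is algebraic (its square is `E (2 p I) = 1`); if `p`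
were algebraic, `p I ≠ 0` would be algebraic and `E (p I)` transcendental.
`l_ne`: `E 0 = 1 ≠ p` (`p` is transcendental).

`l_of_D`: `e = u + v l` with `v ≠ 0` as `e` is irrational; so `l = (e - u) / v`, and `l` is
irrational.
`l_of_C`: `l (e - β) = α + γ e`, `e ≠ β`, so `l = (α + γ e) / (e - β)`.
`not_DC`: substitute `e = u + v l` in `e l = α + β l + γ e`: a quadratic equation for `l` with
leading coefficient `v ≠ 0`, so `l` and `e` are algebraic.
-/

set_option autoImplicit false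

namespace Pool.Agent.Pat6

open Complex Pool.Agent.Pat5

variable {E : ℂ → ℂ} {p l e : ℝ}

private theorem V2_form {z : ℂ} (h : z ∈ V2 p) : ∃ a b : ℚ, z = a * (p * I) + b := by
  rw [V2, Submodule.mem_span_pair] at h
  obtain ⟨a, b, hab⟩ := h
  refine ⟨a, b, ?_⟩
  rw [← hab, Rat.smul_def, Rat.smul_def, mul_one]

private theorem V3_form {z : ℂ} (h : z ∈ V3 p l) :
    ∃ a b c : ℚ, z = a * (p * I) + b + c * l := by
  rw [V3, Submodule.mem_sup] at h
  obtain ⟨y, hy, w, hw, rfl⟩ := h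
  obtain ⟨a, b, rfl⟩ := V2_form hy
  obtain ⟨c, rfl⟩ := Submodule.mem_span_singleton.1 hw
  exact ⟨a, b, c, by rw [Rat.smul_def]⟩

private theorem V4_form {z : ℂ} (h : z ∈ V4 p l e) :
    ∃ a b c d : ℚ, z = a * (p * I) + b + c * l + d * e := by
  rw [V4, Submodule.mem_sup] at h
  obtain ⟨y, hy, w, hw, rfl⟩ := h
  obtain ⟨a, b, c, rfl⟩ := V3_form hy
  obtain ⟨d, rfl⟩ := Submodule.mem_span_singleton.1 hw
  exact ⟨a, b, c, d, by rw [Rat.smul_def]⟩

private theorem V5_form {z : ℂ} (h : z ∈ V5 p l e) :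
    ∃ a b c d f : ℚ, z = a * (p * I) + b + c * l + d * e + f * (e * l) := by
  rw [V5, Submodule.mem_sup] at h
  obtain ⟨y, hy, w, hw, rfl⟩ := h
  obtain ⟨a, b, c, d, rfl⟩ := V4_form hy
  obtain ⟨f, rfl⟩ := Submodule.mem_span_singleton.1 hw
  exact ⟨a, b, c, d, f, by rw [Rat.smul_def]⟩

/-- Comparison of real and imaginary parts. -/
private theorem cmp (hp : 0 < p) {a : ℚ} {x y : ℝ}
    (h : (y : ℂ) = a * (p * I) + (x : ℂ)) : (a : ℝ) * p = 0 ∧ x = y := by
  constructor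
  · have h1 := congrArg Complex.im h
    simp at h1
    rcases h1 with h1 | h1
    · rw [h1]; simp
    · exact absurd h1 hp.ne'
  · have h1 := congrArg Complex.re h
    simp at h1
    exact h1.symm

theorem mem_V2 (hp : 0 < p) : (l : ℂ) ∈ V2 p ↔ ∃ q : ℚ, l = q := by
  constructor
  · intro h
    obtain ⟨a, b, hab⟩ := V2_form h
    obtain ⟨-, h2⟩ := cmp hp (a := a) (x := b) (y := l) (by rw [hab]; push_cast; ring)
    exact ⟨b, h2.symm⟩
  · rintro ⟨q, rfl⟩
    rw [V2, Submodule.mem_span_pair]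
    exact ⟨0, q, by rw [zero_smul, zero_add, Rat.smul_def, mul_one, ofReal_ratCast]⟩

theorem mem_V3 (hp : 0 < p) (h : (e : ℂ) ∈ V3 p l) : ∃ u v : ℚ, e = u + v * l := by
  obtain ⟨a, b, c, hab⟩ := V3_form h
  obtain ⟨-, h2⟩ := cmp hp (a := a) (x := b + c * l) (y := e) (by rw [hab]; push_cast; ring)
  exact ⟨b, c, h2.symm⟩

theorem mem_V4 (hp : 0 < p) (h : (e : ℂ) * l ∈ V4 p l e) :
    ∃ α β γ : ℚ, e * l = α + β * l + γ * e := by
  obtain ⟨a, b, c, d, hab⟩ := V4_form h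
  obtain ⟨-, h2⟩ := cmp hp (a := a) (x := b + c * l + d * e) (y := e * l)
    (by rw [ofReal_mul, hab]; push_cast; ring)
  exact ⟨b, c, d, h2.symm⟩

theorem mem_V5 (hp : 0 < p) (h : (p : ℂ) * l ∈ V5 p l e) :
    ∃ α β γ δ : ℚ, p * l = α + β * l + γ * e + δ * (e * l) := by
  obtain ⟨a, b, c, d, f, hab⟩ := V5_form h
  obtain ⟨-, h2⟩ := cmp hp (a := a) (x := b + c * l + d * e + f * (e * l)) (y := p * l)
    (by rw [ofReal_mul, hab]; push_cast; ring)
  exact ⟨b, c, d, f, h2.symm⟩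

theorem exists_e (hE : IsExp E p) : ∃ e : ℝ, 0 < e ∧ E 1 = e := by
  have h1 := hE.conj 1
  rw [map_one] at h1
  obtain ⟨r, hr⟩ := Complex.conj_eq_iff_real.1 h1.symm
  have h2 := hE.real 1
  rw [ofReal_one, hr, ofReal_re] at h2
  exact ⟨r, h2, hr⟩

theorem tr_e (hE : IsExp E p) (hT : LWB E) (he : E 1 = e) : Transcendental ℚ (e : ℂ) := by
  have h2 := hT.lindemann 1 isAlgebraic_one one_ne_zero
  rwa [he] at h2

theorem tr_p (hE : IsExp E p) (hT : LWB E) : Transcendental ℚ (p : ℂ) := by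
  intro hp
  have h1 : E ((p : ℂ) * I) * E ((p : ℂ) * I) = 1 := by
    rw [← hE.add]
    exact (hE.ker _).2 ⟨1, by push_cast; ring⟩
  have h2 : IsAlgebraic ℚ (E ((p : ℂ) * I)) := by
    refine IsAlgebraic.of_pow (n := 2) two_pos ?_
    rw [pow_two, h1]
    exact isAlgebraic_one
  have hI : IsAlgebraic ℚ ((p : ℂ) * I) := hp.mul Complex.isIntegral_rat_I.isAlgebraic
  exact hT.lindemann _ hI (mul_ne_zero (ofReal_ne_zero.2 hE.pos.ne') I_ne_zero) h2

theorem l_ne (hE : IsExp E p) (hT : LWB E) (hl : E l = p) : l ≠ 0 := by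
  rintro rfl
  have h1 : E 0 = 1 := (hE.ker 0).2 ⟨0, by push_cast; ring⟩
  rw [ofReal_zero, h1] at hl
  have h2 := tr_p hE hT
  rw [← hl] at h2
  exact h2 isAlgebraic_one

private theorem rat_mem (K : IntermediateField ℚ ℂ) (q : ℚ) : (q : ℂ) ∈ K :=
  K.algebraMap_mem q

private theorem v_ne (hE : IsExp E p) (hT : LWB E) (he : E 1 = e) {u v : ℚ}
    (h : e = u + v * l) : v ≠ 0 := by
  rintro rfl
  have h1 := tr_e hE hT he
  rw [h] at h1
  apply h1
  have : (((u : ℝ) + ((0 : ℚ) : ℝ) * l : ℝ) : ℂ) = algebraMap ℚ ℂ u := by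
    push_cast
    simp
  rw [this]
  exact isAlgebraic_algebraMap _

theorem l_of_D (hE : IsExp E p) (hT : LWB E) (he : E 1 = e) (h : (e : ℂ) ∈ V3 p l) :
    (l : ℂ) ∉ V2 p ∧ (l : ℂ) ∈ AC {(e : ℂ)} := by
  obtain ⟨u, v, huv⟩ := mem_V3 hE.pos h
  have hv := v_ne hE hT he huv
  constructor
  · rw [mem_V2 hE.pos]
    rintro ⟨q, rfl⟩
    have h1 := tr_e hE hT he
    rw [huv] at h1
    apply h1
    have : (((u : ℝ) + v * q : ℝ) : ℂ) = algebraMap ℚ ℂ (u + v * q) := by
      push_cast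
      simp
    rw [this]
    exact isAlgebraic_algebraMap _
  · have h1 : (l : ℂ) = (e - u) / v := by
      have hv' : (v : ℂ) ≠ 0 := Rat.cast_ne_zero.2 hv
      rw [eq_div_iff hv', huv]
      push_cast
      ring
    rw [h1]
    have he' : (e : ℂ) ∈ AC {(e : ℂ)} := subset_AC _ (Set.mem_singleton _)
    exact div_mem (sub_mem he' (rat_mem _ u)) (rat_mem _ v)

theorem l_of_C (hE : IsExp E p) (hT : LWB E) (he : E 1 = e)
    (h : (e : ℂ) * l ∈ V4 p l e) : (l : ℂ) ∈ AC {(e : ℂ)} := by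
  obtain ⟨α, β, γ, h1⟩ := mem_V4 hE.pos h
  have h2 : (e : ℂ) - β ≠ 0 := by
    intro h3
    have h4 := tr_e hE hT he
    rw [sub_eq_zero.1 h3] at h4
    exact h4 (isAlgebraic_algebraMap (A := ℂ) β)
  have h1' : (e : ℂ) * l = α + β * l + γ * e := by
    have := congrArg (fun x : ℝ => (x : ℂ)) h1
    push_cast at this
    exact this
  have h3 : (l : ℂ) = (α + γ * e) / (e - β) := by
    rw [eq_div_iff h2]
    linear_combination h1'
  rw [h3]
  have he' : (e : ℂ) ∈ AC {(e : ℂ)} := subset_AC _ (Set.mem_singleton _)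
  exact div_mem (add_mem (rat_mem _ α) (mul_mem (rat_mem _ γ) he')) (sub_mem he' (rat_mem _ β))

theorem not_DC (hE : IsExp E p) (hT : LWB E) (he : E 1 = e) (h : (e : ℂ) ∈ V3 p l)
    (h' : (e : ℂ) * l ∈ V4 p l e) : False := by
  obtain ⟨u, v, huv⟩ := mem_V3 hE.pos h
  obtain ⟨α, β, γ, h1⟩ := mem_V4 hE.pos h'
  have hv := v_ne hE hT he huv
  have hl : IsAlgebraic ℚ (l : ℂ) := by
    refine ⟨Polynomial.C v * Polynomial.X ^ 2 + Polynomial.C (u - β - γ * v) * Polynomial.X +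
      Polynomial.C (-(α + γ * u)), ?_, ?_⟩
    · intro h2
      have h3 := congrArg (fun P => Polynomial.coeff P 2) h2
      simp [Polynomial.coeff_X, Polynomial.coeff_C] at h3
      exact hv h3
    · have h2 : (v : ℝ) * l ^ 2 + (u - β - γ * v) * l + -(α + γ * u) = 0 := by
        rw [huv] at h1
        linear_combination h1
      have h3 := congrArg (fun x : ℝ => (x : ℂ)) h2
      push_cast at h3
      simp only [map_add, map_mul, Polynomial.aeval_C, map_pow, Polynomial.aeval_X]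
      simp
      linear_combination h3
  have h2 := tr_e hE hT he
  apply h2
  rw [huv, ofReal_add, ofReal_mul, ofReal_ratCast, ofReal_ratCast]
  exact (isAlgebraic_algebraMap (A := ℂ) u).add ((isAlgebraic_algebraMap (A := ℂ) v).mul hl)

end Pool.Agent.Pat6
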