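import Pool.Agent.Pat6.ExcFa
import Pool.Agent.Pat5.Conv1

/-!
# Pat6: facts about the six numbers, second part

PROOFS. `e_of_rat`: `l = q`, so `p ^ den = E (q) ^ den = E (num) = e ^ num` and `q ≠ 0`: `e` is
algebraic over `ℚ(p)`. (`E (n) = e ^ n` for integers `n` by `IsExp.add`.)
`not_rat_A`: `p = A - e` and `(A - e) ^ den = e ^ num`: if `num ≥ 0` the polynomial
`(A - X) ^ den - X ^ num` has the value `- A ^ num ≠ 0` at `A` (`A > 0`), so it is not zero, and `e`
is algebraic; if `num < 0` take `(A - X) ^ den * X ^ (-num) - 1`, with value `-1` at `A`.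
`not_rat_B`: `p = B / e`, `B ^ den = e ^ (num + den)`; if `num + den ≠ 0` then `e` is algebraic, so
`num = - den` and `B ^ den = 1`, `B = 1` (`B > 0`), which is excluded.
`not_rat_E`: `l = q ≠ 0`: `E (p q)` is algebraic, so `E p` is (powers), and `p`, `p I` are two
`ℚ`-independent numbers with algebraic values, so `1, p, p I` are linearly independent over `Qbar`
by Baker, but `p I = I * p`.
`E_in`: `p l = α + β l + γ e + δ e l`, i.e. `l (p - β - δ e) = α + γ e`. If `p = β + δ e` we are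
in the second case; here `δ ≠ 0` as `p` is irrational, so `e = (p - β) / δ ∈ AC {p}`. Otherwise
`l = (α + γ e) / (p - β - δ e) ∈ AC {p, e}`; moreover `α + γ e ≠ 0` (else `l = 0`), so
`p = β + δ e + (α + γ e) / l`; if `l ∈ AC {e}` then `p ∈ AC {e}` and `e ∈ AC {p}` by `exchange`.
`not_BE`: `B = p e = β e + δ e ^ 2` makes `e` algebraic unless `β = δ = 0`; but `B ≠ 0` (`p, e > 0`).
`C_of_AE`: `e l = A l - p l`, so `E (e l) = E (A l) / E (p l)`, `E (A l) ^ den = p ^ num`.
-/

set_option autoImplicit false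

namespace Pool.Agent.Pat6

open Complex Pool.Agent.Pat5

variable {E : ℂ → ℂ} {p l e : ℝ}

private theorem fb_isAlg_I : IsAlgebraic ℚ I := by
  refine IsAlgebraic.of_pow (n := 2) two_pos ?_
  rw [I_sq]
  exact isAlgebraic_one.neg

/-- Baker's theorem for a real logarithm and `p I`. -/
private theorem fb_baker (h : IsExp E p) (hT : LWB E) {x : ℝ} (hx : x ≠ 0)
    (hxa : IsAlgebraic ℚ (E x)) : LinearIndependent Qbar ![1, (x : ℂ), (p : ℂ)] := by
  have h1 : LinearIndependent ℚ ![(x : ℂ), (p : ℂ) * I] := by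
    rw [LinearIndependent.pair_iff]
    intro s t hst
    rw [Rat.smul_def, Rat.smul_def] at hst
    have hre := congrArg Complex.re hst
    have him := congrArg Complex.im hst
    simp at hre him
    exact ⟨hre.resolve_right hx, him.resolve_right h.pos.ne'⟩
  have h2 := hT.baker 2 ![(x : ℂ), (p : ℂ) * I] (fun i => by
    fin_cases i
    · exact hxa
    · show IsAlgebraic ℚ (E ((p : ℂ) * I))
      rw [h.pI']
      exact isAlgebraic_one.neg) h1
  rw [Fintype.linearIndependent_iff] at h2 ⊢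
  intro g hg
  let j : Qbar := ⟨I, mem_Qbar.2 fb_isAlg_I⟩
  have hj : (j : ℂ) = I := rfl
  have h3 := h2 (fun o => o.elim (g 0) ![g 1, -(g 2 * j)]) (by
    rw [Fintype.sum_option, Fin.sum_univ_two]
    rw [Fin.sum_univ_three] at hg
    simp only [Option.elim_none, Option.elim_some, Matrix.cons_val_zero, Matrix.cons_val_one,
      Matrix.cons_val] at hg ⊢
    rw [← hg]
    simp only [Algebra.smul_def, IntermediateField.algebraMap_apply, IntermediateField.coe_neg,
      IntermediateField.coe_mul, hj]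
    ring_nf
    rw [I_sq]
    ring)
  have e0 := h3 none
  have e1 := h3 (some 0)
  have e2 := h3 (some 1)
  simp only [Option.elim_none, Option.elim_some, Matrix.cons_val_zero, Matrix.cons_val_one,
    neg_eq_zero, mul_eq_zero] at e0 e1 e2
  have hj0 : j ≠ 0 := by
    intro hh
    have := congrArg (fun z : Qbar => (z : ℂ)) hh
    simp only [hj, ZeroMemClass.coe_zero] at this
    exact I_ne_zero this
  intro i
  fin_cases i
  · exact e0
  · exact e1
  · exact e2.resolve_right hj0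

private theorem fb_rat (W : Set ℂ) (q : ℚ) : (q : ℂ) ∈ AC W :=
  alg_mem_AC W (isAlgebraic_algebraMap (A := ℂ) q)

private theorem fb_self (x : ℂ) : x ∈ AC {x} := subset_AC {x} rfl

private theorem fb_pow {W : Set ℂ} {x : ℂ} {n : ℕ} (hn : 0 < n) (h : x ^ n ∈ AC W) :
    x ∈ AC W := by
  refine AC_acl W x (IsAlgebraic.of_pow hn ?_)
  exact isAlgebraic_algebraMap (A := ℂ) (⟨x ^ n, h⟩ : AC W)

private theorem fb_zpow {W : Set ℂ} {x : ℂ} {n : ℤ} (hn : n ≠ 0) (h : x ^ n ∈ AC W) :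
    x ∈ AC W := by
  cases n with
  | ofNat n =>
    rw [Int.ofNat_eq_natCast, zpow_natCast] at h
    refine fb_pow (Nat.pos_of_ne_zero ?_) h
    rintro rfl
    exact hn rfl
  | negSucc n =>
    rw [zpow_negSucc] at h
    have h1 := (AC W).inv_mem h
    rw [inv_inv] at h1
    exact fb_pow (Nat.succ_pos n) h1

/-- The relation between `p` and `e` if `l` is rational. -/
private theorem fb_eq (hE : IsExp E p) (he : E 1 = e) (hl : E l = p) {q : ℚ} (h : l = q) :
    (p : ℂ) ^ q.den = (e : ℂ) ^ q.num := by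
  rw [← hl, ← he, ← hE.nat_mul', ← hE.int_mul', mul_one, h, ofReal_ratCast]
  congr 1
  have := Rat.den_mul_eq_num q
  exact_mod_cast congrArg (fun q : ℚ => (q : ℂ)) this

private theorem fb_q_ne (hE : IsExp E p) (hT : LWB E) (hl : E l = p) {q : ℚ}
    (h : l = q) : q ≠ 0 := by
  intro h0
  rw [h0, Rat.cast_zero] at h
  exact l_ne hE hT hl h

theorem e_of_rat (hE : IsExp E p) (hT : LWB E) (he : E 1 = e) (hl : E l = p)
    (h : (l : ℂ) ∈ V2 p) : (e : ℂ) ∈ AC {(p : ℂ)} := by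
  obtain ⟨q, hq⟩ := (mem_V2 hE.pos).1 h
  have h1 := fb_eq hE he hl hq
  refine fb_zpow (n := q.num) (Rat.num_ne_zero.2 (fb_q_ne hE hT hl hq)) ?_
  rw [← h1]
  exact pow_mem (fb_self (p : ℂ)) q.den

theorem not_rat_A (hE : IsExp E p) (hT : LWB E) (he : E 1 = e) (he0 : 0 < e)
    (hl : E l = p) (h : (l : ℂ) ∈ V2 p) {A : ℚ} (hA : (p : ℂ) + e = A) : False := by
  obtain ⟨q, hq⟩ := (mem_V2 hE.pos).1 h
  have h1 := fb_eq hE he hl hq
  have hp : (p : ℂ) = A - e := by rw [← hA]; ring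
  have hA' : p + e = A := by
    have : ((p + e : ℝ) : ℂ) = ((A : ℝ) : ℂ) := by
      rw [ofReal_add, hA, ofReal_ratCast]
    exact ofReal_injective this
  have hA0 : A ≠ 0 := by
    intro h0
    rw [h0, Rat.cast_zero] at hA'
    have := hE.pos
    linarith
  have hec : (e : ℂ) ≠ 0 := ofReal_ne_zero.2 he0.ne'
  refine tr_e hE hT he ?_
  rw [hp] at h1
  have hqd : q.den ≠ 0 := q.den_nz
  cases hn : q.num with
  | ofNat n =>
    rw [hn, Int.ofNat_eq_natCast, zpow_natCast] at h1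
    refine ⟨(Polynomial.C A - Polynomial.X) ^ q.den - Polynomial.X ^ n, ?_, ?_⟩
    · intro h0
      have h2 := congrArg (Polynomial.eval A) h0
      simp [hqd, hA0] at h2
    · simp only [map_sub, map_pow, Polynomial.aeval_C, Polynomial.aeval_X]
      rw [← h1]
      simp
  | negSucc n =>
    rw [hn, zpow_negSucc] at h1
    refine ⟨(Polynomial.C A - Polynomial.X) ^ q.den * Polynomial.X ^ (n + 1) - 1, ?_, ?_⟩
    · intro h0
      have h2 := congrArg (Polynomial.eval A) h0
      simp [hqd] at h2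
    · simp only [map_sub, map_mul, map_one, map_pow, Polynomial.aeval_C, Polynomial.aeval_X]
      have h3 : ((algebraMap ℚ ℂ) A - (e : ℂ)) ^ q.den = ((e : ℂ) ^ (n + 1))⁻¹ := h1
      rw [h3, inv_mul_cancel₀ (pow_ne_zero _ hec), sub_self]

theorem not_rat_B (hE : IsExp E p) (hT : LWB E) (he : E 1 = e) (he0 : 0 < e)
    (hl : E l = p) (h : (l : ℂ) ∈ V2 p) {B : ℚ} (hB : (p : ℂ) * e = B)
    (hne : (p : ℂ) * e ≠ 1) : False := by
  obtain ⟨q, hq⟩ := (mem_V2 hE.pos).1 h
  have h1 := fb_eq hE he hl hq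
  have hec : (e : ℂ) ≠ 0 := ofReal_ne_zero.2 he0.ne'
  have hB' : p * e = B := by
    have : ((p * e : ℝ) : ℂ) = ((B : ℝ) : ℂ) := by
      rw [ofReal_mul, hB, ofReal_ratCast]
    exact ofReal_injective this
  have hB0 : 0 < B := by
    have : (0 : ℝ) < B := by
      rw [← hB']
      exact mul_pos hE.pos he0
    exact_mod_cast this
  have h2 : ((B ^ q.den : ℚ) : ℂ) = (e : ℂ) ^ (q.num + q.den) := by
    rw [Rat.cast_pow, ← hB, mul_pow, h1, zpow_add₀ hec, zpow_natCast]
  by_cases h3 : q.num + q.den = 0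
  · rw [h3, zpow_zero] at h2
    have h4 : B ^ q.den = 1 := by exact_mod_cast h2
    have h5 : B = 1 := (pow_eq_one_iff_of_nonneg hB0.le q.den_nz).1 h4
    apply hne
    rw [hB, h5, Rat.cast_one]
  · refine tr_e hE hT he ?_
    have h4 : IsAlgebraic ℚ ((e : ℂ) ^ (q.num + q.den)) := by
      rw [← h2]
      exact isAlgebraic_algebraMap (A := ℂ) (B ^ q.den)
    generalize q.num + (q.den : ℤ) = m at h3 h4
    cases m with
    | ofNat n =>
      rw [Int.ofNat_eq_natCast, zpow_natCast] at h4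
      refine IsAlgebraic.of_pow (n := n) (Nat.pos_of_ne_zero ?_) h4
      rintro rfl
      exact h3 rfl
    | negSucc n =>
      rw [zpow_negSucc] at h4
      have h5 := h4.inv
      rw [inv_inv] at h5
      exact IsAlgebraic.of_pow (Nat.succ_pos n) h5

theorem not_rat_E (hE : IsExp E p) (hT : LWB E) (hl : E l = p)
    (h : IsAlgebraic ℚ (E (p * l))) : (l : ℂ) ∉ V2 p := by
  intro hV
  obtain ⟨q, hq⟩ := (mem_V2 hE.pos).1 hV
  have hq0 := fb_q_ne hE hT hl hq
  have h1 : IsAlgebraic ℚ (E (p : ℂ)) := by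
    have h2 := hE.alg_rat' h q⁻¹
    have h3 : ((q⁻¹ : ℚ) : ℂ) * ((p : ℂ) * l) = p := by
      rw [hq, ofReal_ratCast, Rat.cast_inv]
      have : (q : ℂ) ≠ 0 := by exact_mod_cast hq0
      field_simp
    rwa [h3] at h2
  have h4 := fb_baker hE hT hE.pos.ne' h1
  have h5 := h4.injective (a₁ := 1) (a₂ := 2) rfl
  exact absurd h5 (by decide)

theorem E_in (hE : IsExp E p) (hT : LWB E) (he : E 1 = e) (hl : E l = p)
    (h : (p : ℂ) * l ∈ V5 p l e) :
    ((l : ℂ) ∈ AC {(p : ℂ), (e : ℂ)} ∧ ((l : ℂ) ∈ AC {(e : ℂ)} → (e : ℂ) ∈ AC {(p : ℂ)})) ∨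
      ((∃ β δ : ℚ, p = β + δ * e) ∧ (e : ℂ) ∈ AC {(p : ℂ)}) := by
  obtain ⟨α, β, γ, δ, h1⟩ := mem_V5 hE.pos h
  have h1c : (p : ℂ) * l = α + β * l + γ * e + δ * (e * l) := by exact_mod_cast h1
  have hl0 : (l : ℂ) ≠ 0 := ofReal_ne_zero.2 (l_ne hE hT hl)
  by_cases h2 : p = β + δ * e
  · right
    refine ⟨⟨β, δ, h2⟩, ?_⟩
    have h2c : (p : ℂ) = β + δ * e := by exact_mod_cast h2
    have hδ : (δ : ℂ) ≠ 0 := by
      intro h0
      rw [h0, zero_mul, add_zero] at h2c
      refine tr_p hE hT ?_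
      rw [h2c]
      exact isAlgebraic_algebraMap (A := ℂ) β
    have h3 : (e : ℂ) = ((p : ℂ) - β) / δ := by
      rw [h2c]
      field_simp
      ring
    rw [h3]
    exact (AC _).div_mem ((AC _).sub_mem (fb_self _) (fb_rat _ _)) (fb_rat _ _)
  · left
    have h2c : (p : ℂ) - β - δ * e ≠ 0 := by
      intro h0
      apply h2
      have h3 : (p : ℂ) = β + δ * e := by linear_combination h0
      exact_mod_cast h3
    have h3 : (l : ℂ) = (α + γ * e) / ((p : ℂ) - β - δ * e) := by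
      rw [eq_div_iff h2c]
      linear_combination h1c
    constructor
    · have hp : (p : ℂ) ∈ AC {(p : ℂ), (e : ℂ)} := subset_AC _ (by simp)
      have he' : (e : ℂ) ∈ AC {(p : ℂ), (e : ℂ)} := subset_AC _ (by simp)
      rw [h3]
      exact (AC _).div_mem ((AC _).add_mem (fb_rat _ _) ((AC _).mul_mem (fb_rat _ _) he'))
        ((AC _).sub_mem ((AC _).sub_mem hp (fb_rat _ _)) ((AC _).mul_mem (fb_rat _ _) he'))
    · intro h4
      have h5 : (p : ℂ) = β + δ * e + (α + γ * e) / l := by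
        field_simp
        linear_combination h1c
      have h6 : (p : ℂ) ∈ AC {(e : ℂ)} := by
        rw [h5]
        exact (AC _).add_mem ((AC _).add_mem (fb_rat _ _) ((AC _).mul_mem (fb_rat _ _)
          (fb_self _))) ((AC _).div_mem ((AC _).add_mem (fb_rat _ _) ((AC _).mul_mem
          (fb_rat _ _) (fb_self _))) h4)
      exact exchange h6 (tr_p hE hT)

theorem not_BE (hE : IsExp E p) (hT : LWB E) (he : E 1 = e) (he0 : 0 < e) {B : ℚ}
    (hB : (p : ℂ) * e = B) {β δ : ℚ} (h : p = β + δ * e) : False := by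
  have hB' : p * e = B := by
    have : ((p * e : ℝ) : ℂ) = ((B : ℝ) : ℂ) := by
      rw [ofReal_mul, hB, ofReal_ratCast]
    exact ofReal_injective this
  have hB0 : B ≠ 0 := by
    intro h0
    rw [h0, Rat.cast_zero] at hB'
    exact (mul_pos hE.pos he0).ne' hB'
  have hc : (p : ℂ) = β + δ * e := by exact_mod_cast h
  refine tr_e hE hT he ⟨Polynomial.C δ * Polynomial.X ^ 2 + Polynomial.C β * Polynomial.X -
    Polynomial.C B, ?_, ?_⟩
  · intro h0
    have h2 := congrArg (Polynomial.eval 0) h0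
    simp [hB0] at h2
  · simp only [map_sub, map_add, map_mul, map_pow, Polynomial.aeval_C, Polynomial.aeval_X,
      eq_ratCast]
    rw [← hB, hc]
    ring

theorem C_of_AE (hE : IsExp E p) (hl : E l = p) {A : ℚ} (hA : (p : ℂ) + e = A)
    (h : IsAlgebraic ℚ (E (p * l))) : E (e * l) ∈ AC {(p : ℂ), (e : ℂ), (l : ℂ)} := by
  have h1 : (e : ℂ) * l = A * l + -(p * l) := by rw [← hA]; ring
  rw [h1, hE.add, hE.neg']
  refine (AC _).mul_mem ?_ ((AC _).inv_mem (alg_mem_AC _ h))
  have h2 : E (A * l) ^ A.den = E l ^ A.num := by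
    rw [← hE.nat_mul', ← hE.int_mul', ← mul_assoc]
    congr 2
    have := Rat.den_mul_eq_num A
    exact_mod_cast congrArg (fun q : ℚ => (q : ℂ)) this
  refine fb_pow A.den_pos ?_
  rw [h2, hl]
  exact zpow_mem (subset_AC {(p : ℂ), (e : ℂ), (l : ℂ)} (by simp)) A.num

theorem e_of_A {A : ℚ} (hA : (p : ℂ) + e = A) : (e : ℂ) ∈ AC {(p : ℂ)} := by
  have h1 : (e : ℂ) = A - p := by rw [← hA]; ring
  rw [h1]
  exact (AC _).sub_mem (fb_rat _ _) (fb_self _)

theorem e_of_B {B : ℚ} (hp : 0 < p) (hB : (p : ℂ) * e = B) : (e : ℂ) ∈ AC {(p : ℂ)} := by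
  have hpc : (p : ℂ) ≠ 0 := ofReal_ne_zero.2 hp.ne'
  have h1 : (e : ℂ) = B / p := by
    rw [← hB]
    field_simp
  rw [h1]
  exact (AC _).div_mem (fb_rat _ _) (fb_self _)

end Pool.Agent.Pat6
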