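import Pool.Agent.Pat6.UTow
import Pool.Agent.Pat5.AiAlg
import Pool.Agent.Pat5.Conv0

/-!
# Pat6: the theorem of Nesterenko and instances of the one of Brownawell and Waldschmidt

`rel_tr`: a number which is algebraic over the field `F` of `B` and `E B` and not in `B` has a value
which is transcendental over `F`. For `E 1 ^ 2`, `p ^ 2` and `√d p`, which are not in `seven E p l`,
this gives `Extra E p`.
-/

set_option autoImplicit false

namespace Pool.Agent.Pat6

open Complex Pool.Agent.Pat5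

/-- The theorem of Nesterenko on `π` and `exp (π √d)`, and the independence statements which imply
the theorem of Brownawell and Waldschmidt on `exp e`, `exp (e ^ 2)` and the one on `exp (π ^ 2)`, for
`E`, `p` in place of the exponential function and `π`. -/
structure Extra (E : ℂ → ℂ) (p : ℝ) : Prop where
  nesterenko : ∀ d : ℕ, 0 < d → AlgebraicIndependent ℚ ![(p : ℂ), E ((Real.sqrt d * p : ℝ) : ℂ)]
  sq_e : AlgebraicIndependent ℚ ![E 1, E (E 1 ^ 2)]
  sq_p : AlgebraicIndependent ℚ ![(p : ℂ), E ((p : ℂ) ^ 2)]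

/-- The field generated by `B` and `E B`. -/
noncomputable abbrev FB (E : ℂ → ℂ) (B : Submodule ℚ ℂ) : IntermediateField ℚ ℂ :=
  IntermediateField.adjoin ℚ ((B : Set ℂ) ∪ E '' B)

theorem rel_tr {E : ℂ → ℂ} {B : Submodule ℚ ℂ} (h : Relative E B) {x : ℂ} (hx : x ∉ B)
    (hxa : IsAlgebraic (FB E B) x) : Transcendental (FB E B) (E x) := by
  intro hE
  have h1 := h 1 (fun _ => x) (by
    rw [linearIndependent_unique_iff]
    exact fun h0 => hx ((Submodule.Quotient.mk_eq_zero B).1 h0))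
  have h2 : Algebra.IsAlgebraic (FB E B) (IntermediateField.adjoin (FB E B)
      ((Set.range fun _ : Fin 1 => x) ∪ Set.range fun _ : Fin 1 => E x)) := by
    refine IntermediateField.isAlgebraic_adjoin ?_
    rintro y (⟨i, rfl⟩ | ⟨i, rfl⟩)
    · exact hxa.isIntegral
    · exact hE.isIntegral
  have h3 : Algebra.trdeg (FB E B) (IntermediateField.adjoin (FB E B)
      ((Set.range fun _ : Fin 1 => x) ∪ Set.range fun _ : Fin 1 => E x)) = 0 :=
    _root_.trdeg_eq_zero
  rw [h3] at h1
  simp at h1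

/-- Two numbers. -/
private theorem ai_two (F : IntermediateField ℚ ℂ) {x y : ℂ} (hx : Transcendental ℚ x)
    (hxF : x ∈ F) (hy : Transcendental F y) : AlgebraicIndependent ℚ ![x, y] := by
  have h1 : AlgebraicIndependent ℚ ![x] := by
    rw [algebraicIndependent_unique_type_iff]
    exact hx
  have h2 : AlgebraicIndependent F ![y] := by
    rw [algebraicIndependent_unique_type_iff]
    exact hy
  have h3 := ai_sum F h1 (fun i => by fin_cases i; exact hxF) h2
  have h4 := h3.comp (![Sum.inl 0, Sum.inr 0] : Fin 2 → Fin 1 ⊕ Fin 1) (by decide)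
  convert h4 using 1
  funext i
  fin_cases i <;> rfl

variable {E : ℂ → ℂ} {e p l : ℝ}

private theorem mem_FB {B : Submodule ℚ ℂ} {x : ℂ} (hx : x ∈ B) : x ∈ FB E B :=
  IntermediateField.subset_adjoin _ _ (Or.inl hx)

/-- The numbers `e ^ 2`, `p ^ 2`, `√d p` are not rational combinations of `1`, `p`, `e`, and there is
a field which contains `e` and `p` and does not contain `l`. -/
structure Far (e p l : ℝ) : Prop where
  sq_e : ∀ a b f : ℚ, e ^ 2 ≠ a + b * p + f * e
  sq_p : ∀ a b f : ℚ, p ^ 2 ≠ a + b * p + f * e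
  sqrt : ∀ d : ℕ, ¬ IsSquare d → ∀ a b f : ℚ, Real.sqrt d * p ≠ a + b * p + f * e
  fld : ∃ K : IntermediateField ℚ ℂ, (∀ x : ℂ, IsAlgebraic ℚ x → x ∈ K) ∧ (e : ℂ) ∈ K ∧
    (p : ℂ) ∈ K ∧ (l : ℂ) ∉ K

/-- A real number in the field generated by `e`, `p` and the algebraic numbers which is in `seven` is
a rational combination of `1`, `p`, `e`. -/
private theorem form (hE1 : E 1 = e) {K : IntermediateField ℚ ℂ}
    (hK : ∀ x : ℂ, IsAlgebraic ℚ x → x ∈ K) (he : (e : ℂ) ∈ K) (hpK : (p : ℂ) ∈ K)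
    (hl : (l : ℂ) ∉ K) {x : ℝ} (hx : (x : ℂ) ∈ K) (hxs : (x : ℂ) ∈ seven E p l) :
    ∃ a b f : ℚ, x = a + b * p + f * e := by
  rw [seven, hE1] at hxs
  simp only [Submodule.mem_span_insert, Submodule.mem_span_singleton] at hxs
  obtain ⟨a, _, ⟨b, _, ⟨c, _, ⟨d, _, ⟨f, _, ⟨g, _, ⟨k, rfl⟩, rfl⟩, rfl⟩, rfl⟩, rfl⟩, rfl⟩, h⟩ :=
    hxs
  simp only [Rat.smul_def, mul_one] at h
  have hI : I ∈ K := hK _ Complex.isIntegral_rat_I.isAlgebraic
  have hq : ∀ q : ℚ, (q : ℂ) ∈ K := fun q => by
    have h1 := K.algebraMap_mem q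
    rwa [eq_ratCast] at h1
  have h1 : (l : ℂ) * (d + g * e + k * p) = x - a - b * p - c * (p * I) - f * e := by
    rw [h]
    ring
  have h2 : (x : ℂ) - a - b * p - c * (p * I) - f * e ∈ K :=
    sub_mem (sub_mem (sub_mem (sub_mem hx (hq a)) (mul_mem (hq b) hpK))
      (mul_mem (hq c) (mul_mem hpK hI))) (mul_mem (hq f) he)
  have h3 : (d : ℂ) + g * e + k * p = 0 := by
    by_contra hne
    apply hl
    have h4 : (d : ℂ) + g * e + k * p ∈ K :=
      add_mem (add_mem (hq d) (mul_mem (hq g) he)) (mul_mem (hq k) hpK)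
    have h5 : (l : ℂ) = (x - a - b * p - c * (p * I) - f * e) / (d + g * e + k * p) := by
      rw [← h1, mul_div_cancel_right₀ _ hne]
    rw [h5]
    exact div_mem h2 h4
  rw [h3, mul_zero] at h1
  have h6 := congrArg Complex.re h1
  refine ⟨a, b, f, ?_⟩
  simp at h6
  linarith

theorem extra_of (hE : IsExp E p) (hE1 : E 1 = e) (hN : AlgebraicIndependent ℚ ![(p : ℂ), E p])
    (he : Transcendental ℚ (e : ℂ)) (hR : Relative E (seven E p l)) (hF : Far e p l) :
    Extra E p := by
  obtain ⟨K, hK, heK, hpK, hlK⟩ := hF.fld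
  have hptr : Transcendental ℚ (p : ℂ) := hN.transcendental 0
  have hpB : (p : ℂ) ∈ seven E p l := Submodule.subset_span (by simp)
  have heB : (e : ℂ) ∈ seven E p l := by
    rw [seven, hE1]
    exact Submodule.subset_span (by simp)
  have hpF : (p : ℂ) ∈ FB E (seven E p l) := mem_FB hpB
  have heF : (e : ℂ) ∈ FB E (seven E p l) := mem_FB heB
  refine ⟨?_, ?_, ?_⟩
  · intro d hd
    by_cases hsq : IsSquare d
    · obtain ⟨m, rfl⟩ := hsq
      have hm : 0 < m := by
        rcases Nat.eq_zero_or_pos m with rfl | h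
        · simp at hd
        · exact h
      have h1 : Real.sqrt ((m * m : ℕ) : ℝ) = m := by
        rw [Nat.cast_mul, Real.sqrt_mul_self (Nat.cast_nonneg m)]
      have h2 : E ((Real.sqrt ((m * m : ℕ) : ℝ) * p : ℝ) : ℂ) = E p ^ m := by
        rw [h1, ofReal_mul, ofReal_natCast, hE.nat_mul']
      rw [h2]
      refine ai_of_alg hN fun i => ?_
      fin_cases i
      · exact isAlgebraic_algebraMap (⟨(p : ℂ), IntermediateField.subset_adjoin _ _ ⟨0, rfl⟩⟩ :
          IntermediateField.adjoin ℚ (Set.range ![(p : ℂ), E p ^ m]))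
      · refine IsAlgebraic.of_pow hm ?_
        exact isAlgebraic_algebraMap (⟨E p ^ m, IntermediateField.subset_adjoin _ _ ⟨1, rfl⟩⟩ :
          IntermediateField.adjoin ℚ (Set.range ![(p : ℂ), E p ^ m]))
    · have hs : IsAlgebraic ℚ ((Real.sqrt d : ℝ) : ℂ) := by
        refine IsAlgebraic.of_pow (n := 2) two_pos ?_
        rw [← ofReal_pow, Real.sq_sqrt (Nat.cast_nonneg d), ofReal_natCast]
        exact isAlgebraic_natCast d
      refine ai_two _ hptr hpF (rel_tr hR ?_ ?_)
      · intro h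
        obtain ⟨a, b, f, h1⟩ := form hE1 hK heK hpK hlK (by
          rw [ofReal_mul]
          exact mul_mem (hK _ hs) hpK) h
        exact hF.sqrt d hsq a b f h1
      · rw [ofReal_mul]
        exact (hs.tower_top _).mul (isAlgebraic_algebraMap (⟨_, hpF⟩ : FB E (seven E p l)))
  · rw [hE1]
    refine ai_two _ he heF (rel_tr hR ?_ ?_)
    · intro h
      obtain ⟨a, b, f, h1⟩ := form hE1 hK heK hpK hlK (x := e ^ 2) (by
        rw [ofReal_pow]
        exact pow_mem heK 2) (by rw [ofReal_pow]; exact h)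
      exact hF.sq_e a b f h1
    · exact isAlgebraic_algebraMap (⟨_, pow_mem heF 2⟩ : FB E (seven E p l))
  · refine ai_two _ hptr hpF (rel_tr hR ?_ ?_)
    · intro h
      obtain ⟨a, b, f, h1⟩ := form hE1 hK heK hpK hlK (x := p ^ 2) (by
        rw [ofReal_pow]
        exact pow_mem hpK 2) (by rw [ofReal_pow]; exact h)
      exact hF.sq_p a b f h1
    · exact isAlgebraic_algebraMap (⟨_, pow_mem hpF 2⟩ : FB E (seven E p l))

/-- Roots of cubic polynomials with algebraic coefficients. -/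
theorem alg_cubic {x : ℂ} {a b c d : ℂ} (ha : IsAlgebraic ℚ a) (hb : IsAlgebraic ℚ b)
    (hc : IsAlgebraic ℚ c) (hd : IsAlgebraic ℚ d)
    (hne : a ≠ 0 ∨ b ≠ 0 ∨ c ≠ 0 ∨ d ≠ 0) (h : a + b * x + c * x ^ 2 + d * x ^ 3 = 0) :
    IsAlgebraic ℚ x := by
  have h4 : Algebra.IsAlgebraic ℚ Qbar := by
    refine ⟨fun x => ?_⟩
    have hx : IsAlgebraic ℚ (algebraMap Qbar ℂ x) := mem_Qbar.1 x.2
    exact (isAlgebraic_algebraMap_iff (algebraMap Qbar ℂ).injective).1 hx
  let a' : Qbar := ⟨a, mem_Qbar.2 ha⟩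
  let b' : Qbar := ⟨b, mem_Qbar.2 hb⟩
  let c' : Qbar := ⟨c, mem_Qbar.2 hc⟩
  let d' : Qbar := ⟨d, mem_Qbar.2 hd⟩
  have h1 : IsAlgebraic Qbar x := by
    refine ⟨Polynomial.C a' + Polynomial.C b' * Polynomial.X +
      Polynomial.C c' * Polynomial.X ^ 2 + Polynomial.C d' * Polynomial.X ^ 3, ?_, ?_⟩
    · intro h0
      have e0 := congrArg (fun P => Polynomial.coeff P 0) h0
      have e1 := congrArg (fun P => Polynomial.coeff P 1) h0
      have e2 := congrArg (fun P => Polynomial.coeff P 2) h0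
      have e3 := congrArg (fun P => Polynomial.coeff P 3) h0
      simp [Polynomial.coeff_X, Polynomial.coeff_C] at e0 e1 e2 e3
      rcases hne with hne | hne | hne | hne
      · exact hne (congrArg Subtype.val e0)
      · exact hne (congrArg Subtype.val e1)
      · exact hne (congrArg Subtype.val e2)
      · exact hne (congrArg Subtype.val e3)
    · simp only [map_add, map_mul, map_pow, Polynomial.aeval_X, Polynomial.aeval_C]
      exact h
  exact h1.restrictScalars ℚ

end Pool.Agent.Pat6
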