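import Pool.Agent.Pat6.Extra

/-!
# Pat6: the three types of data and the numbers `e ^ 2`, `p ^ 2`, `√d p`
-/

set_option autoImplicit false

namespace Pool.Agent.Pat6

open Complex Pool.Agent.Pat5

private theorem no_cubic {e a b c d : ℝ} (he : Transcendental ℚ (e : ℂ))
    (ha : IsAlgebraic ℚ (a : ℂ)) (hb : IsAlgebraic ℚ (b : ℂ)) (hc : IsAlgebraic ℚ (c : ℂ))
    (hd : IsAlgebraic ℚ (d : ℂ)) (hne : a ≠ 0 ∨ b ≠ 0 ∨ c ≠ 0 ∨ d ≠ 0) :
    a + b * e + c * e ^ 2 + d * e ^ 3 ≠ 0 := by
  intro h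
  apply he
  refine alg_cubic ha hb hc hd ?_ (by exact_mod_cast h)
  exact_mod_cast hne

private theorem q_alg (q : ℚ) : IsAlgebraic ℚ (((q : ℚ) : ℝ) : ℂ) := by
  have h := isAlgebraic_algebraMap (A := ℂ) q
  rwa [eq_ratCast, ← ofReal_ratCast] at h

private theorem zero_alg : IsAlgebraic ℚ ((0 : ℝ) : ℂ) := by
  rw [ofReal_zero]
  exact isAlgebraic_zero

private theorem sqrt_alg (d : ℕ) : IsAlgebraic ℚ ((Real.sqrt d : ℝ) : ℂ) := by
  refine IsAlgebraic.of_pow (n := 2) two_pos ?_
  rw [← ofReal_pow, Real.sq_sqrt (Nat.cast_nonneg d), ofReal_natCast]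
  exact isAlgebraic_natCast d

private theorem sqrt_ne {d : ℕ} (hd : ¬ IsSquare d) (q : ℚ) : Real.sqrt d ≠ q := by
  intro h
  exact (irrational_sqrt_natCast_iff.2 hd) ⟨q, h.symm⟩

theorem far_II (z : Fin 4 → ℝ) (A : ℚ) (hz : AlgebraicIndependent ℚ (fun i => (z i : ℂ))) :
    Far (z 0) (A - z 0) (z 1) := by
  have he : Transcendental ℚ (z 0 : ℂ) := hz.transcendental 0
  refine ⟨fun a b f h => ?_, fun a b f h => ?_, fun d hd a b f h => ?_,
    KS z {0}, fun x hx => alg_mem_KS hx, coe_mem_KS z (Set.mem_singleton 0), ?_,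
    not_mem_KS hz (by simp)⟩
  · refine no_cubic he (q_alg (-a - b * A)) (q_alg (b - f)) (q_alg 1) (q_alg 0)
      (Or.inr (Or.inr (Or.inl (by simp)))) ?_
    push_cast
    linear_combination h
  · refine no_cubic he (q_alg (A ^ 2 - a - b * A)) (q_alg (-2 * A + b - f)) (q_alg 1) (q_alg 0)
      (Or.inr (Or.inr (Or.inl (by simp)))) ?_
    push_cast
    linear_combination h
  · refine no_cubic he (a := Real.sqrt d * A - a - b * A) (b := -Real.sqrt d + b - f)
      (c := 0) (d := 0) ?_ ?_ zero_alg zero_alg (Or.inr (Or.inl ?_)) ?_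
    · push_cast
      exact (((sqrt_alg d).mul (by exact_mod_cast q_alg A)).sub
        (by exact_mod_cast q_alg a)).sub (by exact_mod_cast q_alg (b * A))
    · push_cast
      exact ((sqrt_alg d).neg.add (by exact_mod_cast q_alg b)).sub (by exact_mod_cast q_alg f)
    · intro h0
      refine sqrt_ne hd (b - f) ?_
      push_cast
      linarith
    · linear_combination h
  · rw [ofReal_sub, ofReal_ratCast]
    exact sub_mem (rat_mem_KS z _ A) (coe_mem_KS z (Set.mem_singleton 0))

theorem far_III (z : Fin 6 → ℝ) {q : ℚ} (hq : 0 < q)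
    (hz : AlgebraicIndependent ℚ (fun i => (z i : ℂ))) : Far (z 0) (q / z 0) (z 1) := by
  have he : Transcendental ℚ (z 0 : ℂ) := hz.transcendental 0
  have h0 : z 0 ≠ 0 := by
    intro h
    apply he
    rw [h, ofReal_zero]
    exact isAlgebraic_zero
  have hq' : (q : ℝ) ≠ 0 := by exact_mod_cast hq.ne'
  refine ⟨fun a b f h => ?_, fun a b f h => ?_, fun d hd a b f h => ?_,
    KS z {0}, fun x hx => alg_mem_KS hx, coe_mem_KS z (Set.mem_singleton 0), ?_,
    not_mem_KS hz (by simp)⟩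
  · refine no_cubic he (q_alg (-b * q)) (q_alg (-a)) (q_alg (-f)) (q_alg 1)
      (Or.inr (Or.inr (Or.inr (by simp)))) ?_
    field_simp at h
    push_cast
    linear_combination h
  · refine no_cubic he (q_alg (-q ^ 2)) (q_alg (b * q)) (q_alg a) (q_alg f)
      (Or.inl (by push_cast; exact neg_ne_zero.2 (pow_ne_zero 2 hq'))) ?_
    field_simp at h
    push_cast
    linear_combination -h
  · refine no_cubic he (a := (b - Real.sqrt d) * q) (b := a) (c := f) (d := 0) ?_ (q_alg a)
      (q_alg f) zero_alg (Or.inl ?_) ?_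
    · push_cast
      exact ((by exact_mod_cast q_alg b : IsAlgebraic ℚ (b : ℂ)).sub (sqrt_alg d)).mul
        (by exact_mod_cast q_alg q)
    · refine mul_ne_zero (fun h1 => ?_) hq'
      exact sqrt_ne hd b (by linarith)
    · field_simp at h
      linear_combination -h
  · rw [ofReal_div, ofReal_ratCast]
    exact div_mem (rat_mem_KS z _ q) (coe_mem_KS z (Set.mem_singleton 0))

theorem far_I (z : Fin 7 → ℝ) (hz : AlgebraicIndependent ℚ (fun i => (z i : ℂ))) :
    Far (z 0) (z 1) (z 2) := by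
  have he : Transcendental ℚ (z 0 : ℂ) := hz.transcendental 0
  have hp : Transcendental ℚ (z 1 : ℂ) := hz.transcendental 1
  refine ⟨fun a b f h => ?_, fun a b f h => ?_, fun d hd a b f h => ?_,
    KS z {0, 1}, fun x hx => alg_mem_KS hx, coe_mem_KS z (by simp), coe_mem_KS z (by simp),
    not_mem_KS hz (by simp)⟩
  · by_cases hb : b = 0
    · subst hb
      refine no_cubic he (q_alg (-a)) (q_alg (-f)) (q_alg 1) (q_alg 0)
        (Or.inr (Or.inr (Or.inl (by simp)))) ?_
      push_cast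
      push_cast at h
      linear_combination h
    · have hb' : (b : ℂ) ≠ 0 := by exact_mod_cast hb
      refine not_mem_KS hz (A := {0}) (i := 1) (by simp) ?_
      have h0 : (z 0 : ℂ) ∈ KS z {0} := coe_mem_KS z (Set.mem_singleton 0)
      have h1 : (z 1 : ℂ) = ((z 0 : ℂ) ^ 2 - a - f * z 0) / b := by
        rw [eq_div_iff hb']
        have h2 : ((z 0 ^ 2 : ℝ) : ℂ) = ((a + b * z 1 + f * z 0 : ℝ) : ℂ) := by rw [h]
        push_cast at h2
        linear_combination -h2
      rw [h1]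
      exact div_mem (sub_mem (sub_mem (pow_mem h0 2) (rat_mem_KS z _ a))
        (mul_mem (rat_mem_KS z _ f) h0)) (rat_mem_KS z _ b)
  · by_cases hf : f = 0
    · subst hf
      refine no_cubic hp (q_alg (-a)) (q_alg (-b)) (q_alg 1) (q_alg 0)
        (Or.inr (Or.inr (Or.inl (by simp)))) ?_
      push_cast
      push_cast at h
      linear_combination h
    · have hf' : (f : ℂ) ≠ 0 := by exact_mod_cast hf
      refine not_mem_KS hz (A := {1}) (i := 0) (by simp) ?_
      have h0 : (z 1 : ℂ) ∈ KS z {1} := coe_mem_KS z (Set.mem_singleton 1)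
      have h1 : (z 0 : ℂ) = ((z 1 : ℂ) ^ 2 - a - b * z 1) / f := by
        rw [eq_div_iff hf']
        have h2 : ((z 1 ^ 2 : ℝ) : ℂ) = ((a + b * z 1 + f * z 0 : ℝ) : ℂ) := by rw [h]
        push_cast at h2
        linear_combination -h2
      rw [h1]
      exact div_mem (sub_mem (sub_mem (pow_mem h0 2) (rat_mem_KS z _ a))
        (mul_mem (rat_mem_KS z _ b) h0)) (rat_mem_KS z _ f)
  · have hs : ((Real.sqrt d : ℝ) : ℂ) - b ≠ 0 := by
      intro h1
      refine sqrt_ne hd b ?_
      have h2 : ((Real.sqrt d : ℝ) : ℂ) = ((b : ℝ) : ℂ) := by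
        rw [ofReal_ratCast]
        exact sub_eq_zero.1 h1
      exact ofReal_injective h2
    refine not_mem_KS hz (A := {0}) (i := 1) (by simp) ?_
    have h0 : (z 0 : ℂ) ∈ KS z {0} := coe_mem_KS z (Set.mem_singleton 0)
    have h1 : (z 1 : ℂ) = (a + f * z 0) / (((Real.sqrt d : ℝ) : ℂ) - b) := by
      rw [eq_div_iff hs]
      have h2 : ((Real.sqrt d * z 1 : ℝ) : ℂ) = ((a + b * z 1 + f * z 0 : ℝ) : ℂ) := by rw [h]
      push_cast at h2
      linear_combination h2
    rw [h1]
    exact div_mem (add_mem (rat_mem_KS z _ a) (mul_mem (rat_mem_KS z _ f) h0))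
      (sub_mem (alg_mem_KS (sqrt_alg d)) (rat_mem_KS z _ b))

end Pool.Agent.Pat6
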