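import Pool.Agent.Pat6.Tower

/-!
# Pat6: from subspaces of pairs to Schanuel's inequality for `EE f g`

PROOF. `mem_gr`: `(z, ζ) ∈ gr f g` iff `f z.re = ζ.re` and `g z.im = ζ.im`
(`LinearMap.mem_graph_iff`);
the pair `pt f g z = (z, f z.re + g z.im I)` is in `gr f g`, it is `ℚ`-linear in `z`, and
`exp (pt f g z).2 = EE f g z` (`EE_eq`).

`schanuel_of`: for linearly independent `x i` let `X` be the span of the pairs `pt f g (x i)`; it
has
dimension `n` (the first coordinates are linearly independent). `Dfc` gives `n ≤ m + k` and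
algebraically independent `u j ∈ coords X`, `j : Fin m`. An element of `coords X` is a rational
combination of the `x i`, or `exp` of a rational combination of the `ζ i`, so it is algebraic over
`L = ℚ (x, E x)` (`alg_exp_rat`); so the `u j` are in the algebraic closure `M` of `L` in `ℂ`, and
`m ≤ trdeg ℚ M = trdeg ℚ L` (`AlgebraicIndependent.cardinalMk_le_trdeg`; `M` is algebraic over `L`:
`Algebra.trdeg` of an algebraic extension, e.g. `Algebra.IsAlgebraic.trdeg_le_cardinalMk`-type
lemmas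
or `Algebra.trdeg_add_eq` with `trdeg L M = 0`; see the file
`Mathlib/RingTheory/AlgebraicIndependent/RankAndCardinality.lean` and `ai_of_alg` in
`Pool/Agent/Pat5/AiAlg.lean` for this kind of argument).

`relative_of`: the same over the field `F` generated by `B` and `E B`: `X` is disjoint from `Γ`
since
the first coordinate of an element of `X ⊓ Γ` is in the span of the `x i` and in `B`, so it is
`0`, and
a pair of `gr f g` with first coordinate `0` is `0`. The family `u` is algebraically independent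
over
`K ≥ F`, hence over `F` (`F ≤ K` because `B` and `E B` are in `coords Γ ⊆ K`).
-/

set_option autoImplicit false

namespace Pool.Agent.Pat6

open Complex Pool.Agent.Pat5

/-- The pair of `z`. -/
noncomputable def pt (f g : ℝ ≃ₗ[ℚ] ℝ) (z : ℂ) : ℂ × ℂ :=
  (z, (f z.re : ℂ) + (g z.im : ℂ) * I)

theorem pt_mem (f g : ℝ ≃ₗ[ℚ] ℝ) (z : ℂ) : pt f g z ∈ gr f g := by
  refine ⟨?_, ?_⟩
  · rw [LinearMap.mem_graph_iff]
    simp [pt]
  · rw [LinearMap.mem_graph_iff]
    simp [pt]

theorem exp_pt (f g : ℝ ≃ₗ[ℚ] ℝ) (z : ℂ) : exp (pt f g z).2 = EE f g z := by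
  rw [EE_eq]
  rfl

/-- A pair of the graph is determined by its first coordinate. -/
private theorem eq_pt {f g : ℝ ≃ₗ[ℚ] ℝ} {a : ℂ × ℂ} (ha : a ∈ gr f g) : a = pt f g a.1 := by
  obtain ⟨h1, h2⟩ := ha
  rw [LinearMap.mem_graph_iff] at h1 h2
  refine Prod.ext rfl (Complex.ext ?_ ?_)
  · simpa [pt] using h1
  · simpa [pt] using h2

/-- Numbers which are algebraic over `L` do not increase the transcendence degree. -/
private theorem le_trdeg {F : Type} [Field F] [Algebra F ℂ] (L : IntermediateField F ℂ) {m : ℕ}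
    {u : Fin m → ℂ} (hu : AlgebraicIndependent F u) (h : ∀ j, IsAlgebraic L (u j)) :
    (m : Cardinal) ≤ Algebra.trdeg F L := by
  let u' : Fin m → algebraicClosure L ℂ := fun j => ⟨u j, mem_algebraicClosure_iff.2 (h j)⟩
  have hu' : AlgebraicIndependent F u' :=
    AlgebraicIndependent.of_comp ((algebraicClosure L ℂ).val.restrictScalars F) hu
  have h1 := hu'.cardinalMk_le_trdeg
  have h2 := _root_.trdeg_add_eq F L (A := algebraicClosure L ℂ)
  have h3 : Algebra.trdeg L (algebraicClosure L ℂ) = 0 := _root_.trdeg_eq_zero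
  rw [h3, add_zero] at h2
  rw [h2]
  simpa using h1

/-- The coordinates of the span of the pairs `pt f g (x i)` are algebraic over every field which
contains the numbers `x i` and `E (x i)`. -/
private theorem alg_coords {f g : ℝ ≃ₗ[ℚ] ℝ} {F : Type} [Field F] [Algebra F ℂ]
    (L : IntermediateField F ℂ) {n : ℕ} {x : Fin n → ℂ} (h1 : ∀ i, x i ∈ L)
    (h2 : ∀ i, EE f g (x i) ∈ L) {u : ℂ}
    (hu : u ∈ coords (Submodule.span ℚ (Set.range fun i => pt f g (x i)))) :
    IsAlgebraic L u := by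
  have key : ∀ a ∈ Submodule.span ℚ (Set.range fun i => pt f g (x i)),
      IsAlgebraic L a.1 ∧ IsAlgebraic L (exp a.2) := by
    intro a ha
    induction ha using Submodule.span_induction with
    | mem a ha =>
      obtain ⟨i, rfl⟩ := ha
      refine ⟨isAlgebraic_algebraMap (⟨x i, h1 i⟩ : L), ?_⟩
      change IsAlgebraic L (exp (pt f g (x i)).2)
      rw [exp_pt]
      exact isAlgebraic_algebraMap (⟨_, h2 i⟩ : L)
    | zero =>
      refine ⟨isAlgebraic_zero, ?_⟩
      rw [Prod.snd_zero, exp_zero]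
      exact isAlgebraic_one
    | add a b _ _ iha ihb =>
      refine ⟨iha.1.add ihb.1, ?_⟩
      rw [Prod.snd_add, exp_add]
      exact iha.2.mul ihb.2
    | smul c a _ iha =>
      refine ⟨?_, ?_⟩
      · rw [Prod.smul_fst, Rat.smul_def]
        have h3 : IsAlgebraic L ((c : ℂ)) := by
          have h4 := isAlgebraic_algebraMap (A := ℂ) (c : L)
          simpa using h4
        exact h3.mul iha.1
      · rw [Prod.smul_snd, Rat.smul_def]
        exact alg_exp_rat iha.2 c
  obtain ⟨a, ha, hu | hu⟩ := hu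
  · rw [hu]
    exact (key a ha).1
  · rw [hu]
    exact (key a ha).2

private theorem span_le {f g : ℝ ≃ₗ[ℚ] ℝ} {n : ℕ} (x : Fin n → ℂ) :
    Submodule.span ℚ (Set.range fun i => pt f g (x i)) ≤ gr f g := by
  rw [Submodule.span_le]
  rintro _ ⟨i, rfl⟩
  exact pt_mem f g (x i)

private theorem li_pt {f g : ℝ ≃ₗ[ℚ] ℝ} {n : ℕ} {x : Fin n → ℂ} (hx : LinearIndependent ℚ x) :
    LinearIndependent ℚ fun i => pt f g (x i) :=
  LinearIndependent.of_comp (LinearMap.fst ℚ ℂ ℂ) hx

theorem schanuel_of {f g : ℝ ≃ₗ[ℚ] ℝ} {k : ℕ} (h : Dfc ⊥ (gr f g) k) :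
    Schanuel (EE f g) k := by
  intro n x hx
  set X := Submodule.span ℚ (Set.range fun i => pt f g (x i)) with hX
  have hf : FiniteDimensional ℚ X := FiniteDimensional.span_of_finite ℚ (Set.finite_range _)
  obtain ⟨m, hm, u, hu, huc⟩ := h X (span_le x) hf
  have hn : Module.finrank ℚ X = n := by
    rw [hX, finrank_span_eq_card (li_pt hx), Fintype.card_fin]
  have hu' : AlgebraicIndependent ℚ u :=
    AlgebraicIndependent.restrictScalars (algebraMap ℚ (⊥ : IntermediateField ℚ ℂ)).injective hu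
  set L := IntermediateField.adjoin ℚ (Set.range x ∪ Set.range fun i => EE f g (x i)) with hL
  have h1 : ∀ i, x i ∈ L := fun i => IntermediateField.subset_adjoin ℚ _ (Or.inl ⟨i, rfl⟩)
  have h2 : ∀ i, EE f g (x i) ∈ L :=
    fun i => IntermediateField.subset_adjoin ℚ _ (Or.inr ⟨i, rfl⟩)
  have h3 := le_trdeg L hu' fun j => alg_coords L h1 h2 (huc j)
  calc (n : Cardinal) ≤ ((m + k : ℕ) : Cardinal) := by
        rw [hn] at hm
        exact_mod_cast hm
    _ = (m : Cardinal) + k := by push_cast; rfl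
    _ ≤ _ := by
        gcongr
        exact h3

theorem relative_of {f g : ℝ ≃ₗ[ℚ] ℝ} {K : IntermediateField ℚ ℂ} (hK : Acl K)
    {Γ : Submodule ℚ (ℂ × ℂ)} (hΓ : Γ ≤ gr f g) (hc : coords Γ ⊆ K)
    (h : GoodStep K Γ (gr f g)) {B : Submodule ℚ ℂ}
    (hB : B = Γ.map (LinearMap.fst ℚ ℂ ℂ)) : Relative (EE f g) B := by
  have _ := hK
  intro n x hx
  set X := Submodule.span ℚ (Set.range fun i => pt f g (x i)) with hX
  have hf : FiniteDimensional ℚ X := FiniteDimensional.span_of_finite ℚ (Set.finite_range _)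
  have hx' : LinearIndependent ℚ x := LinearIndependent.of_comp B.mkQ hx
  have hn : Module.finrank ℚ X = n := by
    rw [hX, finrank_span_eq_card (li_pt hx'), Fintype.card_fin]
  have hd : Disjoint X Γ := by
    rw [Submodule.disjoint_def]
    intro a ha haΓ
    obtain ⟨c, hc'⟩ := (Submodule.mem_span_range_iff_exists_fun ℚ).1 ha
    have h1 : a.1 = ∑ i, c i • x i := by
      rw [← hc', Prod.fst_sum]
      rfl
    have h2 : a.1 ∈ B := by
      rw [hB]
      exact ⟨a, haΓ, rfl⟩
    have h3 : ∑ i, c i • B.mkQ (x i) = 0 := by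
      have h4 : B.mkQ a.1 = 0 := (Submodule.Quotient.mk_eq_zero B).2 h2
      rw [h1, map_sum] at h4
      simpa using h4
    have h5 := Fintype.linearIndependent_iff.1 hx c h3
    rw [← hc']
    exact Finset.sum_eq_zero fun i _ => by rw [h5 i, zero_smul]
  have hTD := h X (span_le x) hf hd
  rw [hn] at hTD
  obtain ⟨u, hu, huc⟩ := hTD
  set F := IntermediateField.adjoin ℚ ((B : Set ℂ) ∪ EE f g '' B) with hF
  have hBK : ∀ b ∈ B, b ∈ K ∧ EE f g b ∈ K := by
    intro b hb
    rw [hB] at hb
    obtain ⟨a, ha, rfl⟩ := hb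
    refine ⟨hc ⟨a, ha, Or.inl rfl⟩, hc ⟨a, ha, Or.inr ?_⟩⟩
    rw [← exp_pt]
    exact congrArg (fun p : ℂ × ℂ => exp p.2) (eq_pt (hΓ ha)).symm
  have hFK : F ≤ K := by
    rw [hF, IntermediateField.adjoin_le_iff]
    rintro b (hb | ⟨b, hb, rfl⟩)
    · exact (hBK b hb).1
    · exact (hBK b hb).2
  let _ : Algebra F K := (IntermediateField.inclusion hFK).toRingHom.toAlgebra
  have : IsScalarTower F K ℂ := IsScalarTower.of_algebraMap_eq fun _ => rfl
  have hu' : AlgebraicIndependent F u :=
    AlgebraicIndependent.restrictScalars (algebraMap F K).injective hu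
  set L := IntermediateField.adjoin F (Set.range x ∪ Set.range fun i => EE f g (x i)) with hL
  have h1 : ∀ i, x i ∈ L := fun i => IntermediateField.subset_adjoin F _ (Or.inl ⟨i, rfl⟩)
  have h2 : ∀ i, EE f g (x i) ∈ L :=
    fun i => IntermediateField.subset_adjoin F _ (Or.inr ⟨i, rfl⟩)
  exact le_trdeg L hu' fun j => alg_coords L h1 h2 (huc j)

end Pool.Agent.Pat6
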