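import Pool.Agent.Pat6.UBaseI
import Pool.Agent.Pat5.DatII

/-!
# Pat6: the defect of the base space for the patterns with a rational sum
-/

set_option autoImplicit false

namespace Pool.Agent.Pat6

open Complex Pool.Agent.Pat5

section

variable (z : Fin 4 → ℝ) (A : ℚ)

private theorem sub_mem_iff {B : Set (Fin 4)} :
    ((A - z 0 : ℝ) : ℂ) ∈ KS z B ↔ (z 0 : ℂ) ∈ KS z B := by
  rw [ofReal_sub, ofReal_ratCast]
  have hA := rat_mem_KS z B A
  constructor
  · intro h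
    have h1 := sub_mem hA h
    rwa [sub_sub_cancel] at h1
  · intro h
    exact sub_mem hA h

/-- The first four steps. -/
private theorem tow4 (hz : AlgebraicIndependent ℚ (fun i => (z i : ℂ))) (hpos : ∀ i, 0 < z i)
    (hA : 0 < A - z 0) : ∃ Γ : Submodule ℚ (ℂ × ℂ), Tow z {2, 1, 0} Γ 1 ∧
      (((A - z 0 : ℝ) : ℂ) * I, (Real.pi : ℂ) * I) ∈ Γ ∧
      ((1 : ℂ), ((Real.log (z 0) : ℝ) : ℂ)) ∈ Γ ∧
      ((z 1 : ℂ), ((Real.log (A - z 0) : ℝ) : ℂ)) ∈ Γ ∧
      ((z 0 : ℂ), ((Real.log (z 2) : ℝ) : ℂ)) ∈ Γ := by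
  have t1 : Tow z {0} _ 0 := Tow.pi (p := A - z 0)
    (by rw [sub_mem_iff]; exact not_mem_KS hz (Set.notMem_empty 0))
    (by rw [sub_mem_iff]; exact coe_mem_KS z (Set.mem_singleton 0))
  have t2 := t1.bad ((1 : ℂ), ((Real.log (z 0) : ℝ) : ℂ)) (one_mem _)
    (exp_log_mem_KS (hpos 0) (coe_mem_KS z (by simp)))
  have t3 := t2.good (A' := {1, 0}) (by simp) ((z 1 : ℂ), ((Real.log (A - z 0) : ℝ) : ℂ))
    (Or.inl (not_mem_KS hz (by simp))) (coe_mem_KS z (by simp))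
    (exp_log_mem_KS hA (by rw [sub_mem_iff]; exact coe_mem_KS z (by simp)))
  have t4 := t3.good (A' := {2, 1, 0}) (by simp) ((z 0 : ℂ), ((Real.log (z 2) : ℝ) : ℂ))
    (Or.inr (by
      change exp ((Real.log (z 2) : ℝ) : ℂ) ∉ _
      rw [← ofReal_exp, Real.exp_log (hpos 2)]
      exact not_mem_KS hz (by simp))) (coe_mem_KS z (by simp))
    (exp_log_mem_KS (hpos 2) (coe_mem_KS z (by simp)))
  refine ⟨_, t4, ?_, ?_, ?_, ?_⟩
  · exact mem_left _ (mem_left _ (mem_left _ (mem_self _ _)))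
  · exact mem_left _ (mem_left _ (mem_self _ _))
  · exact mem_left _ (mem_self _ _)
  · exact mem_self _ _

theorem udfc_II_0 (hz : AlgebraicIndependent ℚ (fun i => (z i : ℂ))) (hpos : ∀ i, 0 < z i)
    (hA : 0 < A - z 0) :
    Dfc ⊥ (base (z 0) (A - z 0) (![] : Fin 0 → ℝ) ![] ![z 1, z 0, z 0 * z 1]
      ![Real.log (A - z 0), Real.log (z 2), Real.log (z 3)]) 1 := by
  obtain ⟨Γ, t4, h1, h2, h3, h4⟩ := tow4 z A hz hpos hA
  have t5 := t4.good (A' := {3, 2, 1, 0}) (by simp)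
    (((z 0 * z 1 : ℝ) : ℂ), ((Real.log (z 3) : ℝ) : ℂ)) (Or.inr (by
      change exp ((Real.log (z 3) : ℝ) : ℂ) ∉ _
      rw [← ofReal_exp, Real.exp_log (hpos 3)]
      exact not_mem_KS hz (by simp))) (by
      change ((z 0 * z 1 : ℝ) : ℂ) ∈ _
      rw [ofReal_mul]
      exact mul_mem (coe_mem_KS z (by simp)) (coe_mem_KS z (by simp)))
    (exp_log_mem_KS (hpos 3) (coe_mem_KS z (by simp)))
  refine t5.dfc.mono (base_le (mem_left _ h1) (mem_left _ h2) (fun i => i.elim0) fun j => ?_)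
  fin_cases j
  · exact mem_left _ h3
  · exact mem_left _ h4
  · exact mem_self _ _

private theorem udfc_aux (hz : AlgebraicIndependent ℚ (fun i => (z i : ℂ)))
    (hpos : ∀ i, 0 < z i) (hA : 0 < A - z 0) (c : ℚ) (hc : 1 < c) (x : ℝ)
    (hx : (x : ℂ) ∈ KS z {2, 1, 0}) :
    Dfc ⊥ (base (z 0) (A - z 0) ![x] ![Real.log c] ![z 1, z 0]
      ![Real.log (A - z 0), Real.log (z 2)]) 2 := by
  obtain ⟨Γ, t4, h1, h2, h3, h4⟩ := tow4 z A hz hpos hA
  have hc0 : (0 : ℝ) < c := by exact_mod_cast zero_lt_one.trans hc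
  have t5 := t4.bad ((x : ℂ), ((Real.log c : ℝ) : ℂ)) hx (exp_log_mem_KS hc0 (by
    rw [ofReal_ratCast]
    exact rat_mem_KS z _ c))
  refine t5.dfc.mono (base_le (mem_left _ h1) (mem_left _ h2) (fun i => ?_) fun j => ?_)
  · fin_cases i
    exact mem_self _ _
  · fin_cases j
    · exact mem_left _ h3
    · exact mem_left _ h4

theorem udfc_II_2 (hz : AlgebraicIndependent ℚ (fun i => (z i : ℂ))) (hpos : ∀ i, 0 < z i)
    (hA : 0 < A - z 0) (c : ℚ) (hc : 1 < c) :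
    Dfc ⊥ (base (z 0) (A - z 0) ![z 0 * z 1] ![Real.log c] ![z 1, z 0]
      ![Real.log (A - z 0), Real.log (z 2)]) 2 := by
  refine udfc_aux z A hz hpos hA c hc _ ?_
  rw [ofReal_mul]
  exact mul_mem (coe_mem_KS z (by simp)) (coe_mem_KS z (by simp))

theorem udfc_II_4 (hz : AlgebraicIndependent ℚ (fun i => (z i : ℂ))) (hpos : ∀ i, 0 < z i)
    (hA : 0 < A - z 0) (d : ℚ) (hd : 1 < d) :
    Dfc ⊥ (base (z 0) (A - z 0) ![(A - z 0) * z 1] ![Real.log d] ![z 1, z 0]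
      ![Real.log (A - z 0), Real.log (z 2)]) 2 := by
  refine udfc_aux z A hz hpos hA d hd _ ?_
  rw [ofReal_mul]
  refine mul_mem ?_ (coe_mem_KS z (by simp))
  rw [sub_mem_iff]
  exact coe_mem_KS z (by simp)

end

section

variable (E : ℂ → ℂ) (A : ℚ) (e l : ℝ)

private theorem seven_le (hE : E 1 = e) {V : Submodule ℚ ℂ} (h1 : (1 : ℂ) ∈ V)
    (hp : ((A - e : ℝ) : ℂ) * I ∈ V) (hl : (l : ℂ) ∈ V) (he : (e : ℂ) ∈ V)
    (hel : (e : ℂ) * (l : ℂ) ∈ V) : seven E (A - e) l ≤ V := by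
  have h2 : ((A - e : ℝ) : ℂ) ∈ V := by
    have h := V.sub_mem (V.smul_mem A h1) he
    rwa [Rat.smul_def, mul_one, ← ofReal_ratCast, ← ofReal_sub] at h
  have h3 : ((A - e : ℝ) : ℂ) * (l : ℂ) ∈ V := by
    have h := V.sub_mem (V.smul_mem A hl) hel
    rwa [Rat.smul_def, ← sub_mul, ← ofReal_ratCast, ← ofReal_sub] at h
  rw [seven, hE, Submodule.span_le]
  rintro x (rfl | rfl | rfl | rfl | rfl | rfl | rfl)
  · exact h1
  · exact h2
  · exact hp
  · exact hl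
  · exact he
  · exact hel
  · exact h3

private theorem mem_seven (hE : E 1 = e) {x : ℂ}
    (hx : x ∈ ({1, ((A - e : ℝ) : ℂ), ((A - e : ℝ) : ℂ) * I, (l : ℂ), (e : ℂ),
      (e : ℂ) * (l : ℂ), ((A - e : ℝ) : ℂ) * (l : ℂ)} : Set ℂ)) : x ∈ seven E (A - e) l := by
  rw [seven, hE]
  exact Submodule.subset_span hx

theorem seven_II_0 (hE : E 1 = e) (w : Fin 0 → ℝ) (Y : Fin 3 → ℝ) :
    seven E (A - e) l = (base e (A - e) (![] : Fin 0 → ℝ) w ![l, e, e * l] Y).map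
      (LinearMap.fst ℚ ℂ ℂ) := by
  rw [base_map_fst]
  refine le_antisymm (seven_le E A e l hE ?_ ?_ ?_ ?_ ?_) ?_
  · exact Submodule.subset_span (Or.inl (Or.inl (Or.inl rfl)))
  · exact Submodule.subset_span (Or.inl (Or.inl (Or.inr rfl)))
  · exact Submodule.subset_span (Or.inr ⟨0, rfl⟩)
  · exact Submodule.subset_span (Or.inr ⟨1, rfl⟩)
  · refine Submodule.subset_span (Or.inr ⟨2, ?_⟩)
    exact ofReal_mul e l
  · rw [Submodule.span_le]
    rintro x (((rfl | rfl) | ⟨i, rfl⟩) | ⟨i, rfl⟩)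
    · exact mem_seven E A e l hE (by simp)
    · exact mem_seven E A e l hE (by simp)
    · exact i.elim0
    · refine mem_seven E A e l hE ?_
      fin_cases i
      · simp
      · simp
      · simp

theorem seven_II_2 (hE : E 1 = e) (w : Fin 1 → ℝ) (Y : Fin 2 → ℝ) :
    seven E (A - e) l = (base e (A - e) ![e * l] w ![l, e] Y).map (LinearMap.fst ℚ ℂ ℂ) := by
  rw [base_map_fst]
  refine le_antisymm (seven_le E A e l hE ?_ ?_ ?_ ?_ ?_) ?_
  · exact Submodule.subset_span (Or.inl (Or.inl (Or.inl rfl)))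
  · exact Submodule.subset_span (Or.inl (Or.inl (Or.inr rfl)))
  · exact Submodule.subset_span (Or.inr ⟨0, rfl⟩)
  · exact Submodule.subset_span (Or.inr ⟨1, rfl⟩)
  · refine Submodule.subset_span (Or.inl (Or.inr ⟨0, ?_⟩))
    exact ofReal_mul e l
  · rw [Submodule.span_le]
    rintro x (((rfl | rfl) | ⟨i, rfl⟩) | ⟨i, rfl⟩)
    · exact mem_seven E A e l hE (by simp)
    · exact mem_seven E A e l hE (by simp)
    · refine mem_seven E A e l hE ?_
      fin_cases i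
      simp
    · refine mem_seven E A e l hE ?_
      fin_cases i
      · simp
      · simp

theorem seven_II_4 (hE : E 1 = e) (w : Fin 1 → ℝ) (Y : Fin 2 → ℝ) :
    seven E (A - e) l = (base e (A - e) ![(A - e) * l] w ![l, e] Y).map
      (LinearMap.fst ℚ ℂ ℂ) := by
  rw [base_map_fst]
  refine le_antisymm (seven_le E A e l hE ?_ ?_ ?_ ?_ ?_) ?_
  · exact Submodule.subset_span (Or.inl (Or.inl (Or.inl rfl)))
  · exact Submodule.subset_span (Or.inl (Or.inl (Or.inr rfl)))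
  · exact Submodule.subset_span (Or.inr ⟨0, rfl⟩)
  · exact Submodule.subset_span (Or.inr ⟨1, rfl⟩)
  · have hl : (l : ℂ) ∈ Submodule.span ℚ (({1, ((A - e : ℝ) : ℂ) * I} ∪
        Set.range (fun i => ((![(A - e) * l] : Fin 1 → ℝ) i : ℂ))) ∪
          Set.range (fun j => ((![l, e] : Fin 2 → ℝ) j : ℂ))) :=
      Submodule.subset_span (Or.inr ⟨0, rfl⟩)
    have hpl : (((A - e) * l : ℝ) : ℂ) ∈ Submodule.span ℚ (({1, ((A - e : ℝ) : ℂ) * I} ∪
        Set.range (fun i => ((![(A - e) * l] : Fin 1 → ℝ) i : ℂ))) ∪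
          Set.range (fun j => ((![l, e] : Fin 2 → ℝ) j : ℂ))) :=
      Submodule.subset_span (Or.inl (Or.inr ⟨0, rfl⟩))
    have h := Submodule.sub_mem _ (Submodule.smul_mem _ A hl) hpl
    have h2 : A • (l : ℂ) - (((A - e) * l : ℝ) : ℂ) = (e : ℂ) * (l : ℂ) := by
      rw [Rat.smul_def]
      push_cast
      ring
    rwa [h2] at h
  · rw [Submodule.span_le]
    rintro x (((rfl | rfl) | ⟨i, rfl⟩) | ⟨i, rfl⟩)
    · exact mem_seven E A e l hE (by simp)
    · exact mem_seven E A e l hE (by simp)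
    · refine mem_seven E A e l hE ?_
      fin_cases i
      simp
    · refine mem_seven E A e l hE ?_
      fin_cases i
      · simp
      · simp

end

end Pool.Agent.Pat6
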