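import Pool.Agent.Pat6.UBaseI
import Pool.Agent.Pat5.DatIII

/-!
# Pat6: the defect of the base space for the patterns with a rational product
-/

set_option autoImplicit false

namespace Pool.Agent.Pat6

open Complex Pool.Agent.Pat5

private theorem quot_mem_iff (z : Fin 6 → ℝ) {q : ℚ} (hq : 0 < q) {B : Set (Fin 6)} :
    ((q / z 0 : ℝ) : ℂ) ∈ KS z B ↔ (z 0 : ℂ) ∈ KS z B := by
  rw [ofReal_div, ofReal_ratCast]
  have hA := rat_mem_KS z B q
  have hq' : (q : ℂ) ≠ 0 := by exact_mod_cast hq.ne'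
  constructor
  · intro h
    have h1 := div_mem hA h
    rwa [div_div_cancel₀ hq'] at h1
  · intro h
    exact div_mem hA h

private theorem card_three : ∀ T : Finset (Fin 3), 0 + 1 + (if (0 : Fin 3) ∈ T then 1 else 0) +
    (if (1 : Fin 3) ∈ T then 1 else 0) + (if (2 : Fin 3) ∈ T then 1 else 0) = T.card + 1 := by
  decide

private theorem base_le_III (z : Fin 6 → ℝ) (T : Finset (Fin 3)) (q : Fin 4 → ℚ)
    {Γ : Submodule ℚ (ℂ × ℂ)} (hp : (((q 0 / z 0 : ℝ) : ℂ) * I, (Real.pi : ℂ) * I) ∈ Γ)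
    (h1 : ((1 : ℂ), ((Real.log (z 0) : ℝ) : ℂ)) ∈ Γ)
    (hall : ∀ i : Fin 3, (((Pat5.arg (z 0) (q 0 / z 0) (z 1) i : ℝ) : ℂ),
      ((Real.log (if i ∈ T then (q (Fin.succ i) : ℝ) else z (gIII i)) : ℝ) : ℂ)) ∈ Γ)
    (hl : (((z 1 + 1 : ℝ) : ℂ), ((Real.log (q 0) : ℝ) : ℂ)) ∈ Γ)
    (hg : (((q 0 / z 0 : ℝ) : ℂ), ((Real.log (z 2) : ℝ) : ℂ)) ∈ Γ) :
    base (z 0) (q 0 / z 0)
      (fun o : Option {i // i ∈ T} => o.elim (z 1 + 1) fun i =>
        Pat5.arg (z 0) (q 0 / z 0) (z 1) i)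
      (fun o : Option {i // i ∈ T} => o.elim (Real.log (q 0)) fun i =>
        Real.log (q (Fin.succ i)))
      (Sum.elim (fun i : {i // i ∉ T} => Pat5.arg (z 0) (q 0 / z 0) (z 1) i)
        (fun _ : Unit => q 0 / z 0))
      (Sum.elim (fun i : {i // i ∉ T} => Real.log (z (gIII i)))
        (fun _ : Unit => Real.log (z 2))) ≤ Γ := by
  refine base_le hp h1 ?_ ?_
  · rintro (_ | ⟨i, hi⟩)
    · exact hl
    · have h := hall i
      rw [if_pos hi] at h
      exact h
  · rintro (⟨i, hi⟩ | i)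
    · have h := hall i
      rw [if_neg hi] at h
      exact h
    · exact hg

theorem udfc_III (z : Fin 6 → ℝ) (hz : AlgebraicIndependent ℚ (fun i => (z i : ℂ)))
    (hpos : ∀ i, 0 < z i) (T : Finset (Fin 3)) (q : Fin 4 → ℚ) (hq : ∀ i, 0 < q i) :
    Dfc ⊥ (base (z 0) (q 0 / z 0)
      (fun o : Option {i // i ∈ T} => o.elim (z 1 + 1) fun i =>
        Pat5.arg (z 0) (q 0 / z 0) (z 1) i)
      (fun o : Option {i // i ∈ T} => o.elim (Real.log (q 0)) fun i =>
        Real.log (q (Fin.succ i)))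
      (Sum.elim (fun i : {i // i ∉ T} => Pat5.arg (z 0) (q 0 / z 0) (z 1) i)
        (fun _ : Unit => q 0 / z 0))
      (Sum.elim (fun i : {i // i ∉ T} => Real.log (z (gIII i)))
        (fun _ : Unit => Real.log (z 2)))) (T.card + 1) := by
  have hq0 : (0 : ℝ) < (q 0 : ℝ) := by exact_mod_cast hq 0
  have t1 : Tow z {0} _ 0 := Tow.pi (p := q 0 / z 0)
    (by rw [quot_mem_iff z (hq 0)]; exact not_mem_KS hz (Set.notMem_empty 0))
    (by rw [quot_mem_iff z (hq 0)]; exact coe_mem_KS z (Set.mem_singleton 0))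
  have t2 := t1.bad ((1 : ℂ), ((Real.log (z 0) : ℝ) : ℂ)) (one_mem _)
    (exp_log_mem_KS (hpos 0) (coe_mem_KS z (by simp)))
  have t3 := t2.good (A' := {1, 0}) (by simp)
    (((z 1 + 1 : ℝ) : ℂ), ((Real.log (q 0) : ℝ) : ℂ)) (Or.inl (by
      intro h
      have h2 : (z 1 : ℂ) = ((z 1 + 1 : ℝ) : ℂ) - 1 := by
        push_cast
        ring
      refine not_mem_KS hz (A := {0}) (i := 1) (by simp) ?_
      rw [h2]
      exact sub_mem h (one_mem _))) (by
      change ((z 1 + 1 : ℝ) : ℂ) ∈ _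
      rw [ofReal_add, ofReal_one]
      exact add_mem (coe_mem_KS z (by simp)) (one_mem _))
    (exp_log_mem_KS hq0 (by
      rw [ofReal_ratCast]
      exact rat_mem_KS z _ (q 0)))
  have hp : ∀ (A : Set (Fin 6)), 0 ∈ A → ((q 0 / z 0 : ℝ) : ℂ) ∈ KS z A := fun A hA => by
    rw [quot_mem_iff z (hq 0)]
    exact coe_mem_KS z hA
  have ha : ∀ (A : Set (Fin 6)), {1, 0} ⊆ A → ∀ i,
      ((Pat5.arg (z 0) (q 0 / z 0) (z 1) i : ℝ) : ℂ) ∈ KS z A := fun A hA i =>
    arg_mem_KS (coe_mem_KS z (hA (by simp))) (hp A (hA (by simp)))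
      (coe_mem_KS z (hA (by simp))) i
  have t4 := t3.arg hz hpos (ha _ subset_rfl 0) (hq (Fin.succ 0)) (k := gIII 0) (by
    simp [gIII]) (0 ∈ T)
  have t5 := t4.arg hz hpos (ha _ (Set.subset_insert _ _) 1) (hq (Fin.succ 1)) (k := gIII 1)
    (by simp [gIII]) (1 ∈ T)
  have t6 := t5.arg hz hpos (ha _ ((Set.subset_insert _ _).trans (Set.subset_insert _ _)) 2)
    (hq (Fin.succ 2)) (k := gIII 2) (by simp [gIII]) (2 ∈ T)
  have t7 := t6.good (A' := insert 2 _) (Set.subset_insert _ _)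
    (((q 0 / z 0 : ℝ) : ℂ), ((Real.log (z 2) : ℝ) : ℂ)) (Or.inr (by
      change exp ((Real.log (z 2) : ℝ) : ℂ) ∉ _
      rw [← ofReal_exp, Real.exp_log (hpos 2)]
      exact not_mem_KS hz (by simp [gIII]))) (hp _ (by simp))
    (exp_log_mem_KS (hpos 2) (coe_mem_KS z (by simp)))
  rw [card_three] at t7
  refine t7.dfc.mono (base_le_III z T q ?_ ?_ ?_ ?_ ?_)
  · exact mem_left _ (mem_left _ (mem_left _ (mem_left _ (mem_left _ (mem_left _
      (mem_self _ _))))))
  · exact mem_left _ (mem_left _ (mem_left _ (mem_left _ (mem_left _ (mem_self _ _)))))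
  · intro i
    fin_cases i
    · exact mem_left _ (mem_left _ (mem_left _ (mem_self _ _)))
    · exact mem_left _ (mem_left _ (mem_self _ _))
    · exact mem_left _ (mem_self _ _)
  · exact mem_left _ (mem_left _ (mem_left _ (mem_left _ (mem_self _ _))))
  · exact mem_self _ _

/-- The first coordinates of the base space. -/
theorem seven_III (E : ℂ → ℂ) (e p l : ℝ) (hE : E 1 = e) (T : Finset (Fin 3))
    (w : Option {i // i ∈ T} → ℝ) (Y : {i // i ∉ T} ⊕ Unit → ℝ) :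
    seven E p l = (base e p
      (fun o : Option {i // i ∈ T} => o.elim (l + 1) fun i => Pat5.arg e p l i) w
      (Sum.elim (fun i : {i // i ∉ T} => Pat5.arg e p l i) (fun _ : Unit => p)) Y).map
        (LinearMap.fst ℚ ℂ ℂ) := by
  rw [base_map_fst, seven, hE]
  set V := Submodule.span ℚ (({1, (p : ℂ) * I} ∪ Set.range (fun o : Option {i // i ∈ T} =>
    ((o.elim (l + 1) fun i => Pat5.arg e p l i : ℝ) : ℂ))) ∪
      Set.range (fun j => ((Sum.elim (fun i : {i // i ∉ T} => Pat5.arg e p l i)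
        (fun _ : Unit => p) j : ℝ) : ℂ))) with hV
  have h1 : (1 : ℂ) ∈ V := Submodule.subset_span (Or.inl (Or.inl (Or.inl rfl)))
  have hin : ∀ i : Fin 3, ((Pat5.arg e p l i : ℝ) : ℂ) ∈ V := by
    intro i
    by_cases h : i ∈ T
    · exact Submodule.subset_span (Or.inl (Or.inr ⟨some ⟨i, h⟩, rfl⟩))
    · exact Submodule.subset_span (Or.inr ⟨Sum.inl ⟨i, h⟩, rfl⟩)
  have hl : (l : ℂ) ∈ V := by
    have h2 : ((l + 1 : ℝ) : ℂ) ∈ V := Submodule.subset_span (Or.inl (Or.inr ⟨none, rfl⟩))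
    have h3 := V.sub_mem h2 h1
    rwa [ofReal_add, ofReal_one, add_sub_cancel_right] at h3
  set W := Submodule.span ℚ
      ({1, (p : ℂ), (p : ℂ) * I, (l : ℂ), (e : ℂ), (e : ℂ) * (l : ℂ), (p : ℂ) * (l : ℂ)} :
        Set ℂ) with hW
  have hout : ∀ i : Fin 3, ((Pat5.arg e p l i : ℝ) : ℂ) ∈ W := by
    intro i
    refine Submodule.subset_span ?_
    fin_cases i <;> simp [Pat5.arg]
  refine le_antisymm ?_ ?_
  · rw [hW, Submodule.span_le]
    rintro x (rfl | rfl | rfl | rfl | rfl | rfl | rfl)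
    · exact h1
    · exact Submodule.subset_span (Or.inr ⟨Sum.inr (), rfl⟩)
    · exact Submodule.subset_span (Or.inl (Or.inl (Or.inr rfl)))
    · exact hl
    · simpa [Pat5.arg] using hin 1
    · simpa [Pat5.arg] using hin 0
    · simpa [Pat5.arg] using hin 2
  · rw [hV, Submodule.span_le]
    rintro x (((rfl | rfl) | ⟨(_ | i), rfl⟩) | ⟨(i | i), rfl⟩)
    · exact Submodule.subset_span (by simp)
    · exact Submodule.subset_span (by simp)
    · have h2 : (l : ℂ) ∈ W := Submodule.subset_span (by simp)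
      have h3 : (1 : ℂ) ∈ W := Submodule.subset_span (by simp)
      have h4 := W.add_mem h2 h3
      simpa using h4
    · exact hout i
    · exact hout i
    · exact Submodule.subset_span (by simp)

end Pool.Agent.Pat6
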