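import Pool.Agent.Pat6.ModelUI
import Pool.Agent.Pat6.ModelUII
import Pool.Agent.Pat6.ModelUIII
import Pool.Agent.Pat6.Conv2
import Pool.Agent.Pat5.Final

/-!
# Pat6: the final assembly
-/

set_option autoImplicit false

namespace Pool.Agent.Pat6

open Complex Pool.Agent.Pat5

/-- Every allowed pattern is realised. -/
theorem modelU_good (S : Finset (Fin 5)) (hS : S ∈ good) (F : Finset ℂ) (ε : ℝ) (hε : 0 < ε) :
    ModelU S F ε := by
  have h : (∃ T : Finset (Fin 3), S = T.map ind) ∨ S = {0} ∨ S = {0, 2} ∨ S = {0, 4} ∨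
      ∃ T : Finset (Fin 3), T.card ≤ 1 ∧ S = insert 1 (T.map ind) := by
    revert S
    decide
  rcases h with ⟨T, rfl⟩ | rfl | rfl | rfl | ⟨T, hT, rfl⟩
  · exact modelU_I T F ε hε
  · exact modelU_II_0 F ε hε
  · exact modelU_II_2 F ε hε
  · exact modelU_II_4 F ε hε
  · exact modelU_III T hT F ε hε

end Pool.Agent.Pat6
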