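import Pool.Agent.Pat6.Extra

/-!
# Pat6: property (G), definitions and algebraic independence from the relative inequality

`Gel E`: numbers `E (x i)` with `x i` in `logSpan E` are algebraically independent if no nontrivial
rational combination of the `x i` is a logarithm of an algebraic number.
-/

set_option autoImplicit false

namespace Pool.Agent.Pat6

open Complex Pool.Agent.Pat5

/-- Numbers `x i` in the space over the field of algebraic numbers spanned by `1` and the logarithms of
algebraic numbers, which are linearly independent over `ℚ` modulo these logarithms, have algebraically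
independent values. For algebraic `x i` this is the theorem of Lindemann and Weierstrass, for
`x i = β i * l` it is the conjecture of Gelfond and Schneider. -/
def Gel (E : ℂ → ℂ) : Prop := ∀ (n : ℕ) (x : Fin n → ℂ), (∀ i, x i ∈ logSpan E) →
  (∀ c : Fin n → ℚ, IsAlgebraic ℚ (E (∑ i, (c i : ℂ) * x i)) → c = 0) →
    AlgebraicIndependent ℚ (fun i => E (x i))

variable {E : ℂ → ℂ} {p : ℝ}

/-- The logarithms, for `E`, of the algebraic numbers. -/
def Lam (hE : IsExp E p) : Submodule ℚ ℂ where
  carrier := {z | IsAlgebraic ℚ (E z)}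
  add_mem' := fun {a b} ha hb => by
    rw [Set.mem_ofPred_eq, hE.add]
    exact IsAlgebraic.mul ha hb
  zero_mem' := by
    rw [Set.mem_ofPred_eq, hE.zero']
    exact isAlgebraic_one
  smul_mem' := fun c x hx => by
    rw [Set.mem_ofPred_eq, Rat.smul_def]
    exact hE.alg_rat' hx c

theorem mem_Lam (hE : IsExp E p) {z : ℂ} : z ∈ Lam hE ↔ IsAlgebraic ℚ (E z) := Iff.rfl

/-- Values at rational combinations. -/
theorem alg_comb (hE : IsExp E p) {F : Type} [Field F] [Algebra F ℂ] (L : IntermediateField F ℂ)
    {ι : Type} (x : ι → ℂ) (h : ∀ i, IsAlgebraic L (E (x i))) {z : ℂ}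
    (hz : z ∈ Submodule.span ℚ (Set.range x)) : IsAlgebraic L (E z) := by
  induction hz using Submodule.span_induction with
  | mem y hy =>
    obtain ⟨i, rfl⟩ := hy
    exact h i
  | zero =>
    rw [hE.zero']
    exact isAlgebraic_one
  | add y y' _ _ h1 h2 =>
    rw [hE.add]
    exact h1.mul h2
  | smul r y _ h1 =>
    rw [Rat.smul_def]
    have h2 : E (r * y) ^ r.den = E y ^ r.num := by
      rw [← hE.nat_mul', ← hE.int_mul']
      congr 1
      have h2 : (r.den : ℂ) * (r : ℂ) = (r.num : ℂ) := by
        have := Rat.den_mul_eq_num r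
        exact_mod_cast congrArg (fun q : ℚ => (q : ℂ)) this
      rw [← mul_assoc, h2]
    refine IsAlgebraic.of_pow r.den_pos ?_
    rw [h2]
    cases r.num with
    | ofNat n => rw [Int.ofNat_eq_natCast, zpow_natCast]; exact h1.pow n
    | negSucc n => rw [zpow_negSucc]; exact (h1.pow _).inv

open Algebra in
open scoped IntermediateField.algebraAdjoinAdjoin in
/-- A family which generates a field of large transcendence degree, up to algebraic extensions, is
algebraically independent. -/
theorem ai_of_trdeg {F : Type} [Field F] [Algebra F ℂ] {ι : Type} [Finite ι] {y : ι → ℂ}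
    (M : IntermediateField F ℂ)
    (hM : ∀ z, z ∈ M ↔ IsAlgebraic (IntermediateField.adjoin F (Set.range y)) z)
    (le : Cardinal.mk ι ≤ trdeg F M) : AlgebraicIndependent F y := by
  have hyL : ∀ i, y i ∈ IntermediateField.adjoin F (Set.range y) :=
    fun i => IntermediateField.subset_adjoin F _ ⟨i, rfl⟩
  have hyM : ∀ i, y i ∈ M := fun i => (hM _).2 (isAlgebraic_algebraMap
    (⟨y i, hyL i⟩ : IntermediateField.adjoin F (Set.range y)))
  let y' : ι → M := fun i => ⟨y i, hyM i⟩
  have hset : (adjoin F (Set.range y')).map M.val = adjoin F (Set.range y) := by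
    rw [AlgHom.map_adjoin]
    congr 1
    rw [← Set.range_comp]
    rfl
  have hinj : Function.Injective M.val := M.val.injective
  let e : adjoin F (Set.range y') ≃ₐ[F] adjoin F (Set.range y) :=
    ((adjoin F (Set.range y')).equivMapOfInjective M.val hinj).trans
      (Subalgebra.equivOfEq _ _ hset)
  have he : ∀ a, ((e a : adjoin F (Set.range y)) : ℂ) = M.val (a : M) := fun a => rfl
  have alg : Algebra.IsAlgebraic (adjoin F (Set.range y')) M := by
    constructor
    intro m
    have h1 : IsAlgebraic (IntermediateField.adjoin F (Set.range y)) (m : ℂ) := (hM _).1 m.2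
    have h2 : IsAlgebraic (adjoin F (Set.range y)) (m : ℂ) :=
      (IsFractionRing.isAlgebraic_iff (adjoin F (Set.range y))
        (IntermediateField.adjoin F (Set.range y)) ℂ).2 h1
    obtain ⟨P, hP0, hP⟩ := h2
    refine ⟨P.map (e.symm : adjoin F (Set.range y) →+* adjoin F (Set.range y')), ?_, ?_⟩
    · rw [Ne, Polynomial.map_eq_zero_iff]
      · exact hP0
      · exact e.symm.injective
    · apply hinj
      rw [map_zero, ← hP, Polynomial.aeval_def, Polynomial.aeval_def, Polynomial.eval₂_map]
      rw [← AlgHom.coe_toRingHom, Polynomial.hom_eval₂]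
      congr 1
      ext a
      have h3 := he (e.symm a)
      rw [AlgEquiv.apply_symm_apply] at h3
      exact h3.symm
  have hb := Algebra.IsAlgebraic.isTranscendenceBasis_of_le_trdeg_of_finite F y' le
  exact hb.1.map' (f := M.val) M.val.injective

/-- If the `x i` are independent modulo `B` and the `x i`, `E (x i)` are algebraic over the field
generated by the `y i` over `F`, then the `y i` are algebraically independent over `F`. -/
theorem rel_ai {B : Submodule ℚ ℂ} (h : Relative E B) {ι : Type} [Fintype ι] (x y : ι → ℂ)
    (hx : LinearIndependent ℚ (fun i => B.mkQ (x i)))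
    (h1 : ∀ i, IsAlgebraic (IntermediateField.adjoin (FB E B) (Set.range y)) (x i))
    (h2 : ∀ i, IsAlgebraic (IntermediateField.adjoin (FB E B) (Set.range y)) (E (x i))) :
    AlgebraicIndependent (FB E B) y := by
  let M : IntermediateField (FB E B) ℂ :=
    (algebraicClosure (IntermediateField.adjoin (FB E B) (Set.range y)) ℂ).restrictScalars
      (FB E B)
  have hM : ∀ z, z ∈ M ↔ IsAlgebraic (IntermediateField.adjoin (FB E B) (Set.range y)) z :=
    fun z => by
      rw [IntermediateField.mem_restrictScalars, mem_algebraicClosure_iff]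
  refine ai_of_trdeg M hM ?_
  let σ : Fin (Fintype.card ι) ≃ ι := (Fintype.equivFin ι).symm
  have h3 := h (Fintype.card ι) (x ∘ σ) (hx.comp σ σ.injective)
  have h4 : IntermediateField.adjoin (FB E B) (Set.range (x ∘ σ) ∪
      Set.range fun i => E ((x ∘ σ) i)) ≤ M := by
    rw [IntermediateField.adjoin_le_iff]
    rintro z (⟨i, rfl⟩ | ⟨i, rfl⟩)
    · exact (hM _).2 (h1 (σ i))
    · exact (hM _).2 (h2 (σ i))
  have h5 := trdeg_le_of_injective (IntermediateField.inclusion h4)
    (IntermediateField.inclusion_injective h4)
  have h6 : Cardinal.mk ι = (Fintype.card ι : Cardinal) := Cardinal.mk_fintype ι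
  rw [h6]
  exact h3.trans h5

/-- Logarithms which are independent modulo `B` are algebraically independent over `F`. -/
theorem rel_logs {B : Submodule ℚ ℂ} (h : Relative E B) {ι : Type} [Fintype ι] (y : ι → ℂ)
    (hy : LinearIndependent ℚ (fun i => B.mkQ (y i))) (ha : ∀ i, IsAlgebraic ℚ (E (y i))) :
    AlgebraicIndependent (FB E B) y := by
  refine rel_ai h y y hy (fun i => ?_) fun i => (ha i).tower_top _
  exact isAlgebraic_algebraMap (⟨y i, IntermediateField.subset_adjoin _ _ ⟨i, rfl⟩⟩ :
    IntermediateField.adjoin (FB E B) (Set.range y))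

end Pool.Agent.Pat6
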