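import Pool.Agent.Pat6.GelA

/-!
# Pat6: finitely many elements of `logSpan E` and logarithms independent modulo `B`

PROOF of `exists_logs`. Every `x i` is in the span over `Qbar` of a finite subset of `{1} ∪ Λ`,
where `Λ` is the set of the logarithms (`Submodule.mem_span_finite_of_mem_span`); let `S` be the
finite set of all logarithms which occur. In the rational vector space `ℂ ⧸ B` take a linearly
independent subset `b` of the finite set `B.mkQ '' S` with the same span
(`exists_linearIndependent`), number it by `Fin m` and choose `y j ∈ S` with `B.mkQ (y j) = b j`.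
For `s ∈ S` the class of `s` is a rational combination of the classes of the `y j`, so
`s = ∑ c j • y j + t` with `t ∈ B`, and `t` is a logarithm (`Lam hE` is a subspace). So `s` is in
the span of `{z ∈ B : E z algebraic} ∪ range y` over `Qbar` (a rational multiple is a
`Qbar`-multiple).
-/

set_option autoImplicit false

namespace Pool.Agent.Pat6

open Complex Pool.Agent.Pat5

theorem exists_logs {E : ℂ → ℂ} {p : ℝ} (hE : IsExp E p) (B : Submodule ℚ ℂ) {n : ℕ}
    (x : Fin n → ℂ) (hx : ∀ i, x i ∈ logSpan E) :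
    ∃ (m : ℕ) (y : Fin m → ℂ), (∀ j, IsAlgebraic ℚ (E (y j))) ∧
      LinearIndependent ℚ (fun j => B.mkQ (y j)) ∧
      ∀ i, x i ∈ Submodule.span Qbar (({1} ∪ {z | z ∈ B ∧ IsAlgebraic ℚ (E z)}) ∪
        Set.range y) := by
  classical
  choose T hT hxT using fun i => Submodule.mem_span_finite_of_mem_span (hx i)
  have hfin : (⋃ i, (T i : Set ℂ)).Finite := Set.finite_iUnion fun i => (T i).finite_toSet
  have hSf : {z | z ∈ ⋃ i, (T i : Set ℂ) ∧ IsAlgebraic ℚ (E z)}.Finite :=
    hfin.subset fun z hz => hz.1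
  obtain ⟨b, hb1, hb2, hb3⟩ := exists_linearIndependent ℚ
    (B.mkQ '' {z | z ∈ ⋃ i, (T i : Set ℂ) ∧ IsAlgebraic ℚ (E z)})
  have hbf : b.Finite := (hSf.image _).subset hb1
  have : Fintype b := hbf.fintype
  let σ : Fin (Fintype.card b) ≃ b := (Fintype.equivFin b).symm
  choose y hy using fun j : b => hb1 j.2
  refine ⟨Fintype.card b, fun j => y (σ j), fun j => (hy (σ j)).1.2, ?_, fun i => ?_⟩
  · have h1 : (fun j => B.mkQ (y (σ j))) = (fun j : b => (j : ℂ ⧸ B)) ∘ σ :=
      funext fun j => (hy (σ j)).2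
    rw [h1]
    exact hb3.comp σ σ.injective
  · have key : ∀ z, z ∈ ⋃ i, (T i : Set ℂ) → IsAlgebraic ℚ (E z) →
        z ∈ Submodule.span Qbar (({1} ∪ {z | z ∈ B ∧ IsAlgebraic ℚ (E z)}) ∪
          Set.range fun j => y (σ j)) := by
      intro z hz hza
      have h2 : B.mkQ '' (Set.range fun j => y (σ j)) = b := by
        ext v
        constructor
        · rintro ⟨_, ⟨j, rfl⟩, rfl⟩
          rw [(hy (σ j)).2]
          exact (σ j).2
        · intro hv
          exact ⟨y ⟨v, hv⟩, ⟨σ.symm ⟨v, hv⟩, by simp only [Equiv.apply_symm_apply]⟩,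
            (hy ⟨v, hv⟩).2⟩
      have h1 : B.mkQ z ∈ (Submodule.span ℚ (Set.range fun j => y (σ j))).map B.mkQ := by
        rw [Submodule.map_span, h2, hb2]
        exact Submodule.subset_span ⟨z, ⟨hz, hza⟩, rfl⟩
      obtain ⟨v, hv, hvz⟩ := h1
      have h3 : z - v ∈ B := by
        rw [Submodule.mkQ_apply, Submodule.mkQ_apply, Submodule.Quotient.eq] at hvz
        rw [← neg_sub]
        exact B.neg_mem hvz
      have h4 : v ∈ Lam hE := by
        refine (Submodule.span_le.2 ?_ : Submodule.span ℚ (Set.range fun j => y (σ j)) ≤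
          Lam hE) hv
        rintro _ ⟨j, rfl⟩
        exact (hy (σ j)).1.2
      have h5 : z - v ∈ Lam hE := (Lam hE).sub_mem hza h4
      have h6 : v ∈ Submodule.span Qbar (({1} ∪ {z | z ∈ B ∧ IsAlgebraic ℚ (E z)}) ∪
          Set.range fun j => y (σ j)) :=
        Submodule.span_mono Set.subset_union_right
          (Submodule.span_le_restrictScalars ℚ Qbar (Set.range fun j => y (σ j)) hv)
      rw [← add_sub_cancel v z]
      exact Submodule.add_mem _ h6 (Submodule.subset_span (Or.inl (Or.inr ⟨h3, h5⟩)))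
    refine (Submodule.span_le.2 ?_ : Submodule.span Qbar (T i : Set ℂ) ≤ _) (hxT i)
    intro z hz
    rcases hT i hz with h1 | h1
    · exact Submodule.subset_span (Or.inl (Or.inl h1))
    · exact key z (Set.mem_iUnion.2 ⟨i, hz⟩) h1

end Pool.Agent.Pat6
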