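import Pool.Agent.Pat6.GelB

/-!
# Pat6: the elements of `B` in `logSpan E`

PROOF of `mem_B_logSpan`. `exists_logs` for the family with the single member `b` gives `y`, and
`b = u + w` with `u` in the span over `Qbar` of `{1} ∪ {z ∈ B : E z algebraic}` and
`w = ∑ γ j * y j`, `γ j ∈ Qbar` (`Submodule.span_union`, `Submodule.mem_sup`,
`Submodule.mem_span_range_iff_exists_fun`). Let `K` be the algebraic closure of `FB E B` in `ℂ`: it
contains `b`, `B` and the algebraic numbers, so `u ∈ K` and `w = b - u ∈ K`. The `y j` are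
algebraically independent over `FB E B` (`rel_logs`) and over `K`
(`AlgebraicIndependent.algebraicClosure`), hence `1` and the `y j` are linearly independent over `K` (`ai_ne`: if `∑ γ j * y j ∈ K` with
`γ j ∈ K` then the polynomial `∑ γ j X j - w` vanishes at `y`, so `γ = 0`).
-/

set_option autoImplicit false

namespace Pool.Agent.Pat6

open Complex Pool.Agent.Pat5

theorem ai_ne {K : Type} [Field K] [Algebra K ℂ] {ι : Type} [Fintype ι] {y : ι → ℂ}
    (hy : AlgebraicIndependent K y) (γ : ι → K) (w : K)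
    (h : ∑ i, algebraMap K ℂ (γ i) * y i = algebraMap K ℂ w) : γ = 0 := by
  classical
  have h1 : MvPolynomial.aeval y
      (∑ i, MvPolynomial.C (γ i) * MvPolynomial.X i - MvPolynomial.C w : MvPolynomial ι K) =
        0 := by
    rw [map_sub, map_sum]
    simp only [map_mul, MvPolynomial.aeval_C, MvPolynomial.aeval_X]
    rw [h, sub_self]
  have h2 := hy.eq_zero_of_aeval_eq_zero _ h1
  funext i
  have h3 := congrArg (MvPolynomial.coeff (Finsupp.single i 1)) h2
  rw [MvPolynomial.coeff_sub, MvPolynomial.coeff_sum, MvPolynomial.coeff_zero,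
    MvPolynomial.coeff_C, if_neg (fun h0 => by
      have h4 := DFunLike.congr_fun h0 i
      simp at h4), sub_zero] at h3
  rw [Finset.sum_eq_single i] at h3
  · rw [MvPolynomial.coeff_C_mul, MvPolynomial.coeff_X, if_pos rfl, mul_one] at h3
    exact h3
  · intro j _ hj
    rw [MvPolynomial.coeff_C_mul, MvPolynomial.coeff_X, if_neg, mul_zero]
    intro h4
    exact hj ((Finsupp.single_left_inj one_ne_zero).1 h4)
  · intro h4
    exact absurd (Finset.mem_univ i) h4

theorem mem_B_logSpan {E : ℂ → ℂ} {p : ℝ} (hE : IsExp E p) {B : Submodule ℚ ℂ}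
    (hR : Relative E B) {b : ℂ} (hb : b ∈ B) (hs : b ∈ logSpan E) :
    b ∈ Submodule.span Qbar ({1} ∪ {z | z ∈ B ∧ IsAlgebraic ℚ (E z)}) := by
  obtain ⟨m, y, hy1, hy2, hy3⟩ := exists_logs hE B (fun _ : Fin 1 => b) (fun _ => hs)
  have h := hy3 0
  rw [Submodule.span_union, Submodule.mem_sup] at h
  obtain ⟨u, hu, w, hw, huw⟩ := h
  obtain ⟨γ, hγ⟩ := (Submodule.mem_span_range_iff_exists_fun Qbar).1 hw
  let K : IntermediateField (FB E B) ℂ := algebraicClosure (FB E B) ℂ
  have hQ : ∀ c : Qbar, (c : ℂ) ∈ K := fun c =>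
    mem_algebraicClosure_iff.2 ((mem_Qbar.1 c.2).tower_top _)
  have hB : ∀ z ∈ B, z ∈ K := fun z hz => by
    have h1 : z ∈ FB E B := IntermediateField.subset_adjoin _ _ (Or.inl hz)
    exact K.algebraMap_mem ⟨z, h1⟩
  have hsp : ∀ z ∈ Submodule.span Qbar ({1} ∪ {z | z ∈ B ∧ IsAlgebraic ℚ (E z)}), z ∈ K := by
    intro z hz
    induction hz using Submodule.span_induction with
    | mem x hx =>
      rcases hx with hx | hx
      · rw [Set.mem_singleton_iff.1 hx]
        exact K.one_mem
      · exact hB x hx.1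
    | zero => exact K.zero_mem
    | add x x' _ _ h1 h2 => exact K.add_mem h1 h2
    | smul c x _ h1 =>
      have h2 : c • x = (c : ℂ) * x := Algebra.smul_def c x
      rw [h2]
      exact K.mul_mem (hQ c) h1
  have hai : AlgebraicIndependent K y := (rel_logs hR y hy2 hy1).algebraicClosure
  have hwK : w ∈ K := by
    have h1 : w = b - u := by
      rw [← huw]
      ring
    rw [h1]
    exact K.sub_mem (hB b hb) (hsp u hu)
  have h0 := ai_ne hai (fun j => ⟨(γ j : ℂ), hQ (γ j)⟩) ⟨w, hwK⟩ (by
    change ∑ j, (γ j : ℂ) * y j = w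
    rw [← hγ]
    exact Finset.sum_congr rfl fun j _ => (Algebra.smul_def (γ j) (y j)).symm)
  have hγ0 : ∀ j, γ j = 0 := fun j => by
    have h1 := congrFun h0 j
    exact Subtype.ext (congrArg (fun t : K => (t : ℂ)) h1)
  have hw0 : w = 0 := by
    rw [← hγ]
    refine Finset.sum_eq_zero fun j _ => ?_
    rw [hγ0 j, zero_smul]
  rw [← huw, hw0, add_zero]
  exact hu

end Pool.Agent.Pat6
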