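import Pool.Agent.Pat6.UTow
import Pool.Agent.Pat5.EEx

/-!
# Pat6: the elements of the base space in the span of `1` and its logarithms

Let `B` be the space of the first coordinates of the base space (`base_map_fst` in `UTow.lean`: the
span of `1`, `p I`, `v i`, `X j` over `ℚ`).

PROOF of `logs_base`. Write `u = a + s p I + ∑ r i v i + ∑ t j X j` with rational coefficients
(finite sums: `ν`, `χ` are finite; `Submodule.span_union`, `Submodule.mem_sup`,
`Submodule.mem_span_range_iff_exists_fun`). By `isAlgebraic_EE` (`Pool/Agent/Pat5/EEx.lean`)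
`f (re u) = a log e + ∑ r i w i + ∑ t j Y j` is in `Lr`; the `w i` are in `Lr` (`D.w_mem`), so
`a log e + ∑ t j Y j ∈ Lr`, and `D.ran` (with `b = t` as a `Finsupp`) gives `a = 0`, `t = 0`.

PROOF of `S2_of`. By `logs_base` `b` is in the span over `Qbar` of `{1, p} ∪ {v i}` (`I` is in `Qbar`).
Write `b = a + s p I + ∑ r i v i + ∑ t j X j` with rational coefficients. Then `∑ t j X j` is in the span
over `Qbar` of `{1, p} ∪ {v i}`, which is the one of `{1, X j0} ∪ {v i}`, because `p = A + c X j0`. By the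
linear independence of `1, v, X` over `Qbar` (`D.dom`) we get `t j = 0` for `j ≠ j0`. So
`b = a + s p I + ∑ r i v i + t X j0 = (a - t A / c) + (t / c) p + (s p I + ∑ r i v i)`, and the last
number is a logarithm: its value is `exp (∑ r i w i + s π I)` (`isAlgebraic_EE`: `f` of the real part
is in `Lr`, `g (s p) = s π` is in `Li`).
-/

set_option autoImplicit false

namespace Pool.Agent.Pat6

open Complex Pool.Agent.Pat5

private theorem dec_GelD {ν χ : Type} [Fintype ν] [Fintype χ] {e p : ℝ}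
    {v w : ν → ℝ} {X Y : χ → ℝ} {u : ℂ}
    (hu : u ∈ (base e p v w X Y).map (LinearMap.fst ℚ ℂ ℂ)) :
    ∃ (a s : ℚ) (r : ν → ℚ) (t : χ → ℚ), u = a • (1 : ℂ) + s • ((p : ℂ) * I) +
      ∑ i, r i • (v i : ℂ) + ∑ j, t j • (X j : ℂ) := by
  rw [base_map_fst, Submodule.span_union, Submodule.mem_sup] at hu
  obtain ⟨x, hx, y, hy, rfl⟩ := hu
  rw [Submodule.span_union, Submodule.mem_sup] at hx
  obtain ⟨x1, hx1, x2, hx2, rfl⟩ := hx
  obtain ⟨a, s, rfl⟩ := Submodule.mem_span_pair.1 hx1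
  obtain ⟨r, rfl⟩ := (Submodule.mem_span_range_iff_exists_fun ℚ).1 hx2
  obtain ⟨t, rfl⟩ := (Submodule.mem_span_range_iff_exists_fun ℚ).1 hy
  exact ⟨a, s, r, t, rfl⟩

private theorem re_GelD {ν χ : Type} [Fintype ν] [Fintype χ] {p : ℝ} {v : ν → ℝ}
    {X : χ → ℝ} (a s : ℚ) (r : ν → ℚ) (t : χ → ℚ) :
    (a • (1 : ℂ) + s • ((p : ℂ) * I) + ∑ i, r i • (v i : ℂ) + ∑ j, t j • (X j : ℂ)).re =
      a • (1 : ℝ) + ∑ i, r i • v i + ∑ j, t j • X j := by
  rw [add_re, add_re, add_re, re_sum, re_sum, smul_re, smul_re, one_re, re_ofReal_mul, I_re,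
    mul_zero, smul_zero, add_zero]
  simp only [smul_re, ofReal_re]

private theorem im_GelD {ν χ : Type} [Fintype ν] [Fintype χ] {p : ℝ} {v : ν → ℝ}
    {X : χ → ℝ} (a s : ℚ) (r : ν → ℚ) (t : χ → ℚ) :
    (a • (1 : ℂ) + s • ((p : ℂ) * I) + ∑ i, r i • (v i : ℂ) + ∑ j, t j • (X j : ℂ)).im =
      s • p := by
  rw [add_im, add_im, add_im, im_sum, im_sum, smul_im, smul_im, one_im, im_ofReal_mul, I_im,
    mul_one, smul_zero, zero_add]
  simp only [smul_im, ofReal_im, smul_zero, Finset.sum_const_zero, add_zero]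

theorem logs_base {n : ℕ} {z : Fin n → ℝ} {ν χ : Type} [Finite ν] [Finite χ] {e p : ℝ}
    {v w : ν → ℝ} {X Y : χ → ℝ} (D : Dat z e p v w X Y) {f g : ℝ ≃ₗ[ℚ] ℝ}
    (hf1 : f 1 = Real.log e) (hfv : ∀ i, f (v i) = w i)
    (hfX : ∀ j, f (X j) = Y j) {u : ℂ}
    (hu : u ∈ (base e p v w X Y).map (LinearMap.fst ℚ ℂ ℂ)) (ha : IsAlgebraic ℚ (EE f g u)) :
    u ∈ Submodule.span ℚ ({(p : ℂ) * I} ∪ Set.range fun i => (v i : ℂ)) := by
  have hfν := Fintype.ofFinite ν
  have hfχ := Fintype.ofFinite χ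
  obtain ⟨a, s, r, t, rfl⟩ := dec_GelD hu
  have h1 := ((isAlgebraic_EE f g _).1 ha).1
  rw [re_GelD, map_add, map_add, map_sum, map_sum, map_smul, hf1] at h1
  simp only [map_smul, hfv, hfX] at h1
  have h2 : ∑ i, r i • w i ∈ Lr := Submodule.sum_mem _ fun i _ => Lr.smul_mem _ (D.w_mem i)
  have h3 : a • Real.log e + ∑ j, t j • Y j ∈ Lr := by
    have h := Lr.sub_mem h1 h2
    have h4 : a • Real.log e + ∑ i, r i • w i + ∑ j, t j • Y j - ∑ i, r i • w i =
        a • Real.log e + ∑ j, t j • Y j := by ring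
    rwa [h4] at h
  rw [mem_Lr, ← isAlgebraic_algebraMap_iff (algebraMap ℝ ℂ).injective] at h3
  have h4 := D.ran a (Finsupp.equivFunOnFinite.symm t) (by
    rw [Finsupp.sum_fintype _ _ (fun j => by simp)]
    simp only [Finsupp.equivFunOnFinite_symm_apply_apply]
    convert h3 using 1
    rw [coe_algebraMap, ofReal_exp]
    congr 1
    rw [ofReal_add, ofReal_sum, Rat.smul_def, ofReal_mul, ofReal_ratCast]
    congr 1
    refine Finset.sum_congr rfl fun j _ => ?_
    rw [Rat.smul_def, ofReal_mul, ofReal_ratCast])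
  obtain ⟨rfl, h5⟩ := h4
  have h6 : ∀ j, t j = 0 := fun j => by
    have h := DFunLike.congr_fun h5 j
    exact h
  simp only [h6, zero_smul, Finset.sum_const_zero, add_zero, zero_add]
  refine add_mem (Submodule.smul_mem _ _ (Submodule.subset_span (Or.inl rfl))) ?_
  exact Submodule.sum_mem _ fun i _ =>
    Submodule.smul_mem _ _ (Submodule.subset_span (Or.inr ⟨i, rfl⟩))

private theorem I_GelD : I ∈ Qbar := by
  rw [mem_Qbar]
  refine ⟨Polynomial.X ^ 2 + 1, ?_, ?_⟩
  · intro h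
    have h1 := congrArg (Polynomial.eval 0) h
    simp at h1
  · simp

private theorem pi_GelD : Real.pi ∈ Li := by
  rw [mem_Li, exp_pi_mul_I]
  exact isAlgebraic_one.neg

theorem S2_of {n : ℕ} {z : Fin n → ℝ} {ν χ : Type} [Finite ν] [Finite χ] {e p : ℝ}
    {v w : ν → ℝ} {X Y : χ → ℝ} (D : Dat z e p v w X Y) {f g : ℝ ≃ₗ[ℚ] ℝ}
    (hf1 : f 1 = Real.log e) (hgp : g p = Real.pi) (hfv : ∀ i, f (v i) = w i)
    (hfX : ∀ j, f (X j) = Y j) (j0 : χ) (A c : ℚ) (hc : c ≠ 0) (hp : p = A + c * X j0) {b : ℂ}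
    (hb : b ∈ (base e p v w X Y).map (LinearMap.fst ℚ ℂ ℂ))
    (hs : b ∈ Submodule.span Qbar ({1} ∪ {z | z ∈ (base e p v w X Y).map
      (LinearMap.fst ℚ ℂ ℂ) ∧ IsAlgebraic ℚ (EE f g z)})) :
    ∃ r s : ℚ, IsAlgebraic ℚ (EE f g (b - r - s * p)) := by
  classical
  have hfν := Fintype.ofFinite ν
  have hfχ := Fintype.ofFinite χ
  set W : Submodule Qbar ℂ :=
    Submodule.span Qbar ({1, (X j0 : ℂ)} ∪ Set.range fun i => (v i : ℂ)) with hW
  have h1W : (1 : ℂ) ∈ W := Submodule.subset_span (Or.inl (Or.inl rfl))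
  have hXW : (X j0 : ℂ) ∈ W := Submodule.subset_span (Or.inl (Or.inr rfl))
  have hvW : ∀ i, (v i : ℂ) ∈ W := fun i => Submodule.subset_span (Or.inr ⟨i, rfl⟩)
  have hqW : ∀ (q : ℚ) {x : ℂ}, x ∈ W → q • x ∈ W := fun q x hx =>
    (W.restrictScalars ℚ).smul_mem q hx
  have hpW : (p : ℂ) ∈ W := by
    have h : (p : ℂ) = A • (1 : ℂ) + c • (X j0 : ℂ) := by
      rw [hp, Rat.smul_def, Rat.smul_def, mul_one]
      push_cast
      ring
    rw [h]
    exact add_mem (hqW _ h1W) (hqW _ hXW)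
  have hpI : (p : ℂ) * I ∈ W := by
    have h : (p : ℂ) * I = (⟨I, I_GelD⟩ : Qbar) • (p : ℂ) := by
      rw [mul_comm]
      rfl
    rw [h]
    exact W.smul_mem _ hpW
  have hbW : b ∈ W := by
    refine Submodule.span_le.2 ?_ hs
    rintro x (hx | ⟨hx, hx'⟩)
    · rw [Set.mem_singleton_iff] at hx
      rw [hx]
      exact h1W
    · have h2 := logs_base D hf1 hfv hfX hx hx'
      have h3 : Submodule.span ℚ ({(p : ℂ) * I} ∪ Set.range fun i => (v i : ℂ)) ≤
          W.restrictScalars ℚ := by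
        rw [Submodule.span_le]
        rintro y (hy | ⟨i, rfl⟩)
        · rw [Set.mem_singleton_iff] at hy
          rw [hy]
          exact hpI
        · exact hvW i
      exact h3 h2
  obtain ⟨a, s, r, t, hbd⟩ := dec_GelD hb
  have hsum : ∑ j, t j • (X j : ℂ) ∈ W := by
    have h : ∑ j, t j • (X j : ℂ) = b - (a • (1 : ℂ) + s • ((p : ℂ) * I) +
        ∑ i, r i • (v i : ℂ)) := by
      rw [hbd]
      ring
    rw [h]
    exact sub_mem hbW (add_mem (add_mem (hqW _ h1W) (hqW _ hpI))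
      (Submodule.sum_mem _ fun i _ => hqW _ (hvW i)))
  have ht : ∀ j, j ≠ j0 → t j = 0 := by
    intro j hj
    by_contra h0
    set F : Option (ν ⊕ χ) → ℂ := fun o =>
      o.elim 1 (Sum.elim (fun i => (v i : ℂ)) (fun j => (X j : ℂ))) with hF
    set S : Set (Option (ν ⊕ χ)) := {o | o ≠ some (Sum.inr j)} with hS
    have hWS : W ≤ Submodule.span Qbar (F '' S) := by
      rw [hW, Submodule.span_le]
      rintro x ((hx | hx) | ⟨i, rfl⟩)
      · rw [hx]
        exact Submodule.subset_span ⟨none, by simp [hS], rfl⟩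
      · rw [Set.mem_singleton_iff] at hx
        rw [hx]
        refine Submodule.subset_span ⟨some (Sum.inr j0), ?_, rfl⟩
        intro h
        exact hj (Sum.inr_injective (Option.some_injective _ h)).symm
      · exact Submodule.subset_span ⟨some (Sum.inl i), by simp [hS], rfl⟩
    have hrest : ∑ j' ∈ Finset.univ.erase j, t j' • (X j' : ℂ) ∈
        Submodule.span Qbar (F '' S) := by
      refine Submodule.sum_mem _ fun j' hj' => ?_
      refine ((Submodule.span Qbar (F '' S)).restrictScalars ℚ).smul_mem _ ?_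
      refine Submodule.subset_span ⟨some (Sum.inr j'), ?_, rfl⟩
      intro h
      exact (Finset.ne_of_mem_erase hj') (Sum.inr_injective (Option.some_injective _ h))
    have h3 : t j • (X j : ℂ) ∈ Submodule.span Qbar (F '' S) := by
      have h := Finset.add_sum_erase Finset.univ (fun j' => t j' • (X j' : ℂ))
        (Finset.mem_univ j)
      have h4 : t j • (X j : ℂ) = ∑ j', t j' • (X j' : ℂ) -
          ∑ j' ∈ Finset.univ.erase j, t j' • (X j' : ℂ) := by
        rw [← h]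
        ring
      rw [h4]
      exact sub_mem (hWS hsum) hrest
    have h4 : (X j : ℂ) ∈ Submodule.span Qbar (F '' S) := by
      have h := ((Submodule.span Qbar (F '' S)).restrictScalars ℚ).smul_mem (t j)⁻¹ h3
      rwa [smul_smul, inv_mul_cancel₀ h0, one_smul] at h
    exact D.dom.notMem_span_image (s := S) (x := some (Sum.inr j)) (fun h => h rfl) h4
  have hX : ∑ j, t j • (X j : ℂ) = t j0 • (X j0 : ℂ) :=
    Finset.sum_eq_single j0 (fun j _ hj => by rw [ht j hj, zero_smul])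
      fun h => absurd (Finset.mem_univ _) h
  refine ⟨a - t j0 * A / c, t j0 / c, ?_⟩
  have hcC : (c : ℂ) ≠ 0 := by exact_mod_cast hc
  have hfin : b - ((a - t j0 * A / c : ℚ) : ℂ) - ((t j0 / c : ℚ) : ℂ) * p =
      (0 : ℚ) • (1 : ℂ) + s • ((p : ℂ) * I) + ∑ i, r i • (v i : ℂ) +
        ∑ j, (fun _ : χ => (0 : ℚ)) j • (X j : ℂ) := by
    simp only [zero_smul, Finset.sum_const_zero, add_zero, zero_add]
    rw [hbd, hX, hp, Rat.smul_def, Rat.smul_def (t j0)]
    push_cast
    field_simp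
    ring
  rw [hfin, isAlgebraic_EE, re_GelD, im_GelD]
  constructor
  · simp only [zero_smul, Finset.sum_const_zero, add_zero, zero_add]
    rw [map_sum]
    refine Submodule.sum_mem _ fun i _ => ?_
    rw [map_smul, hfv]
    exact Lr.smul_mem _ (D.w_mem i)
  · rw [map_smul, hgp]
    exact Li.smul_mem _ pi_GelD

end Pool.Agent.Pat6
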