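import Pool.Agent.Pat6.GelA
import Pool.Agent.Pat5.Mono

/-!
# Pat6: the values at rational combinations of `1` and `p`

PROOF of `two_gen`. Put `ψ 0 = log (E 1)`, `ψ 1 = log (E p)` (`Complex.log`; `exp (ψ i)` is `E 1`, `E p`,
which are not `0`, `IsExp.ne_zero'`). By `ai_monomials` (`Pool/Agent/Pat5/Mono.lean`) with
`c i = r i * single 0 + s i * single 1` the numbers `exp (r i ψ 0 + s i ψ 1)` are algebraically
independent. Let `N = (r i).den * (s i).den`, `r i = a / N`, `s i = b / N` with integers `a`, `b`; then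
`exp (r i ψ 0 + s i ψ 1) ^ N = (E 1) ^ a * (E p) ^ b = E (r i + s i p) ^ N` (`IsExp.nat_mul'`,
`IsExp.int_mul'`), so `exp (r i ψ 0 + s i ψ 1)` is algebraic over the field generated by
`E (r i + s i p)` (`IsAlgebraic.of_pow`); `ai_pointwise` (`Pool/Agent/Pat5/AiAlg.lean`).
-/

set_option autoImplicit false

namespace Pool.Agent.Pat6

open Complex Pool.Agent.Pat5

private theorem den_mul_GelM (r : ℚ) : (r.den : ℂ) * (r : ℂ) = (r.num : ℂ) := by
  have := Rat.den_mul_eq_num r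
  exact_mod_cast congrArg (fun q : ℚ => (q : ℂ)) this

private theorem pow_eq_GelM {E : ℂ → ℂ} {p : ℝ} (hE : IsExp E p) (r s : ℚ) {u v : ℂ}
    (hu : exp u = E 1) (hv : exp v = E p) :
    exp ((r : ℂ) * u + (s : ℂ) * v) ^ (r.den * s.den) =
      E ((r : ℂ) + (s : ℂ) * p) ^ (r.den * s.den) := by
  have ha : ((r.den * s.den : ℕ) : ℂ) * (r : ℂ) = ((r.num * s.den : ℤ) : ℂ) := by
    push_cast
    rw [← den_mul_GelM r]
    ring
  have hb : ((r.den * s.den : ℕ) : ℂ) * (s : ℂ) = ((s.num * r.den : ℤ) : ℂ) := by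
    push_cast
    rw [← den_mul_GelM s]
    ring
  rw [← Complex.exp_nat_mul, ← hE.nat_mul']
  have h1 : ((r.den * s.den : ℕ) : ℂ) * ((r : ℂ) * u + (s : ℂ) * v) =
      ((r.num * s.den : ℤ) : ℂ) * u + ((s.num * r.den : ℤ) : ℂ) * v := by
    rw [mul_add, ← mul_assoc, ha, ← mul_assoc, hb]
  have h2 : ((r.den * s.den : ℕ) : ℂ) * ((r : ℂ) + (s : ℂ) * p) =
      ((r.num * s.den : ℤ) : ℂ) * 1 + ((s.num * r.den : ℤ) : ℂ) * p := by
    rw [mul_add, ← mul_assoc, ha, hb, mul_one]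
  rw [h1, h2, Complex.exp_add, hE.add, Complex.exp_int_mul, Complex.exp_int_mul, hu, hv,
    hE.int_mul', hE.int_mul']

theorem two_gen {E : ℂ → ℂ} {p : ℝ} (hE : IsExp E p)
    (hN : AlgebraicIndependent ℚ ![E 1, E p]) {n : ℕ} (r s : Fin n → ℚ)
    (h : LinearIndependent ℚ (fun i => (![r i, s i] : Fin 2 → ℚ))) :
    AlgebraicIndependent ℚ (fun i => E ((r i : ℂ) + (s i : ℂ) * p)) := by
  have hψ : ∀ k : Fin 2, exp ((![Complex.log (E 1), Complex.log (E p)] : Fin 2 → ℂ) k) =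
      (![E 1, E p] : Fin 2 → ℂ) k := by
    intro k
    fin_cases k
    · exact Complex.exp_log (hE.ne_zero' 1)
    · exact Complex.exp_log (hE.ne_zero' p)
  have hc : LinearIndependent ℚ (fun i => (Finsupp.linearEquivFunOnFinite ℚ ℚ (Fin 2)).symm
      (![r i, s i] : Fin 2 → ℚ)) :=
    h.map' ((Finsupp.linearEquivFunOnFinite ℚ ℚ (Fin 2)).symm : (Fin 2 → ℚ) →ₗ[ℚ] (Fin 2 →₀ ℚ))
      (LinearEquiv.ker _)
  have h1 := ai_monomials (F := ℚ) (![Complex.log (E 1), Complex.log (E p)] : Fin 2 → ℂ)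
    (by simp only [hψ]; exact hN) _ hc
  refine ai_pointwise h1 fun k => ?_
  have h2 : (((Finsupp.linearEquivFunOnFinite ℚ ℚ (Fin 2)).symm
      (![r k, s k] : Fin 2 → ℚ)).sum fun j q => (q : ℂ) *
        (![Complex.log (E 1), Complex.log (E p)] : Fin 2 → ℂ) j) =
      (r k : ℂ) * Complex.log (E 1) + (s k : ℂ) * Complex.log (E p) := by
    rw [Finsupp.sum_fintype _ _ (fun i => by simp)]
    simp [Fin.sum_univ_two]
  refine IsAlgebraic.of_pow (Nat.mul_pos (r k).den_pos (s k).den_pos) ?_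
  rw [h2, pow_eq_GelM hE (r k) (s k) (Complex.exp_log (hE.ne_zero' 1))
    (Complex.exp_log (hE.ne_zero' p))]
  refine IsAlgebraic.pow ?_ _
  exact isAlgebraic_algebraMap (⟨E ((r k : ℂ) + (s k : ℂ) * p),
    IntermediateField.subset_adjoin ℚ _ (Set.mem_singleton _)⟩ :
    IntermediateField.adjoin ℚ {E ((r k : ℂ) + (s k : ℂ) * p)})

end Pool.Agent.Pat6
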