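import Pool.Agent.Pat6.GelC
import Pool.Agent.Pat6.GelM

/-!
# Pat6: property (G) for functions with the relative inequality

PROOF of `split_span`: in the lattice of the submodules of `X = span (range x)` take a complement `X1`
of `X0 = X ⊓ W` (as in `exists_split` of `Tower.lean`), and bases `x0`, `x1` of `X0`, `X1`
(`Module.finBasis`); `n0 + n1 = n` since `x` is linearly independent. The classes of the `x1 i` modulo
`W` are linearly independent: a combination in `W` is in `X0 ⊓ X1 = 0`.
-/

set_option autoImplicit false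

namespace Pool.Agent.Pat6

open Complex Pool.Agent.Pat5

theorem split_span {n : ℕ} (x : Fin n → ℂ) (hx : LinearIndependent ℚ x) (W : Submodule ℚ ℂ) :
    ∃ (n0 n1 : ℕ) (x0 : Fin n0 → ℂ) (x1 : Fin n1 → ℂ), n0 + n1 = n ∧
      (∀ i, x0 i ∈ Submodule.span ℚ (Set.range x)) ∧
      (∀ i, x1 i ∈ Submodule.span ℚ (Set.range x)) ∧ (∀ i, x0 i ∈ W) ∧
      LinearIndependent ℚ x0 ∧ LinearIndependent ℚ (fun i => W.mkQ (x1 i)) := by
  set X := Submodule.span ℚ (Set.range x) with hX
  have hf : FiniteDimensional ℚ X := FiniteDimensional.span_of_finite ℚ (Set.finite_range _)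
  have hn : Module.finrank ℚ X = n := by
    rw [hX, finrank_span_eq_card hx, Fintype.card_fin]
  obtain ⟨C, hC⟩ := Submodule.exists_isCompl ((X ⊓ W).comap X.subtype)
  have e1 : C.map X.subtype ≤ X := Submodule.map_subtype_le X C
  have e2 : ∀ z ∈ C.map X.subtype, z ∈ W → z = 0 := by
    rintro _ ⟨c, hc, rfl⟩ hW
    have h1 : c ∈ (X ⊓ W).comap X.subtype := ⟨c.2, hW⟩
    have h2 : c = 0 := (Submodule.disjoint_def.1 hC.disjoint) c h1 hc
    rw [h2, map_zero]
  have e3 : (X ⊓ W) ⊔ C.map X.subtype = X := by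
    have h1 : ((X ⊓ W).comap X.subtype ⊔ C).map X.subtype = X := by
      rw [hC.sup_eq_top, Submodule.map_top, Submodule.range_subtype]
    rw [Submodule.map_sup, Submodule.map_comap_subtype, ← inf_assoc, inf_idem] at h1
    exact h1
  have f1 : FiniteDimensional ℚ (C.map X.subtype) := Submodule.finiteDimensional_of_le e1
  have f2 : FiniteDimensional ℚ (X ⊓ W : Submodule ℚ ℂ) :=
    Submodule.finiteDimensional_of_le inf_le_left
  have h1 := Submodule.finrank_sup_add_finrank_inf_eq (X ⊓ W) (C.map X.subtype)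
  have h2 : (X ⊓ W) ⊓ C.map X.subtype = ⊥ := by
    rw [eq_bot_iff]
    intro z hz
    exact e2 z hz.2 hz.1.2
  rw [e3, h2, finrank_bot, add_zero] at h1
  refine ⟨_, _, fun i => (Module.finBasis ℚ (X ⊓ W : Submodule ℚ ℂ) i : ℂ),
    fun i => (Module.finBasis ℚ (C.map X.subtype) i : ℂ), h1.symm.trans hn,
    fun i => (Module.finBasis ℚ (X ⊓ W : Submodule ℚ ℂ) i).2.1,
    fun i => e1 (Module.finBasis ℚ (C.map X.subtype) i).2,
    fun i => (Module.finBasis ℚ (X ⊓ W : Submodule ℚ ℂ) i).2.2, ?_, ?_⟩
  · exact (Module.finBasis ℚ (X ⊓ W : Submodule ℚ ℂ)).linearIndependent.map'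
      (Submodule.subtype _) (Submodule.ker_subtype _)
  · have h3 := (Module.finBasis ℚ (C.map X.subtype)).linearIndependent.map'
      (W.mkQ.comp (C.map X.subtype).subtype) (by
        rw [LinearMap.ker_eq_bot']
        intro z hz
        have h4 : (z : ℂ) ∈ W := (Submodule.Quotient.mk_eq_zero W).1 hz
        exact Subtype.ext (e2 z z.2 h4))
    exact h3

theorem gel_of {E : ℂ → ℂ} {p : ℝ} (hE : IsExp E p) {B : Submodule ℚ ℂ} (hR : Relative E B)
    (h1 : (1 : ℂ) ∈ B) (hp : (p : ℂ) ∈ B) (hN : AlgebraicIndependent ℚ ![E 1, E p])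
    (hS : ∀ b ∈ B, b ∈ Submodule.span Qbar ({1} ∪ {z | z ∈ B ∧ IsAlgebraic ℚ (E z)}) →
      ∃ r s : ℚ, IsAlgebraic ℚ (E (b - r - s * p))) : Gel E := by
  intro n x hx hind
  have hli : LinearIndependent ℚ x := by
    rw [Fintype.linearIndependent_iff]
    intro c hc
    have h := hind c (by
      have h2 : ∑ i, (c i : ℂ) * x i = 0 := by simpa [Rat.smul_def] using hc
      rw [h2, hE.zero']
      exact isAlgebraic_one)
    intro i
    rw [h]
    rfl
  have hX0 : ∀ z ∈ Submodule.span ℚ (Set.range x), z ∈ Lam hE → z = 0 := by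
    intro z hz hzl
    obtain ⟨c, rfl⟩ := (Submodule.mem_span_range_iff_exists_fun ℚ).1 hz
    have h := hind c (by
      have h2 : ∑ i, (c i : ℂ) * x i = ∑ i, c i • x i := by simp [Rat.smul_def]
      rw [h2]
      exact hzl)
    rw [h]
    simp
  have hXs : ∀ z ∈ Submodule.span ℚ (Set.range x), z ∈ logSpan E := by
    have h2 : Submodule.span ℚ (Set.range x) ≤ (logSpan E).restrictScalars ℚ := by
      rw [Submodule.span_le]
      rintro _ ⟨i, rfl⟩
      exact hx i
    exact fun z hz => h2 hz
  obtain ⟨n0, n1, x0, x1, hn, h0X, h1X, h0W, h0li, h1li⟩ := split_span x hli (B ⊔ Lam hE)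
  have key0 : ∀ i, ∃ r s : ℚ, x0 i - r - s * p ∈ Lam hE := by
    intro i
    obtain ⟨b, hb, u, hu, hbl⟩ := Submodule.mem_sup.1 (h0W i)
    have hbs : b ∈ logSpan E := by
      have e : b = x0 i - u := by rw [← hbl]; ring
      rw [e]
      exact sub_mem (hXs _ (h0X i)) (Submodule.subset_span (Or.inr hu))
    obtain ⟨r, s, hrs⟩ := hS b hb (mem_B_logSpan hE hR hb hbs)
    refine ⟨r, s, ?_⟩
    have e : x0 i - r - s * p = (b - r - s * p) + u := by rw [← hbl]; ring
    rw [e]
    exact (Lam hE).add_mem hrs hu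
  choose r s hrs using key0
  have hrsli : LinearIndependent ℚ (fun i => (![r i, s i] : Fin 2 → ℚ)) := by
    rw [Fintype.linearIndependent_iff]
    intro c hc
    have e0 : ∑ i, (c i : ℂ) * r i = 0 := by
      have h2 := congrFun hc 0
      simp only [Finset.sum_apply, Pi.smul_apply, Matrix.cons_val_zero, smul_eq_mul,
        Pi.zero_apply] at h2
      exact_mod_cast h2
    have e1 : ∑ i, (c i : ℂ) * s i = 0 := by
      have h2 := congrFun hc 1
      simp only [Finset.sum_apply, Pi.smul_apply, Matrix.cons_val_one, smul_eq_mul,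
        Pi.zero_apply] at h2
      exact_mod_cast h2
    have h2 : ∑ i, c i • x0 i ∈ Lam hE := by
      have e : ∑ i, c i • x0 i = ∑ i, c i • (x0 i - r i - s i * p) := by
        have e2 : ∀ i, c i • (x0 i - r i - s i * p) =
            c i • x0 i - (c i : ℂ) * r i - (c i : ℂ) * s i * p := by
          intro i
          rw [Rat.smul_def, Rat.smul_def]
          ring
        rw [Finset.sum_congr rfl fun i _ => e2 i, Finset.sum_sub_distrib,
          Finset.sum_sub_distrib, ← Finset.sum_mul, e0, e1]
        ring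
      rw [e]
      exact sum_mem fun i _ => (Lam hE).smul_mem _ (hrs i)
    have h3 := hX0 _ (sum_mem fun i _ => Submodule.smul_mem _ _ (h0X i)) h2
    exact Fintype.linearIndependent_iff.1 h0li c h3
  have h0ai : AlgebraicIndependent ℚ (fun i => E (x0 i)) := by
    refine ai_pointwise (two_gen hE hN r s hrsli) fun i => ?_
    have e : E ((r i : ℂ) + s i * p) = E (x0 i) * E (-(x0 i - r i - s i * p)) := by
      rw [← hE.add]
      congr 1
      ring
    rw [e, hE.neg']
    refine IsAlgebraic.mul ?_ (((mem_Lam hE).1 (hrs i)).inv.tower_top _)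
    exact isAlgebraic_algebraMap
      (⟨E (x0 i), IntermediateField.mem_adjoin_simple_self ℚ _⟩ :
        IntermediateField.adjoin ℚ {E (x0 i)})
  let K : IntermediateField ℚ ℂ := (algebraicClosure (FB E B) ℂ).restrictScalars ℚ
  have hK : ∀ z, z ∈ K ↔ IsAlgebraic (FB E B) z := fun z => by
    rw [IntermediateField.mem_restrictScalars, mem_algebraicClosure_iff]
  have h0K : ∀ i, E (x0 i) ∈ K := by
    intro i
    have e : E (x0 i) = E ((r i : ℂ) + s i * p) * E (x0 i - r i - s i * p) := by
      rw [← hE.add]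
      congr 1
      ring
    rw [e]
    refine mul_mem ?_ ((hK _).2 (((mem_Lam hE).1 (hrs i)).tower_top _))
    have h2 : (r i : ℂ) + s i * p ∈ B := by
      have h3 := B.add_mem (B.smul_mem (r i) h1) (B.smul_mem (s i) hp)
      rwa [Rat.smul_def, Rat.smul_def, mul_one] at h3
    exact (hK _).2 (isAlgebraic_algebraMap
      (⟨_, IntermediateField.subset_adjoin _ _ (Or.inr ⟨_, h2, rfl⟩)⟩ : FB E B))
  obtain ⟨m, y, hy1, hy2, hy3⟩ := exists_logs hE B x1 (fun i => hXs _ (h1X i))
  have hli2 : LinearIndependent ℚ (fun j => B.mkQ (Sum.elim y x1 j)) := by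
    rw [Fintype.linearIndependent_iff]
    intro g hg
    rw [Fintype.sum_sum_type] at hg
    simp only [Sum.elim_inl, Sum.elim_inr] at hg
    have h2 : (∑ j, g (Sum.inl j) • y j) + ∑ i, g (Sum.inr i) • x1 i ∈ B := by
      rw [← Submodule.Quotient.mk_eq_zero, ← Submodule.mkQ_apply, map_add, map_sum, map_sum]
      simpa using hg
    have h3 : ∑ i, g (Sum.inr i) • x1 i ∈ B ⊔ Lam hE := by
      have h4 : ∑ j, g (Sum.inl j) • y j ∈ Lam hE :=
        sum_mem fun j _ => (Lam hE).smul_mem _ (hy1 j)
      have e : ∑ i, g (Sum.inr i) • x1 i = ((∑ j, g (Sum.inl j) • y j) +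
          ∑ i, g (Sum.inr i) • x1 i) + (-∑ j, g (Sum.inl j) • y j) := by ring
      rw [e]
      exact Submodule.add_mem_sup h2 ((Lam hE).neg_mem h4)
    have h5 : ∀ i, g (Sum.inr i) = 0 := by
      refine Fintype.linearIndependent_iff.1 h1li (fun i => g (Sum.inr i)) ?_
      have h6 := (Submodule.Quotient.mk_eq_zero (B ⊔ Lam hE)).2 h3
      rw [← Submodule.mkQ_apply, map_sum] at h6
      simpa using h6
    have h6 : ∀ j, g (Sum.inl j) = 0 := by
      refine Fintype.linearIndependent_iff.1 hy2 (fun j => g (Sum.inl j)) ?_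
      have h7 : ∑ i, g (Sum.inr i) • B.mkQ (x1 i) = 0 :=
        Finset.sum_eq_zero fun i _ => by rw [h5 i, zero_smul]
      rw [h7, add_zero] at hg
      exact hg
    rintro (j | i)
    · exact h6 j
    · exact h5 i
  have hai2 : AlgebraicIndependent (FB E B) (Sum.elim y (fun i => E (x1 i))) := by
    have hL : ∀ j, Sum.elim y (fun i => E (x1 i)) j ∈ IntermediateField.adjoin (FB E B)
        (Set.range (Sum.elim y (fun i => E (x1 i)))) := fun j =>
      IntermediateField.subset_adjoin _ _ ⟨j, rfl⟩
    refine rel_ai hR (Sum.elim y x1) _ hli2 ?_ ?_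
    · rintro (j | i)
      · exact isAlgebraic_algebraMap (⟨_, hL (Sum.inl j)⟩ : IntermediateField.adjoin (FB E B)
          (Set.range (Sum.elim y (fun i => E (x1 i)))))
      · change IsAlgebraic _ (x1 i)
        have h2 := hy3 i
        generalize x1 i = u at h2
        induction h2 using Submodule.span_induction with
        | mem u hu =>
          rcases hu with (hu | hu) | ⟨j, rfl⟩
          · rw [Set.mem_singleton_iff] at hu
            rw [hu]
            exact isAlgebraic_one
          · have h3 : IsAlgebraic (FB E B) u := isAlgebraic_algebraMap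
              (⟨u, IntermediateField.subset_adjoin _ _ (Or.inl hu.1)⟩ : FB E B)
            exact h3.tower_top _
          · exact isAlgebraic_algebraMap (⟨_, hL (Sum.inl j)⟩ :
              IntermediateField.adjoin (FB E B) (Set.range (Sum.elim y (fun i => E (x1 i)))))
        | zero => exact isAlgebraic_zero
        | add u v _ _ hu hv => exact hu.add hv
        | smul c u _ hu =>
          rw [Algebra.smul_def]
          refine IsAlgebraic.mul ?_ hu
          have h3 : IsAlgebraic ℚ (algebraMap Qbar ℂ c) := mem_Qbar.1 c.2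
          exact (h3.tower_top (FB E B)).tower_top _
    · rintro (j | i)
      · exact ((hy1 j).tower_top (FB E B)).tower_top _
      · exact isAlgebraic_algebraMap (⟨_, hL (Sum.inr i)⟩ : IntermediateField.adjoin (FB E B)
          (Set.range (Sum.elim y (fun i => E (x1 i)))))
  have h1ai : AlgebraicIndependent (FB E B) (fun i => E (x1 i)) :=
    hai2.comp Sum.inr Sum.inr_injective
  have h1ai' : AlgebraicIndependent K (fun i => E (x1 i)) := h1ai.algebraicClosure
  have hall := ai_sum K h0ai h0K h1ai'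
  subst hn
  have hall2 := hall.comp finSumFinEquiv.symm finSumFinEquiv.symm.injective
  refine ai_of_alg hall2 fun i => ?_
  have hx2 : ∀ i, IsAlgebraic (IntermediateField.adjoin ℚ (Set.range fun i => E (x i)))
      (E (x i)) := fun i => isAlgebraic_algebraMap
    (⟨E (x i), IntermediateField.subset_adjoin _ _ ⟨i, rfl⟩⟩ :
      IntermediateField.adjoin ℚ (Set.range fun i => E (x i)))
  rw [Function.comp_apply]
  rcases finSumFinEquiv.symm i with j | j
  · exact alg_comb hE _ x hx2 (h0X j)
  · exact alg_comb hE _ x hx2 (h1X j)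

end Pool.Agent.Pat6
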