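import Pool.Agent.Pat6.StepL

/-!
# Pat6: extension of a stage on the imaginary line

PROOF. The same as in `StgG` (read its docstring) with `H` in place of `G`: `dom_H` uses the pairs
`(b k, ang (t (b k)))` (`ang`, `exp_ang`, `ai_circle` in `Pool/Agent/Pat5/Circle.lean`;
`exp (ang c * I) = (1 + c I) / (1 - c I) ∈ K'` as `I ∈ K'` by `Acl K'`), where `b` is a basis of
`{x | (x : ℂ) ∈ K}` modulo the domain of `s.H`; the good step is `step_exp` for
`γ k = ((b k : ℂ) * I, (ang (t (b k)) : ℂ) * I)`, and `exp (γ k).2` are algebraically independent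
over `K` by `ai_circle` (with the empty family for the first part, or with `κ = Empty`).
`ran_H` uses the pairs `(t (b k), b k)`, `b` a basis of `{u | exp (u * I) ∈ K}` modulo the range of
`s.H`; the good step is `step_arg` for `γ k = ((t (b k) : ℂ) * I, (b k : ℂ) * I)`; the numbers
`t (b k) * I` are algebraically independent over `K` (`scale_ai` with `c = I`).
`H_inj` in `dom_H`: if `a.2 = 0` then `exp (∑ c k * (ang (t (b k)) * I)) = exp (- a₀.2 * I) ∈ K`, so
`c = 0` by `transcendental_monomial`.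
-/

set_option autoImplicit false

namespace Pool.Agent.Pat6

open Complex Pool.Agent.Pat5

private theorem isIntegral_I_StgH : IsIntegral ℤ I := by
  refine ⟨Polynomial.X ^ 2 + 1, ?_, ?_⟩
  · have h1 : (Polynomial.X ^ 2 + 1 : Polynomial ℤ) = Polynomial.X ^ 2 + Polynomial.C 1 := by simp
    rw [h1]
    exact Polynomial.monic_X_pow_add_C 1 two_ne_zero
  · simp [I_sq]

private theorem I_mem_StgH {K : IntermediateField ℚ ℂ} (hK : Acl K) : I ∈ K := by
  refine hK _ ?_
  have h1 : IsIntegral ℤ I := isIntegral_I_StgH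
  exact (h1.tower_top (A := ℚ)).isAlgebraic.tower_top K

/-- The pairs with coordinates in `K`. -/
private def pairs_StgH {K : IntermediateField ℚ ℂ} (hK : Acl K) : Submodule ℚ (ℝ × ℝ) where
  carrier := {a | (a.1 : ℂ) ∈ K ∧ exp ((a.2 : ℂ) * I) ∈ K}
  add_mem' := fun {a b} ha hb => by
    refine ⟨?_, ?_⟩
    · have h1 := add_mem ha.1 hb.1
      rwa [← ofReal_add] at h1
    · have h1 := mul_mem ha.2 hb.2
      rwa [← exp_add, ← add_mul, ← ofReal_add] at h1
  zero_mem' := by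
    refine ⟨?_, ?_⟩
    · change ((0 : ℝ) : ℂ) ∈ K
      rw [ofReal_zero]
      exact zero_mem K
    · change exp (((0 : ℝ) : ℂ) * I) ∈ K
      rw [ofReal_zero, zero_mul, exp_zero]
      exact one_mem K
  smul_mem' := fun c x hx => by
    refine ⟨?_, ?_⟩
    · change (((c • x.1 : ℝ)) : ℂ) ∈ K
      rw [Rat.smul_def, ofReal_mul, ofReal_ratCast]
      exact mul_mem (SubfieldClass.ratCast_mem K c) hx.1
    · change exp (((c • x.2 : ℝ) : ℂ) * I) ∈ K
      rw [Rat.smul_def, ofReal_mul, ofReal_ratCast, mul_assoc]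
      exact hK _ (alg_exp_rat (isAlgebraic_algebraMap (⟨_, hx.2⟩ : K)) c)

/-- A basis of `A` modulo `D`. -/
private theorem basis_StgH (A D : Submodule ℚ ℝ) :
    ∃ (κ : Type) (b : κ → ℝ), (∀ k, b k ∈ A) ∧
      (∀ c : κ →₀ ℚ, Finsupp.linearCombination ℚ b c ∈ D → c = 0) ∧
      A ≤ D ⊔ Submodule.span ℚ (Set.range b) := by
  obtain ⟨C, hC⟩ := (D.comap A.subtype).exists_isCompl
  have B := Module.Basis.ofVectorSpace ℚ C
  refine ⟨_, fun k => ((B k : C) : A), fun k => (B k : A).2, fun c hc => ?_, fun x hx => ?_⟩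
  · have h1 : Finsupp.linearCombination ℚ (fun k => (((B k : C) : A) : ℝ)) c =
        ((Finsupp.linearCombination ℚ B c : C) : A) := by
      rw [Finsupp.linearCombination_apply, Finsupp.linearCombination_apply, Finsupp.sum,
        Finsupp.sum, Submodule.coe_sum, Submodule.coe_sum]
      rfl
    rw [h1] at hc
    have h2 : ((Finsupp.linearCombination ℚ B c : C) : A) = 0 :=
      Submodule.disjoint_def.1 hC.disjoint _ hc (Finsupp.linearCombination ℚ B c).2
    have h3 : Finsupp.linearCombination ℚ B c = 0 := Subtype.ext h2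
    exact linearIndependent_iff.1 B.linearIndependent c h3
  · have h1 : (⟨x, hx⟩ : A) ∈ D.comap A.subtype ⊔ C := by
      rw [hC.sup_eq_top]
      exact Submodule.mem_top
    obtain ⟨d, hd, y, hy, hxy⟩ := Submodule.mem_sup.1 h1
    have h2 : x = (d : ℝ) + (y : ℝ) := by
      have := congrArg (Subtype.val) hxy
      exact this.symm
    rw [h2]
    refine add_mem (Submodule.mem_sup_left hd) (Submodule.mem_sup_right ?_)
    have h3 : (⟨y, hy⟩ : C) ∈ Submodule.span ℚ (Set.range B) := by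
      rw [B.span_eq]
      exact Submodule.mem_top
    have h4 := Submodule.mem_map_of_mem (f := A.subtype ∘ₗ C.subtype) h3
    rw [Submodule.map_span, ← Set.range_comp] at h4
    exact h4

private theorem inj_StgH {κ : Type} {b : κ → ℝ} {D : Submodule ℚ ℝ}
    (h : ∀ c : κ →₀ ℚ, Finsupp.linearCombination ℚ b c ∈ D → c = 0) :
    Function.Injective b := by
  intro k k' hk
  by_contra hne
  have h1 := h (Finsupp.single k 1 - Finsupp.single k' 1) (by
    rw [map_sub, Finsupp.linearCombination_single, Finsupp.linearCombination_single, hk, sub_self]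
    exact D.zero_mem)
  have h2 := DFunLike.congr_fun h1 k
  rw [Finsupp.sub_apply, Finsupp.single_eq_same, Finsupp.single_eq_of_ne (Ne.symm (Ne.symm hne)),
    sub_zero, Finsupp.zero_apply] at h2
  exact one_ne_zero h2

private theorem coords_StgH {K : IntermediateField ℚ ℂ} (hK : Acl K) (s : Stage K) :
    coords s.cx ⊆ K := by
  rintro z ⟨a, ha, rfl | rfl⟩
  · have h1 := s.G_K _ ha.1
    have h2 := s.H_K _ ha.2
    rw [← re_add_im a.1]
    exact add_mem h1.1 (mul_mem h2.1 (I_mem_StgH hK))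
  · have h1 := s.G_K _ ha.1
    have h2 := s.H_K _ ha.2
    rw [← re_add_im a.2, exp_add]
    exact mul_mem h1.2 h2.2

private theorem im_StgH {κ : Type} (g : κ → ℝ × ℝ) (c : κ →₀ ℚ) :
    Finsupp.linearCombination ℚ
      (fun k => (((g k).1 : ℂ) * I, ((g k).2 : ℂ) * I)) c =
      (((Finsupp.linearCombination ℚ g c).1 : ℂ) * I,
        ((Finsupp.linearCombination ℚ g c).2 : ℂ) * I) := by
  rw [Finsupp.linearCombination_apply, Finsupp.linearCombination_apply, Finsupp.sum, Finsupp.sum]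
  ext1
  · rw [Prod.fst_sum, Prod.fst_sum, ofReal_sum, Finset.sum_mul]
    refine Finset.sum_congr rfl fun k _ => ?_
    rw [Prod.smul_fst, Prod.smul_fst, Rat.smul_def, Rat.smul_def, ofReal_mul, ofReal_ratCast,
      mul_assoc]
  · rw [Prod.snd_sum, Prod.snd_sum, ofReal_sum, Finset.sum_mul]
    refine Finset.sum_congr rfl fun k _ => ?_
    rw [Prod.smul_snd, Prod.smul_snd, Rat.smul_def, Rat.smul_def, ofReal_mul, ofReal_ratCast,
      mul_assoc]

private theorem sub_mem_StgH {G H : Submodule ℚ (ℝ × ℝ)} {a : ℂ × ℂ} {w : ℝ × ℝ}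
    (h1 : (a.1.re, a.2.re) ∈ G) (h2 : (a.1.im - w.1, a.2.im - w.2) ∈ H) :
    a - ((w.1 : ℂ) * I, (w.2 : ℂ) * I) ∈ Pat6.cx G H := by
  rw [mem_cx]
  have e1 : (a - ((w.1 : ℂ) * I, (w.2 : ℂ) * I)).1 = a.1 - (w.1 : ℂ) * I := rfl
  have e2 : (a - ((w.1 : ℂ) * I, (w.2 : ℂ) * I)).2 = a.2 - (w.2 : ℂ) * I := rfl
  rw [e1, e2]
  have e3 : ∀ (z : ℂ) (r : ℝ), (z - (r : ℂ) * I).re = z.re := by
    intro z r
    simp
  have e4 : ∀ (z : ℂ) (r : ℝ), (z - (r : ℂ) * I).im = z.im - r := by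
    intro z r
    simp
  rw [e3, e3, e4, e4]
  exact ⟨h1, h2⟩

/-- The extension of a stage by a family of pairs. -/
private theorem ext_StgH {K K' : IntermediateField ℚ ℂ} (hK : Acl K) (hK' : Acl K')
    (hKK' : K ≤ K') (s : Stage K) {κ : Type} (g : κ → ℝ × ℝ)
    (hg : ∀ k, ((g k).1 : ℂ) ∈ K' ∧ exp (((g k).2 : ℂ) * I) ∈ K')
    (h1 : ∀ a ∈ s.H, ∀ c : κ →₀ ℚ, (a + Finsupp.linearCombination ℚ g c).1 = 0 → c = 0)
    (h2 : ∀ a ∈ s.H, ∀ c : κ →₀ ℚ, (a + Finsupp.linearCombination ℚ g c).2 = 0 → c = 0)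
    (hai : AlgebraicIndependent K (fun k => ((g k).1 : ℂ) * I) ∨
      AlgebraicIndependent K (fun k => exp (((g k).2 : ℂ) * I))) :
    ∃ s' : Stage K', s.G ≤ s'.G ∧ s.H ≤ s'.H ∧ GoodStep K s.cx s'.cx ∧
      ∀ a ∈ s.H, ∀ c : κ →₀ ℚ, a + Finsupp.linearCombination ℚ g c ∈ s'.H := by
  have hrep : ∀ a ∈ s.H ⊔ Submodule.span ℚ (Set.range g), ∃ a₀ ∈ s.H, ∃ c : κ →₀ ℚ,
      a = a₀ + Finsupp.linearCombination ℚ g c := by
    intro a ha
    obtain ⟨a₀, ha₀, z, hz, hz'⟩ := Submodule.mem_sup.1 ha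
    obtain ⟨c, hc⟩ := Finsupp.mem_span_range_iff_exists_finsupp.1 hz
    refine ⟨a₀, ha₀, c, ?_⟩
    rw [Finsupp.linearCombination_apply, hc, hz']
  have hle : s.H ⊔ Submodule.span ℚ (Set.range g) ≤ pairs_StgH hK' := by
    refine sup_le (fun a ha => ⟨hKK' (s.H_K a ha).1, hKK' (s.H_K a ha).2⟩) ?_
    rw [Submodule.span_le]
    rintro _ ⟨k, rfl⟩
    exact hg k
  refine ⟨⟨s.G, s.H ⊔ Submodule.span ℚ (Set.range g),
    fun a ha => ⟨hKK' (s.G_K a ha).1, hKK' (s.G_K a ha).2⟩, fun a ha => hle ha, s.G_inj, ?_⟩,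
    le_rfl, le_sup_left, ?_, ?_⟩
  · intro a ha
    obtain ⟨a₀, ha₀, c, rfl⟩ := hrep a ha
    constructor
    · intro h
      have hc := h1 a₀ ha₀ c h
      rw [hc, map_zero, add_zero] at h ⊢
      exact (s.H_inj a₀ ha₀).1 h
    · intro h
      have hc := h2 a₀ ha₀ c h
      rw [hc, map_zero, add_zero] at h ⊢
      exact (s.H_inj a₀ ha₀).2 h
  · have hΓ : Pat6.cx s.G (s.H ⊔ Submodule.span ℚ (Set.range g)) ≤
        s.cx ⊔ Submodule.span ℚ
          (Set.range fun k => (((g k).1 : ℂ) * I, ((g k).2 : ℂ) * I)) := by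
      intro a ha
      obtain ⟨a₀, ha₀, c, hc⟩ := hrep _ ha.2
      have h3 := im_StgH g c
      have h4 : Finsupp.linearCombination ℚ
          (fun k => (((g k).1 : ℂ) * I, ((g k).2 : ℂ) * I)) c ∈ Submodule.span ℚ
          (Set.range fun k => (((g k).1 : ℂ) * I, ((g k).2 : ℂ) * I)) := by
        rw [Finsupp.mem_span_range_iff_exists_finsupp]
        exact ⟨c, rfl⟩
      rw [h3] at h4
      have h5 := congrArg Prod.fst hc
      have h6 := congrArg Prod.snd hc
      simp only [Prod.fst_add, Prod.snd_add] at h5 h6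
      have h7 : a - (((Finsupp.linearCombination ℚ g c).1 : ℂ) * I,
          ((Finsupp.linearCombination ℚ g c).2 : ℂ) * I) ∈ s.cx := by
        refine sub_mem_StgH ha.1 ?_
        have h9 : (a.1.im - (Finsupp.linearCombination ℚ g c).1,
            a.2.im - (Finsupp.linearCombination ℚ g c).2) = a₀ := by
          rw [h5, h6, add_sub_cancel_right, add_sub_cancel_right]
        rw [h9]
        exact ha₀
      have h11 : a - (((Finsupp.linearCombination ℚ g c).1 : ℂ) * I,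
          ((Finsupp.linearCombination ℚ g c).2 : ℂ) * I) +
          (((Finsupp.linearCombination ℚ g c).1 : ℂ) * I,
            ((Finsupp.linearCombination ℚ g c).2 : ℂ) * I) ∈ s.cx ⊔ Submodule.span ℚ
          (Set.range fun k => (((g k).1 : ℂ) * I, ((g k).2 : ℂ) * I)) :=
        add_mem (Submodule.mem_sup_left h7) (Submodule.mem_sup_right h4)
      rwa [sub_add_cancel] at h11
    rcases hai with h | h
    · exact step_arg (coords_StgH hK s)
        (fun k => (((g k).1 : ℂ) * I, ((g k).2 : ℂ) * I)) h hΓ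
    · exact step_exp (coords_StgH hK s)
        (fun k => (((g k).1 : ℂ) * I, ((g k).2 : ℂ) * I)) h hΓ
  · intro a ha c
    refine add_mem (Submodule.mem_sup_left ha) (Submodule.mem_sup_right ?_)
    rw [Finsupp.mem_span_range_iff_exists_finsupp]
    exact ⟨c, rfl⟩

private theorem fst_StgH {κ : Type} (g : κ → ℝ × ℝ) (c : κ →₀ ℚ) :
    (Finsupp.linearCombination ℚ g c).1 = Finsupp.linearCombination ℚ (fun k => (g k).1) c := by
  rw [Finsupp.linearCombination_apply, Finsupp.linearCombination_apply, Finsupp.sum, Finsupp.sum,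
    Prod.fst_sum]
  rfl

private theorem snd_StgH {κ : Type} (g : κ → ℝ × ℝ) (c : κ →₀ ℚ) :
    (Finsupp.linearCombination ℚ g c).2 = Finsupp.linearCombination ℚ (fun k => (g k).2) c := by
  rw [Finsupp.linearCombination_apply, Finsupp.linearCombination_apply, Finsupp.sum, Finsupp.sum,
    Prod.snd_sum]
  rfl

private theorem cast_StgH {κ : Type} (w : κ → ℝ) (c : κ →₀ ℚ) :
    ((Finsupp.linearCombination ℚ w c : ℝ) : ℂ) = c.sum fun k r => (r : ℂ) * (w k : ℂ) := by
  rw [Finsupp.linearCombination_apply, Finsupp.sum, Finsupp.sum, ofReal_sum]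
  refine Finset.sum_congr rfl fun k _ => ?_
  rw [Rat.smul_def, ofReal_mul, ofReal_ratCast]

/-- Every element of `A` is the first, respectively second, coordinate of a combination. -/
private theorem dom_rep_StgH {A D : Submodule ℚ ℝ} {κ : Type} {b : κ → ℝ}
    (h : A ≤ D ⊔ Submodule.span ℚ (Set.range b)) {x : ℝ} (hx : x ∈ A) :
    ∃ d ∈ D, ∃ c : κ →₀ ℚ, x = d + Finsupp.linearCombination ℚ b c := by
  obtain ⟨d, hd, z, hz, hz'⟩ := Submodule.mem_sup.1 (h hx)
  obtain ⟨c, hc⟩ := Finsupp.mem_span_range_iff_exists_finsupp.1 hz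
  refine ⟨d, hd, c, ?_⟩
  rw [Finsupp.linearCombination_apply, hc, hz']

theorem dom_H {K K' : IntermediateField ℚ ℂ} (hK : Acl K) (hK' : Acl K') (hKK' : K ≤ K')
    (t : ℝ → ℝ) (hpos : ∀ r, 0 < t r) (hai : AlgebraicIndependent K (fun r => (t r : ℂ)))
    (hmem : ∀ r, (t r : ℂ) ∈ K') (s : Stage K) :
    ∃ s' : Stage K', s.G ≤ s'.G ∧ s.H ≤ s'.H ∧ GoodStep K s.cx s'.cx ∧
      ∀ x : ℝ, (x : ℂ) ∈ K → ∃ u, (x, u) ∈ s'.H := by
  have hI : I ∈ K := I_mem_StgH hK
  have hI' : IsAlgebraic K I := isAlgebraic_algebraMap (⟨I, hI⟩ : K)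
  let A : Submodule ℚ ℝ := (pairs_StgH hK).map (LinearMap.fst ℚ ℝ ℝ)
  have hA : ∀ x : ℝ, (x : ℂ) ∈ K ↔ x ∈ A := by
    intro x
    constructor
    · intro hx
      refine ⟨(x, 0), ⟨hx, ?_⟩, rfl⟩
      rw [ofReal_zero, zero_mul, exp_zero]
      exact one_mem K
    · rintro ⟨a, ha, rfl⟩
      exact ha.1
  obtain ⟨κ, b, hb, hbD, hbA⟩ := basis_StgH A (s.H.map (LinearMap.fst ℚ ℝ ℝ))
  have hinj := inj_StgH hbD
  have hcirc : AlgebraicIndependent K (fun k => exp ((ang (t (b k)) : ℂ) * I)) :=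
    ai_pointwise (hai.comp b hinj) fun k => alg_circle hI' (t (b k)) _ (exp_ang _)
  obtain ⟨s', hG, hH, hgood, hmem'⟩ := ext_StgH hK hK' hKK' s
    (fun k => (b k, ang (t (b k)))) (fun k => ⟨hKK' ((hA _).2 (hb k)), by
      have ht := hmem (b k)
      have hIK' : I ∈ K' := hKK' hI
      rw [exp_ang]
      exact div_mem (add_mem (one_mem K') (mul_mem ht hIK'))
        (sub_mem (one_mem K') (mul_mem ht hIK'))⟩)
    (fun a ha c h => by
      rw [Prod.fst_add, fst_StgH] at h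
      refine hbD c ?_
      refine ⟨-a, neg_mem ha, ?_⟩
      change -a.1 = _
      linarith)
    (fun a ha c h => by
      rw [Prod.snd_add, snd_StgH] at h
      by_contra hc
      refine transcendental_monomial (F := K) (fun k => (ang (t (b k)) : ℂ) * I) hcirc c hc ?_
      have h3 : (c.sum fun k r => (r : ℂ) * ((ang (t (b k)) : ℂ) * I)) =
          ((-a).2 : ℂ) * I := by
        have h4 : (-a).2 = Finsupp.linearCombination ℚ (fun k => ang (t (b k))) c := by
          change -a.2 = _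
          linarith
        rw [h4, cast_StgH, Finsupp.sum_mul]
        refine Finsupp.sum_congr fun k _ => ?_
        rw [mul_assoc]
      rw [h3]
      exact isAlgebraic_algebraMap (⟨_, (s.H_K _ (neg_mem ha)).2⟩ : K)) (Or.inr hcirc)
  refine ⟨s', hG, hH, hgood, fun x hx => ?_⟩
  obtain ⟨d, ⟨a, ha, rfl⟩, c, hc⟩ := dom_rep_StgH hbA ((hA x).1 hx)
  refine ⟨(a + Finsupp.linearCombination ℚ (fun k => (b k, ang (t (b k)))) c).2, ?_⟩
  have h5 := hmem' a ha c
  have h6 : x = (a + Finsupp.linearCombination ℚ (fun k => (b k, ang (t (b k)))) c).1 := by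
    rw [Prod.fst_add, fst_StgH, hc]
    rfl
  rw [h6]
  exact h5

theorem ran_H {K K' : IntermediateField ℚ ℂ} (hK : Acl K) (hK' : Acl K') (hKK' : K ≤ K')
    (t : ℝ → ℝ) (hpos : ∀ r, 0 < t r) (hai : AlgebraicIndependent K (fun r => (t r : ℂ)))
    (hmem : ∀ r, (t r : ℂ) ∈ K') (s : Stage K) :
    ∃ s' : Stage K', s.G ≤ s'.G ∧ s.H ≤ s'.H ∧ GoodStep K s.cx s'.cx ∧
      ∀ u : ℝ, exp ((u : ℂ) * I) ∈ K → ∃ x, (x, u) ∈ s'.H := by
  have hI : I ∈ K := I_mem_StgH hK
  let A : Submodule ℚ ℝ := (pairs_StgH hK).map (LinearMap.snd ℚ ℝ ℝ)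
  have hA : ∀ u : ℝ, exp ((u : ℂ) * I) ∈ K ↔ u ∈ A := by
    intro u
    constructor
    · intro hu
      refine ⟨(0, u), ⟨?_, hu⟩, rfl⟩
      rw [ofReal_zero]
      exact zero_mem K
    · rintro ⟨a, ha, rfl⟩
      exact ha.2
  obtain ⟨κ, b, hb, hbD, hbA⟩ := basis_StgH A (s.H.map (LinearMap.snd ℚ ℝ ℝ))
  have hinj := inj_StgH hbD
  have hlin : AlgebraicIndependent K (fun k => (t (b k) : ℂ)) := hai.comp b hinj
  have hlin' : AlgebraicIndependent K (fun k => (t (b k) : ℂ) * I) := by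
    have h1 := scale_ai (c := fun _ => I) hlin (fun _ => hI) fun _ => I_ne_zero
    have h2 : (fun k => I * (t (b k) : ℂ)) = fun k => (t (b k) : ℂ) * I := by
      funext k
      rw [mul_comm]
    rwa [h2] at h1
  obtain ⟨s', hG, hH, hgood, hmem'⟩ := ext_StgH hK hK' hKK' s
    (fun k => (t (b k), b k)) (fun k => ⟨hmem (b k), hKK' ((hA _).2 (hb k))⟩)
    (fun a ha c h => by
      rw [Prod.fst_add, fst_StgH] at h
      by_contra hc
      have h1 : LinearIndependent ℚ (fun _ : Fin 1 => c) :=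
        LinearIndependent.of_subsingleton (0 : Fin 1) hc
      have h2 := (ai_linear (fun k => (t (b k) : ℂ)) hlin (fun _ : Fin 1 => c) h1).transcendental 0
      refine h2 ?_
      have h3 : (c.sum fun k r => (r : ℂ) * (t (b k) : ℂ)) = ((-a).1 : ℂ) := by
        have h4 : (-a).1 = Finsupp.linearCombination ℚ (fun k => t (b k)) c := by
          change -a.1 = _
          linarith
        rw [h4, cast_StgH]
      rw [h3]
      exact isAlgebraic_algebraMap (⟨_, (s.H_K _ (neg_mem ha)).1⟩ : K))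
    (fun a ha c h => by
      rw [Prod.snd_add, snd_StgH] at h
      refine hbD c ?_
      refine ⟨-a, neg_mem ha, ?_⟩
      change -a.2 = _
      linarith) (Or.inl hlin')
  refine ⟨s', hG, hH, hgood, fun u hu => ?_⟩
  obtain ⟨d, ⟨a, ha, rfl⟩, c, hc⟩ := dom_rep_StgH hbA ((hA u).1 hu)
  refine ⟨(a + Finsupp.linearCombination ℚ (fun k => (t (b k), b k)) c).1, ?_⟩
  have h5 := hmem' a ha c
  have h6 : u = (a + Finsupp.linearCombination ℚ (fun k => (t (b k), b k)) c).2 := by
    rw [Prod.snd_add, snd_StgH, hc]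
    rfl
  rw [h6]
  exact h5

end Pool.Agent.Pat6
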