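import Pool.Agent.Pat6.StgG
import Pool.Agent.Pat6.StgH

/-!
# Pat6: the chain of stages

PROOF. `stage_coords`: for `a ∈ s.cx` the number `a.1 = a.1.re + a.1.im I` is in `K` (`I ∈ K` by
`Acl K`) and `exp a.2 = exp a.2.re * exp (a.2.im I)` is in `K`.

`exists_chain`: dependent choice (`Nat.rec` with `Classical.choose`, or a lemma of the form
`∃ S : (n : ℕ) → Stage (K n), S 0 = s ∧ ∀ n, R n (S n) (S (n + 1))` from
`∀ n s, ∃ s', R n s s'`), where the step from `n` to `n + 1` is `dom_G`, `ran_G`, `dom_H`, `ran_H` for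
`n % 4 = 0, 1, 2, 3`.

`gen`: take the chain. `G∞ = ⨆ n, (S n).G` is a directed union (`Submodule.mem_iSup_of_directed`).
It is the graph of a bijection: for every real `x` there is `m` with `(x : ℂ) ∈ K m`
(`Supply.all`), hence `∈ K n` for an `n ≥ m` with `n % 4 = 0`, so there is `u` with
`(x, u) ∈ (S (n + 1)).G`; in the same way every real `u` is a value (`exp u ∈ K m`); by `G_inj` the
value is unique and the function is injective. So there is `f : ℝ ≃ₗ[ℚ] ℝ` with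
`(x, u) ∈ G∞ ↔ f x = u` (`Submodule.toLinearPMap`, or: the restrictions of `fst` and `snd` to `G∞` are
linear bijections `LinearEquiv.ofBijective`, `f = snd ∘ fst⁻¹`). In the same way `g`.
`GoodStep (K 0) s.cx (S n).cx` by induction on `n` (`GoodStep.refl`, `GoodStep.trans` with
`stage_coords`). A finite-dimensional `X ≤ gr f g` is contained in `(S n).cx` for some `n`: its
finitely many generators are (`(S n).cx` is increasing in `n`).
-/

set_option autoImplicit false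

namespace Pool.Agent.Pat6

open Complex Pool.Agent.Pat5

private theorem gen_I (K : IntermediateField ℚ ℂ) : IsAlgebraic K I := by
  refine IsAlgebraic.of_pow (n := 2) two_pos ?_
  rw [I_sq]
  exact isAlgebraic_one.neg

theorem stage_coords {K : IntermediateField ℚ ℂ} (hK : Acl K) (s : Stage K) :
    coords s.cx ⊆ K := by
  have hI : I ∈ K := hK I (gen_I K)
  rintro u ⟨a, ha, h⟩
  have h1 := s.G_K _ ha.1
  have h2 := s.H_K _ ha.2
  rcases h with h | h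
  · have h3 : u = (a.1.re : ℂ) + (a.1.im : ℂ) * I := by rw [h, re_add_im]
    change u ∈ K
    rw [h3]
    exact K.add_mem h1.1 (K.mul_mem h2.1 hI)
  · have h3 : u = exp (a.2.re : ℂ) * exp ((a.2.im : ℂ) * I) := by
      rw [h, ← Complex.exp_add, re_add_im]
    change u ∈ K
    rw [h3]
    exact K.mul_mem h1.2 h2.2

theorem exists_chain {K : ℕ → IntermediateField ℚ ℂ} {t : ℕ → ℝ → ℝ} (hS : Supply K t)
    (s : Stage (K 0)) : ∃ S : (n : ℕ) → Stage (K n), S 0 = s ∧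
      (∀ n, (S n).G ≤ (S (n + 1)).G ∧ (S n).H ≤ (S (n + 1)).H ∧
        GoodStep (K n) (S n).cx (S (n + 1)).cx) ∧
      (∀ n, n % 4 = 0 → ∀ x : ℝ, (x : ℂ) ∈ K n → ∃ u, (x, u) ∈ (S (n + 1)).G) ∧
      (∀ n, n % 4 = 1 → ∀ u : ℝ, exp (u : ℂ) ∈ K n → ∃ x, (x, u) ∈ (S (n + 1)).G) ∧
      (∀ n, n % 4 = 2 → ∀ x : ℝ, (x : ℂ) ∈ K n → ∃ u, (x, u) ∈ (S (n + 1)).H) ∧
      (∀ n, n % 4 = 3 → ∀ u : ℝ, exp ((u : ℂ) * I) ∈ K n → ∃ x, (x, u) ∈ (S (n + 1)).H) := by
  have step : ∀ (n : ℕ) (s : Stage (K n)), ∃ s' : Stage (K (n + 1)),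
      (s.G ≤ s'.G ∧ s.H ≤ s'.H ∧ GoodStep (K n) s.cx s'.cx) ∧
      (n % 4 = 0 → ∀ x : ℝ, (x : ℂ) ∈ K n → ∃ u, (x, u) ∈ s'.G) ∧
      (n % 4 = 1 → ∀ u : ℝ, exp (u : ℂ) ∈ K n → ∃ x, (x, u) ∈ s'.G) ∧
      (n % 4 = 2 → ∀ x : ℝ, (x : ℂ) ∈ K n → ∃ u, (x, u) ∈ s'.H) ∧
      (n % 4 = 3 → ∀ u : ℝ, exp ((u : ℂ) * I) ∈ K n → ∃ x, (x, u) ∈ s'.H) := by
    intro n s
    have hle : K n ≤ K (n + 1) := hS.mono (Nat.le_succ n)
    have hc : n % 4 = 0 ∨ n % 4 = 1 ∨ n % 4 = 2 ∨ n % 4 = 3 := by omega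
    rcases hc with h | h | h | h
    · obtain ⟨s', h1, h2, h3, h4⟩ := dom_G (hS.acl n) (hS.acl (n + 1)) hle (t n) (hS.pos n)
        (hS.ai n) (hS.mem n) s
      exact ⟨s', ⟨h1, h2, h3⟩, fun _ => h4, fun h' => by omega, fun h' => by omega,
        fun h' => by omega⟩
    · obtain ⟨s', h1, h2, h3, h4⟩ := ran_G (hS.acl n) (hS.acl (n + 1)) hle (t n) (hS.pos n)
        (hS.ai n) (hS.mem n) s
      exact ⟨s', ⟨h1, h2, h3⟩, fun h' => by omega, fun _ => h4, fun h' => by omega,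
        fun h' => by omega⟩
    · obtain ⟨s', h1, h2, h3, h4⟩ := dom_H (hS.acl n) (hS.acl (n + 1)) hle (t n) (hS.pos n)
        (hS.ai n) (hS.mem n) s
      exact ⟨s', ⟨h1, h2, h3⟩, fun h' => by omega, fun h' => by omega, fun _ => h4,
        fun h' => by omega⟩
    · obtain ⟨s', h1, h2, h3, h4⟩ := ran_H (hS.acl n) (hS.acl (n + 1)) hle (t n) (hS.pos n)
        (hS.ai n) (hS.mem n) s
      exact ⟨s', ⟨h1, h2, h3⟩, fun h' => by omega, fun h' => by omega, fun h' => by omega,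
        fun _ => h4⟩
  choose F hF using step
  refine ⟨fun n => Nat.rec (motive := fun n => Stage (K n)) s (fun n r => F n r) n, rfl,
    fun n => (hF n _).1, fun n => (hF n _).2.1, fun n => (hF n _).2.2.1,
    fun n => (hF n _).2.2.2.1, fun n => (hF n _).2.2.2.2⟩

/-- The union of graphs is the graph of a bijection. -/
private theorem exists_equiv (W : ℕ → Submodule ℚ (ℝ × ℝ)) (hW : Monotone W)
    (hinj : ∀ n, ∀ a ∈ W n, a.1 = 0 ↔ a.2 = 0)
    (hdom : ∀ x : ℝ, ∃ n u, (x, u) ∈ W n) (hran : ∀ u : ℝ, ∃ n x, (x, u) ∈ W n) :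
    ∃ f : ℝ ≃ₗ[ℚ] ℝ, ∀ a : ℝ × ℝ, f a.1 = a.2 ↔ ∃ n, a ∈ W n := by
  have hT : ∀ a, a ∈ (⨆ n, W n) ↔ ∃ n, a ∈ W n := fun a =>
    Submodule.mem_iSup_of_directed _ hW.directed_le
  have h1 : Function.Bijective (LinearMap.fst ℚ ℝ ℝ ∘ₗ (⨆ n, W n).subtype) := by
    constructor
    · rw [injective_iff_map_eq_zero]
      rintro ⟨a, ha⟩ h
      obtain ⟨n, hn⟩ := (hT a).1 ha
      have h' : a.1 = 0 := h
      have h2 := (hinj n a hn).1 h'
      exact Subtype.ext (Prod.ext h' h2)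
    · intro x
      obtain ⟨n, u, hn⟩ := hdom x
      exact ⟨⟨(x, u), (hT _).2 ⟨n, hn⟩⟩, rfl⟩
  have h2 : Function.Bijective (LinearMap.snd ℚ ℝ ℝ ∘ₗ (⨆ n, W n).subtype) := by
    constructor
    · rw [injective_iff_map_eq_zero]
      rintro ⟨a, ha⟩ h
      obtain ⟨n, hn⟩ := (hT a).1 ha
      have h' : a.2 = 0 := h
      have h2 := (hinj n a hn).2 h'
      exact Subtype.ext (Prod.ext h2 h')
    · intro u
      obtain ⟨n, x, hn⟩ := hran u
      exact ⟨⟨(x, u), (hT _).2 ⟨n, hn⟩⟩, rfl⟩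
  refine ⟨(LinearEquiv.ofBijective _ h1).symm.trans (LinearEquiv.ofBijective _ h2), fun a => ?_⟩
  rw [← hT a]
  have h3 := (LinearEquiv.ofBijective _ h1).apply_symm_apply a.1
  change ((LinearEquiv.ofBijective _ h1).symm a.1 : ℝ × ℝ).1 = a.1 at h3
  constructor
  · intro h
    change ((LinearEquiv.ofBijective _ h1).symm a.1 : ℝ × ℝ).2 = a.2 at h
    have h4 : ((LinearEquiv.ofBijective _ h1).symm a.1 : ℝ × ℝ) = a := Prod.ext h3 h
    rw [← h4]
    exact ((LinearEquiv.ofBijective _ h1).symm a.1).2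
  · intro h
    have h4 : (LinearEquiv.ofBijective _ h1).symm a.1 = ⟨a, h⟩ := by
      rw [LinearEquiv.symm_apply_eq]
      rfl
    change ((LinearEquiv.ofBijective _ h1).symm a.1 : ℝ × ℝ).2 = a.2
    rw [h4]

/-- A finitely generated subspace of an increasing union is contained in a term. -/
private theorem exists_le (Γ : ℕ → Submodule ℚ (ℂ × ℂ)) (hΓ : Monotone Γ)
    (X : Submodule ℚ (ℂ × ℂ)) (hX : FiniteDimensional ℚ X) (h : ∀ a ∈ X, ∃ n, a ∈ Γ n) :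
    ∃ n, X ≤ Γ n := by
  obtain ⟨T, hT⟩ := (Submodule.fg_iff_finiteDimensional X).2 hX
  choose! N hN using h
  refine ⟨T.sup N, ?_⟩
  rw [← hT]
  refine Submodule.span_le.2 fun a ha => ?_
  have ha' : a ∈ X := by
    rw [← hT]
    exact Submodule.subset_span ha
  exact hΓ (Finset.le_sup (f := N) ha) (hN a ha')

/-- Start with `subst h0`. -/
theorem gen {K : ℕ → IntermediateField ℚ ℂ} {t : ℕ → ℝ → ℝ} (hS : Supply K t)
    {K₀ : IntermediateField ℚ ℂ} (h0 : K 0 = K₀) (s : Stage K₀) :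
    ∃ f g : ℝ ≃ₗ[ℚ] ℝ, (∀ a ∈ s.G, f a.1 = a.2) ∧
      (∀ a ∈ s.H, g a.1 = a.2) ∧ GoodStep K₀ s.cx (gr f g) := by
  subst h0
  obtain ⟨S, hS0, hst, hdG, hrG, hdH, hrH⟩ := exists_chain hS s
  have hG : Monotone fun n => (S n).G := monotone_nat_of_le_succ fun n => (hst n).1
  have hH : Monotone fun n => (S n).H := monotone_nat_of_le_succ fun n => (hst n).2.1
  have hlift : ∀ (z : ℂ) (r : ℕ), r < 4 → ∃ n, n % 4 = r ∧ z ∈ K n := by
    intro z r hr
    obtain ⟨m, hm⟩ := hS.all z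
    exact ⟨4 * m + r, by omega, hS.mono (by omega) hm⟩
  obtain ⟨f, hf⟩ := exists_equiv (fun n => (S n).G) hG (fun n => (S n).G_inj)
    (fun x => by
      obtain ⟨n, hn, hx⟩ := hlift (x : ℂ) 0 (by norm_num)
      obtain ⟨u, hu⟩ := hdG n hn x hx
      exact ⟨n + 1, u, hu⟩)
    (fun u => by
      obtain ⟨n, hn, hx⟩ := hlift (exp (u : ℂ)) 1 (by norm_num)
      obtain ⟨x, hx⟩ := hrG n hn u hx
      exact ⟨n + 1, x, hx⟩)
  obtain ⟨g, hg⟩ := exists_equiv (fun n => (S n).H) hH (fun n => (S n).H_inj)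
    (fun x => by
      obtain ⟨n, hn, hx⟩ := hlift (x : ℂ) 2 (by norm_num)
      obtain ⟨u, hu⟩ := hdH n hn x hx
      exact ⟨n + 1, u, hu⟩)
    (fun u => by
      obtain ⟨n, hn, hx⟩ := hlift (exp ((u : ℂ) * I)) 3 (by norm_num)
      obtain ⟨x, hx⟩ := hrH n hn u hx
      exact ⟨n + 1, x, hx⟩)
  have hgood : ∀ n, GoodStep (K 0) s.cx (S n).cx := by
    intro n
    induction n with
    | zero => rw [hS0]; exact GoodStep.refl _ _
    | succ n ih =>
      exact GoodStep.trans (hS.mono (Nat.zero_le n)) (stage_coords (hS.acl n) (S n)) ih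
        (hst n).2.2
  refine ⟨f, g, fun a ha => (hf a).2 ⟨0, ?_⟩, fun a ha => (hg a).2 ⟨0, ?_⟩, ?_⟩
  · rw [hS0]
    exact ha
  · rw [hS0]
    exact ha
  · intro X hX hfin hdis
    have hcx : Monotone fun n => (S n).cx := by
      intro m n hmn a ha
      exact ⟨hG hmn ha.1, hH hmn ha.2⟩
    obtain ⟨n, hn⟩ := exists_le (fun n => (S n).cx) hcx X hfin (fun a ha => by
      have h1 := hX ha
      obtain ⟨m, hm⟩ := (hf (a.1.re, a.2.re)).1 ((LinearMap.mem_graph_iff _ _).1 h1.1).symm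
      obtain ⟨k, hk⟩ := (hg (a.1.im, a.2.im)).1 ((LinearMap.mem_graph_iff _ _).1 h1.2).symm
      exact ⟨max m k, hG (le_max_left m k) hm, hH (le_max_right m k) hk⟩)
    exact hgood n X hn hfin hdis

end Pool.Agent.Pat6
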