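import Pool.Agent.Pat6.Conv2
import Pool.Agent.Pat5.TrueNum
import Pool.Agent.BakerH.Baker
import Pool.Agent.Lib.LindemannWeierstrass

/-!
# Pat6: the five numbers themselves

If Schanuel's inequality holds for the exponential function with the defect `k` then at most `k` of
the five numbers are rational.
-/

set_option autoImplicit false

namespace Pool.Agent.Pat6

open Complex Pool.Agent.Pat5

/-- The theorems of Lindemann and Baker. -/
theorem lwb_exp : LWB exp where
  lindemann a ha ha0 := Lib.LW.transcendental_exp ha ha0
  baker n l hl hli := by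
    rw [Fintype.linearIndependent_iff]
    intro c hc
    rw [Fintype.sum_option] at hc
    simp only [Option.elim_none, Option.elim_some, Algebra.smul_def,
      IntermediateField.algebraMap_apply, mul_one] at hc
    have h := BakerH.baker l (fun i => (c (some i) : ℂ)) (c none : ℂ) hl hli
      (fun i => mem_Qbar.1 (c (some i)).2) (mem_Qbar.1 (c none).2) hc
    intro o
    cases o with
    | none => exact Subtype.ext h.1
    | some i => exact Subtype.ext (h.2 i)

/-- A defect `k` in Schanuel's inequality allows at most `k` rational numbers among the five. -/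
theorem true_card (k : ℕ) (hk : Schanuel exp k) (S : Finset (Fin 5))
    (hS : ∀ i, i ∈ S ↔ ∃ q : ℚ, fiveR (Real.exp 1) Real.pi trueR i = q) : S.card ≤ k := by
  have hl : exp ((Real.log Real.pi : ℝ) : ℂ) = ((Real.pi : ℝ) : ℂ) := by
    rw [← ofReal_exp, Real.exp_log Real.pi_pos]
  have hne : ((Real.pi : ℝ) : ℂ) * exp 1 ≠ 1 := by
    have h1 : exp 1 = ((Real.exp 1 : ℝ) : ℂ) := by
      rw [ofReal_exp, ofReal_one]
    rw [h1, ← ofReal_mul]
    intro h
    have h2 : Real.pi * Real.exp 1 = 1 := by exact_mod_cast h
    have h3 : 1 < Real.exp 1 := Real.one_lt_exp_iff.2 one_pos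
    have h4 := Real.pi_gt_three
    nlinarith
  refine card_le' isExp_exp lwb_exp hl hne hk S (true_good S hS) (fun i => (hS i).trans ?_)
  rw [five_true]
  refine exists_congr fun q => ?_
  rw [← ofReal_ratCast, ofReal_inj]

end Pool.Agent.Pat6
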