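import Pool.Agent.Pat6.FinalU
import Pool.Agent.Pat6.TrueCard

/-!
# Pat6: the main theorem
-/

set_option autoImplicit false

namespace Pool.Agent.Pat6

open Pool.Agent.Pat5

theorem hierarchy (x : Fin 5 → ℝ) (hx : x = ![Real.pi + Real.exp 1, Real.pi * Real.exp 1,
      Real.pi ^ Real.exp 1, Real.exp 1 ^ Real.exp 1, Real.pi ^ Real.pi]) :
    (∀ S : Finset (Fin 5), (∀ i, i ∈ S ↔ ∃ q : ℚ, x i = q) →
      S ∈ good ∧ ∀ k, Schanuel Complex.exp k → S.card ≤ k) ∧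
    (IsExp Complex.exp Real.pi ∧
      ∀ i, five Complex.exp Real.pi (Real.log Real.pi) i = (x i : ℂ)) ∧
    (∀ S ∈ good, ∀ (F : Finset ℂ) (ε : ℝ), 0 < ε → ∃ (E : ℂ → ℂ) (p l : ℝ), IsExp E p ∧
      E l = p ∧ Theorems E ∧ Gel E ∧ Extra E p ∧ Schanuel E S.card ∧
      Relative E (seven E p l) ∧ (S ∈ strong → LogIndep E) ∧
      (∀ i ∈ S, ∃ q : ℚ, five E p l i = q) ∧
      (∀ i ∉ S, Transcendental ℚ (five E p l i)) ∧
      |p - Real.pi| < ε ∧ |l - Real.log Real.pi| < ε ∧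
      (∀ i, ‖five E p l i - (x i : ℂ)‖ < ε) ∧ ∀ a ∈ F, ‖E a - Complex.exp a‖ < ε) ∧
    (∀ (E : ℂ → ℂ) (p l : ℝ), IsExp E p → E l = p → p * E 1 ≠ 1 → Theorems E →
      ∀ S : Finset (Fin 5), (∀ i, i ∈ S ↔ ∃ q : ℚ, five E p l i = q) →
        S ∈ good ∧ (LogIndep E → S ∈ strong) ∧ ∀ k, Schanuel E k → S.card ≤ k) := by
  subst hx
  refine ⟨fun S hS => ⟨true_good S hS, fun k hk => true_card k hk S hS⟩,
    ⟨isExp_exp, five_true⟩, ?_, ?_⟩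
  · intro S hS F ε hε
    obtain ⟨E, p, l, h1, h2, h3, -, h5, h6, h7, h8, hG, h9, h10, h11, h12, -, h14, h15⟩ :=
      modelU_good S hS F ε hε
    refine ⟨E, p, l, h1, h2, h3, hG, h8, h6, h7, h5, h9, h10, h11, h12, fun i => ?_, h15⟩
    have h := h14 i
    rw [five_true i] at h
    exact h
  · intro E p l h1 h2 h3 h4 S hS
    exact ⟨converse h1 h4 h2 h3 S hS, fun h5 => converse_strong h1 h4 h5 h2 h3 S hS,
      fun k hk => card_le h1 h4 h2 h3 hk S hS⟩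

end Pool.Agent.Pat6
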