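import Pool.Agent.Pat6.Defs
import Pool.Agent.Pat5.Supply

/-!
# Pat6: the field of a finite set of complex numbers

`KF F` is the algebraic closure in `ℂ` of the field generated by the real and imaginary parts of the
elements of `F`.

PROOFS. `KF_acl`, `re_mem_KF`, `im_mem_KF`, `Qbar_le_KF` as in `Pool/Agent/Pat5/Kc.lean`.
`exists_ai_nearF`: as `exists_ai_near` (`Pool/Agent/Pat5/Supply.lean`) over the countable field
`KF F` instead of `ℚ`: let `b₀` be a transcendence basis of the real numbers which are in `KF F`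
(finitely many numbers `b₀ i`, chosen from the real and imaginary parts), extend it to a
transcendence basis of `ℝ` over `ℚ`, take `n` further elements `b i` of it and `z i = q i * b i` with
rational `q i ≠ 0`. Then `(b₀, z)` is algebraically independent over `ℚ`, so `z` is algebraically
independent over the algebraic closure of `ℚ (b₀)` (general form of `ai_Kc`), which is `KF F`.
`ai_of_KF`: restriction of scalars. `Kc_inf_KF`: if `x ∈ KF F` is transcendental over `ℚ` then
`(x, z)` is algebraically independent over `ℚ` (`ai_sum` with `K = KF F`), so `x` is not algebraic over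
`ℚ (z)`, i.e. not in `Kc z` (`mem_Kc`).
`exists_big`: `z' = (z, b)` where `b` is a transcendence basis (over `ℚ`) of `KF F`, chosen from the
finitely many real numbers which generate it (`exists_isTranscendenceBasis_subset` or a maximal
algebraically independent subfamily of the real and imaginary parts); `z'` is algebraically
independent by `ai_sum`, and `KF F ≤ Kc z'` as the real and imaginary parts are algebraic over
`ℚ (b)`.
-/

set_option autoImplicit false

namespace Pool.Agent.Pat6

open Complex Pool.Agent.Pat5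

/-- The real and imaginary parts of the elements of `F`, as complex numbers. -/
def parts (F : Finset ℂ) : Set ℂ := {x | ∃ a ∈ F, x = (a.re : ℂ) ∨ x = (a.im : ℂ)}

/-- The algebraic closure of the field generated by the parts of the elements of `F`. -/
noncomputable def KF (F : Finset ℂ) : IntermediateField ℚ ℂ :=
  (algebraicClosure (IntermediateField.adjoin ℚ (parts F)) ℂ).restrictScalars ℚ

private theorem KFld_mem {F : Finset ℂ} {x : ℂ} :
    x ∈ KF F ↔ IsAlgebraic (IntermediateField.adjoin ℚ (parts F)) x := by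
  rw [KF, IntermediateField.mem_restrictScalars, mem_algebraicClosure_iff]

theorem KF_acl (F : Finset ℂ) : Acl (KF F) := by
  intro x h
  rw [KFld_mem]
  have h' : IsAlgebraic (algebraicClosure (IntermediateField.adjoin ℚ (parts F)) ℂ) x := h
  exact h'.restrictScalars _

theorem Qbar_le_KF (F : Finset ℂ) : Qbar ≤ KF F := by
  intro x hx
  rw [KFld_mem]
  exact (mem_algebraicClosure_iff.1 hx).tower_top _

private theorem KFld_parts {F : Finset ℂ} {x : ℂ} (hx : x ∈ parts F) : x ∈ KF F := by
  rw [KFld_mem]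
  exact isAlgebraic_algebraMap (⟨x, IntermediateField.subset_adjoin _ _ hx⟩ :
    IntermediateField.adjoin ℚ (parts F))

theorem re_mem_KF {F : Finset ℂ} {a : ℂ} (ha : a ∈ F) : (a.re : ℂ) ∈ KF F :=
  KFld_parts ⟨a, ha, Or.inl rfl⟩

theorem im_mem_KF {F : Finset ℂ} {a : ℂ} (ha : a ∈ F) : (a.im : ℂ) ∈ KF F :=
  KFld_parts ⟨a, ha, Or.inr rfl⟩

private theorem KFld_finite (F : Finset ℂ) : (parts F).Finite := by
  have h : parts F ⊆ (fun a : ℂ => (a.re : ℂ)) '' F ∪ (fun a : ℂ => (a.im : ℂ)) '' F := by
    rintro x ⟨a, ha, rfl | rfl⟩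
    · exact Or.inl ⟨a, ha, rfl⟩
    · exact Or.inr ⟨a, ha, rfl⟩
  exact ((F.finite_toSet.image _).union (F.finite_toSet.image _)).subset h

private theorem KFld_real {F : Finset ℂ} {x : ℂ} (hx : x ∈ parts F) : ((x.re : ℝ) : ℂ) = x := by
  obtain ⟨a, ha, rfl | rfl⟩ := hx <;> rfl

/-- If the elements of `S` are in `K` and `K` is algebraically closed, then so are the numbers
which are algebraic over the field generated by `S`. -/
private theorem KFld_le {K : IntermediateField ℚ ℂ} (hK : Acl K) {S : Set ℂ} (hS : S ⊆ K)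
    {x : ℂ} (hx : IsAlgebraic (IntermediateField.adjoin ℚ S) x) : x ∈ K := by
  apply hK
  have h1 : IntermediateField.adjoin ℚ S ≤ K := IntermediateField.adjoin_le_iff.2 hS
  let _ : Algebra (IntermediateField.adjoin ℚ S) K := (IntermediateField.inclusion h1).toAlgebra
  have : IsScalarTower (IntermediateField.adjoin ℚ S) K ℂ :=
    IsScalarTower.of_algebraMap_eq fun _ => rfl
  exact hx.tower_top K

open scoped IntermediateField.algebraAdjoinAdjoin in
private theorem KFld_basis (F : Finset ℂ) :
    ∃ (m : ℕ) (b : Fin m → ℝ), AlgebraicIndependent ℚ (fun i => (b i : ℂ)) ∧ Kc b = KF F := by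
  obtain ⟨u, -, hu⟩ := exists_maximal_algebraicIndependent (R := ℚ) (∅ : Set ℂ) (parts F)
    (Set.empty_subset _)
    (algebraicIndependent_empty_type_iff.2 (algebraMap ℚ ℂ).injective)
  have hfin : u.Finite := (KFld_finite F).subset hu.prop.2
  have := hfin.fintype
  let e : Fin (Fintype.card u) ≃ u := (Fintype.equivFin u).symm
  have hre : ∀ i, (((e i).1.re : ℝ) : ℂ) = (e i).1 := fun i => KFld_real (hu.prop.2 (e i).2)
  have hfun : (fun i => (((e i).1.re : ℝ) : ℂ)) = fun i => (e i).1 := funext hre
  have hrange : (Set.range fun i => (((e i).1.re : ℝ) : ℂ)) = u := by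
    rw [hfun]
    ext x
    constructor
    · rintro ⟨i, rfl⟩
      exact (e i).2
    · intro hx
      exact ⟨e.symm ⟨x, hx⟩, by simp⟩
  refine ⟨Fintype.card u, fun i => (e i).1.re, ?_, ?_⟩
  · rw [hfun]
    exact (hu.prop.1 : AlgebraicIndependent ℚ (fun x : u => (x : ℂ))).comp e e.injective
  · apply le_antisymm
    · intro x hx
      rw [mem_Kc, hrange] at hx
      exact KFld_le (KF_acl F) (fun y hy => KFld_parts (hu.prop.2 hy)) hx
    · intro x hx
      rw [KFld_mem] at hx
      refine KFld_le (K := Kc fun i => (e i).1.re) (fun y hy => mem_Kc_of_isAlgebraic hy)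
        (fun y hy => ?_) hx
      have hgoal : IsAlgebraic (IntermediateField.adjoin ℚ u) y := by
        by_cases hyu : y ∈ u
        · exact isAlgebraic_algebraMap (⟨y, IntermediateField.subset_adjoin _ _ hyu⟩ :
            IntermediateField.adjoin ℚ u)
        · have h1 : ¬ AlgebraicIndepOn ℚ id (insert y u) := by
            intro h
            have h2 := hu.le_of_ge ⟨h, Set.insert_subset hy hu.prop.2⟩ (Set.subset_insert y u)
            exact hyu (h2 (Set.mem_insert y u))
          rw [AlgebraicIndepOn.insert_iff hyu] at h1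
          have h3 : ¬ Transcendental (Algebra.adjoin ℚ u) y := by
            intro h
            apply h1
            refine ⟨hu.prop.1, ?_⟩
            rw [Set.image_id]
            exact h
          have h4 : IsAlgebraic (Algebra.adjoin ℚ u) y := not_not.1 h3
          have h5 : Function.Injective (algebraMap (Algebra.adjoin ℚ u)
              (IntermediateField.adjoin ℚ u)) := by
            intro a b hab
            exact Subtype.ext (congrArg (fun v : IntermediateField.adjoin ℚ u => (v : ℂ)) hab)
          exact h4.extendScalars h5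
      show y ∈ Kc _
      rw [mem_Kc, hrange]
      exact hgoal

private theorem KFld_scale {K : IntermediateField ℚ ℂ} {κ : Type} {x : κ → ℂ}
    (hx : AlgebraicIndependent K x) (q : κ → ℚ)
    (hq : ∀ k, q k ≠ 0) : AlgebraicIndependent K (fun k => (q k : ℂ) * x k) := by
  have h := hx.polynomial_aeval_of_transcendental
    (f := fun k => Polynomial.C (algebraMap ℚ K (q k)) * Polynomial.X) (fun k => by
      have hk : algebraMap ℚ K (q k) ≠ 0 := by
        rw [Ne, map_eq_zero]
        exact hq k
      refine Polynomial.transcendental _ ?_ ?_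
      · rw [Polynomial.natDegree_C_mul_X _ hk]
        exact one_ne_zero
      · rw [Polynomial.leadingCoeff_C_mul_X]
        exact mem_nonZeroDivisors_of_ne_zero hk)
  have h' : (fun k => Polynomial.aeval (x k)
      (Polynomial.C (algebraMap ℚ K (q k)) * Polynomial.X)) = fun k => (q k : ℂ) * x k := by
    funext k
    simp
  rwa [h'] at h

private theorem KFld_rat (b t ε : ℝ) (hb : b ≠ 0) (hε : 0 < ε) :
    ∃ q : ℚ, q ≠ 0 ∧ |(q : ℝ) * b - t| < ε := by
  have hb' : 0 < |b| := abs_pos.2 hb
  have key : ∃ q : ℚ, q ≠ 0 ∧ t / b - ε / |b| < q ∧ (q : ℝ) < t / b + ε / |b| := by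
    have h1 : 0 < ε / |b| := div_pos hε hb'
    by_cases h : 0 < t / b + ε / |b|
    · obtain ⟨q, hq1, hq2⟩ := exists_rat_btwn
        (show max (t / b - ε / |b|) 0 < t / b + ε / |b| from max_lt (by linarith) h)
      refine ⟨q, ?_, (le_max_left _ _).trans_lt hq1, hq2⟩
      have h2 : (0 : ℝ) < q := (le_max_right _ _).trans_lt hq1
      rintro rfl
      simp at h2
    · obtain ⟨q, hq1, hq2⟩ := exists_rat_btwn
        (show t / b - ε / |b| < t / b + ε / |b| by linarith)
      refine ⟨q, ?_, hq1, hq2⟩
      rintro rfl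
      apply h
      simpa using hq2
  obtain ⟨q, hq0, hq1, hq2⟩ := key
  refine ⟨q, hq0, ?_⟩
  have h3 : (q : ℝ) * b - t = b * (q - t / b) := by field_simp
  rw [h3, abs_mul]
  have h4 : |(q : ℝ) - t / b| < ε / |b| := abs_lt.2 ⟨by linarith, by linarith⟩
  calc |b| * |(q : ℝ) - t / b| < |b| * (ε / |b|) := mul_lt_mul_of_pos_left h4 hb'
    _ = ε := by field_simp

theorem exists_ai_nearF (F : Finset ℂ) {n : ℕ} (t : Fin n → ℝ) (ε : ℝ) (hε : 0 < ε) :
    ∃ z : Fin n → ℝ, AlgebraicIndependent (KF F) (fun i => (z i : ℂ)) ∧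
      ∀ i, |z i - t i| < ε := by
  obtain ⟨m, b, hb, hbF⟩ := KFld_basis F
  obtain ⟨s, hs0, hs⟩ := exists_generic b hb (Fin n)
  rw [hbF] at hs
  choose q hq0 hq using fun i => KFld_rat (s i) (t i) ε (hs0 i).ne' hε
  refine ⟨fun i => (q i : ℝ) * s i, ?_, hq⟩
  have h := KFld_scale hs q hq0
  have h' : (fun i => (((q i : ℝ) * s i : ℝ) : ℂ)) = fun i => (q i : ℂ) * (s i : ℂ) := by
    funext i
    push_cast
    rfl
  rw [h']
  exact h

theorem ai_of_KF {F : Finset ℂ} {n : ℕ} {z : Fin n → ℝ}
    (h : AlgebraicIndependent (KF F) (fun i => (z i : ℂ))) :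
    AlgebraicIndependent ℚ (fun i => (z i : ℂ)) :=
  h.restrictScalars (algebraMap ℚ (KF F)).injective

theorem Kc_inf_KF {F : Finset ℂ} {n : ℕ} {z : Fin n → ℝ}
    (h : AlgebraicIndependent (KF F) (fun i => (z i : ℂ))) {x : ℂ} (h1 : x ∈ KF F)
    (h2 : x ∈ Kc z) : IsAlgebraic ℚ x := by
  by_contra hx
  have h3 : AlgebraicIndependent ℚ (fun _ : Fin 1 => x) :=
    (algebraicIndependent_unique_type_iff (x := fun _ : Fin 1 => x)).2 hx
  have h4 := ai_sum (KF F) h3 (fun _ => h1) h
  have h5 : AlgebraicIndependent ℚ (Sum.elim (fun i => (z i : ℂ)) (fun _ : Fin 1 => x)) := by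
    refine (algebraicIndependent_equiv' (Equiv.sumComm (Fin n) (Fin 1)) ?_).2 h4
    ext (_ | _) <;> rfl
  have h6 := ai_Kc _ h5
  have h7 : Transcendental (Kc z) x :=
    (algebraicIndependent_unique_type_iff (x := fun _ : Fin 1 => x)).1 h6
  exact h7 (isAlgebraic_algebraMap (⟨x, h2⟩ : Kc z))

theorem exists_big {F : Finset ℂ} {n : ℕ} {z : Fin n → ℝ}
    (h : AlgebraicIndependent (KF F) (fun i => (z i : ℂ))) :
    ∃ (m : ℕ) (z' : Fin m → ℝ), AlgebraicIndependent ℚ (fun i => (z' i : ℂ)) ∧
      Kc z ≤ Kc z' ∧ KF F ≤ Kc z' := by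
  obtain ⟨m, b, hb, hbF⟩ := KFld_basis F
  have h1 : AlgebraicIndependent ℚ (Sum.elim (fun i => (b i : ℂ)) fun i => (z i : ℂ)) :=
    ai_sum (KF F) hb (fun i => hbF ▸ coe_mem_Kc b i) h
  refine ⟨m + n, fun i => Sum.elim b z (finSumFinEquiv.symm i), ?_, ?_, ?_⟩
  · refine (algebraicIndependent_equiv' finSumFinEquiv.symm ?_).2 h1
    funext i
    simp only [Function.comp_apply]
    rcases finSumFinEquiv.symm i with j | j <;> rfl
  · intro x hx
    rw [mem_Kc] at hx
    refine KFld_le (fun y hy => mem_Kc_of_isAlgebraic hy) ?_ hx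
    rintro _ ⟨j, rfl⟩
    have h2 := coe_mem_Kc (fun i => Sum.elim b z (finSumFinEquiv.symm i))
      (finSumFinEquiv (Sum.inr j))
    simpa using h2
  · rw [← hbF]
    intro x hx
    rw [mem_Kc] at hx
    refine KFld_le (fun y hy => mem_Kc_of_isAlgebraic hy) ?_ hx
    rintro _ ⟨j, rfl⟩
    have h2 := coe_mem_Kc (fun i => Sum.elim b z (finSumFinEquiv.symm i))
      (finSumFinEquiv (Sum.inl j))
    simpa using h2

end Pool.Agent.Pat6
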