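import Pool.Agent.Pat6.FinU
import Pool.Agent.Pat6.ExtraT
import Pool.Agent.Pat6.GelE
import Pool.Agent.Pat6.GelD
import Pool.Agent.Pat5.Model
import Pool.Agent.Pat5.Near

/-!
# Pat6: from the functions `f`, `g` to the statement about patterns

`ModelU S F ε` is the statement of the main theorem for the pattern `S`, the finite set `F` and the
precision `ε`.
-/

set_option autoImplicit false

namespace Pool.Agent.Pat6

open Complex Pool.Agent.Pat5

/-- The statement of the main theorem for the pattern `S`, the finite set `F` and the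
precision `ε`. -/
def ModelU (S : Finset (Fin 5)) (F : Finset ℂ) (ε : ℝ) : Prop :=
  ∃ (E : ℂ → ℂ) (p l : ℝ), IsExp E p ∧ E l = p ∧ Theorems E ∧
    AlgebraicIndependent ℚ ![(p : ℂ), E p] ∧ (S ∈ strong → LogIndep E) ∧
    Schanuel E S.card ∧ Relative E (seven E p l) ∧ Extra E p ∧ Gel E ∧
    (∀ i ∈ S, ∃ q : ℚ, five E p l i = q) ∧ (∀ i ∉ S, Transcendental ℚ (five E p l i)) ∧
    |p - Real.pi| < ε ∧ |l - Real.log Real.pi| < ε ∧ ‖E 1 - exp 1‖ < ε ∧
    (∀ i, ‖five E p l i - five exp Real.pi (Real.log Real.pi) i‖ < ε) ∧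
    ∀ a ∈ F, ‖E a - exp a‖ < ε

theorem modelU_of {S : Finset (Fin 5)} {F : Finset ℂ} {ε : ℝ} (f g : ℝ ≃ₗ[ℚ] ℝ) {e p l : ℝ}
    {r : Fin 3 → ℝ} {n : ℕ} {z : Fin n → ℝ} {Γ : Submodule ℚ (ℂ × ℂ)}
    (he : 0 < e) (hp : 0 < p) (hr : ∀ i, 0 < r i) (hf1 : f 1 = Real.log e)
    (hfl : f l = Real.log p) (hg : g p = Real.pi) (h0 : f (e * l) = Real.log (r 0))
    (h1 : f e = Real.log (r 1)) (h2 : f (p * l) = Real.log (r 2)) (hT : Theorems (EE f g))
    (hS : S ∈ strong → LogIndep (EE f g))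
    (hN : AlgebraicIndependent ℚ ![(p : ℂ), ((Real.exp (f p) : ℝ) : ℂ)])
    (hrat : ∀ i ∈ S, ∃ q : ℚ, fiveR e p r i = q)
    (htr : ∀ i ∉ S, Transcendental ℚ (fiveR e p r i)) (hpε : |p - Real.pi| < ε)
    (hlε : |l - Real.log Real.pi| < ε) (heε : |e - Real.exp 1| < ε)
    (hε : ∀ i, |fiveR e p r i - fiveR (Real.exp 1) Real.pi trueR i| < ε)
    (hF : ∀ a ∈ F, ‖EE f g a - exp a‖ < ε)
    (hΓ : Γ ≤ gr f g) (hc : coords Γ ⊆ Kc z) (hgood : GoodStep (Kc z) Γ (gr f g))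
    (hdfc : Dfc ⊥ Γ S.card)
    (hB : ∀ E : ℂ → ℂ, E 1 = e → seven E p l = Γ.map (LinearMap.fst ℚ ℂ ℂ))
    (hFar : Far e p l)
    (hN2 : AlgebraicIndependent ℚ ![(e : ℂ), ((Real.exp (f p) : ℝ) : ℂ)])
    (hS2 : ∀ b ∈ Γ.map (LinearMap.fst ℚ ℂ ℂ), b ∈ Submodule.span Qbar ({1} ∪
      {z | z ∈ Γ.map (LinearMap.fst ℚ ℂ ℂ) ∧ IsAlgebraic ℚ (EE f g z)}) →
      ∃ r s : ℚ, IsAlgebraic ℚ (EE f g (b - r - s * p))) :
    ModelU S F ε := by
  have hfive : ∀ i, five (EE f g) p l i = ((fiveR e p r i : ℝ) : ℂ) := by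
    intro i
    rw [five_EE f g p l he hf1, h0, h1, h2, Real.exp_log (hr 0), Real.exp_log (hr 1),
      Real.exp_log (hr 2)]
    rfl
  have hE1 : EE f g 1 = (e : ℂ) := by
    have := EE_ofReal f g 1
    rw [hf1, Real.exp_log he, ofReal_one] at this
    exact this
  have hexp := EE_isExp f g hp hg
  have hrel := relative_of (fun x h => mem_Kc_of_isAlgebraic h) hΓ hc hgood (hB _ hE1)
  have hNE : AlgebraicIndependent ℚ ![(p : ℂ), EE f g p] := by
    rw [EE_ofReal]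
    exact hN
  have hNE2 : AlgebraicIndependent ℚ ![EE f g 1, EE f g p] := by
    rw [EE_ofReal, hE1]
    exact hN2
  have hG : Gel (EE f g) := by
    refine gel_of hexp hrel (Submodule.subset_span (by simp)) (Submodule.subset_span (by simp))
      hNE2 ?_
    rw [hB _ hE1]
    exact hS2
  refine ⟨EE f g, p, l, hexp, ?_, hT, hNE, hS, schanuel_of (hdfc.step bot_le hc hgood),
    hrel, extra_of hexp hE1 hNE (hN2.transcendental 0) hrel hFar, hG, ?_, ?_, hpε, hlε, ?_, ?_,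
    hF⟩
  · rw [EE_ofReal, hfl, Real.exp_log hp]
  · intro i hi
    obtain ⟨q, hq⟩ := hrat i hi
    refine ⟨q, ?_⟩
    rw [hfive, hq, ofReal_ratCast]
  · intro i hi h
    refine htr i hi ?_
    rw [hfive] at h
    exact (isAlgebraic_algebraMap_iff (algebraMap ℝ ℂ).injective).mp h
  · rw [hE1]
    have h3 : (e : ℂ) - exp 1 = ((e - Real.exp 1 : ℝ) : ℂ) := by
      rw [ofReal_sub, ofReal_exp, ofReal_one]
    rw [h3, norm_real, Real.norm_eq_abs]
    exact heε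
  · intro i
    rw [hfive, five_true, ← ofReal_sub, norm_real, Real.norm_eq_abs]
    exact hε i

/-- Numbers near `exp 1` have logarithms near `1`. -/
theorem log_near (δ : ℝ) (hδ : 0 < δ) :
    ∃ δ' : ℝ, 0 < δ' ∧ ∀ e : ℝ, |e - Real.exp 1| < δ' → |Real.log e - 1| < δ := by
  have h := Real.continuousAt_log (Real.exp_pos 1).ne'
  obtain ⟨δ', h1, h2⟩ := Metric.continuousAt_iff.1 h δ hδ
  refine ⟨δ', h1, fun e he => ?_⟩
  have h3 := h2 (x := e) (by rwa [Real.dist_eq])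
  rwa [Real.dist_eq, Real.log_exp] at h3

end Pool.Agent.Pat6
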