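import Pool.Agent.Pat6.UTow
import Pool.Agent.Pat5.DatI

/-!
# Pat6: the defect of the base space for the patterns without a rational sum or product
-/

set_option autoImplicit false

namespace Pool.Agent.Pat6

open Complex Pool.Agent.Pat5

private theorem I_alg : IsAlgebraic ℚ I := Complex.isIntegral_rat_I.isAlgebraic

theorem mul_I_mem_iff {n : ℕ} {z : Fin n → ℝ} {A : Set (Fin n)} {x : ℂ} :
    x * I ∈ KS z A ↔ x ∈ KS z A := by
  have hI : I ∈ KS z A := alg_mem_KS I_alg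
  constructor
  · intro h
    have h1 := mul_mem h (inv_mem hI)
    rwa [mul_inv_cancel_right₀ I_ne_zero] at h1
  · intro h
    exact mul_mem h hI

/-- The first step: the pair `(i p, i π)`. -/
theorem Tow.pi {n : ℕ} {z : Fin n → ℝ} {A' : Set (Fin n)} {p : ℝ}
    (hp : (p : ℂ) ∉ KS z ∅) (hp' : (p : ℂ) ∈ KS z A') :
    Tow z A' (⊥ ⊔ Submodule.span ℚ {((p : ℂ) * I, (Real.pi : ℂ) * I)}) 0 := by
  refine (Tow.nil z).good (Set.empty_subset _) _ (Or.inl ?_) ?_ ?_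
  · rw [mul_I_mem_iff]
    exact hp
  · rw [mul_I_mem_iff]
    exact hp'
  · change exp ((Real.pi : ℂ) * I) ∈ KS z A'
    rw [exp_pi_mul_I]
    exact neg_mem (one_mem _)

theorem arg_mem_KS {n : ℕ} {z : Fin n → ℝ} {A : Set (Fin n)} {e p l : ℝ}
    (he : (e : ℂ) ∈ KS z A) (hp : (p : ℂ) ∈ KS z A) (hl : (l : ℂ) ∈ KS z A) (i : Fin 3) :
    ((arg e p l i : ℝ) : ℂ) ∈ KS z A := by
  fin_cases i
  · simpa [Pat5.arg] using mul_mem he hl
  · simpa [Pat5.arg] using he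
  · simpa [Pat5.arg] using mul_mem hp hl

/-- The step for the argument with the index `i`. -/
theorem Tow.arg {n : ℕ} {z : Fin n → ℝ} (hz : AlgebraicIndependent ℚ (fun i => (z i : ℂ)))
    (hpos : ∀ i, 0 < z i) {A : Set (Fin n)} {Γ : Submodule ℚ (ℂ × ℂ)} {s : ℕ}
    (h : Tow z A Γ s) {x : ℝ} (hx : (x : ℂ) ∈ KS z A) {q : ℚ} (hq : 0 < q) {k : Fin n}
    (hk : k ∉ A) (P : Prop) [Decidable P] :
    Tow z (insert k A) (Γ ⊔ Submodule.span ℚ
      {((x : ℂ), ((Real.log (if P then (q : ℝ) else z k) : ℝ) : ℂ))})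
      (s + if P then 1 else 0) := by
  have hx' : (x : ℂ) ∈ KS z (insert k A) := KS_mono (Set.subset_insert _ _) hx
  by_cases hP : P
  · rw [if_pos hP, if_pos hP]
    have h1 : Tow z (insert k A) Γ s := ⟨h.dfc, h.sub.trans (KS_mono (Set.subset_insert _ _))⟩
    refine h1.bad _ hx' ?_
    refine exp_log_mem_KS (by exact_mod_cast hq) ?_
    rw [ofReal_ratCast]
    exact rat_mem_KS z _ q
  · rw [if_neg hP, if_neg hP, add_zero]
    refine h.good (Set.subset_insert _ _) _ (Or.inr ?_) hx' ?_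
    · change exp ((Real.log (z k) : ℝ) : ℂ) ∉ _
      rw [← ofReal_exp, Real.exp_log (hpos k)]
      exact not_mem_KS hz hk
    · exact exp_log_mem_KS (hpos k) (coe_mem_KS z (Set.mem_insert _ _))

private theorem card_three : ∀ T : Finset (Fin 3), 0 + (if (0 : Fin 3) ∈ T then 1 else 0) +
    (if (1 : Fin 3) ∈ T then 1 else 0) + (if (2 : Fin 3) ∈ T then 1 else 0) = T.card := by
  decide

theorem mem_left {Γ : Submodule ℚ (ℂ × ℂ)} {a : ℂ × ℂ} (γ : ℂ × ℂ) (h : a ∈ Γ) :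
    a ∈ Γ ⊔ Submodule.span ℚ {γ} := Submodule.mem_sup_left h

theorem mem_self (Γ : Submodule ℚ (ℂ × ℂ)) (γ : ℂ × ℂ) :
    γ ∈ Γ ⊔ Submodule.span ℚ {γ} := Submodule.mem_sup_right (Submodule.mem_span_singleton_self γ)

private theorem base_le_I (z : Fin 7 → ℝ) (T : Finset (Fin 3)) (q : Fin 3 → ℚ)
    {Γ : Submodule ℚ (ℂ × ℂ)} (hp : ((z 1 : ℂ) * I, (Real.pi : ℂ) * I) ∈ Γ)
    (h1 : ((1 : ℂ), ((Real.log (z 0) : ℝ) : ℂ)) ∈ Γ)
    (hall : ∀ i : Fin 3, (((Pat5.arg (z 0) (z 1) (z 2) i : ℝ) : ℂ),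
      ((Real.log (if i ∈ T then (q i : ℝ) else z (gI i)) : ℝ) : ℂ)) ∈ Γ)
    (hl : ((z 2 : ℂ), ((Real.log (z 1) : ℝ) : ℂ)) ∈ Γ)
    (hg : ((z 1 : ℂ), ((Real.log (z 3) : ℝ) : ℂ)) ∈ Γ) :
    base (z 0) (z 1) (fun i : {i // i ∈ T} => Pat5.arg (z 0) (z 1) (z 2) i)
      (fun i : {i // i ∈ T} => Real.log (q i))
      (Sum.elim (fun i : {i // i ∉ T} => Pat5.arg (z 0) (z 1) (z 2) i) ![z 2, z 1])
      (Sum.elim (fun i : {i // i ∉ T} => Real.log (z (gI i)))
        ![Real.log (z 1), Real.log (z 3)]) ≤ Γ := by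
  refine base_le hp h1 ?_ ?_
  · rintro ⟨i, hi⟩
    have h := hall i
    rw [if_pos hi] at h
    exact h
  · rintro (⟨i, hi⟩ | i)
    · have h := hall i
      rw [if_neg hi] at h
      exact h
    · fin_cases i
      · exact hl
      · exact hg

theorem udfc_I (z : Fin 7 → ℝ) (hz : AlgebraicIndependent ℚ (fun i => (z i : ℂ)))
    (hpos : ∀ i, 0 < z i) (T : Finset (Fin 3)) (q : Fin 3 → ℚ) (hq : ∀ i, 0 < q i) :
    Dfc ⊥ (base (z 0) (z 1) (fun i : {i // i ∈ T} => Pat5.arg (z 0) (z 1) (z 2) i)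
      (fun i : {i // i ∈ T} => Real.log (q i))
      (Sum.elim (fun i : {i // i ∉ T} => Pat5.arg (z 0) (z 1) (z 2) i) ![z 2, z 1])
      (Sum.elim (fun i : {i // i ∉ T} => Real.log (z (gI i)))
        ![Real.log (z 1), Real.log (z 3)])) T.card := by
  have t1 : Tow z {1} _ 0 := Tow.pi (not_mem_KS hz (Set.notMem_empty 1))
    (coe_mem_KS z (Set.mem_singleton 1))
  have t2 := t1.good (A' := {0, 1}) (by simp) ((1 : ℂ), ((Real.log (z 0) : ℝ) : ℂ))
    (Or.inr (by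
      change exp ((Real.log (z 0) : ℝ) : ℂ) ∉ _
      rw [← ofReal_exp, Real.exp_log (hpos 0)]
      exact not_mem_KS hz (by simp))) (one_mem _)
    (exp_log_mem_KS (hpos 0) (coe_mem_KS z (by simp)))
  have t3 := t2.good (A' := {2, 0, 1}) (by simp)
    ((z 2 : ℂ), ((Real.log (z 1) : ℝ) : ℂ)) (Or.inl (not_mem_KS hz (by simp)))
    (coe_mem_KS z (by simp)) (exp_log_mem_KS (hpos 1) (coe_mem_KS z (by simp)))
  have ha : ∀ (A : Set (Fin 7)), {2, 0, 1} ⊆ A → ∀ i,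
      ((Pat5.arg (z 0) (z 1) (z 2) i : ℝ) : ℂ) ∈ KS z A := fun A hA i =>
    arg_mem_KS (coe_mem_KS z (hA (by simp))) (coe_mem_KS z (hA (by simp)))
      (coe_mem_KS z (hA (by simp))) i
  have t4 := t3.arg hz hpos (ha _ subset_rfl 0) (hq 0) (k := gI 0) (by
    simp [gI]) (0 ∈ T)
  have t5 := t4.arg hz hpos (ha _ (Set.subset_insert _ _) 1) (hq 1) (k := gI 1) (by
    simp [gI]) (1 ∈ T)
  have t6 := t5.arg hz hpos (ha _ ((Set.subset_insert _ _).trans (Set.subset_insert _ _)) 2)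
    (hq 2) (k := gI 2) (by simp [gI]) (2 ∈ T)
  have t7 := t6.good (A' := insert 3 _) (Set.subset_insert _ _)
    ((z 1 : ℂ), ((Real.log (z 3) : ℝ) : ℂ)) (Or.inr (by
      change exp ((Real.log (z 3) : ℝ) : ℂ) ∉ _
      rw [← ofReal_exp, Real.exp_log (hpos 3)]
      exact not_mem_KS hz (by simp [gI]))) (coe_mem_KS z (by simp))
    (exp_log_mem_KS (hpos 3) (coe_mem_KS z (by simp)))
  rw [card_three] at t7
  refine t7.dfc.mono (base_le_I z T q ?_ ?_ ?_ ?_ ?_)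
  · exact mem_left _ (mem_left _ (mem_left _ (mem_left _ (mem_left _ (mem_left _
      (mem_self _ _))))))
  · exact mem_left _ (mem_left _ (mem_left _ (mem_left _ (mem_left _ (mem_self _ _)))))
  · intro i
    fin_cases i
    · exact mem_left _ (mem_left _ (mem_left _ (mem_self _ _)))
    · exact mem_left _ (mem_left _ (mem_self _ _))
    · exact mem_left _ (mem_self _ _)
  · exact mem_left _ (mem_left _ (mem_left _ (mem_left _ (mem_self _ _))))
  · exact mem_self _ _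

/-- The first coordinates of the base space. -/
theorem seven_I (E : ℂ → ℂ) (e p l : ℝ) (hE : E 1 = e) (T : Finset (Fin 3)) (w : {i // i ∈ T} → ℝ)
    (Y : {i // i ∉ T} ⊕ Fin 2 → ℝ) :
    seven E p l = (base e p (fun i : {i // i ∈ T} => Pat5.arg e p l i) w
      (Sum.elim (fun i : {i // i ∉ T} => Pat5.arg e p l i) ![l, p]) Y).map
        (LinearMap.fst ℚ ℂ ℂ) := by
  rw [base_map_fst, seven, hE]
  have hin : ∀ i : Fin 3, ((Pat5.arg e p l i : ℝ) : ℂ) ∈ Submodule.span ℚ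
      (({1, (p : ℂ) * I} ∪ Set.range (fun i : {i // i ∈ T} => ((Pat5.arg e p l i : ℝ) : ℂ))) ∪
        Set.range (fun j => ((Sum.elim (fun i : {i // i ∉ T} => Pat5.arg e p l i) ![l, p] j :
          ℝ) : ℂ))) := by
    intro i
    by_cases h : i ∈ T
    · exact Submodule.subset_span (Or.inl (Or.inr ⟨⟨i, h⟩, rfl⟩))
    · exact Submodule.subset_span (Or.inr ⟨Sum.inl ⟨i, h⟩, rfl⟩)
  have hout : ∀ i : Fin 3, ((Pat5.arg e p l i : ℝ) : ℂ) ∈ Submodule.span ℚ
      ({1, (p : ℂ), (p : ℂ) * I, (l : ℂ), (e : ℂ), (e : ℂ) * (l : ℂ), (p : ℂ) * (l : ℂ)} :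
        Set ℂ) := by
    intro i
    refine Submodule.subset_span ?_
    fin_cases i <;> simp [Pat5.arg]
  refine le_antisymm ?_ ?_
  · rw [Submodule.span_le]
    rintro x (rfl | rfl | rfl | rfl | rfl | rfl | rfl)
    · exact Submodule.subset_span (Or.inl (Or.inl (Or.inl rfl)))
    · exact Submodule.subset_span (Or.inr ⟨Sum.inr 1, rfl⟩)
    · exact Submodule.subset_span (Or.inl (Or.inl (Or.inr rfl)))
    · exact Submodule.subset_span (Or.inr ⟨Sum.inr 0, rfl⟩)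
    · simpa [Pat5.arg] using hin 1
    · simpa [Pat5.arg] using hin 0
    · simpa [Pat5.arg] using hin 2
  · rw [Submodule.span_le]
    rintro x (((rfl | rfl) | ⟨i, rfl⟩) | ⟨(i | i), rfl⟩)
    · exact Submodule.subset_span (by simp)
    · exact Submodule.subset_span (by simp)
    · exact hout i
    · exact hout i
    · refine Submodule.subset_span ?_
      fin_cases i
      · simp
      · simp

end Pool.Agent.Pat6
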