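import Pool.Agent.Pat6.ModelU
import Pool.Agent.Pat6.UBaseI
import Pool.Agent.Pat6.CoreF
import Pool.Agent.Pat5.ModelI

/-!
# Pat6: the patterns without a rational sum or product

The construction of `Pool/Agent/Pat5/ModelI.lean` with `core3` in place of `core`.
-/

set_option autoImplicit false

namespace Pool.Agent.Pat6

open Pool.Agent.Pat5

private theorem fiveR_ind (e p : ℝ) (r : Fin 3 → ℝ) (j : Fin 3) :
    fiveR e p r (ind j) = r j := by
  fin_cases j <;> rfl

private theorem cases_five (i : Fin 5) : i = 0 ∨ i = 1 ∨ ∃ j, i = ind j := by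
  revert i
  decide

private theorem strong_ne : ∀ T : Finset (Fin 3), T.map ind ∈ strong → T ≠ Finset.univ := by
  decide

private theorem transcendental_real {x : ℝ} (h : Transcendental ℚ (x : ℂ)) :
    Transcendental ℚ x :=
  (transcendental_algebraMap_iff (R := ℚ) (S := ℝ) (A := ℂ)
    (algebraMap ℝ ℂ).injective).mp h

theorem modelU_I (T : Finset (Fin 3)) (F : Finset ℂ) (ε : ℝ) (hε : 0 < ε) :
    ModelU (T.map ind) F ε := by
  obtain ⟨δ₁, hδ₁, hcore⟩ := core3 F ε hε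
  obtain ⟨δ₂, hδ₂, hlog⟩ := log_near δ₁ hδ₁
  obtain ⟨δ₃, hδ₃, hδε₃, hδ13, hnear₃⟩ := near_I ε hε
  obtain ⟨δ, hδ, hd2, hd3⟩ : ∃ δ, 0 < δ ∧ δ ≤ δ₂ ∧ δ ≤ δ₃ :=
    ⟨min δ₂ δ₃, lt_min hδ₂ hδ₃, min_le_left _ _, min_le_right _ _⟩
  have hδε : δ ≤ ε := hd3.trans hδε₃
  have hδ1 : δ ≤ 1 := hd3.trans hδ13
  obtain ⟨z, hzF, hzt⟩ := exists_ai_nearF F ![Real.exp 1, Real.pi, Real.log Real.pi, 1,
    trueR 0, trueR 1, trueR 2] δ hδ
  have hz := ai_of_KF hzF
  obtain ⟨q, hq, hqt, hli⟩ := exists_rat_near trueR trueR_pos δ hδ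
  obtain ⟨t0, t1, t2, t3, t4, t5⟩ := one_lt_targets
  have hz0 : |z 0 - Real.exp 1| < δ := hzt 0
  have hz1 : |z 1 - Real.pi| < δ := hzt 1
  have hz2 : |z 2 - Real.log Real.pi| < δ := hzt 2
  have hz3 : |z 3 - 1| < δ := hzt 3
  have hz4 : |z 4 - trueR 0| < δ := hzt 4
  have hz5 : |z 5 - trueR 1| < δ := hzt 5
  have hz6 : |z 6 - trueR 2| < δ := hzt 6
  have hpos : ∀ i, 0 < z i := by
    have key : ∀ x t : ℝ, |x - t| < δ → 1 ≤ t → 0 < x := by
      intro x t h1 h2
      have := (abs_lt.mp h1).1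
      linarith
    intro i
    fin_cases i
    · exact key _ _ hz0 t0.le
    · exact key _ _ hz1 t1.le
    · exact key _ _ hz2 t2.le
    · exact key _ _ hz3 le_rfl
    · exact key _ _ hz4 t3.le
    · exact key _ _ hz5 t4.le
    · exact key _ _ hz6 t5.le
  have D := dat_I z hz hpos T q hq hli
  have hsq : Strong (z 1) (fun i : {i // i ∈ T} => arg (z 0) (z 1) (z 2) i) ∨
      QuadHyp z (z 1) (fun i : {i // i ∈ T} => arg (z 0) (z 1) (z 2) i) := by
    by_cases hT : T = Finset.univ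
    · exact Or.inr (quad_I z hz T hT)
    · exact Or.inl (strong_I z hz T hT)
  obtain ⟨f, g, hf1, hgp, hfv, hfX, hTh, hLI, hΓ, hc, hgood, hF⟩ :=
    hcore D hsq hzF (hlog _ (hz0.trans_le hd2))
  set r : Fin 3 → ℝ := fun i => if i ∈ T then (q i : ℝ) else z (gI i) with hr
  have hr1 : ∀ i, i ∈ T → r i = q i := fun i h => if_pos h
  have hr2 : ∀ i, i ∉ T → r i = z (gI i) := fun i h => if_neg h
  have hfa : ∀ i, f (arg (z 0) (z 1) (z 2) i) = Real.log (r i) := by
    intro i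
    by_cases h : i ∈ T
    · rw [hr1 i h]
      exact hfv ⟨i, h⟩
    · rw [hr2 i h]
      exact hfX (Sum.inl ⟨i, h⟩)
  have hfl : f (z 2) = Real.log (z 1) := hfX (Sum.inr 0)
  have hfp : f (z 1) = Real.log (z 3) := hfX (Sum.inr 1)
  have h01 : AlgebraicIndependent ℚ ![(z 0 : ℂ), (z 1 : ℂ)] := by
    have h := hz.comp (![0, 1] : Fin 2 → Fin 7) (by decide)
    convert h using 1
    ext i
    fin_cases i <;> rfl
  have hrt : ∀ j, |r j - trueR j| < δ := by
    intro j
    by_cases h : j ∈ T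
    · rw [hr1 j h]
      exact hqt j
    · rw [hr2 j h]
      fin_cases j
      · exact hz4
      · exact hz5
      · exact hz6
  have hdfc := udfc_I z hz hpos T q hq
  rw [← Finset.card_map ind] at hdfc
  refine modelU_of f g (e := z 0) (p := z 1) (l := z 2) (r := r) (hpos 0) (hpos 1) ?_ hf1 hfl hgp
    (hfa 0) (hfa 1) (hfa 2) hTh ?_ ?_ ?_ ?_ (hz1.trans_le hδε) (hz2.trans_le hδε)
    (hz0.trans_le hδε) ?_ hF hΓ hc hgood hdfc (fun E hE => seven_I E _ _ _ hE T _ _)
    (far_I z hz) ?_ fun b hb hs => S2_of D hf1 hgp hfv hfX (Sum.inr 1) 0 1 one_ne_zero (by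
      simp) hb hs
  · intro i
    by_cases h : i ∈ T
    · rw [hr1 i h]
      exact_mod_cast hq i
    · rw [hr2 i h]
      exact hpos _
  · intro h
    exact hLI (strong_I z hz T (strong_ne T h))
  · rw [hfp, Real.exp_log (hpos 3)]
    have h := hz.comp (![1, 3] : Fin 2 → Fin 7) (by decide)
    convert h using 1
    ext i
    fin_cases i <;> rfl
  · intro i hi
    obtain ⟨j, hj, rfl⟩ := Finset.mem_map.mp hi
    exact ⟨q j, by rw [fiveR_ind, hr1 j hj]⟩
  · intro i hi
    rcases cases_five i with rfl | rfl | ⟨j, rfl⟩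
    · apply transcendental_real
      have h := transcendental_add h01
      have h2 : ((fiveR (z 0) (z 1) r 0 : ℝ) : ℂ) = (z 1 : ℂ) + (z 0 : ℂ) :=
        Complex.ofReal_add _ _
      rw [h2]
      exact h
    · apply transcendental_real
      have h := transcendental_mul h01
      have h2 : ((fiveR (z 0) (z 1) r 1 : ℝ) : ℂ) = (z 1 : ℂ) * (z 0 : ℂ) :=
        Complex.ofReal_mul _ _
      rw [h2]
      exact h
    · have hj : j ∉ T := fun h => hi (Finset.mem_map_of_mem ind h)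
      rw [fiveR_ind, hr2 j hj]
      exact transcendental_real (hz.transcendental (gI j))
  · intro i
    have hn := hnear₃ (z 0) (z 1) (hz0.trans_le hd3) (hz1.trans_le hd3)
    rcases cases_five i with rfl | rfl | ⟨j, rfl⟩
    · exact hn.1
    · exact hn.2
    · rw [fiveR_ind, fiveR_ind]
      exact (hrt j).trans_le hδε
  · rw [hfp, Real.exp_log (hpos 3)]
    have h := hz.comp (![0, 3] : Fin 2 → Fin 7) (by decide)
    convert h using 1
    ext i
    fin_cases i <;> rfl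

end Pool.Agent.Pat6
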