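import Pool.Agent.Pat6.Defs

/-!
# Pat6: closeness of `EE f g` and `exp` on a finite set

PROOF of `near_num`. `V = span ({1} ∪ {re a})` is a finite-dimensional space of real numbers; extend
`1` to a basis `(1, x 0, ..., x (r-1))` of it, whose elements are in the span of the real parts and
`1` (`exists_linearIndependent_extension`, or choose the `x i` among the real parts); in the same way
`y` is a basis of the span of the imaginary parts, chosen among them. So for `a ∈ F` there are rational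
coefficients with `re a = q + ∑ q i * x i`, `im a = ∑ q' j * y j`. If `f`, `g` are `ℚ`-linear with
`|f 1 - 1| < δ`, `|f (x i) - x i| < δ`, `|g (y j) - y j| < δ` then `|f (re a) - re a| ≤ M δ`,
`|g (im a) - im a| ≤ M δ` where `M` is the sum of the absolute values of all these coefficients for
all `a ∈ F`. `EE f g a = exp (f (re a) + g (im a) I)` (`EE_eq`) and the continuity of `exp` at the
finitely many points `a` finish the proof (choose `η` with `|w - a| < η → |exp w - exp a| < ε` for all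
`a ∈ F`, and `δ` with `2 M δ < η`).

`near_log`: `exp` is an open map near `x`: for every real `x` and `δ > 0` there are positive numbers
`lo < hi` with `lo < τ < hi → |log τ - x| < δ` (`lo = exp (x - δ)`, `hi = exp (x + δ)`), and for a
positive number `b` there is a positive rational `q` with `lo < q * b < hi`.
`near_ang`: for every real `y` and `δ > 0` there is `θ` with `|θ - y| < δ` and
`exp (θ I)` = `exp (ang (q * b) I)` for a positive rational or negative rational `q`; take `y₀` near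
`y`, not of the form `π + 2 π k`, an integer `k` with `y₀ - 2 π k ∈ (-π, π)`, and
`θ = ang c + 2 π k` with `c = q * b` near `tan ((y₀ - 2 π k) / 2)`, `q ≠ 0` rational
(`ang c = 2 arctan c` is continuous and onto `(-π, π)`, `Pool/Agent/Pat5/Circle.lean`).
-/

set_option autoImplicit false

namespace Pool.Agent.Pat6

open Complex Pool.Agent.Pat5

/-- Linear maps which move a spanning family a little move a finite subset of the span a little. -/
private theorem near_bound {ι : Type} [Fintype ι] (y : ι → ℝ) (T : Finset ℝ)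
    (hT : ∀ u ∈ T, u ∈ Submodule.span ℚ (Set.range y)) :
    ∃ M : ℝ, 0 ≤ M ∧ ∀ (f : ℝ ≃ₗ[ℚ] ℝ) (δ : ℝ), 0 < δ → (∀ i, |f (y i) - y i| < δ) →
      ∀ u ∈ T, |f u - u| ≤ M * δ := by
  classical
  have h1 : ∀ u : ℝ, ∃ c : ι → ℚ, u ∈ T → ∑ i, c i • y i = u := by
    intro u
    by_cases hu : u ∈ T
    · obtain ⟨c, hc⟩ := (Submodule.mem_span_range_iff_exists_fun ℚ).1 (hT u hu)
      exact ⟨c, fun _ => hc⟩
    · exact ⟨0, fun h => absurd h hu⟩
  choose c hc using h1
  refine ⟨∑ u ∈ T, ∑ i, |(c u i : ℝ)|, Finset.sum_nonneg fun u _ => Finset.sum_nonneg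
    fun i _ => abs_nonneg _, fun f δ hδ hf u hu => ?_⟩
  have h2 : f u - u = ∑ i, (c u i : ℝ) * (f (y i) - y i) := by
    have h3 : f u = ∑ i, c u i • f (y i) := by
      conv_lhs => rw [← hc u hu]
      rw [map_sum]
      exact Finset.sum_congr rfl fun i _ => map_smul f (c u i) (y i)
    have h4 : f u - u = ∑ i, c u i • f (y i) - ∑ i, c u i • y i := by rw [h3, hc u hu]
    rw [h4, ← Finset.sum_sub_distrib]
    refine Finset.sum_congr rfl fun i _ => ?_
    rw [Rat.smul_def, Rat.smul_def]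
    ring
  rw [h2]
  calc |∑ i, (c u i : ℝ) * (f (y i) - y i)| ≤ ∑ i, |(c u i : ℝ) * (f (y i) - y i)| :=
        Finset.abs_sum_le_sum_abs _ _
    _ ≤ ∑ i, |(c u i : ℝ)| * δ := by
        refine Finset.sum_le_sum fun i _ => ?_
        rw [abs_mul]
        exact mul_le_mul_of_nonneg_left (hf i).le (abs_nonneg _)
    _ = (∑ i, |(c u i : ℝ)|) * δ := (Finset.sum_mul _ _ _).symm
    _ ≤ (∑ u ∈ T, ∑ i, |(c u i : ℝ)|) * δ := by
        refine mul_le_mul_of_nonneg_right ?_ hδ.le
        exact Finset.single_le_sum (f := fun u => ∑ i, |(c u i : ℝ)|)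
          (fun u _ => Finset.sum_nonneg fun i _ => abs_nonneg _) hu

/-- A basis of the span of `1` and a finite set, which starts with `1`. -/
private theorem basis_one (T : Finset ℝ) : ∃ (r : ℕ) (x : Fin r → ℝ),
    LinearIndependent ℚ (fun o : Option (Fin r) => o.elim 1 x) ∧ (∀ i, x i ∈ T) ∧
    ∀ u ∈ T, u ∈ Submodule.span ℚ (Set.range fun o : Option (Fin r) => o.elim 1 x) := by
  classical
  have h1 : LinearIndepOn ℚ id ({1} : Set ℝ) := LinearIndepOn.singleton (by simp)
  obtain ⟨b, hbt, hb1, hspan, hli⟩ := exists_linearIndepOn_id_extension h1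
    (Set.singleton_subset_iff.2 (Set.mem_insert (1 : ℝ) (T : Set ℝ)))
  have hbf : b.Finite := (T.finite_toSet.insert 1).subset hbt
  have hcf : (b \ {1}).Finite := hbf.subset Set.sdiff_subset
  set B : Finset ℝ := hcf.toFinset with hB
  have hmB : ∀ u, u ∈ B ↔ u ∈ b ∧ u ≠ 1 := fun u => by simp [hB]
  let e := B.equivFin.symm
  have hx : ∀ i, ((e i : B) : ℝ) ∈ b ∧ ((e i : B) : ℝ) ≠ 1 := fun i => (hmB _).1 (e i).2
  refine ⟨B.card, fun i => ((e i : B) : ℝ), ?_, ?_, ?_⟩
  · have h2 : LinearIndependent ℚ (fun u : b => (u : ℝ)) := hli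
    have h3 : ∀ o : Option (Fin B.card), (o.elim 1 fun i => ((e i : B) : ℝ)) ∈ b := by
      rintro (_ | i)
      · exact hb1 rfl
      · exact (hx i).1
    refine h2.comp (fun o => ⟨_, h3 o⟩) ?_
    rintro (_ | i) (_ | j) h
    · rfl
    · exact absurd (congrArg Subtype.val h).symm (hx j).2
    · exact absurd (congrArg Subtype.val h) (hx i).2
    · have h4 : ((e i : B) : ℝ) = ((e j : B) : ℝ) := congrArg (fun z : b => (z : ℝ)) h
      rw [e.injective (Subtype.ext h4)]
  · intro i
    rcases hbt (hx i).1 with h | h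
    · exact absurd h (hx i).2
    · exact h
  · intro u hu
    refine Submodule.span_mono ?_ (hspan (Set.mem_insert_of_mem 1 hu))
    intro v hv
    by_cases h1v : v = 1
    · exact ⟨none, h1v.symm⟩
    · refine ⟨some (e.symm ⟨v, (hmB v).2 ⟨hv, h1v⟩⟩), ?_⟩
      simp

/-- A basis of the span of a finite set. -/
private theorem basis_set (T : Finset ℝ) : ∃ (s : ℕ) (y : Fin s → ℝ),
    LinearIndependent ℚ y ∧ (∀ i, y i ∈ T) ∧ ∀ u ∈ T, u ∈ Submodule.span ℚ (Set.range y) := by
  classical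
  obtain ⟨b, hbt, hspan, hli⟩ := exists_linearIndependent ℚ (T : Set ℝ)
  have hbf : b.Finite := T.finite_toSet.subset hbt
  set B : Finset ℝ := hbf.toFinset with hB
  have hmB : ∀ u, u ∈ B ↔ u ∈ b := fun u => by simp [hB]
  let e := B.equivFin.symm
  have hx : ∀ i, ((e i : B) : ℝ) ∈ b := fun i => (hmB _).1 (e i).2
  refine ⟨B.card, fun i => ((e i : B) : ℝ), ?_, fun i => hbt (hx i), ?_⟩
  · refine hli.comp (fun i => ⟨_, hx i⟩) ?_
    intro i j h
    have h4 : ((e i : B) : ℝ) = ((e j : B) : ℝ) := congrArg (fun z : b => (z : ℝ)) h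
    exact e.injective (Subtype.ext h4)
  · intro u hu
    have h5 : u ∈ Submodule.span ℚ b := by
      rw [hspan]
      exact Submodule.subset_span hu
    refine Submodule.span_mono ?_ h5
    intro v hv
    refine ⟨e.symm ⟨v, (hmB v).2 hv⟩, ?_⟩
    simp

/-- Uniform continuity of `exp` at finitely many points. -/
private theorem exp_near (F : Finset ℂ) (ε : ℝ) (hε : 0 < ε) : ∃ η, 0 < η ∧
    ∀ a ∈ F, ∀ w : ℂ, ‖w‖ < η → ‖exp (a + w) - exp a‖ < ε := by
  have h1 : ∀ᶠ w : ℂ in nhds 0, ∀ a ∈ F, ‖exp (a + w) - exp a‖ < ε := by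
    rw [Filter.eventually_all_finset]
    intro a _
    have h2 : Continuous fun w : ℂ => ‖exp (a + w) - exp a‖ := by fun_prop
    have h3 := h2.continuousAt (x := 0)
    refine h3.eventually_lt continuousAt_const ?_
    simpa using hε
  obtain ⟨η, hη, h⟩ := Metric.eventually_nhds_iff.1 h1
  refine ⟨η, hη, fun a ha w hw => h ?_ a ha⟩
  simpa [dist_eq_norm] using hw

theorem near_num (F : Finset ℂ) (ε : ℝ) (hε : 0 < ε) :
    ∃ (r s : ℕ) (x : Fin r → ℝ) (y : Fin s → ℝ) (δ : ℝ), 0 < δ ∧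
      LinearIndependent ℚ (fun o : Option (Fin r) => o.elim 1 x) ∧ LinearIndependent ℚ y ∧
      (∀ i, x i ∈ Submodule.span ℚ ({1} ∪ {u : ℝ | ∃ a ∈ F, u = a.re})) ∧
      (∀ i, y i ∈ Submodule.span ℚ {u : ℝ | ∃ a ∈ F, u = a.im}) ∧
      ∀ f g : ℝ ≃ₗ[ℚ] ℝ, |f 1 - 1| < δ → (∀ i, |f (x i) - x i| < δ) →
        (∀ i, |g (y i) - y i| < δ) → ∀ a ∈ F, ‖EE f g a - exp a‖ < ε := by
  classical
  obtain ⟨r, x, hx, hxT, hxs⟩ := basis_one (F.image fun a => a.re)
  obtain ⟨s, y, hy, hyT, hys⟩ := basis_set (F.image fun a => a.im)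
  obtain ⟨M, hM, hMb⟩ := near_bound _ _ hxs
  obtain ⟨M', hM', hMb'⟩ := near_bound _ _ hys
  obtain ⟨η, hη, hexp⟩ := exp_near F ε hε
  have hpos : 0 < M + M' + 1 := by positivity
  have hδ : 0 < η / (M + M' + 1) := by positivity
  refine ⟨r, s, x, y, η / (M + M' + 1), hδ, hx, hy, ?_, ?_, ?_⟩
  · intro i
    obtain ⟨a, ha, hai⟩ := Finset.mem_image.1 (hxT i)
    exact Submodule.subset_span (Or.inr ⟨a, ha, hai.symm⟩)
  · intro i
    obtain ⟨a, ha, hai⟩ := Finset.mem_image.1 (hyT i)
    exact Submodule.subset_span ⟨a, ha, hai.symm⟩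
  · intro f g hf1 hfx hgy a ha
    have h1 : |f a.re - a.re| ≤ M * (η / (M + M' + 1)) := by
      refine hMb f _ hδ ?_ _ (Finset.mem_image_of_mem _ ha)
      rintro (_ | i)
      · exact hf1
      · exact hfx i
    have h2 : |g a.im - a.im| ≤ M' * (η / (M + M' + 1)) :=
      hMb' g _ hδ hgy _ (Finset.mem_image_of_mem _ ha)
    have h3 : EE f g a =
        exp (a + (((f a.re - a.re : ℝ) : ℂ) + ((g a.im - a.im : ℝ) : ℂ) * I)) := by
      rw [EE_eq]
      congr 1
      conv_rhs => rw [← re_add_im a]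
      push_cast
      simp only [add_re, ofReal_re, mul_re, I_re, mul_zero, ofReal_im, I_im, mul_one, sub_self,
        add_zero, add_im, mul_im, zero_add]
      ring
    rw [h3]
    refine hexp a ha _ ?_
    have h4 : ‖((f a.re - a.re : ℝ) : ℂ) + ((g a.im - a.im : ℝ) : ℂ) * I‖ ≤
        |f a.re - a.re| + |g a.im - a.im| := by
      refine (norm_add_le _ _).trans ?_
      rw [norm_mul, norm_I, mul_one, norm_real, norm_real, Real.norm_eq_abs, Real.norm_eq_abs]
    have h5 : (M + M') * (η / (M + M' + 1)) < η := by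
      rw [← mul_div_assoc, div_lt_iff₀ hpos]
      nlinarith
    linarith

theorem near_log (x δ b : ℝ) (hδ : 0 < δ) (hb : 0 < b) :
    ∃ q : ℚ, 0 < q ∧ |Real.log (q * b) - x| < δ := by
  have hx : Real.exp (x - δ) / b < Real.exp (x + δ) / b := by
    refine div_lt_div_of_pos_right ?_ hb
    exact Real.exp_lt_exp.2 (by linarith)
  obtain ⟨q, hq1, hq2⟩ := exists_rat_btwn hx
  have h0 : (0 : ℝ) < q := lt_trans (div_pos (Real.exp_pos _) hb) hq1
  rw [div_lt_iff₀ hb] at hq1
  rw [lt_div_iff₀ hb] at hq2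
  refine ⟨q, by exact_mod_cast h0, ?_⟩
  have hqb : 0 < (q : ℝ) * b := mul_pos h0 hb
  have h1 : x - δ < Real.log (q * b) := (Real.lt_log_iff_exp_lt hqb).2 hq1
  have h2 : Real.log (q * b) < x + δ := (Real.log_lt_iff_lt_exp hqb).2 hq2
  rw [abs_lt]
  constructor <;> linarith

theorem near_ang (y δ b : ℝ) (hδ : 0 < δ) (hb : 0 < b) :
    ∃ (q : ℚ) (θ : ℝ), q ≠ 0 ∧ |θ - y| < δ ∧ exp ((θ : ℂ) * I) = exp (ang (q * b) * I) := by
  have hpi := Real.pi_pos
  set φ : ℝ := toIocMod Real.two_pi_pos (-Real.pi) y with hφ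
  set k : ℤ := toIocDiv Real.two_pi_pos (-Real.pi) y with hk
  have hy : φ + k * (2 * Real.pi) = y := by
    have h := toIocMod_add_toIocDiv_zsmul Real.two_pi_pos (-Real.pi) y
    rwa [zsmul_eq_mul] at h
  have hmem : φ ∈ Set.Ioc (-Real.pi) (-Real.pi + 2 * Real.pi) :=
    toIocMod_mem_Ioc Real.two_pi_pos (-Real.pi) y
  obtain ⟨hm1, hm2⟩ := hmem
  -- a nearby angle smaller than `π`
  obtain ⟨ψ, hψ1, hψ2⟩ : ∃ ψ, max (-Real.pi) (φ - δ / 2) < ψ ∧ ψ < φ :=
    exists_between (max_lt hm1 (by linarith))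
  have hψa : -Real.pi < ψ := lt_of_le_of_lt (le_max_left _ _) hψ1
  have hψb : φ - δ / 2 < ψ := lt_of_le_of_lt (le_max_right _ _) hψ1
  have hψc : ψ < Real.pi := by linarith
  have hang : ang (Real.tan (ψ / 2)) = ψ := by
    rw [ang, Real.arctan_tan (by linarith) (by linarith)]
    ring
  have hcont : ContinuousAt ang (Real.tan (ψ / 2)) := by
    have h : Continuous ang := by
      unfold ang
      exact continuous_const.mul Real.continuous_arctan
    exact h.continuousAt
  obtain ⟨η, hη, hc⟩ := Metric.continuousAt_iff.1 hcont (δ / 2) (by linarith)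
  have hq : ∃ q : ℚ, q ≠ 0 ∧ |(q : ℝ) * b - Real.tan (ψ / 2)| < η := by
    set c := Real.tan (ψ / 2)
    rcases le_or_gt 0 c with h0 | h0
    · have h1 : c / b < (c + η) / b := div_lt_div_of_pos_right (by linarith) hb
      obtain ⟨q, hq1, hq2⟩ := exists_rat_btwn h1
      have h2 : (0 : ℝ) < q := lt_of_le_of_lt (div_nonneg h0 hb.le) hq1
      rw [div_lt_iff₀ hb] at hq1
      rw [lt_div_iff₀ hb] at hq2
      refine ⟨q, ?_, ?_⟩
      · intro h3
        rw [h3, Rat.cast_zero] at h2
        exact lt_irrefl _ h2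
      · rw [abs_lt]
        constructor <;> linarith
    · have h1 : (c - η) / b < c / b := div_lt_div_of_pos_right (by linarith) hb
      obtain ⟨q, hq1, hq2⟩ := exists_rat_btwn h1
      have h2 : (q : ℝ) < 0 := hq2.trans (div_neg_of_neg_of_pos h0 hb)
      rw [div_lt_iff₀ hb] at hq1
      rw [lt_div_iff₀ hb] at hq2
      refine ⟨q, ?_, ?_⟩
      · intro h3
        rw [h3, Rat.cast_zero] at h2
        exact lt_irrefl _ h2
      · rw [abs_lt]
        constructor <;> linarith
  obtain ⟨q, hq0, hqη⟩ := hq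
  have h1 : |ang (q * b) - ψ| < δ / 2 := by
    have h := hc (x := q * b) (by rw [Real.dist_eq]; exact hqη)
    rwa [Real.dist_eq, hang] at h
  refine ⟨q, ang (q * b) + k * (2 * Real.pi), hq0, ?_, ?_⟩
  · rw [← hy]
    rw [abs_lt] at h1 ⊢
    constructor <;> linarith [h1.1, h1.2]
  · have h2 : (((ang (q * b) + k * (2 * Real.pi) : ℝ) : ℂ)) * I =
        ang (q * b) * I + k * (2 * Real.pi * I) := by
      push_cast
      ring
    rw [h2, exp_periodic.int_mul k]

end Pool.Agent.Pat6
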