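import Pool.Agent.Pat6.KFld
import Pool.Agent.Pat6.AddG
import Pool.Agent.Pat6.NearNum
import Pool.Agent.Pat6.Gen
import Pool.Agent.Pat6.BaseSt
import Pool.Agent.Pat6.Sup

/-!
# Pat6: the generic extension near the exponential function

PROOF of `gen_near`. Take `r, s, x, y, δ` from `near_num F ε`. Given the data, take `z'` from
`exists_big`, the supply `K, t` for `z'` (`exists_supply`; `K 0 = Kc z'`), the base stage over `Kc z`
(`exists_base`), moved up to `K 0` (`Stage.up`).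
 * The numbers `x i` are in `KF F ≤ Kc z' = K 0` and linearly independent modulo the domain
   `span (1, v, X)` of `baseG`: if `∑ c i * x i` is in this domain then it is in `KF F` and in
   `Kc z`, so it is algebraic (`Kc_inf_KF`), so it is a rational number, since `1, v, X` are linearly
   independent over `Qbar` (`D.dom`), and `c = 0` as `1, x` are linearly independent.
 * `near_log` for `b = t 0 (x i)` gives rational `q i > 0` and `τ i = q i * t 0 (x i)`, which are
   algebraically independent over `K 0` (`scale_ai`), in `K 1`; `add_G` gives a stage over `K 1`.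
 * The `y j` are in `K 0 ≤ K 1` and linearly independent modulo the domain `span p` of `baseH`: if
   `∑ c j * y j = q * p` then `q * p` is in `KF F` and in `Kc z`, so algebraic; as `1, p` are linearly
   independent over `Qbar` (`D.log`) `q = 0`, and `c = 0`.
 * `near_ang` for `b = t 1 (y j)` gives `q j ≠ 0`, `θ j`; the numbers
   `exp (ang (q j * t 1 (y j)) * I)` are algebraically independent over `K 1` by `ai_circle`
   (`Pool/Agent/Pat5/Circle.lean`, with an empty first family, and `scale_ai`), and in `K 2` by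
   `exp_ang`; `add_H` gives a stage over `K 2`.
 * `gen` for the shifted supply `fun n => K (n + 2)`, `fun n => t (n + 2)` gives `f`, `g` with
   `GoodStep (K 2) s₂.cx (gr f g)`; `GoodStep.trans` (twice, `stage_coords`) gives
   `GoodStep (K 0) base (gr f g)`, and `GoodStep` over `K 0 = Kc z' ≥ Kc z` implies the one over
   `Kc z` (`good_down`: a family which is algebraically independent over a bigger field is
   algebraically independent over a smaller one).
 * `near_num` applies: `f 1 = log e`, `f (x i) = log (τ i)`, `g (y j) = θ j`.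
-/

set_option autoImplicit false

namespace Pool.Agent.Pat6

open Complex Pool.Agent.Pat5

theorem good_down {K K' : IntermediateField ℚ ℂ} (hK : K ≤ K') {Γ Γ' : Submodule ℚ (ℂ × ℂ)}
    (h : GoodStep K' Γ Γ') : GoodStep K Γ Γ' := by
  intro X hX hf hd
  obtain ⟨u, hu, hm⟩ := h X hX hf hd
  let _ : Algebra K K' := (IntermediateField.inclusion hK).toRingHom.toAlgebra
  have : IsScalarTower K K' ℂ := IsScalarTower.of_algebraMap_eq fun _ => rfl
  exact ⟨u, hu.restrictScalars (algebraMap K K').injective, hm⟩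

private theorem ng_li {W : Submodule ℚ ℝ} {r : ℕ} {x : Fin r → ℝ}
    (h : ∀ c : Fin r → ℚ, ∑ i, c i • x i ∈ W → ∀ i, c i = 0) :
    LinearIndependent ℚ (fun i => W.mkQ (x i)) := by
  rw [Fintype.linearIndependent_iff]
  intro c hc
  refine h c ?_
  rw [← Submodule.Quotient.mk_eq_zero, ← Submodule.mkQ_apply, map_sum, ← hc]
  exact Finset.sum_congr rfl fun i _ => map_smul _ _ _

private theorem ng_span {F : Finset ℂ} {S : Set ℝ} (hS : ∀ u ∈ S, (u : ℂ) ∈ KF F) {u : ℝ}
    (hu : u ∈ Submodule.span ℚ S) : (u : ℂ) ∈ KF F := by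
  refine Submodule.span_induction (p := fun (u : ℝ) _ => (u : ℂ) ∈ KF F) hS ?_ ?_ ?_ hu
  · rw [ofReal_zero]
    exact (KF F).zero_mem
  · intro a b _ _ ha hb
    rw [ofReal_add]
    exact (KF F).add_mem ha hb
  · intro c a _ ha
    rw [Rat.smul_def, ofReal_mul, ofReal_ratCast]
    exact (KF F).mul_mem ((KF F).algebraMap_mem c) ha

/-- The first coordinates of the generators of the base graph. -/
private noncomputable def ngF {ν χ : Type} (v : ν → ℝ) (X : χ → ℝ) : Option (ν ⊕ χ) → ℝ :=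
  fun o => o.elim 1 (Sum.elim v X)

private theorem ng_fst {ν χ : Type} {e : ℝ} {v w : ν → ℝ} {X Y : χ → ℝ} {u : ℝ}
    (hu : u ∈ (baseG e v w X Y).map (LinearMap.fst ℚ ℝ ℝ)) :
    u ∈ Submodule.span ℚ (Set.range (ngF v X)) := by
  rw [baseG, Submodule.map_span] at hu
  refine Submodule.span_mono ?_ hu
  rintro _ ⟨a, ha, rfl⟩
  rcases ha with (h | ⟨i, rfl⟩) | ⟨j, rfl⟩
  · rw [Set.mem_singleton_iff.1 h]
    exact ⟨none, rfl⟩
  · exact ⟨some (Sum.inl i), rfl⟩
  · exact ⟨some (Sum.inr j), rfl⟩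

private theorem ng_rat {n : ℕ} {z : Fin n → ℝ} {ν χ : Type} {e p : ℝ}
    {v w : ν → ℝ} {X Y : χ → ℝ} (D : Dat z e p v w X Y) {u : ℝ}
    (hu : u ∈ (baseG e v w X Y).map (LinearMap.fst ℚ ℝ ℝ)) (ha : IsAlgebraic ℚ (u : ℂ)) :
    ∃ q : ℚ, u = q := by
  obtain ⟨d, hd⟩ := Finsupp.mem_span_range_iff_exists_finsupp.1 (ng_fst hu)
  set Φ : Option (ν ⊕ χ) → ℂ :=
    fun o => o.elim 1 (Sum.elim (fun i => (v i : ℂ)) (fun j => (X j : ℂ))) with hΦ
  have hΦr : ∀ o, (ngF v X o : ℂ) = Φ o := by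
    intro o
    rcases o with (_ | (i | j))
    · exact ofReal_one
    · rfl
    · rfl
  set α : Qbar := ⟨(u : ℂ), mem_Qbar.2 ha⟩ with hα
  set d' : Option (ν ⊕ χ) →₀ Qbar := d.mapRange (algebraMap ℚ Qbar) (map_zero _) with hd'
  have h1 : Finsupp.linearCombination Qbar Φ d' = (u : ℂ) := by
    rw [Finsupp.linearCombination_apply, hd', Finsupp.sum_mapRange_index]
    · rw [← hd, Finsupp.sum, Finsupp.sum, ofReal_sum]
      refine Finset.sum_congr rfl fun o _ => ?_
      rw [Rat.smul_def, ofReal_mul, ofReal_ratCast, hΦr o]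
      rfl
    · intro o
      exact zero_smul _ _
  have h2 : Finsupp.linearCombination Qbar Φ (d' - Finsupp.single none α) = 0 := by
    rw [map_sub, h1, Finsupp.linearCombination_single, sub_eq_zero]
    show (u : ℂ) = (u : ℂ) * 1
    rw [mul_one]
  have h3 := linearIndependent_iff.1 D.dom _ h2
  have h4 : d' none = α := by
    have := DFunLike.congr_fun h3 none
    rw [Finsupp.sub_apply, Finsupp.single_eq_same, Finsupp.zero_apply, sub_eq_zero] at this
    exact this
  refine ⟨d none, ?_⟩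
  have h5 : ((d none : ℚ) : ℂ) = (u : ℂ) := congrArg (fun a : Qbar => (a : ℂ)) h4
  exact_mod_cast h5.symm

private theorem ng_p {n : ℕ} {z : Fin n → ℝ} {ν χ : Type} {e p : ℝ}
    {v w : ν → ℝ} {X Y : χ → ℝ} (D : Dat z e p v w X Y) (ha : IsAlgebraic ℚ (p : ℂ)) :
    False := by
  set Φ : Option (Unit ⊕ ν) → ℂ :=
    fun o => o.elim 1 (Sum.elim (fun _ => (p : ℂ)) (fun i => (v i : ℂ))) with hΦ
  set α : Qbar := ⟨(p : ℂ), mem_Qbar.2 ha⟩ with hα
  have h2 : Finsupp.linearCombination Qbar Φ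
      (Finsupp.single (some (Sum.inl ())) 1 - Finsupp.single none α) = 0 := by
    rw [map_sub, Finsupp.linearCombination_single, Finsupp.linearCombination_single,
      one_smul, sub_eq_zero]
    show (p : ℂ) = (p : ℂ) * 1
    rw [mul_one]
  have h3 := linearIndependent_iff.1 D.log _ h2
  have h4 := DFunLike.congr_fun h3 (some (Sum.inl ()))
  rw [Finsupp.sub_apply, Finsupp.single_eq_same, Finsupp.single_eq_of_ne (by simp)] at h4
  simp at h4

private theorem ng_I (K : IntermediateField ℚ ℂ) : IsAlgebraic K I := by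
  refine IsAlgebraic.of_pow (n := 2) two_pos ?_
  rw [I_sq]
  exact isAlgebraic_one.neg

theorem gen_near (F : Finset ℂ) (ε : ℝ) (hε : 0 < ε) : ∃ δ : ℝ, 0 < δ ∧
    ∀ {n : ℕ} {z : Fin n → ℝ} {ν χ : Type} [Finite ν] [Finite χ] {e p : ℝ}
      {v w : ν → ℝ} {X Y : χ → ℝ} (_ : Dat z e p v w X Y),
      AlgebraicIndependent (KF F) (fun i => (z i : ℂ)) → |Real.log e - 1| < δ →
      ∃ f g : ℝ ≃ₗ[ℚ] ℝ, (∀ a ∈ baseG e v w X Y, f a.1 = a.2) ∧
        (∀ a ∈ baseH p, g a.1 = a.2) ∧ GoodStep (Kc z) (base e p v w X Y) (gr f g) ∧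
        ∀ a ∈ F, ‖EE f g a - exp a‖ < ε := by
  obtain ⟨r, s, x, y, δ, hδ, hx, hy, hxF, hyF, hnear⟩ := near_num F ε hε
  refine ⟨δ, hδ, ?_⟩
  intro n z ν χ _ _ e p v w X Y D hz he
  obtain ⟨m, z', hz', hle, hF⟩ := exists_big hz
  obtain ⟨K, t, hK0, hS⟩ := exists_supply z' hz'
  obtain ⟨s0, hs0G, hs0H⟩ := exists_base D
  have hKz : Kc z ≤ K 0 := by
    rw [hK0]
    exact hle
  have hKF : KF F ≤ K 0 := by
    rw [hK0]
    exact hF
  have h01 : K 0 ≤ K 1 := hS.mono (by norm_num)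
  have h12 : K 1 ≤ K 2 := hS.mono (by norm_num)
  obtain ⟨s1, hs1G, hs1H⟩ := s0.up hKz
  rw [hs0G] at hs1G
  rw [hs0H] at hs1H
  have hxK : ∀ i, (x i : ℂ) ∈ KF F := by
    intro i
    refine ng_span ?_ (hxF i)
    rintro u (h | ⟨a, ha, rfl⟩)
    · rw [Set.mem_singleton_iff.1 h, ofReal_one]
      exact (KF F).one_mem
    · exact re_mem_KF ha
  have hyK : ∀ i, (y i : ℂ) ∈ KF F := by
    intro i
    refine ng_span ?_ (hyF i)
    rintro u ⟨a, ha, rfl⟩
    exact im_mem_KF ha
  have hsumK : ∀ {k : ℕ} (c : Fin k → ℚ) (x : Fin k → ℝ), (∀ i, (x i : ℂ) ∈ KF F) →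
      ((∑ i, c i • x i : ℝ) : ℂ) ∈ KF F := by
    intro k c x hxK
    rw [ofReal_sum]
    refine (KF F).sum_mem fun i _ => ?_
    rw [Rat.smul_def, ofReal_mul, ofReal_ratCast]
    exact (KF F).mul_mem ((KF F).algebraMap_mem _) (hxK i)
  -- the first step
  have hli1 : LinearIndependent ℚ (fun i => (s1.G.map (LinearMap.fst ℚ ℝ ℝ)).mkQ (x i)) := by
    refine ng_li fun c hc => ?_
    rw [hs1G] at hc
    have h1 : ((∑ i, c i • x i : ℝ) : ℂ) ∈ Kc z := by
      obtain ⟨a, ha, hae⟩ := hc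
      rw [← hs0G] at ha
      have := (s0.G_K a ha).1
      rw [← hae]
      exact this
    obtain ⟨q, hq⟩ := ng_rat D hc (Kc_inf_KF hz (hsumK c x hxK) h1)
    have h2 : ∑ o : Option (Fin r), (o.elim (-q) c : ℚ) • (o.elim 1 x : ℝ) = 0 := by
      rw [Fintype.sum_option]
      show (-q) • (1 : ℝ) + ∑ i, c i • x i = 0
      rw [hq, Rat.smul_def]
      push_cast
      ring
    intro i
    exact Fintype.linearIndependent_iff.1 hx (fun o : Option (Fin r) => o.elim (-q) c) h2
      (some i)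
  have hb1 : ∀ i : Fin r, ∃ q : ℚ, 0 < q ∧ |Real.log (q * t 0 ((i : ℕ) : ℝ)) - x i| < δ :=
    fun i => near_log (x i) δ _ hδ (hS.pos 0 _)
  choose q hq hql using hb1
  have hinj : ∀ k : ℕ, Function.Injective (fun i : Fin k => ((i : ℕ) : ℝ)) := by
    intro k i j h
    exact Fin.ext (Nat.cast_injective h)
  have hai1 : AlgebraicIndependent (K 0)
      (fun i : Fin r => ((q i * t 0 ((i : ℕ) : ℝ) : ℝ) : ℂ)) := by
    have h1 := scale_ai ((hS.ai 0).comp _ (hinj r)) (c := fun i => (q i : ℂ))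
      (fun i => (K 0).algebraMap_mem (q i)) (fun i => by exact_mod_cast (hq i).ne')
    have h2 : (fun i : Fin r => ((q i * t 0 ((i : ℕ) : ℝ) : ℝ) : ℂ)) = fun i =>
        (q i : ℂ) * ((fun r => (t 0 r : ℂ)) ∘ fun i : Fin r => ((i : ℕ) : ℝ)) i := by
      funext i
      rw [ofReal_mul, ofReal_ratCast]
      rfl
    rw [h2]
    exact h1
  have hm1 : ∀ i : Fin r, ((q i * t 0 ((i : ℕ) : ℝ) : ℝ) : ℂ) ∈ K 1 := by
    intro i
    rw [ofReal_mul, ofReal_ratCast]
    exact (K 1).mul_mem ((K 1).algebraMap_mem _) (hS.mem 0 _)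
  obtain ⟨s2, hs2G, hs2H, hst1, hs2x⟩ := add_G (hS.acl 0) (hS.acl 1) h01 s1 x
    (fun i : Fin r => q i * t 0 ((i : ℕ) : ℝ)) (fun i => hKF (hxK i)) hli1
    (fun i => mul_pos (by exact_mod_cast hq i) (hS.pos 0 _)) hai1 hm1
  -- the second step
  have hli2 : LinearIndependent ℚ (fun i => (s2.H.map (LinearMap.fst ℚ ℝ ℝ)).mkQ (y i)) := by
    refine ng_li fun c hc => ?_
    rw [hs2H, hs1H] at hc
    obtain ⟨a, ha, hae⟩ := hc
    obtain ⟨b, rfl⟩ := Submodule.mem_span_singleton.1 ha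
    have h1 : b • p = ∑ i, c i • y i := hae
    have h2 : ((b • p : ℝ) : ℂ) ∈ KF F := by
      rw [h1]
      exact hsumK c y hyK
    have h3 : ((b • p : ℝ) : ℂ) ∈ Kc z := by
      rw [Rat.smul_def, ofReal_mul, ofReal_ratCast]
      exact (Kc z).mul_mem ((Kc z).algebraMap_mem _) D.p_mem
    have h4 := Kc_inf_KF hz h2 h3
    have hb : b = 0 := by
      by_contra hb
      refine ng_p D ?_
      have h5 : (p : ℂ) = ((b⁻¹ : ℚ) : ℂ) * ((b • p : ℝ) : ℂ) := by
        rw [Rat.smul_def, ofReal_mul, ofReal_ratCast, ← mul_assoc, ← Rat.cast_mul,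
          inv_mul_cancel₀ hb, Rat.cast_one, one_mul]
      rw [h5]
      exact (isAlgebraic_algebraMap (b⁻¹ : ℚ)).mul h4
    rw [hb, zero_smul] at h1
    exact Fintype.linearIndependent_iff.1 hy c h1.symm
  have hb2 : ∀ i : Fin s, ∃ (q : ℚ) (θ : ℝ), q ≠ 0 ∧ |θ - y i| < δ ∧
      exp ((θ : ℂ) * I) = exp (ang (q * t 1 ((i : ℕ) : ℝ)) * I) :=
    fun i => near_ang (y i) δ _ hδ (hS.pos 1 _)
  choose q' θ hq' hθ hθe using hb2
  have hai2' : AlgebraicIndependent (K 1)
      (fun i : Fin s => ((q' i * t 1 ((i : ℕ) : ℝ) : ℝ) : ℂ)) := by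
    have h1 := scale_ai ((hS.ai 1).comp _ (hinj s)) (c := fun i => (q' i : ℂ))
      (fun i => (K 1).algebraMap_mem (q' i)) (fun i => by exact_mod_cast hq' i)
    have h2 : (fun i : Fin s => ((q' i * t 1 ((i : ℕ) : ℝ) : ℝ) : ℂ)) = fun i =>
        (q' i : ℂ) * ((fun r => (t 1 r : ℂ)) ∘ fun i : Fin s => ((i : ℕ) : ℝ)) i := by
      funext i
      rw [ofReal_mul, ofReal_ratCast]
      rfl
    rw [h2]
    exact h1
  have hai2 : AlgebraicIndependent (K 1) (fun i => exp ((θ i : ℂ) * I)) := by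
    refine ai_pointwise hai2' fun i => ?_
    exact alg_circle (ng_I (K 1)) (q' i * t 1 ((i : ℕ) : ℝ)) _
      ((hθe i).trans (exp_ang _))
  have hI2 : I ∈ K 2 := hS.acl 2 I (ng_I (K 2))
  have hm2 : ∀ i, exp ((θ i : ℂ) * I) ∈ K 2 := by
    intro i
    rw [hθe i, exp_ang]
    have h1 : ((q' i * t 1 ((i : ℕ) : ℝ) : ℝ) : ℂ) ∈ K 2 := by
      rw [ofReal_mul, ofReal_ratCast]
      exact (K 2).mul_mem ((K 2).algebraMap_mem _) (hS.mem 1 _)
    exact (K 2).div_mem ((K 2).add_mem (K 2).one_mem ((K 2).mul_mem h1 hI2))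
      ((K 2).sub_mem (K 2).one_mem ((K 2).mul_mem h1 hI2))
  obtain ⟨s3, hs3G, hs3H, hst2, hs3y⟩ := add_H (hS.acl 1) (hS.acl 2) h12 s2 y θ
    (fun i => h01 (hKF (hyK i))) hli2 hai2 hm2
  -- the generic extension
  have hS' : Supply (fun n => K (n + 2)) (fun n => t (n + 2)) :=
    { mono := fun a b hab => hS.mono (by omega)
      acl := fun n => hS.acl (n + 2)
      pos := fun n => hS.pos (n + 2)
      ai := fun n => hS.ai (n + 2)
      mem := fun n => hS.mem (n + 2)
      all := fun x => by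
        obtain ⟨n, hn⟩ := hS.all x
        exact ⟨n, hS.mono (by omega) hn⟩ }
  obtain ⟨f, g, hfG, hgH, hst3⟩ := gen hS' (K₀ := K 2) rfl s3
  have hstep : GoodStep (K 0) s1.cx (gr f g) :=
    GoodStep.trans h01 (stage_coords (hS.acl 1) s2) hst1
      (GoodStep.trans h12 (stage_coords (hS.acl 2) s3) hst2 hst3)
  have hcx : s1.cx = base e p v w X Y := by
    rw [Stage.cx, base, hs1G, hs1H]
  have hG : ∀ a ∈ baseG e v w X Y, f a.1 = a.2 := by
    intro a ha
    refine hfG a ?_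
    rw [hs3G]
    refine hs2G ?_
    rw [hs1G]
    exact ha
  refine ⟨f, g, hG, ?_, ?_, ?_⟩
  · intro a ha
    refine hgH a (hs3H ?_)
    rw [hs2H, hs1H]
    exact ha
  · rw [← hcx]
    exact good_down hKz hstep
  · refine hnear f g ?_ ?_ ?_
    · have h1 : f 1 = Real.log e := hG (1, Real.log e)
        (Submodule.subset_span (Or.inl (Or.inl rfl)))
      rw [h1]
      exact he
    · intro i
      have h1 : f (x i) = Real.log (q i * t 0 ((i : ℕ) : ℝ)) := hfG _ (by
        rw [hs3G]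
        exact hs2x i)
      rw [h1]
      exact hql i
    · intro i
      have h1 : g (y i) = θ i := hgH _ (hs3y i)
      rw [h1]
      exact hθ i

end Pool.Agent.Pat6
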