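import Pool.Agent.Pat6.Tower

/-!
# Pat6: the two kinds of good steps

PROOF. `coords_alg` is clear. `scale_ai`, `shift_ai`: `ai_pointwise` (`Pool/Agent/Pat5/AiAlg.lean`),
because `u k = (c k)⁻¹ * (c k * u k)` and `u k = (c k + u k) - c k` are in `K(c k * u k)`,
`K(c k + u k)`.

`step_exp`: let `X ≤ Γ'` be finite-dimensional and disjoint from `Γ`, `x k` (`k : Fin m`,
`m = finrank X`) a basis of `X` (`Module.finBasis`), and write
`x k = h k + ∑ i, c k i • γ i` with `h k ∈ Γ` and `c k : ι →₀ ℚ` (`Submodule.mem_sup`,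
`Finsupp.mem_span_range_iff_exists_finsupp`). The `c k` are linearly independent over `ℚ`: from
`∑ a k • c k = 0` follows `∑ a k • x k = ∑ a k • h k ∈ X ⊓ Γ = 0`. So the numbers
`exp (∑ i, c k i * (γ i).2)` are algebraically independent over `K` (`ai_monomials`), and
`exp (x k).2` is such a number times `exp (h k).2 ∈ K`, `≠ 0`. Take `u k = exp (x k).2`.
`step_arg`: the same with `ai_linear` and `(x k).1`.

`step_pair`: `ι = Unit`; a number which is not in `K` is transcendental over `K` by `Acl K`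
(`algebraicIndependent_unique_type_iff`).
-/

set_option autoImplicit false

namespace Pool.Agent.Pat6

open Complex Pool.Agent.Pat5

private theorem alg_mem {F : Type} [Field F] [Algebra F ℂ] {L : IntermediateField F ℂ} {x : ℂ}
    (hx : x ∈ L) : IsAlgebraic L x :=
  isAlgebraic_algebraMap (⟨x, hx⟩ : L)

private theorem mem_adj {K : IntermediateField ℚ ℂ} {a : ℂ} (ha : a ∈ K) (y : ℂ) :
    a ∈ IntermediateField.adjoin K {y} :=
  (IntermediateField.adjoin K {y}).algebraMap_mem ⟨a, ha⟩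

theorem scale_ai {K : IntermediateField ℚ ℂ} {κ : Type} {u c : κ → ℂ}
    (hu : AlgebraicIndependent K u) (hc : ∀ k, c k ∈ K) (h0 : ∀ k, c k ≠ 0) :
    AlgebraicIndependent K (fun k => c k * u k) := by
  refine ai_pointwise hu fun k => alg_mem ?_
  have h1 : u k = (c k)⁻¹ * (c k * u k) := by
    rw [inv_mul_cancel_left₀ (h0 k)]
  rw [h1]
  refine mul_mem (inv_mem (mem_adj (hc k) _)) ?_
  rw [inv_mul_cancel_left₀ (h0 k)]
  exact IntermediateField.mem_adjoin_simple_self K _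

theorem shift_ai {K : IntermediateField ℚ ℂ} {κ : Type} {u c : κ → ℂ}
    (hu : AlgebraicIndependent K u) (hc : ∀ k, c k ∈ K) :
    AlgebraicIndependent K (fun k => c k + u k) := by
  refine ai_pointwise hu fun k => alg_mem ?_
  have h1 : u k = (c k + u k) - c k := by ring
  have h2 := sub_mem (IntermediateField.mem_adjoin_simple_self K (c k + u k))
    (mem_adj (hc k) (c k + u k))
  rwa [← h1] at h2

/-- Coordinates for the subspaces which meet `Γ` only in `0`. -/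
private theorem exists_rep {Γ Γ' X : Submodule ℚ (ℂ × ℂ)} {ι : Type} (γ : ι → ℂ × ℂ)
    (hΓ : Γ' ≤ Γ ⊔ Submodule.span ℚ (Set.range γ)) (hX : X ≤ Γ') (hfin : FiniteDimensional ℚ X)
    (hd : Disjoint X Γ) :
    ∃ (x h : Fin (Module.finrank ℚ X) → ℂ × ℂ) (c : Fin (Module.finrank ℚ X) → ι →₀ ℚ),
      (∀ k, x k ∈ X) ∧ (∀ k, h k ∈ Γ) ∧
      (∀ k, x k = h k + (c k).sum fun i r => r • γ i) ∧ LinearIndependent ℚ c := by
  have b := Module.finBasis ℚ X
  have h1 : ∀ k, ∃ y ∈ Γ, ∃ c : ι →₀ ℚ, (b k : ℂ × ℂ) = y + c.sum fun i r => r • γ i := by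
    intro k
    obtain ⟨y, hy, z, hz, hyz⟩ := Submodule.mem_sup.1 (hΓ (hX (b k).2))
    obtain ⟨c, hc⟩ := Finsupp.mem_span_range_iff_exists_finsupp.1 hz
    exact ⟨y, hy, c, by rw [hc, hyz]⟩
  choose h hh c hc using h1
  refine ⟨fun k => b k, h, c, fun k => (b k).2, hh, hc, ?_⟩
  rw [Fintype.linearIndependent_iff]
  intro g hg
  have h2 : ∑ k, g k • (b k : ℂ × ℂ) = ∑ k, g k • h k := by
    have h3 : ∀ k, g k • (b k : ℂ × ℂ) =
        g k • h k + Finsupp.linearCombination ℚ γ (g k • c k) := by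
      intro k
      rw [map_smul, Finsupp.linearCombination_apply, ← smul_add, ← hc k]
    rw [Finset.sum_congr rfl fun k _ => h3 k, Finset.sum_add_distrib, ← map_sum, hg, map_zero,
      add_zero]
  have h3 : ∑ k, g k • (b k : ℂ × ℂ) = 0 := by
    refine Submodule.disjoint_def.1 hd _ (sum_mem fun k _ => X.smul_mem _ (b k).2) ?_
    rw [h2]
    exact sum_mem fun k _ => Γ.smul_mem _ (hh k)
  refine Fintype.linearIndependent_iff.1 b.linearIndependent g ?_
  apply Subtype.ext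
  rw [Submodule.coe_sum]
  exact h3

private theorem snd_sum_eq {ι : Type} (γ : ι → ℂ × ℂ) (c : ι →₀ ℚ) :
    (c.sum fun i r => r • γ i).2 = c.sum fun i r => (r : ℂ) * (γ i).2 := by
  rw [Finsupp.sum, Finsupp.sum, Prod.snd_sum]
  refine Finset.sum_congr rfl fun i _ => ?_
  rw [Prod.smul_snd, Rat.smul_def]

private theorem fst_sum_eq {ι : Type} (γ : ι → ℂ × ℂ) (c : ι →₀ ℚ) :
    (c.sum fun i r => r • γ i).1 = c.sum fun i r => (r : ℂ) * (γ i).1 := by
  rw [Finsupp.sum, Finsupp.sum, Prod.fst_sum]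
  refine Finset.sum_congr rfl fun i _ => ?_
  rw [Prod.smul_fst, Rat.smul_def]

theorem step_exp {K : IntermediateField ℚ ℂ} {Γ Γ' : Submodule ℚ (ℂ × ℂ)} (hc : coords Γ ⊆ K)
    {ι : Type} (γ : ι → ℂ × ℂ) (hγ : AlgebraicIndependent K (fun i => exp (γ i).2))
    (hΓ : Γ' ≤ Γ ⊔ Submodule.span ℚ (Set.range γ)) : GoodStep K Γ Γ' := by
  intro X hX hfin hd
  obtain ⟨x, h, c, hx, hh, hxc, hli⟩ := exists_rep γ hΓ hX hfin hd
  refine ⟨fun k => exp (x k).2, ?_, fun k => ⟨x k, hx k, Or.inr rfl⟩⟩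
  have h1 := scale_ai (ai_monomials (fun i => (γ i).2) hγ c hli)
    (c := fun k => exp (h k).2) (fun k => hc ⟨h k, hh k, Or.inr rfl⟩) fun k => exp_ne_zero _
  have h2 : (fun k => exp (x k).2) = fun k =>
      exp (h k).2 * exp ((c k).sum fun i r => (r : ℂ) * (γ i).2) := by
    funext k
    rw [← exp_add, ← snd_sum_eq, ← Prod.snd_add, ← hxc k]
  rw [h2]
  exact h1

theorem step_arg {K : IntermediateField ℚ ℂ} {Γ Γ' : Submodule ℚ (ℂ × ℂ)} (hc : coords Γ ⊆ K)
    {ι : Type} (γ : ι → ℂ × ℂ) (hγ : AlgebraicIndependent K (fun i => (γ i).1))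
    (hΓ : Γ' ≤ Γ ⊔ Submodule.span ℚ (Set.range γ)) : GoodStep K Γ Γ' := by
  intro X hX hfin hd
  obtain ⟨x, h, c, hx, hh, hxc, hli⟩ := exists_rep γ hΓ hX hfin hd
  refine ⟨fun k => (x k).1, ?_, fun k => ⟨x k, hx k, Or.inl rfl⟩⟩
  have h1 := shift_ai (ai_linear (fun i => (γ i).1) hγ c hli)
    (c := fun k => (h k).1) (fun k => hc ⟨h k, hh k, Or.inl rfl⟩)
  have h2 : (fun k => (x k).1) = fun k =>
      (h k).1 + (c k).sum fun i r => (r : ℂ) * (γ i).1 := by
    funext k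
    rw [← fst_sum_eq, ← Prod.fst_add, ← hxc k]
  rw [h2]
  exact h1

theorem step_pair {K : IntermediateField ℚ ℂ} (hK : Acl K) {Γ : Submodule ℚ (ℂ × ℂ)}
    (hc : coords Γ ⊆ K) (γ : ℂ × ℂ) (h : γ.1 ∉ K ∨ exp γ.2 ∉ K) :
    GoodStep K Γ (Γ ⊔ Submodule.span ℚ {γ}) := by
  have hr : Set.range (fun _ : Unit => γ) = {γ} := Set.range_const
  rcases h with h | h
  · refine step_arg hc (fun _ : Unit => γ) ?_ (by rw [hr])
    rw [algebraicIndependent_unique_type_iff]
    exact fun ha => h (hK _ ha)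
  · refine step_exp hc (fun _ : Unit => γ) ?_ (by rw [hr])
    rw [algebraicIndependent_unique_type_iff]
    exact fun ha => h (hK _ ha)

end Pool.Agent.Pat6
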