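import Pool.Agent.Pat6.StepL

/-!
# Pat6: extension of a stage on the real line

PROOF of `dom_G`. Let `D = s.G.map (LinearMap.fst ..)` be the domain, and let `b : κ → ℝ` be a basis
of a complement of `D` in the `ℚ`-space `A = {x | (x : ℂ) ∈ K}`: a family of elements of `A`,
linearly independent modulo `D`, with `A ≤ D ⊔ span (range b)` (e.g. a basis of a complement of
`D ⊓ A = D` in `A`, `Submodule.exists_isCompl` and `Module.Basis.ofVectorSpace`; `κ` can be a
subtype of `ℝ`). Put `G' = s.G ⊔ span (range fun k => (b k, log (t (b k))))` and `H' = s.H`.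
 * `G_K`: `(b k : ℂ) ∈ K ≤ K'` and `exp (log (t (b k))) = t (b k) ∈ K'`; sums and rational multiples
   (`Acl K'`; `alg_exp_rat` in `Pool/Agent/Pat5/Defs.lean`).
 * `G_inj`: let `a = a₀ + ∑ c k (b k, log t (b k))`, `a₀ ∈ s.G`. If `a.1 = 0` then `∑ c k * b k ∈ D`,
   so `c = 0`, `a = a₀`. If `a.2 = 0` then `exp (∑ c k * log t (b k)) = exp (- a₀.2) ∈ K`, so `c = 0`
   by `transcendental_monomial` (`Pool/Agent/Pat5/Mono.lean`), `a = a₀`.
 * the good step: `step_exp` for `γ k = ((b k : ℂ), (log (t (b k)) : ℂ))`; a pair of `cx G' H` is a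
   pair of `cx G H` plus a combination of the `γ k`.
The family `t (b k)` is algebraically independent over `K` by `AlgebraicIndependent.comp` (`b` is
injective).

PROOF of `ran_G`. The same with `b : κ → ℝ` a basis of `{u | exp u ∈ K}` modulo the range of
`s.G`, and the pairs `(t (b k), b k)`. `G_inj`: if `a.1 = 0` then `∑ c k * t (b k) = - a₀.1 ∈ K`, so
`c = 0` (`ai_linear` for one vector: a transcendental number is not in `K`); if `a.2 = 0` then
`∑ c k * b k` is in the range of `s.G`, so `c = 0`. The good step: `step_arg`.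
-/

set_option autoImplicit false

namespace Pool.Agent.Pat6

open Complex Pool.Agent.Pat5

/-- A basis of `A` modulo `D`. -/
private theorem basis_mod (D A : Submodule ℚ ℝ) :
    ∃ (κ : Type) (b : κ → ℝ), (∀ k, b k ∈ A) ∧ Function.Injective b ∧
      (∀ c : κ →₀ ℚ, (c.sum fun k r => (r : ℝ) * b k) ∈ D → c = 0) ∧
      ∀ x ∈ A, ∃ d ∈ D, ∃ c : κ →₀ ℚ, x = d + c.sum fun k r => (r : ℝ) * b k := by
  obtain ⟨C, hC⟩ := Submodule.exists_isCompl (D.comap A.subtype)
  have β := Module.Basis.ofVectorSpace ℚ C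
  have hsum : ∀ c : Module.Basis.ofVectorSpaceIndex ℚ C →₀ ℚ,
      (c.sum fun k r => (r : ℝ) * (((β k : C) : A) : ℝ)) =
        (((Finsupp.linearCombination ℚ β c : C) : A) : ℝ) := by
    intro c
    rw [Finsupp.linearCombination_apply, Finsupp.sum, Finsupp.sum]
    simp only [Submodule.coe_sum, Submodule.coe_smul, Rat.smul_def]
  refine ⟨Module.Basis.ofVectorSpaceIndex ℚ C, fun k => (((β k : C) : A) : ℝ),
    fun k => ((β k : C) : A).2, fun k k' h => β.injective (Subtype.ext (Subtype.ext h)),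
    fun c hc => ?_, fun x hx => ?_⟩
  · rw [hsum] at hc
    have h1 : ((Finsupp.linearCombination ℚ β c : C) : A) ∈ D.comap A.subtype := hc
    have h2 := Submodule.disjoint_def.1 hC.disjoint _ h1 (Finsupp.linearCombination ℚ β c).2
    have h3 : Finsupp.linearCombination ℚ β c = 0 := Subtype.ext h2
    exact linearIndependent_iff.1 β.linearIndependent c h3
  · have h1 : (⟨x, hx⟩ : A) ∈ D.comap A.subtype ⊔ C := by
      rw [hC.sup_eq_top]
      exact Submodule.mem_top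
    obtain ⟨d, hd, y, hy, hdy⟩ := Submodule.mem_sup.1 h1
    refine ⟨d, hd, β.repr ⟨y, hy⟩, ?_⟩
    rw [hsum, β.linearCombination_repr]
    have h2 := congrArg (Subtype.val) hdy
    exact h2.symm

/-- The elements of the extended graph. -/
private theorem mem_ext {G : Submodule ℚ (ℝ × ℝ)} {κ : Type} (p q : κ → ℝ) {a : ℝ × ℝ}
    (ha : a ∈ G ⊔ Submodule.span ℚ (Set.range fun k => (p k, q k))) :
    ∃ a₀ ∈ G, ∃ c : κ →₀ ℚ, a.1 = a₀.1 + (c.sum fun k r => (r : ℝ) * p k) ∧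
      a.2 = a₀.2 + c.sum fun k r => (r : ℝ) * q k := by
  obtain ⟨a₀, h0, y, hy, rfl⟩ := Submodule.mem_sup.1 ha
  obtain ⟨c, rfl⟩ := Finsupp.mem_span_range_iff_exists_finsupp.1 hy
  refine ⟨a₀, h0, c, ?_, ?_⟩
  · rw [Prod.fst_add, Finsupp.sum, Finsupp.sum, Prod.fst_sum]
    simp only [Prod.smul_fst, Rat.smul_def]
  · rw [Prod.snd_add, Finsupp.sum, Finsupp.sum, Prod.snd_sum]
    simp only [Prod.smul_snd, Rat.smul_def]

private theorem ext_mem {G : Submodule ℚ (ℝ × ℝ)} {κ : Type} (p q : κ → ℝ) {a₀ : ℝ × ℝ}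
    (h0 : a₀ ∈ G) (c : κ →₀ ℚ) :
    ((a₀.1 + (c.sum fun k r => (r : ℝ) * p k), a₀.2 + c.sum fun k r => (r : ℝ) * q k) : ℝ × ℝ) ∈
      G ⊔ Submodule.span ℚ (Set.range fun k => (p k, q k)) := by
  refine Submodule.mem_sup.2 ⟨a₀, h0, c.sum fun k r => r • (p k, q k),
    Finsupp.mem_span_range_iff_exists_finsupp.2 ⟨c, rfl⟩, ?_⟩
  refine Prod.ext ?_ ?_
  · rw [Prod.fst_add, Finsupp.sum, Finsupp.sum, Prod.fst_sum]
    simp only [Prod.smul_fst, Rat.smul_def]
  · rw [Prod.snd_add, Finsupp.sum, Prod.snd_sum]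
    simp only [Prod.smul_snd, Rat.smul_def]
    rfl

private theorem cast_sum {κ : Type} (p : κ → ℝ) (c : κ →₀ ℚ) :
    ((c.sum fun k r => (r : ℝ) * p k : ℝ) : ℂ) = c.sum fun k r => (r : ℂ) * (p k : ℂ) := by
  rw [Finsupp.sum, Finsupp.sum]
  push_cast
  rfl

private theorem comb_mem {K : IntermediateField ℚ ℂ} {κ : Type} {p : κ → ℂ} (hp : ∀ k, p k ∈ K)
    (c : κ →₀ ℚ) : (c.sum fun k r => (r : ℂ) * p k) ∈ K :=
  sum_mem fun k _ => mul_mem (SubfieldClass.ratCast_mem K _) (hp k)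

private theorem exp_comb_mem {K : IntermediateField ℚ ℂ} (hK : Acl K) {κ : Type} {p : κ → ℂ}
    (hp : ∀ k, exp (p k) ∈ K) (c : κ →₀ ℚ) : exp (c.sum fun k r => (r : ℂ) * p k) ∈ K := by
  rw [Finsupp.sum, Complex.exp_sum]
  refine prod_mem fun k _ => hK _ ?_
  exact alg_exp_rat (isAlgebraic_algebraMap (⟨exp (p k), hp k⟩ : K)) _

private theorem coords_le {K : IntermediateField ℚ ℂ} (hK : Acl K) (s : Stage K) :
    coords s.cx ⊆ K := by
  have hI : I ∈ K := by
    refine hK I (IsAlgebraic.of_pow (n := 2) two_pos ?_)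
    rw [I_sq]
    exact isAlgebraic_one.neg
  rintro u ⟨a, ha, h⟩
  have h1 := s.G_K _ ha.1
  have h2 := s.H_K _ ha.2
  rcases h with h | h
  · have h3 : u = (a.1.re : ℂ) + (a.1.im : ℂ) * I := by rw [h, re_add_im]
    change u ∈ K
    rw [h3]
    exact K.add_mem h1.1 (K.mul_mem h2.1 hI)
  · have h3 : u = exp (a.2.re : ℂ) * exp ((a.2.im : ℂ) * I) := by
      rw [h, ← Complex.exp_add, re_add_im]
    change u ∈ K
    rw [h3]
    exact K.mul_mem h1.2 h2.2

/-- The pairs of the extended stage. -/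
private theorem cx_le {G H : Submodule ℚ (ℝ × ℝ)} {κ : Type} (p q : κ → ℝ) :
    cx (G ⊔ Submodule.span ℚ (Set.range fun k => (p k, q k))) H ≤
      cx G H ⊔ Submodule.span ℚ (Set.range fun k => ((p k : ℂ), (q k : ℂ))) := by
  intro a ha
  obtain ⟨a₀, h0, c, h1, h2⟩ := mem_ext p q ha.1
  refine Submodule.mem_sup.2 ⟨((a₀.1 : ℂ) + (a.1.im : ℂ) * I, (a₀.2 : ℂ) + (a.2.im : ℂ) * I),
    ⟨?_, ?_⟩, c.sum fun k r => r • ((p k : ℂ), (q k : ℂ)),
    Finsupp.mem_span_range_iff_exists_finsupp.2 ⟨c, rfl⟩, ?_⟩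
  · simpa using h0
  · simpa using ha.2
  · have h1' : (a.1.re : ℂ) = a₀.1 + c.sum fun k r => (r : ℂ) * (p k : ℂ) := by
      rw [← cast_sum, ← ofReal_add, ← h1]
    have h2' : (a.2.re : ℂ) = a₀.2 + c.sum fun k r => (r : ℂ) * (q k : ℂ) := by
      rw [← cast_sum, ← ofReal_add, ← h2]
    refine Prod.ext ?_ ?_
    · rw [Prod.fst_add, Finsupp.sum, Prod.fst_sum]
      simp only [Prod.smul_fst, Rat.smul_def]
      have h3 := re_add_im a.1
      rw [Finsupp.sum] at h1'
      linear_combination h3 - h1'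
    · rw [Prod.snd_add, Finsupp.sum, Prod.snd_sum]
      simp only [Prod.smul_snd, Rat.smul_def]
      have h3 := re_add_im a.2
      rw [Finsupp.sum] at h2'
      linear_combination h3 - h2'

theorem dom_G {K K' : IntermediateField ℚ ℂ} (hK : Acl K) (hK' : Acl K') (hKK' : K ≤ K')
    (t : ℝ → ℝ) (hpos : ∀ r, 0 < t r) (hai : AlgebraicIndependent K (fun r => (t r : ℂ)))
    (hmem : ∀ r, (t r : ℂ) ∈ K') (s : Stage K) :
    ∃ s' : Stage K', s.G ≤ s'.G ∧ s.H ≤ s'.H ∧ GoodStep K s.cx s'.cx ∧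
      ∀ x : ℝ, (x : ℂ) ∈ K → ∃ u, (x, u) ∈ s'.G := by
  let A : Submodule ℚ ℝ :=
    { carrier := {x | (x : ℂ) ∈ K}
      add_mem' := fun {x y} hx hy => by
        change ((x + y : ℝ) : ℂ) ∈ K
        rw [ofReal_add]
        exact add_mem hx hy
      zero_mem' := by
        change ((0 : ℝ) : ℂ) ∈ K
        rw [ofReal_zero]
        exact zero_mem _
      smul_mem' := fun c x hx => by
        change ((c • x : ℝ) : ℂ) ∈ K
        rw [Rat.smul_def, ofReal_mul, ofReal_ratCast]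
        exact mul_mem (SubfieldClass.ratCast_mem K c) hx }
  obtain ⟨κ, b, hbA, hbi, hind, hspan⟩ := basis_mod (s.G.map (LinearMap.fst ℚ ℝ ℝ)) A
  have hexp : ∀ k, exp ((Real.log (t (b k)) : ℝ) : ℂ) = (t (b k) : ℂ) := by
    intro k
    rw [← ofReal_exp, Real.exp_log (hpos _)]
  have hai' : AlgebraicIndependent K fun k => exp ((Real.log (t (b k)) : ℝ) : ℂ) := by
    have h1 : (fun k => exp ((Real.log (t (b k)) : ℝ) : ℂ)) = (fun r => (t r : ℂ)) ∘ b :=
      funext hexp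
    rw [h1]
    exact hai.comp b hbi
  have htr : ∀ c : κ →₀ ℚ,
      exp (c.sum fun k r => (r : ℂ) * ((Real.log (t (b k)) : ℝ) : ℂ)) ∈ K → c = 0 := by
    intro c hc
    by_contra h
    exact transcendental_monomial _ hai' c h (isAlgebraic_algebraMap (⟨_, hc⟩ : K))
  refine ⟨⟨s.G ⊔ Submodule.span ℚ (Set.range fun k => (b k, Real.log (t (b k)))), s.H, ?_,
    fun a ha => ⟨hKK' (s.H_K a ha).1, hKK' (s.H_K a ha).2⟩, ?_, s.H_inj⟩, le_sup_left, le_rfl,
    step_exp (coords_le hK s) (fun k => ((b k : ℂ), ((Real.log (t (b k)) : ℝ) : ℂ))) hai'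
      (cx_le _ _), ?_⟩
  · intro a ha
    obtain ⟨a₀, h0, c, h1, h2⟩ := mem_ext _ _ ha
    constructor
    · rw [h1, ofReal_add, cast_sum]
      exact add_mem (hKK' (s.G_K a₀ h0).1) (comb_mem (fun k => hKK' (hbA k)) c)
    · rw [h2, ofReal_add, cast_sum, Complex.exp_add]
      refine mul_mem (hKK' (s.G_K a₀ h0).2) (exp_comb_mem hK' (fun k => ?_) c)
      rw [hexp]
      exact hmem _
  · intro a ha
    obtain ⟨a₀, h0, c, h1, h2⟩ := mem_ext _ _ ha
    have key : c = 0 → (a.1 = 0 ↔ a.2 = 0) := by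
      rintro rfl
      rw [Finsupp.sum_zero_index, add_zero] at h1 h2
      rw [h1, h2]
      exact s.G_inj a₀ h0
    constructor
    · intro h
      refine (key (hind c ?_)).1 h
      rw [h] at h1
      have h3 : (c.sum fun k r => (r : ℝ) * b k) = (-a₀).1 := by
        rw [Prod.fst_neg]
        linarith
      rw [h3]
      exact ⟨-a₀, s.G.neg_mem h0, rfl⟩
    · intro h
      refine (key (htr c ?_)).2 h
      rw [h] at h2
      rw [← cast_sum]
      have h3 : (c.sum fun k r => (r : ℝ) * Real.log (t (b k))) = -a₀.2 := by linarith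
      rw [h3, ofReal_neg, Complex.exp_neg]
      exact inv_mem (s.G_K a₀ h0).2
  · intro x hx
    obtain ⟨d, ⟨a₀, h0, rfl⟩, c, hc⟩ := hspan x hx
    refine ⟨a₀.2 + c.sum fun k r => (r : ℝ) * Real.log (t (b k)), ?_⟩
    have h1 := ext_mem b (fun k => Real.log (t (b k))) h0 c
    rw [hc]
    exact h1

theorem ran_G {K K' : IntermediateField ℚ ℂ} (hK : Acl K) (hK' : Acl K') (hKK' : K ≤ K')
    (t : ℝ → ℝ) (hpos : ∀ r, 0 < t r) (hai : AlgebraicIndependent K (fun r => (t r : ℂ)))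
    (hmem : ∀ r, (t r : ℂ) ∈ K') (s : Stage K) :
    ∃ s' : Stage K', s.G ≤ s'.G ∧ s.H ≤ s'.H ∧ GoodStep K s.cx s'.cx ∧
      ∀ u : ℝ, exp (u : ℂ) ∈ K → ∃ x, (x, u) ∈ s'.G := by
  let A : Submodule ℚ ℝ :=
    { carrier := {u | exp (u : ℂ) ∈ K}
      add_mem' := fun {x y} hx hy => by
        change exp ((x + y : ℝ) : ℂ) ∈ K
        rw [ofReal_add, Complex.exp_add]
        exact mul_mem hx hy
      zero_mem' := by
        change exp ((0 : ℝ) : ℂ) ∈ K
        rw [ofReal_zero, Complex.exp_zero]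
        exact one_mem _
      smul_mem' := fun c x hx => by
        change exp ((c • x : ℝ) : ℂ) ∈ K
        rw [Rat.smul_def, ofReal_mul, ofReal_ratCast]
        exact hK _ (alg_exp_rat (isAlgebraic_algebraMap (⟨exp (x : ℂ), hx⟩ : K)) c) }
  obtain ⟨κ, b, hbA, hbi, hind, hspan⟩ := basis_mod (s.G.map (LinearMap.snd ℚ ℝ ℝ)) A
  have hai' : AlgebraicIndependent K fun k => (t (b k) : ℂ) := hai.comp b hbi
  have htr : ∀ c : κ →₀ ℚ, (c.sum fun k r => (r : ℂ) * (t (b k) : ℂ)) ∈ K → c = 0 := by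
    intro c hc
    by_contra h
    have h1 : LinearIndependent ℚ (fun _ : Fin 1 => c) :=
      LinearIndependent.of_subsingleton (0 : Fin 1) h
    exact (ai_linear _ hai' (fun _ : Fin 1 => c) h1).transcendental 0
      (isAlgebraic_algebraMap (⟨_, hc⟩ : K))
  refine ⟨⟨s.G ⊔ Submodule.span ℚ (Set.range fun k => (t (b k), b k)), s.H, ?_,
    fun a ha => ⟨hKK' (s.H_K a ha).1, hKK' (s.H_K a ha).2⟩, ?_, s.H_inj⟩, le_sup_left, le_rfl,
    step_arg (coords_le hK s) (fun k => ((t (b k) : ℂ), (b k : ℂ))) hai' (cx_le _ _), ?_⟩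
  · intro a ha
    obtain ⟨a₀, h0, c, h1, h2⟩ := mem_ext _ _ ha
    constructor
    · rw [h1, ofReal_add, cast_sum]
      exact add_mem (hKK' (s.G_K a₀ h0).1) (comb_mem (fun k => hmem _) c)
    · rw [h2, ofReal_add, cast_sum, Complex.exp_add]
      exact mul_mem (hKK' (s.G_K a₀ h0).2) (exp_comb_mem hK' (fun k => hKK' (hbA k)) c)
  · intro a ha
    obtain ⟨a₀, h0, c, h1, h2⟩ := mem_ext _ _ ha
    have key : c = 0 → (a.1 = 0 ↔ a.2 = 0) := by
      rintro rfl
      rw [Finsupp.sum_zero_index, add_zero] at h1 h2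
      rw [h1, h2]
      exact s.G_inj a₀ h0
    constructor
    · intro h
      refine (key (htr c ?_)).1 h
      rw [h] at h1
      rw [← cast_sum]
      have h3 : (c.sum fun k r => (r : ℝ) * t (b k)) = -a₀.1 := by linarith
      rw [h3, ofReal_neg]
      exact neg_mem (s.G_K a₀ h0).1
    · intro h
      refine (key (hind c ?_)).2 h
      rw [h] at h2
      have h3 : (c.sum fun k r => (r : ℝ) * b k) = (-a₀).2 := by
        rw [Prod.snd_neg]
        linarith
      rw [h3]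
      exact ⟨-a₀, s.G.neg_mem h0, rfl⟩
  · intro x hx
    obtain ⟨d, ⟨a₀, h0, rfl⟩, c, hc⟩ := hspan x hx
    refine ⟨a₀.1 + c.sum fun k r => (r : ℝ) * t (b k), ?_⟩
    have h1 := ext_mem (fun k => t (b k)) b h0 c
    rw [hc]
    exact h1

end Pool.Agent.Pat6
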