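import Pool.Agent.Pat6.Defs

/-!
# Pat6: towers of good steps

PROOF. `TD.sum`: take the two families `u`, `u'`; the values of `u` are in `K'`, and `u'` is
algebraically independent over `K'`, so the joint family `Sum.elim u u'` is algebraically
independent over `K`: `AlgebraicIndependent.sumElim_of_tower` for the tower `K`, `K'`, `ℂ` (give
`K'` the algebra structure `(IntermediateField.inclusion hK).toRingHom.toAlgebra` over `K`, then
`IsScalarTower K K' ℂ` by `IsScalarTower.of_algebraMap_eq fun _ => rfl`; see `ai_sum` in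
`Pool/Agent/Pat5/Kc.lean` for the case of `ℚ`); reindex by `finSumFinEquiv`.

`exists_split`: `X₀ = X ⊓ Γ`; take a complement `C` of `X₀.comap X.subtype` in the lattice of
submodules of `X` (`Submodule.exists_isCompl`) and `X₁ = C.map X.subtype`.

`GoodStep.trans`: for `X ≤ Γ''` with `Disjoint X Γ` split `X` by `Γ'`: `X ⊓ Γ' ≤ Γ'` is disjoint
from `Γ`, so `TD K (X ⊓ Γ') (finrank (X ⊓ Γ'))`; `X₁` is disjoint from `Γ'`, so `TD K' X₁ (finrank
X₁)`; the coordinates of `X ⊓ Γ'` are in `K'`; use `TD.sum`. `Dfc.step`: the same with the defect.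
`Dfc.bad`: `finrank X ≤ finrank (X ⊓ Γ) + 1` because `X / (X ⊓ Γ)` embeds into `(Γ ⊔ span {γ}) / Γ`,
which is spanned by one element (or: `X₁` is disjoint from `Γ` and contained in `Γ ⊔ span {γ}`; for
two elements `x, y` of `X₁` a linear combination is in `Γ`, so `finrank X₁ ≤ 1`, `finrank_le_one`).
-/

set_option autoImplicit false

namespace Pool.Agent.Pat6

open Complex Pool.Agent.Pat5

theorem coords_mono {X Y : Submodule ℚ (ℂ × ℂ)} (h : X ≤ Y) : coords X ⊆ coords Y := by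
  rintro u ⟨a, ha, hu⟩
  exact ⟨a, h ha, hu⟩

theorem TD.mono {K : IntermediateField ℚ ℂ} {X Y : Submodule ℚ (ℂ × ℂ)} (h : X ≤ Y) {m : ℕ}
    (hX : TD K X m) : TD K Y m := by
  obtain ⟨u, hu, hm⟩ := hX
  exact ⟨u, hu, fun j => coords_mono h (hm j)⟩

theorem TD.zero (K : IntermediateField ℚ ℂ) (X : Submodule ℚ (ℂ × ℂ)) : TD K X 0 := by
  refine ⟨Fin.elim0, ?_, fun j => j.elim0⟩
  rw [algebraicIndependent_empty_type_iff]
  exact (algebraMap K ℂ).injective

theorem TD.sum {K K' : IntermediateField ℚ ℂ} (hK : K ≤ K') {X X' : Submodule ℚ (ℂ × ℂ)}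
    {m m' : ℕ} (hX : TD K X m) (hc : coords X ⊆ K') (hX' : TD K' X' m') :
    TD K (X ⊔ X') (m + m') := by
  obtain ⟨u, hu, hum⟩ := hX
  obtain ⟨u', hu', hum'⟩ := hX'
  let _ : Algebra K K' := (IntermediateField.inclusion hK).toRingHom.toAlgebra
  have : IsScalarTower K K' ℂ := IsScalarTower.of_algebraMap_eq fun _ => rfl
  have h1 : AlgebraicIndependent K (Sum.elim u' u) := by
    refine hu.sumElim_of_tower (S := K') ?_ hu'
    rintro _ ⟨i, rfl⟩
    exact ⟨⟨u i, hc (hum i)⟩, rfl⟩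
  have h2 : AlgebraicIndependent K (Sum.elim u u') := by
    refine (algebraicIndependent_equiv' (Equiv.sumComm (Fin m) (Fin m')) ?_).2 h1
    ext (_ | _) <;> rfl
  refine ⟨Sum.elim u u' ∘ finSumFinEquiv.symm, (algebraicIndependent_equiv _).2 h2,
    fun j => ?_⟩
  rw [Function.comp_apply]
  rcases finSumFinEquiv.symm j with i | i
  · exact coords_mono le_sup_left (hum i)
  · exact coords_mono le_sup_right (hum' i)

/-- Splitting a finite-dimensional space along `Γ`. -/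
theorem exists_split (X Γ : Submodule ℚ (ℂ × ℂ)) (hX : FiniteDimensional ℚ X) :
    ∃ X₁ : Submodule ℚ (ℂ × ℂ), X₁ ≤ X ∧ Disjoint X₁ Γ ∧ (X ⊓ Γ) ⊔ X₁ = X ∧
      FiniteDimensional ℚ X₁ ∧ FiniteDimensional ℚ (X ⊓ Γ : Submodule ℚ (ℂ × ℂ)) ∧
      Module.finrank ℚ X =
        Module.finrank ℚ (X ⊓ Γ : Submodule ℚ (ℂ × ℂ)) + Module.finrank ℚ X₁ := by
  obtain ⟨C, hC⟩ := Submodule.exists_isCompl ((X ⊓ Γ).comap X.subtype)
  have e1 : C.map X.subtype ≤ X := Submodule.map_subtype_le X C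
  have e2 : Disjoint (C.map X.subtype) Γ := by
    rw [Submodule.disjoint_def]
    rintro _ ⟨c, hc, rfl⟩ hΓ
    have h1 : c ∈ (X ⊓ Γ).comap X.subtype := ⟨c.2, hΓ⟩
    have h2 : c = 0 := (Submodule.disjoint_def.1 hC.disjoint) c h1 hc
    rw [h2, map_zero]
  have e3 : (X ⊓ Γ) ⊔ C.map X.subtype = X := by
    have h1 : ((X ⊓ Γ).comap X.subtype ⊔ C).map X.subtype = X := by
      rw [hC.sup_eq_top, Submodule.map_top, Submodule.range_subtype]
    rw [Submodule.map_sup, Submodule.map_comap_subtype, ← inf_assoc, inf_idem] at h1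
    exact h1
  have f1 : FiniteDimensional ℚ (C.map X.subtype) := Submodule.finiteDimensional_of_le e1
  have f2 : FiniteDimensional ℚ (X ⊓ Γ : Submodule ℚ (ℂ × ℂ)) :=
    Submodule.finiteDimensional_of_le inf_le_left
  refine ⟨C.map X.subtype, e1, e2, e3, f1, f2, ?_⟩
  have h1 := Submodule.finrank_sup_add_finrank_inf_eq (X ⊓ Γ) (C.map X.subtype)
  have h2 : (X ⊓ Γ) ⊓ C.map X.subtype = ⊥ := (e2.symm.mono_left inf_le_right).eq_bot
  rw [e3, h2, finrank_bot, add_zero] at h1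
  exact h1

theorem GoodStep.refl (K : IntermediateField ℚ ℂ) (Γ : Submodule ℚ (ℂ × ℂ)) :
    GoodStep K Γ Γ := by
  intro X hX _ hd
  have h1 : X = ⊥ := by
    have := hd.mono_right hX
    rwa [disjoint_self] at this
  rw [h1, finrank_bot]
  exact TD.zero K ⊥

theorem GoodStep.trans {K K' : IntermediateField ℚ ℂ} (hK : K ≤ K')
    {Γ Γ' Γ'' : Submodule ℚ (ℂ × ℂ)} (hc : coords Γ' ⊆ K') (h : GoodStep K Γ Γ')
    (h' : GoodStep K' Γ' Γ'') : GoodStep K Γ Γ'' := by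
  intro X hX hf hd
  obtain ⟨X₁, e1, e2, e3, f1, f2, e4⟩ := exists_split X Γ' hf
  have h1 := h (X ⊓ Γ') inf_le_right f2 (hd.mono_left inf_le_left)
  have h2 := h' X₁ (e1.trans hX) f1 e2
  have h3 := TD.sum hK h1 ((coords_mono inf_le_right).trans hc) h2
  rw [e3, ← e4] at h3
  exact h3

theorem Dfc.bot (K : IntermediateField ℚ ℂ) : Dfc K ⊥ 0 := by
  intro X hX _
  have h1 : X = ⊥ := le_bot_iff.1 hX
  refine ⟨0, ?_, TD.zero K X⟩
  rw [h1, finrank_bot]

theorem Dfc.step {K K' : IntermediateField ℚ ℂ} (hK : K ≤ K') {Γ Γ' : Submodule ℚ (ℂ × ℂ)}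
    {s : ℕ} (h : Dfc K Γ s) (hc : coords Γ ⊆ K') (h' : GoodStep K' Γ Γ') : Dfc K Γ' s := by
  intro X hX hf
  obtain ⟨X₁, e1, e2, e3, f1, f2, e4⟩ := exists_split X Γ hf
  obtain ⟨m, hm, h1⟩ := h (X ⊓ Γ) inf_le_right f2
  have h2 := h' X₁ (e1.trans hX) f1 e2
  have h3 := TD.sum hK h1 ((coords_mono inf_le_right).trans hc) h2
  rw [e3] at h3
  exact ⟨_, by omega, h3⟩

theorem Dfc.bad {K : IntermediateField ℚ ℂ} {Γ : Submodule ℚ (ℂ × ℂ)} {s : ℕ} (h : Dfc K Γ s)
    (γ : ℂ × ℂ) : Dfc K (Γ ⊔ Submodule.span ℚ {γ}) (s + 1) := by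
  intro X hX hf
  obtain ⟨X₁, e1, e2, e3, f1, f2, e4⟩ := exists_split X Γ hf
  obtain ⟨m, hm, h1⟩ := h (X ⊓ Γ) inf_le_right f2
  have h5 : Module.finrank ℚ X₁ ≤ 1 := by
    set F : X₁ →ₗ[ℚ] (ℂ × ℂ) ⧸ Γ := Γ.mkQ.comp X₁.subtype with hF
    have hinj : Function.Injective F := by
      rw [← LinearMap.ker_eq_bot, LinearMap.ker_eq_bot']
      intro x hx
      have h6 : (x : ℂ × ℂ) ∈ Γ := by
        rw [hF] at hx
        exact (Submodule.Quotient.mk_eq_zero Γ).1 hx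
      exact Subtype.ext ((Submodule.disjoint_def.1 e2) x x.2 h6)
    have hr : LinearMap.range F ≤ Submodule.span ℚ {Γ.mkQ γ} := by
      rintro _ ⟨x, rfl⟩
      obtain ⟨g, hg, w, hw, hgw⟩ := Submodule.mem_sup.1 (hX (e1 x.2))
      obtain ⟨c, rfl⟩ := Submodule.mem_span_singleton.1 hw
      rw [Submodule.mem_span_singleton]
      refine ⟨c, ?_⟩
      have h7 : F x = Γ.mkQ (g + c • γ) := by
        rw [hgw]
        rfl
      have h8 : Γ.mkQ g = 0 := (Submodule.Quotient.mk_eq_zero Γ).2 hg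
      rw [h7, map_add, h8, zero_add, map_smul]
    rw [← LinearMap.finrank_range_of_inj hinj]
    refine (Submodule.finrank_mono hr).trans ((finrank_span_le_card _).trans ?_)
    simp
  refine ⟨m, by omega, TD.mono inf_le_left h1⟩

end Pool.Agent.Pat6
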