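import Pool.Agent.Pat6.StepL
import Pool.Agent.Pat5.Dat

/-!
# Pat6: towers of pairs over fields generated by some of the numbers `z i`

`Tow z A Γ s`: the space `Γ` has the defect `s`, and its coordinates are algebraic over the field
generated by the `z i` with `i ∈ A`.
-/

set_option autoImplicit false

namespace Pool.Agent.Pat6

open Complex Pool.Agent.Pat5

/-- The algebraic closure in the complex numbers of the field generated by the `z i`, `i ∈ A`. -/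
noncomputable def KS {n : ℕ} (z : Fin n → ℝ) (A : Set (Fin n)) : IntermediateField ℚ ℂ :=
  (algebraicClosure (IntermediateField.adjoin ℚ ((fun i => (z i : ℂ)) '' A)) ℂ).restrictScalars ℚ

variable {n : ℕ} {z : Fin n → ℝ} {A : Set (Fin n)}

theorem mem_KS {x : ℂ} : x ∈ KS z A ↔
    IsAlgebraic (IntermediateField.adjoin ℚ ((fun i => (z i : ℂ)) '' A)) x := by
  rw [KS, IntermediateField.mem_restrictScalars, mem_algebraicClosure_iff]

theorem acl_KS (z : Fin n → ℝ) (A : Set (Fin n)) : Acl (KS z A) := by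
  intro x h
  rw [mem_KS]
  have h' : IsAlgebraic (algebraicClosure
      (IntermediateField.adjoin ℚ ((fun i => (z i : ℂ)) '' A)) ℂ) x := h
  exact h'.restrictScalars _

theorem coe_mem_KS (z : Fin n → ℝ) {i : Fin n} (hi : i ∈ A) : (z i : ℂ) ∈ KS z A := by
  rw [mem_KS]
  exact isAlgebraic_algebraMap (⟨(z i : ℂ), IntermediateField.subset_adjoin _ _ ⟨i, hi, rfl⟩⟩ :
    IntermediateField.adjoin ℚ ((fun i => (z i : ℂ)) '' A))

theorem alg_mem_KS {x : ℂ} (h : IsAlgebraic ℚ x) : x ∈ KS z A := by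
  rw [mem_KS]
  exact h.tower_top _

theorem rat_mem_KS (z : Fin n → ℝ) (A : Set (Fin n)) (q : ℚ) : (q : ℂ) ∈ KS z A := by
  have h := (KS z A).algebraMap_mem q
  rwa [eq_ratCast] at h

theorem KS_mono {A' : Set (Fin n)} (h : A ⊆ A') : KS z A ≤ KS z A' := by
  intro x hx
  rw [mem_KS] at hx
  have h1 : IntermediateField.adjoin ℚ ((fun i => (z i : ℂ)) '' A) ≤ KS z A' := by
    rw [IntermediateField.adjoin_le_iff]
    rintro _ ⟨i, hi, rfl⟩
    exact coe_mem_KS z (h hi)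
  refine acl_KS z A' x ?_
  obtain ⟨P, hP0, hP⟩ := hx
  refine ⟨P.map (IntermediateField.inclusion h1).toRingHom, ?_, ?_⟩
  · rw [Ne, Polynomial.map_eq_zero_iff]
    · exact hP0
    · exact (IntermediateField.inclusion h1).injective
  · rw [Polynomial.aeval_def, Polynomial.eval₂_map, ← hP, Polynomial.aeval_def]
    rfl

open scoped IntermediateField.algebraAdjoinAdjoin in
theorem not_mem_KS (hz : AlgebraicIndependent ℚ (fun i => (z i : ℂ))) {i : Fin n}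
    (hi : i ∉ A) : (z i : ℂ) ∉ KS z A := by
  have h2 := hz.transcendental_adjoin hi
  have halg : Algebra.IsAlgebraic (Algebra.adjoin ℚ ((fun i => (z i : ℂ)) '' A))
      (IntermediateField.adjoin ℚ ((fun i => (z i : ℂ)) '' A)) :=
    IsLocalization.isAlgebraic _
      (nonZeroDivisors (Algebra.adjoin ℚ ((fun i => (z i : ℂ)) '' A)))
  have h3 : Transcendental (IntermediateField.adjoin ℚ ((fun i => (z i : ℂ)) '' A))
      (z i : ℂ) := h2.extendScalars _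
  rw [mem_KS]
  exact h3

theorem exp_log_mem_KS {x : ℝ} (hx : 0 < x) (h : (x : ℂ) ∈ KS z A) :
    exp ((Real.log x : ℝ) : ℂ) ∈ KS z A := by
  rw [← ofReal_exp, Real.exp_log hx]
  exact h

/-- The space `Γ` has the defect `s` and coordinates algebraic over the field of the `z i`,
`i ∈ A`. -/
structure Tow (z : Fin n → ℝ) (A : Set (Fin n)) (Γ : Submodule ℚ (ℂ × ℂ)) (s : ℕ) : Prop where
  dfc : Dfc ⊥ Γ s
  sub : coords Γ ⊆ KS z A

theorem Tow.nil (z : Fin n → ℝ) : Tow z ∅ ⊥ 0 := by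
  refine ⟨Dfc.bot ⊥, ?_⟩
  rintro u ⟨a, ha, hu⟩
  rw [Submodule.mem_bot] at ha
  subst ha
  rcases hu with rfl | rfl
  · exact zero_mem _
  · rw [Prod.snd_zero, exp_zero]
    exact one_mem _

theorem coords_sup {K : IntermediateField ℚ ℂ} (hK : Acl K) {Γ : Submodule ℚ (ℂ × ℂ)}
    (hc : coords Γ ⊆ K) {γ : ℂ × ℂ} (h1 : γ.1 ∈ K) (h2 : exp γ.2 ∈ K) :
    coords (Γ ⊔ Submodule.span ℚ {γ}) ⊆ K := by
  rintro u ⟨a, ha, hu⟩
  obtain ⟨x, hx, y, hy, rfl⟩ := Submodule.mem_sup.1 ha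
  obtain ⟨c, rfl⟩ := Submodule.mem_span_singleton.1 hy
  have h3 : (x + c • γ).1 = x.1 + (c : ℂ) * γ.1 := by
    rw [Prod.fst_add, Prod.smul_fst, Rat.smul_def]
  have h4 : exp (x + c • γ).2 = exp x.2 * exp ((c : ℂ) * γ.2) := by
    rw [Prod.snd_add, Prod.smul_snd, Rat.smul_def, exp_add]
  have hq : (c : ℂ) ∈ K := by
    have h := K.algebraMap_mem c
    rwa [eq_ratCast] at h
  rcases hu with rfl | rfl
  · rw [h3]
    exact add_mem (hc ⟨x, hx, Or.inl rfl⟩) (mul_mem hq h1)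
  · rw [h4]
    refine mul_mem (hc ⟨x, hx, Or.inr rfl⟩) (hK _ ?_)
    exact alg_exp_rat (F := K) (isAlgebraic_algebraMap (⟨exp γ.2, h2⟩ : K)) c

theorem Tow.good {A' : Set (Fin n)} {Γ : Submodule ℚ (ℂ × ℂ)} {s : ℕ} (h : Tow z A Γ s)
    (hA : A ⊆ A') (γ : ℂ × ℂ) (hγ : γ.1 ∉ KS z A ∨ exp γ.2 ∉ KS z A) (h1 : γ.1 ∈ KS z A')
    (h2 : exp γ.2 ∈ KS z A') : Tow z A' (Γ ⊔ Submodule.span ℚ {γ}) s :=
  ⟨h.dfc.step bot_le h.sub (step_pair (acl_KS z A) h.sub γ hγ),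
    coords_sup (acl_KS z A') (h.sub.trans (KS_mono hA)) h1 h2⟩

theorem Tow.bad {Γ : Submodule ℚ (ℂ × ℂ)} {s : ℕ} (h : Tow z A Γ s) (γ : ℂ × ℂ)
    (h1 : γ.1 ∈ KS z A) (h2 : exp γ.2 ∈ KS z A) : Tow z A (Γ ⊔ Submodule.span ℚ {γ}) (s + 1) :=
  ⟨h.dfc.bad γ, coords_sup (acl_KS z A) h.sub h1 h2⟩

theorem Dfc.mono {K : IntermediateField ℚ ℂ} {Γ Γ' : Submodule ℚ (ℂ × ℂ)} {s : ℕ}
    (h : Dfc K Γ s) (hΓ : Γ' ≤ Γ) : Dfc K Γ' s := fun X hX hf => h X (hX.trans hΓ) hf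

/-- The real pairs. -/
def ιR : ℝ × ℝ →ₗ[ℚ] ℂ × ℂ where
  toFun x := ((x.1 : ℂ), (x.2 : ℂ))
  map_add' x y := by simp
  map_smul' c x := by
    rw [Prod.smul_fst, Prod.smul_snd, Rat.smul_def, Rat.smul_def, ofReal_mul, ofReal_mul,
      ofReal_ratCast, Prod.smul_mk, Rat.smul_def, Rat.smul_def]
    rfl

/-- The imaginary pairs. -/
def ιI : ℝ × ℝ →ₗ[ℚ] ℂ × ℂ where
  toFun x := ((x.1 : ℂ) * I, (x.2 : ℂ) * I)
  map_add' x y := by
    rw [Prod.fst_add, Prod.snd_add, ofReal_add, ofReal_add, add_mul, add_mul, Prod.mk_add_mk]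
  map_smul' c x := by
    rw [Prod.smul_fst, Prod.smul_snd, Rat.smul_def, Rat.smul_def, ofReal_mul, ofReal_mul,
      ofReal_ratCast, Prod.smul_mk, Rat.smul_def, Rat.smul_def, mul_assoc, mul_assoc]
    rfl

theorem cx_eq (a : ℂ × ℂ) : a = ιR (a.1.re, a.2.re) + ιI (a.1.im, a.2.im) := by
  refine Prod.ext ?_ ?_
  · exact (re_add_im a.1).symm
  · exact (re_add_im a.2).symm

variable {ν χ : Type} {e p : ℝ} {v w : ν → ℝ} {X Y : χ → ℝ}

theorem base_le {Γ : Submodule ℚ (ℂ × ℂ)} (hp : ((p : ℂ) * I, (Real.pi : ℂ) * I) ∈ Γ)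
    (h1 : ((1 : ℂ), ((Real.log e : ℝ) : ℂ)) ∈ Γ) (hv : ∀ i, ((v i : ℂ), (w i : ℂ)) ∈ Γ)
    (hX : ∀ j, ((X j : ℂ), (Y j : ℂ)) ∈ Γ) : base e p v w X Y ≤ Γ := by
  have hG : baseG e v w X Y ≤ Γ.comap ιR := by
    rw [baseG, Submodule.span_le]
    rintro a ((ha | ⟨i, rfl⟩) | ⟨j, rfl⟩)
    · rw [Set.mem_singleton_iff] at ha
      subst ha
      change (((1 : ℝ) : ℂ), ((Real.log e : ℝ) : ℂ)) ∈ Γ
      rw [ofReal_one]
      exact h1
    · exact hv i
    · exact hX j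
  have hH : baseH p ≤ Γ.comap ιI := by
    rw [baseH, Submodule.span_le]
    intro a ha
    rw [Set.mem_singleton_iff] at ha
    subst ha
    exact hp
  intro a ha
  rw [cx_eq a]
  exact add_mem (hG ha.1) (hH ha.2)

theorem one_mem_base : ((1 : ℂ), ((Real.log e : ℝ) : ℂ)) ∈ base e p v w X Y := by
  refine ⟨?_, ?_⟩
  · rw [one_re, ofReal_re]
    exact Submodule.subset_span (Or.inl (Or.inl rfl))
  · rw [one_im, ofReal_im]
    exact (baseH p).zero_mem

theorem v_mem_base (i : ν) : ((v i : ℂ), (w i : ℂ)) ∈ base e p v w X Y := by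
  refine ⟨?_, ?_⟩
  · rw [ofReal_re, ofReal_re]
    exact Submodule.subset_span (Or.inl (Or.inr ⟨i, rfl⟩))
  · rw [ofReal_im, ofReal_im]
    exact (baseH p).zero_mem

theorem X_mem_base (j : χ) : ((X j : ℂ), (Y j : ℂ)) ∈ base e p v w X Y := by
  refine ⟨?_, ?_⟩
  · rw [ofReal_re, ofReal_re]
    exact Submodule.subset_span (Or.inr ⟨j, rfl⟩)
  · rw [ofReal_im, ofReal_im]
    exact (baseH p).zero_mem

theorem p_mem_base : ((p : ℂ) * I, (Real.pi : ℂ) * I) ∈ base e p v w X Y := by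
  refine ⟨?_, ?_⟩
  · simp only [mul_re, ofReal_re, I_re, ofReal_im, I_im, mul_zero, zero_mul, sub_zero]
    exact (baseG e v w X Y).zero_mem
  · simp only [mul_im, ofReal_re, I_re, ofReal_im, I_im, mul_zero, mul_one, add_zero]
    exact Submodule.subset_span rfl

/-- The first coordinates of the base space. -/
theorem base_map_fst (e p : ℝ) (v w : ν → ℝ) (X Y : χ → ℝ) :
    (base e p v w X Y).map (LinearMap.fst ℚ ℂ ℂ) =
      Submodule.span ℚ (({1, (p : ℂ) * I} ∪ Set.range (fun i => (v i : ℂ))) ∪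
        Set.range (fun j => (X j : ℂ))) := by
  refine le_antisymm ?_ ?_
  · rw [Submodule.map_le_iff_le_comap]
    refine base_le ?_ ?_ (fun i => ?_) fun j => ?_
    · exact Submodule.subset_span (Or.inl (Or.inl (Or.inr rfl)))
    · exact Submodule.subset_span (Or.inl (Or.inl (Or.inl rfl)))
    · exact Submodule.subset_span (Or.inl (Or.inr ⟨i, rfl⟩))
    · exact Submodule.subset_span (Or.inr ⟨j, rfl⟩)
  · rw [Submodule.span_le]
    rintro a (((ha | ha) | ⟨i, rfl⟩) | ⟨j, rfl⟩)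
    · exact ⟨_, one_mem_base, ha.symm⟩
    · exact ⟨_, p_mem_base, (Set.mem_singleton_iff.1 ha).symm⟩
    · exact ⟨_, v_mem_base i, rfl⟩
    · exact ⟨_, X_mem_base j, rfl⟩

end Pool.Agent.Pat6
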